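import Pool.Agent.MUG.Leib

/-!
# Iterated functors, symmetrizers, iterates of a Leibniz family (helper22)

`F : A ⥤ A` is `V ⊗ -` in the applications and `τ Y : F F Y ⟶ F F Y` is the braiding of the first
two strands.
-/

open CategoryTheory MonoidalCategory Limits Abelian

universe w v u

namespace Pool.Agent.MUP

open Pool.Agent.MUG

section Sym

variable {A : Type u} [Category.{v} A] (F : A ⥤ A)

/-- `F^n Y`; the first strand is the outermost one. -/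
def pw : ℕ → A → A
  | 0, Y => Y
  | n + 1, Y => F.obj (pw n Y)

/-- `F^n f`. -/
def pwMap : ∀ (n : ℕ) {Y Y' : A}, (Y ⟶ Y') → (pw F n Y ⟶ pw F n Y')
  | 0, _, _, f => f
  | n + 1, _, _, f => F.map (pwMap n f)

variable {F}

/-- `t^n : F^n Y ⟶ Y`, the iterates of `d : F Y ⟶ Y`. -/
def tt (d : ∀ Y : A, F.obj Y ⟶ Y) : ∀ (n : ℕ) (Y : A), pw F n Y ⟶ Y
  | 0, Y => 𝟙 Y
  | n + 1, Y => F.map (tt d n Y) ≫ d Y

/-- The composites `F^n Y ⟶ G^n Y` of `j : F Y ⟶ G Y`. -/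
def jj {G : A ⥤ A} (j : ∀ Y : A, F.obj Y ⟶ G.obj Y) : ∀ (n : ℕ) (Y : A), pw F n Y ⟶ pw G n Y
  | 0, Y => 𝟙 Y
  | n + 1, Y => F.map (jj j n Y) ≫ j (pw G n Y)

variable [Preadditive A] (τ : ∀ Y : A, F.obj (F.obj Y) ⟶ F.obj (F.obj Y)) (q : ℤ)

/-- `a_{n+1} = ∑ q^i (move the first strand to the place i+1)` on `F^{n+1} Y`. -/
def aa : ∀ (n : ℕ) (Y : A), pw F (n + 1) Y ⟶ pw F (n + 1) Y
  | 0, Y => 𝟙 (F.obj Y)
  | n + 1, Y => 𝟙 (pw F (n + 2) Y) +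
      q • ((τ (pw F n Y) ≫ F.map (aa n Y) : pw F (n + 2) Y ⟶ pw F (n + 2) Y))

/-- `b_{n+1} = ∑ q^i (move the strand i+1 to the first place)` on `F^{n+1} Y`. -/
def bb : ∀ (n : ℕ) (Y : A), pw F (n + 1) Y ⟶ pw F (n + 1) Y
  | 0, Y => 𝟙 (F.obj Y)
  | n + 1, Y => 𝟙 (pw F (n + 2) Y) +
      q • ((F.map (bb n Y) ≫ τ (pw F n Y) : pw F (n + 2) Y ⟶ pw F (n + 2) Y))

/-- The (anti)symmetrizer on `F^n Y`. -/
def ss : ∀ (n : ℕ) (Y : A), pw F n Y ⟶ pw F n Y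
  | 0, Y => 𝟙 Y
  | n + 1, Y => F.map (ss n Y) ≫ aa τ q n Y

end Sym

section Prod

variable {A : Type u} [Category.{v} A] [Abelian A] [HasExt.{w} A]

/-- The product `e · F e · F² e ⋯` of the classes of `S, F S, F² S, …`. -/
noncomputable def prodP (F : A ⥤ A) [F.Additive] [PreservesFiniteLimits F]
    [PreservesFiniteColimits F] {M Y : A} (a : F.obj M ⟶ Y) (p : Y ⟶ M) (w : a ≫ p = 0)
    (hS : (ShortComplex.mk a p w).ShortExact) : ∀ n : ℕ, Ext M (pw F n M) n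
  | 0 => Ext.mk₀ (𝟙 M)
  | n + 1 => hS.extClass.comp ((prodP F a p w hS n).mapExactFunctor F) (add_comm 1 n)

end Prod

section Monoidal

variable {C : Type u} [Category.{v} C] [Abelian C] [MonoidalCategory C] [BraidedCategory C]

/-- `V ⊗ (W ⊗ Y) ⟶ W ⊗ (V ⊗ Y)`, natural in `Y`. -/
def swp (V W : C) (Y : C) : V ⊗ (W ⊗ Y) ⟶ W ⊗ (V ⊗ Y) :=
  (α_ V W Y).inv ≫ ((β_ V W).hom ▷ Y) ≫ (α_ W V Y).hom

/-- The family `L` commutes with itself. -/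
def LComm {V : C} (L : Leib V) : Prop :=
  ∀ Y, swp V V Y ≫ (V ◁ L.d Y) ≫ L.d Y = (V ◁ L.d Y) ≫ L.d Y

/-- `SY_n` (`q = 1`) and `AS_n` (`q = -1`) on `V ⊗ (V ⊗ ⋯ ⊗ Y)`. -/
def sv [MonoidalPreadditive C] (V : C) (q : ℤ) (n : ℕ) (Y : C) :
    pw (tensorLeft V) n Y ⟶ pw (tensorLeft V) n Y :=
  ss (F := tensorLeft V) (swp V V) q n Y

/-- All epimorphisms out of objects of `F` split: `F` is semisimple. -/
def Semisimp (F : ObjectProperty C) : Prop :=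
  ∀ ⦃X Y : C⦄ (f : X ⟶ Y), F X → Epi f → ∃ s, s ≫ f = 𝟙 Y

end Monoidal

end Pool.Agent.MUP
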