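import Pool.Agent.MUP.TF

/-! # Row EMB (helper22) -/

open CategoryTheory MonoidalCategory Limits Abelian

universe w v u

namespace Pool.Agent.MUP

open Pool.Agent.MUG

section Swp

variable {C : Type u} [Category.{v} C] [MonoidalCategory C] [BraidedCategory C]

theorem swp_eq (V W Y : C) : swp V W Y =
    (α_ V W Y).inv ≫ ((β_ V W).hom ▷ Y) ≫ (α_ W V Y).hom := rfl

theorem swp_nat (V W : C) {Y Y' : C} (f : Y ⟶ Y') :
    (V ◁ (W ◁ f)) ≫ swp V W Y' = swp V W Y ≫ (W ◁ (V ◁ f)) := by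
  simp only [swp_eq, Category.assoc]
  have e1 : (V ◁ (W ◁ f)) ≫ (α_ V W Y').inv = (α_ V W Y).inv ≫ ((V ⊗ W) ◁ f) := by simp
  have e2 : (α_ W V Y).hom ≫ (W ◁ (V ◁ f)) = ((W ⊗ V) ◁ f) ≫ (α_ W V Y').hom := by simp
  rw [reassoc_of% e1, e2, whisker_exchange_assoc]

theorem swp_nat_left {V W V' : C} (f : V ⟶ V') (Y : C) :
    (f ▷ (W ⊗ Y)) ≫ swp V' W Y = swp V W Y ≫ (W ◁ (f ▷ Y)) := by
  simp only [swp_eq, Category.assoc]
  have e1 : (f ▷ (W ⊗ Y)) ≫ (α_ V' W Y).inv = (α_ V W Y).inv ≫ ((f ▷ W) ▷ Y) := by simp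
  have e2 : (α_ W V Y).hom ≫ (W ◁ (f ▷ Y)) = ((W ◁ f) ▷ Y) ≫ (α_ W V' Y).hom := by simp
  rw [reassoc_of% e1, e2, ← comp_whiskerRight_assoc, ← comp_whiskerRight_assoc,
    BraidedCategory.braiding_naturality_left]

theorem swp_nat_mid (V : C) {W W' : C} (f : W ⟶ W') (Y : C) :
    (V ◁ (f ▷ Y)) ≫ swp V W' Y = swp V W Y ≫ (f ▷ (V ⊗ Y)) := by
  simp only [swp_eq, Category.assoc]
  have e1 : (V ◁ (f ▷ Y)) ≫ (α_ V W' Y).inv = (α_ V W Y).inv ≫ ((V ◁ f) ▷ Y) := by simp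
  have e2 : (α_ W V Y).hom ≫ (f ▷ (V ⊗ Y)) = ((f ▷ V) ▷ Y) ≫ (α_ W' V Y).hom := by simp
  rw [reassoc_of% e1, e2, ← comp_whiskerRight_assoc, ← comp_whiskerRight_assoc,
    BraidedCategory.braiding_naturality_right]

theorem swp_unit (V Y : C) : swp V (𝟙_ C) Y ≫ (λ_ (V ⊗ Y)).hom = V ◁ (λ_ Y).hom := by
  simp only [swp_eq, Category.assoc]
  rw [leftUnitor_tensor_hom]
  simp only [Iso.hom_inv_id_assoc]
  rw [← comp_whiskerRight, braiding_leftUnitor]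
  simp

theorem swp_unit' (W Y : C) : swp (𝟙_ C) W Y ≫ (W ◁ (λ_ Y).hom) = (λ_ (W ⊗ Y)).hom := by
  simp only [swp_eq, Category.assoc]
  rw [triangle, ← comp_whiskerRight, braiding_rightUnitor]
  simp

instance swp_iso (V W Y : C) : IsIso (swp V W Y) := by
  rw [swp_eq]; infer_instance

end Swp

section EmbC

variable {C : Type u} [Category.{v} C] [Abelian C] [MonoidalCategory C] [MonoidalPreadditive C]
  [BraidedCategory C]

/-- `X ⊗ Y ⟶ Y` for `e : X ⟶ 𝟙`. -/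
def epsT {X : C} (e : X ⟶ 𝟙_ C) (Y : C) : X ⊗ Y ⟶ Y := (e ▷ Y) ≫ (λ_ Y).hom

/-- `X^m ⊗ Y ⟶ Y`. -/
def ee {X : C} (e : X ⟶ 𝟙_ C) (m : ℕ) (Y : C) : pw (tensorLeft X) m Y ⟶ Y :=
  tt (F := tensorLeft X) (fun Y => (e ▷ Y) ≫ (λ_ Y).hom) m Y

theorem epsT_nat {X : C} (e : X ⟶ 𝟙_ C) {Y Y' : C} (f : Y ⟶ Y') :
    (X ◁ f) ≫ (e ▷ Y') ≫ (λ_ Y').hom = ((e ▷ Y) ≫ (λ_ Y).hom) ≫ f := by
  rw [whisker_exchange_assoc, Category.assoc, leftUnitor_naturality]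

theorem leib_X {V X : C} (L : Leib V) (j : V ⟶ X) (e : X ⟶ 𝟙_ C)
    (hd : L.d X = (V ◁ e) ≫ (ρ_ V).hom ≫ j) (Y : C) :
    L.d (X ⊗ Y) = (V ◁ ((e ▷ Y) ≫ (λ_ Y).hom)) ≫ (j ▷ Y) + swp V X Y ≫ (X ◁ L.d Y) := by
  rw [L.leib, hd, swp_eq]
  congr 1
  · rw [comp_whiskerRight, comp_whiskerRight, whiskerLeft_comp, Category.assoc]
    have e1 : (α_ V X Y).inv ≫ ((V ◁ e) ▷ Y) = (V ◁ (e ▷ Y)) ≫ (α_ V (𝟙_ C) Y).inv := by simp
    rw [reassoc_of% e1]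
    have e2 : (α_ V (𝟙_ C) Y).inv ≫ ((ρ_ V).hom ▷ Y) = V ◁ (λ_ Y).hom := by simp
    rw [reassoc_of% e2]
  · simp only [Category.assoc]

theorem j_eps {V X : C} (j : V ⟶ X) (e : X ⟶ 𝟙_ C) (w : j ≫ e = 0) (Y : C) :
    (j ▷ Y) ≫ (e ▷ Y) ≫ (λ_ Y).hom = 0 := by
  rw [← comp_whiskerRight_assoc, w, MonoidalPreadditive.zero_whiskerRight, zero_comp]

theorem chi_eps (V : C) {X : C} (e : X ⟶ 𝟙_ C) (Y : C) :
    swp V X Y ≫ (e ▷ (V ⊗ Y)) ≫ (λ_ (V ⊗ Y)).hom = V ◁ ((e ▷ Y) ≫ (λ_ Y).hom) := by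
  rw [← Category.assoc, ← swp_nat_mid, Category.assoc, swp_unit, whiskerLeft_comp]

end EmbC

section Emb

variable {k : Type*} [Field k] {C : Type u} [Category.{v} C] [Abelian C] [Linear k C]
  [MonoidalCategory C] [MonoidalPreadditive C] [MonoidalLinear k C] [RigidCategory C]
  [BraidedCategory C]

theorem leib_coker {V : C} (L : Leib V) (P : C) : L.d (cokernel (L.d P)) = 0 := by
  have h1 := L.nat (cokernel.π (L.d P))
  rw [cokernel.condition] at h1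
  have : Epi (V ◁ cokernel.π (L.d P)) :=
    inferInstanceAs (Epi ((tensorLeft V).map (cokernel.π (L.d P))))
  rwa [← cancel_epi (V ◁ cokernel.π (L.d P)), comp_zero]

/-- Row EMB, for a single object. -/
theorem emb' [CharZero k] {V : C} (L : Leib V) (hL : LComm L) {X : C} (j : V ⟶ X)
    (e : X ⟶ 𝟙_ C) (w : j ≫ e = 0) (hS : (ShortComplex.mk j e w).ShortExact)
    (hd : L.d X = (V ◁ e) ≫ (ρ_ V).hom ≫ j) (m : ℕ) {P : C}
    (hn : tt (F := tensorLeft V) L.d (m + 1) P = 0)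
    (u : P ⟶ pw (tensorLeft X) m (cokernel (L.d P)))
    (hu : u ≫ ee e m (cokernel (L.d P)) = cokernel.π (L.d P)) : Mono u := by
  have hmj : Mono j := hS.mono_f
  have hjm : ∀ Y, Mono (j ▷ Y) := fun Y => inferInstanceAs (Mono ((tensorRight Y).map j))
  exact emb_gen (k := k) (F := tensorLeft V) (G := tensorLeft X) (τ := swp V V) (χ := swp V X)
    (d := L.d) (j := fun Y => j ▷ Y) (ε := fun Y => (e ▷ Y) ≫ (λ_ Y).hom)
    (fun f => swp_nat V V f) (fun f => swp_nat V X f) (fun f => L.nat f)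
    (fun f => whisker_exchange j f) (fun f => epsT_nat e f) (fun Y => leib_X L j e hd Y)
    (fun Y => j_eps j e w Y) (fun Y => swp_nat_mid V j Y) (fun Y => chi_eps V e Y)
    (fun Y => hL Y) hjm m hn (cokernel.π (L.d P)) (leib_coker L P) (cokernel.condition _)
    (ShortComplex.exact_cokernel (L.d P)) u hu

/-- Row EMB. -/
theorem emb [CharZero k] {V : C} (L : Leib V) (hL : LComm L) {X : C} (j : V ⟶ X)
    (e : X ⟶ 𝟙_ C) (w : j ≫ e = 0) (hS : (ShortComplex.mk j e w).ShortExact)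
    (hd : L.d X = (V ◁ e) ≫ (ρ_ V).hom ≫ j) (m : ℕ)
    (hn : ∀ Y, tt (F := tensorLeft V) L.d (m + 1) Y = 0) {P : C}
    (u : P ⟶ pw (tensorLeft X) m (cokernel (L.d P)))
    (hu : u ≫ ee e m (cokernel (L.d P)) = cokernel.π (L.d P)) : Mono u :=
  emb' (k := k) L hL j e w hS hd m (hn P) u hu

theorem epi_ee {X : C} (e : X ⟶ 𝟙_ C) [Epi e] (m : ℕ) (Y : C) : Epi (ee e m Y) := by
  refine epi_tt (G := tensorLeft X) _ (fun Y => ?_) m Y
  have : Epi (e ▷ Y) := inferInstanceAs (Epi ((tensorRight Y).map e))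
  exact epi_comp _ _

/-- Row PP: every projective is a subobject of `X^m ⊗ P/dP`. -/
theorem exists_mono_tensor [CharZero k] (hC : IsFinite k C) {V : C} (L : Leib V) (hL : LComm L)
    (hn : ∃ m, ∀ Y, tt (F := tensorLeft V) L.d m Y = 0) {X : C} (j : V ⟶ X)
    (e : X ⟶ 𝟙_ C) (w : j ≫ e = 0) (hS : (ShortComplex.mk j e w).ShortExact)
    (hd : L.d X = (V ◁ e) ≫ (ρ_ V).hom ≫ j) :
    ∃ m : ℕ, ∀ P : C, Projective P →
      ∃ u : P ⟶ pw (tensorLeft X) m (cokernel (L.d P)), Mono u := by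
  obtain ⟨m, hm⟩ := hn
  have he : Epi e := hS.epi_g
  refine ⟨m, fun P hP => ?_⟩
  have hepi : Epi (ee e m (cokernel (L.d P))) := epi_ee e m _
  have hn' : ∀ Y, tt (F := tensorLeft V) L.d (m + 1) Y = 0 := fun Y =>
    step_tt_zero (F := tensorLeft V) (hm Y)
  exact ⟨Projective.factorThru (cokernel.π (L.d P)) (ee e m (cokernel (L.d P))),
    emb (k := k) L hL j e w hS hd m hn' _ (Projective.factorThru_comp _ _)⟩

end Emb

end Pool.Agent.MUP
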