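import Pool.Agent.MUP.Defs
import Pool.Agent.MUG.P1

/-!
# Row LE: the Leibniz family of an extension commutes with itself (helper64)
-/

open CategoryTheory MonoidalCategory Limits Abelian

universe w v u

set_option linter.unusedSectionVars false

namespace Pool.Agent.MUP

open Pool.Agent.MUG

section LE0

variable {C : Type u} [Category.{v} C] [Abelian C] [MonoidalCategory C] [MonoidalPreadditive C]
  [BraidedCategory C]

/-- A Leibniz family vanishing on its own type commutes with itself. -/
theorem lcomm_of_self {V : C} (L : Leib V) (h : L.d V = 0) : LComm L := by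
  intro Y
  have h1 : L.d (V ⊗ Y) = swp V V Y ≫ (V ◁ L.d Y) := by
    rw [L.leib V Y, h, MonoidalPreadditive.zero_whiskerRight, comp_zero, zero_add]
    unfold swp
    simp only [Category.assoc]
  have h2 := L.nat (L.d Y)
  rw [h1, Category.assoc] at h2
  exact h2.symm

end LE0

section LE

variable {Z : Type u} [Category.{v} Z] [Abelian Z]
  [MonoidalCategory Z] [MonoidalPreadditive Z] [RigidCategory Z] [BraidedCategory Z]

/-- Row LE: `leib_of_ext` commutes with itself when `U` commutes with `V`. -/
theorem lcomm_of_ext (P : ObjectProperty Z) [hP : TensorSub P] {U b : Z} (i : 𝟙_ Z ⟶ U)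
    (p : U ⟶ b) (hi : Mono i) (hp : Epi p) (hPb : P b) (hUb : Comm U b)
    (L : Leib (⟨b, hPb⟩ : P.FullSubcategory))
    (hL : ∀ Y : P.FullSubcategory,
      dbr U Y.obj = (p ▷ Y.obj) ≫ (L.d Y).hom ≫ (λ_ Y.obj).inv ≫ (i ▷ Y.obj)) : LComm L :=
  lcomm_of_self L ((leib_eq_zero_iff P i p hi hp hPb L hL ⟨b, hPb⟩).2 hUb)

end LE

end Pool.Agent.MUP
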