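import Pool.Agent.MUP.PRIMe
import Pool.Agent.MUG.CF2

/-!
# PRIM, the final argument (helper53)
-/

open CategoryTheory MonoidalCategory Limits Abelian

universe w v u

namespace Pool.Agent.MUP

open Pool.Agent.MUG

section Fin

variable {k : Type*} [Field k] {C : Type u} [Category.{v} C] [Abelian C] [Linear k C]
  [MonoidalCategory C] [MonoidalPreadditive C] [MonoidalLinear k C] [RigidCategory C]
  [BraidedCategory C]

omit [Abelian C] [MonoidalPreadditive C] [RigidCategory C] [BraidedCategory C] in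
theorem prim_pwT_nat (V : C) (n : ℕ) {Y Y' : C} (f : Y ⟶ Y') :
    (pw (tensorLeft V) n (𝟙_ C) ◁ f) ≫ pwT V n Y' =
      pwT V n Y ≫ pwMap (tensorLeft V) n f := by
  induction n with
  | zero => exact leftUnitor_naturality f
  | succ n ih =>
    have e1 : ((V ⊗ pw (tensorLeft V) n (𝟙_ C)) ◁ f) ≫
        (α_ V (pw (tensorLeft V) n (𝟙_ C)) Y').hom =
        (α_ V (pw (tensorLeft V) n (𝟙_ C)) Y).hom ≫
          (V ◁ (pw (tensorLeft V) n (𝟙_ C) ◁ f)) := by simp
    show ((V ⊗ pw (tensorLeft V) n (𝟙_ C)) ◁ f) ≫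
      (α_ V (pw (tensorLeft V) n (𝟙_ C)) Y').hom ≫ (V ◁ pwT V n Y') =
      ((α_ V (pw (tensorLeft V) n (𝟙_ C)) Y).hom ≫ (V ◁ pwT V n Y)) ≫
        (V ◁ pwMap (tensorLeft V) n f)
    rw [reassoc_of% e1, ← whiskerLeft_comp, ih, whiskerLeft_comp, Category.assoc]

theorem prim_pwT_unit (V : C) (n : ℕ) :
    pwT V n (𝟙_ C) = (ρ_ (pw (tensorLeft V) n (𝟙_ C))).hom := by
  induction n with
  | zero => exact unitors_equal
  | succ n ih =>
    show (α_ V (pw (tensorLeft V) n (𝟙_ C)) (𝟙_ C)).hom ≫ (V ◁ pwT V n (𝟙_ C)) =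
      (ρ_ (V ⊗ pw (tensorLeft V) n (𝟙_ C))).hom
    rw [ih]
    simp

/-- A natural family `P ⊗ Y ⟶ Y` vanishing on a separator vanishes. -/
theorem prim_fam_eq_zero {P G : C} (hG : ∀ {V W : C} (g : V ⟶ W), (∀ f : G ⟶ V, f ≫ g = 0) → g = 0)
    (θ : ∀ Y : C, P ⊗ Y ⟶ Y) (hθ : ∀ {Y Y' : C} (f : Y ⟶ Y'), (P ◁ f) ≫ θ Y' = θ Y ≫ f)
    (h0 : θ G = 0) (Y : C) : θ Y = 0 := by
  have h1 : tensorLeftHomEquiv Y (ᘁP) P Y (θ Y) = 0 := by
    refine hG _ fun f => ?_
    have e2 : f ≫ tensorLeftHomEquiv Y (ᘁP) P Y (θ Y) =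
        tensorLeftHomEquiv G (ᘁP) P Y ((P ◁ f) ≫ θ Y) := by
      apply (tensorLeftHomEquiv G (ᘁP) P Y).symm.injective
      rw [tensorLeftHomEquiv_symm_naturality, Equiv.symm_apply_apply, Equiv.symm_apply_apply]
    rw [e2, hθ, h0, zero_comp]
    simp [tensorLeftHomEquiv]
  have h2 : tensorLeftHomEquiv Y (ᘁP) P Y (0 : P ⊗ Y ⟶ Y) = 0 := by
    simp [tensorLeftHomEquiv]
  exact (tensorLeftHomEquiv Y (ᘁP) P Y).injective (h1.trans h2.symm)

theorem prim_tt_nat {V : C} (L : Leib V) (n : ℕ) {Y Y' : C} (f : Y ⟶ Y') :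
    pwMap (tensorLeft V) n f ≫ tt (F := tensorLeft V) L.d n Y' =
      tt (F := tensorLeft V) L.d n Y ≫ f :=
  tt_nat (F := tensorLeft V) L.d (fun f => L.nat f) n f

/-- Row PRIM+ without `Transp`, `LComm`, `CharZero`. -/
theorem prim_plus' (hC : IsFinite k C) {V : C} [Simple V] (L : Leib V) (hne : L.Nonzero) :
    ∃ N, sv V 1 N (𝟙_ C) = 0 := by
  classical
  by_contra hcon
  push Not at hcon
  obtain ⟨G, -, hG⟩ := Gen.exists_separator hC.finCat
  have hs : ∀ n : ℕ, ∃ s : G ⟶ pw (tensorLeft V) n (𝟙_ C), s ≫ sv V 1 n (𝟙_ C) ≠ 0 := by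
    intro n
    by_contra hc
    push Not at hc
    exact hcon n (hG _ hc)
  choose s hs using hs
  let σ : ∀ (n : ℕ) (Y : C), G ⊗ Y ⟶ pw (tensorLeft V) n Y := fun n Y =>
    (s n ▷ Y) ≫ pwT V n Y
  have hσ : ∀ (n : ℕ) {Y Y' : C} (f : Y ⟶ Y'),
      (G ◁ f) ≫ σ n Y' = σ n Y ≫ pwMap (tensorLeft V) n f := by
    intro n Y Y' f
    show (G ◁ f) ≫ (s n ▷ Y') ≫ pwT V n Y' = ((s n ▷ Y) ≫ pwT V n Y) ≫ _
    rw [Category.assoc, ← prim_pwT_nat, whisker_exchange_assoc]
  haveI : Module.Finite k (G ⊗ G ⟶ G) := hC.hom_finite _ _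
  have hdep : ¬ LinearIndependent k
      (fun n : ℕ => (σ n G ≫ tt (F := tensorLeft V) L.d n G : G ⊗ G ⟶ G)) := by
    intro h
    exact absurd h.finite (by exact not_finite_iff_infinite.2 inferInstance)
  rw [linearIndependent_iff'] at hdep
  push Not at hdep
  obtain ⟨S, a, hsum, i0, hi0, hai0⟩ := hdep
  -- the largest index with a nonzero coefficient
  let S' := S.filter fun i => a i ≠ 0
  have hS' : S'.Nonempty := ⟨i0, Finset.mem_filter.2 ⟨hi0, hai0⟩⟩
  let M := S'.max' hS'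
  have hM : M ∈ S' := Finset.max'_mem _ _
  have haM : a M ≠ 0 := (Finset.mem_filter.1 hM).2
  let b : ℕ → k := fun i => if i ∈ S then a i else 0
  have hbM : b M ≠ 0 := by
    have : M ∈ S := (Finset.mem_filter.1 hM).1
    simp only [b, this, if_true]
    exact haM
  have hb : ∀ i, M < i → b i = 0 := by
    intro i hi
    by_contra hbi
    have h1 : i ∈ S := by
      by_contra h2
      exact hbi (by simp [b, h2])
    have h2 : a i ≠ 0 := by simpa [b, h1] using hbi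
    have h3 : i ≤ M := Finset.le_max' S' i (Finset.mem_filter.2 ⟨h1, h2⟩)
    omega
  have hsum' : ∑ i ∈ Finset.range (M + 1),
      b i • (σ i G ≫ tt (F := tensorLeft V) L.d i G) = 0 := by
    rw [← hsum]
    have e1 : ∑ i ∈ S, a i • (σ i G ≫ tt (F := tensorLeft V) L.d i G) =
        ∑ i ∈ S, b i • (σ i G ≫ tt (F := tensorLeft V) L.d i G) :=
      Finset.sum_congr rfl fun i hi => by simp [b, hi]
    rw [e1]
    have e2 : ∑ i ∈ S ∪ Finset.range (M + 1),
        b i • (σ i G ≫ tt (F := tensorLeft V) L.d i G) =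
        ∑ i ∈ S, b i • (σ i G ≫ tt (F := tensorLeft V) L.d i G) := by
      symm
      apply Finset.sum_subset Finset.subset_union_left
      intro i _ hi
      simp [b, hi]
    have e3 : ∑ i ∈ S ∪ Finset.range (M + 1),
        b i • (σ i G ≫ tt (F := tensorLeft V) L.d i G) =
        ∑ i ∈ Finset.range (M + 1), b i • (σ i G ≫ tt (F := tensorLeft V) L.d i G) := by
      symm
      apply Finset.sum_subset Finset.subset_union_right
      intro i _ hi
      rw [hb i (by rw [Finset.mem_range] at hi; omega), zero_smul]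
    rw [← e2, e3]
  have hall : ∀ Y : C, ∑ i ∈ Finset.range (M + 1),
      (b i • σ i Y) ≫ tt (F := tensorLeft V) L.d i Y = 0 := by
    refine prim_fam_eq_zero hG _ ?_ ?_
    · intro Y Y' f
      rw [Preadditive.comp_sum, Preadditive.sum_comp]
      refine Finset.sum_congr rfl fun i _ => ?_
      rw [Linear.smul_comp, Linear.comp_smul, Linear.smul_comp, Linear.smul_comp]
      congr 1
      have e4 : (G ◁ f) ≫ σ i Y' ≫ tt (F := tensorLeft V) L.d i Y' =
          σ i Y ≫ tt (F := tensorLeft V) L.d i Y ≫ f := by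
        rw [← Category.assoc, hσ, Category.assoc, prim_tt_nat]
      exact e4.trans (Category.assoc _ _ _).symm
    · rw [← hsum']
      refine Finset.sum_congr rfl fun i _ => ?_
      rw [Linear.smul_comp]
  have hfin := ind L hne M (SF.left G) SF.one (fun i Y => (b i • σ i Y : G ⊗ Y ⟶ _)) ?_ ?_ hall
    (𝟙_ C)
  · have hfin' : (b M • σ M (𝟙_ C)) ≫ sv V 1 M (𝟙_ C) = 0 := hfin
    rw [Linear.smul_comp] at hfin'
    have h1 : σ M (𝟙_ C) ≫ sv V 1 M (𝟙_ C) = 0 := by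
      rcases smul_eq_zero.1 hfin' with h | h
      · exact absurd h hbM
      · exact h
    apply hs M
    have h2 : σ M (𝟙_ C) = (ρ_ G).hom ≫ s M := by
      show (s M ▷ 𝟙_ C) ≫ pwT V M (𝟙_ C) = _
      rw [prim_pwT_unit, rightUnitor_naturality]
    rw [h2, Category.assoc] at h1
    exact (cancel_epi (ρ_ G).hom).1 (by rw [h1, comp_zero])
  · intro i Y Y' f
    show (G ◁ f) ≫ (b i • σ i Y') = (b i • σ i Y) ≫ pwMap (tensorLeft V) i f
    rw [Linear.comp_smul, Linear.smul_comp, hσ]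
  · intro i X Y
    show (b i • σ i (X ⊗ Y)) ≫ sg V X i Y ≫ 𝟙 _ = swp G X Y ≫ (X ◁ (b i • σ i Y))
    rw [Category.comp_id, Linear.smul_comp, MonoidalLinear.whiskerLeft_smul, Linear.comp_smul]
    congr 1
    show ((s i ▷ (X ⊗ Y)) ≫ pwT V i (X ⊗ Y)) ≫ sg V X i Y = _
    rw [Category.assoc, pwT_sg, ← Category.assoc, swp_nat_left, Category.assoc,
      ← whiskerLeft_comp]

/-- Row PRIM. -/
theorem prim_plus [IsAlgClosed k] [CharZero k] (hC : IsFinite k C) {V : C} [Simple V]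
    (ht : Transp V) (L : Leib V) (hL : LComm L) (hne : L.Nonzero) :
    ∃ N, sv V 1 N (𝟙_ C) = 0 := prim_plus' hC L hne

end Fin

end Pool.Agent.MUP
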