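import Pool.Agent.MUP.Defs

/-! Row PW (helper94): `V^n ⊗ Y ≅ V ⊗ (V ⊗ ⋯ ⊗ Y)` and the symmetrizers. -/

open CategoryTheory MonoidalCategory Limits Abelian

universe w v u

namespace Pool.Agent.MUP

open Pool.Agent.MUG

section PW

variable {C : Type u} [Category.{v} C] [Abelian C] [MonoidalCategory C] [BraidedCategory C]

/-- `V^n ⊗ Y ≅ V ⊗ (V ⊗ ⋯ ⊗ Y)`. -/
def pwT (V : C) : ∀ (n : ℕ) (Y : C), pw (tensorLeft V) n (𝟙_ C) ⊗ Y ⟶ pw (tensorLeft V) n Y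
  | 0, Y => (λ_ Y).hom
  | n + 1, Y => (α_ V (pw (tensorLeft V) n (𝟙_ C)) Y).hom ≫ (V ◁ pwT V n Y)

omit [Abelian C] [BraidedCategory C] in
theorem pwT_iso (V : C) : ∀ (n : ℕ) (Y : C), IsIso (pwT V n Y)
  | 0, Y => by
    change IsIso (λ_ Y).hom
    infer_instance
  | n + 1, Y => by
    have := pwT_iso V n Y
    change IsIso ((α_ V (pw (tensorLeft V) n (𝟙_ C)) Y).hom ≫ (V ◁ pwT V n Y))
    infer_instance

omit [Abelian C] in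
/-- The key naturality. -/
theorem swp_pwT (V P Y Y' : C) (f : P ⊗ Y ⟶ Y') :
    (swp V V P ▷ Y) ≫ (α_ V (V ⊗ P) Y).hom ≫ (V ◁ ((α_ V P Y).hom ≫ (V ◁ f))) =
      ((α_ V (V ⊗ P) Y).hom ≫ (V ◁ ((α_ V P Y).hom ≫ (V ◁ f)))) ≫ swp V V Y' := by
  have hnat : (V ◁ (V ◁ f)) ≫ swp V V Y' = swp V V (P ⊗ Y) ≫ (V ◁ (V ◁ f)) := by
    simp only [swp, Category.assoc]
    rw [associator_inv_naturality_right_assoc, whisker_exchange_assoc,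
      associator_naturality_right]
  have hkey : (swp V V P ▷ Y) ≫ (α_ V (V ⊗ P) Y).hom ≫ (V ◁ (α_ V P Y).hom) =
      (α_ V (V ⊗ P) Y).hom ≫ (V ◁ (α_ V P Y).hom) ≫ swp V V (P ⊗ Y) := by
    simp only [swp, comp_whiskerRight, Category.assoc]
    have h1 : (α_ V (V ⊗ P) Y).hom ≫ (V ◁ (α_ V P Y).hom) ≫ (α_ V V (P ⊗ Y)).inv =
        (α_ V V P).inv ▷ Y ≫ (α_ (V ⊗ V) P Y).hom := by
      monoidal
    rw [← Category.assoc (V ◁ (α_ V P Y).hom), ← Category.assoc (α_ V (V ⊗ P) Y).hom, h1]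
    simp only [Category.assoc]
    congr 1
    rw [← associator_naturality_left_assoc]
    congr 1
    monoidal
  rw [MonoidalCategory.whiskerLeft_comp]
  slice_lhs 1 3 => rw [hkey]
  simp only [Category.assoc]
  rw [hnat]

variable [MonoidalPreadditive C]

theorem aa_step (V P Q Y : C) (q : ℤ) (f : P ⊗ Y ⟶ Q) (a : V ⊗ P ⟶ V ⊗ P)
    (a' : V ⊗ Q ⟶ V ⊗ Q)
    (h : (a ▷ Y) ≫ (α_ V P Y).hom ≫ (V ◁ f) = ((α_ V P Y).hom ≫ (V ◁ f)) ≫ a') :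
    ((𝟙 (V ⊗ (V ⊗ P)) + q • (swp V V P ≫ (V ◁ a))) ▷ Y) ≫
        ((α_ V (V ⊗ P) Y).hom ≫ (V ◁ ((α_ V P Y).hom ≫ (V ◁ f)))) =
      ((α_ V (V ⊗ P) Y).hom ≫ (V ◁ ((α_ V P Y).hom ≫ (V ◁ f)))) ≫
        (𝟙 (V ⊗ (V ⊗ Q)) + q • (swp V V Q ≫ (V ◁ a'))) := by
  rw [MonoidalPreadditive.add_whiskerRight, Preadditive.add_comp, Preadditive.comp_add,
    id_whiskerRight, Category.id_comp, Category.comp_id]
  congr 1
  have hz : (q • (swp V V P ≫ (V ◁ a))) ▷ Y = q • ((swp V V P ≫ (V ◁ a)) ▷ Y) :=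
    map_zsmul ((tensorRight Y).mapAddHom) _ _
  rw [hz, Preadditive.zsmul_comp, Preadditive.comp_zsmul]
  congr 1
  rw [comp_whiskerRight, Category.assoc]
  have h2 : ((V ◁ a) ▷ Y) ≫ (α_ V (V ⊗ P) Y).hom ≫ (V ◁ ((α_ V P Y).hom ≫ (V ◁ f))) =
      (α_ V (V ⊗ P) Y).hom ≫ (V ◁ ((α_ V P Y).hom ≫ (V ◁ f))) ≫ (V ◁ a') := by
    rw [associator_naturality_middle_assoc, ← MonoidalCategory.whiskerLeft_comp,
      ← MonoidalCategory.whiskerLeft_comp, h]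
  rw [h2]
  have h3 := swp_pwT V P Y Q f
  rw [← Category.assoc (α_ V (V ⊗ P) Y).hom, ← Category.assoc (swp V V P ▷ Y), h3]
  simp only [Category.assoc]

theorem aa_pwT (V : C) (q : ℤ) : ∀ (n : ℕ) (Y : C),
    ((aa (F := tensorLeft V) (swp V V) q n (𝟙_ C) : V ⊗ pw (tensorLeft V) n (𝟙_ C) ⟶
        V ⊗ pw (tensorLeft V) n (𝟙_ C)) ▷ Y) ≫ pwT V (n + 1) Y =
      pwT V (n + 1) Y ≫ aa (F := tensorLeft V) (swp V V) q n Y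
  | 0, Y => by
    have h : 𝟙 (V ⊗ 𝟙_ C) ▷ Y = 𝟙 ((V ⊗ 𝟙_ C) ⊗ Y) := id_whiskerRight _ _
    exact ((congrArg (fun t => t ≫ pwT V 1 Y) h).trans (Category.id_comp _)).trans
      (Category.comp_id (pwT V 1 Y)).symm
  | n + 1, Y =>
    aa_step V (pw (tensorLeft V) n (𝟙_ C)) (pw (tensorLeft V) n Y) Y q (pwT V n Y)
      (aa (F := tensorLeft V) (swp V V) q n (𝟙_ C)) (aa (F := tensorLeft V) (swp V V) q n Y)
      (aa_pwT V q n Y)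

omit [Abelian C] [BraidedCategory C] [MonoidalPreadditive C] in
theorem sv_step (V P Q Y : C) (f : P ⊗ Y ⟶ Q) (s : P ⟶ P) (s' : Q ⟶ Q)
    (a : V ⊗ P ⟶ V ⊗ P) (a' : V ⊗ Q ⟶ V ⊗ Q)
    (h : (a ▷ Y) ≫ (α_ V P Y).hom ≫ (V ◁ f) = ((α_ V P Y).hom ≫ (V ◁ f)) ≫ a')
    (hs : (s ▷ Y) ≫ f = f ≫ s') :
    (((V ◁ s) ≫ a) ▷ Y) ≫ ((α_ V P Y).hom ≫ (V ◁ f)) =
      ((α_ V P Y).hom ≫ (V ◁ f)) ≫ (V ◁ s') ≫ a' := by
  rw [comp_whiskerRight, Category.assoc, h]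
  have h2 : ((V ◁ s) ▷ Y) ≫ (α_ V P Y).hom ≫ (V ◁ f) =
      (α_ V P Y).hom ≫ (V ◁ f) ≫ (V ◁ s') := by
    rw [associator_naturality_middle_assoc, ← MonoidalCategory.whiskerLeft_comp, hs,
      MonoidalCategory.whiskerLeft_comp]
  rw [← Category.assoc ((V ◁ s) ▷ Y), h2]
  simp only [Category.assoc]

theorem sv_pwT (V : C) (q : ℤ) : ∀ (n : ℕ) (Y : C),
    (sv V q n (𝟙_ C) ▷ Y) ≫ pwT V n Y = pwT V n Y ≫ sv V q n Y
  | 0, Y => by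
    have h : 𝟙 (𝟙_ C) ▷ Y = 𝟙 (𝟙_ C ⊗ Y) := id_whiskerRight _ _
    exact ((congrArg (fun t => t ≫ pwT V 0 Y) h).trans (Category.id_comp _)).trans
      (Category.comp_id (pwT V 0 Y)).symm
  | n + 1, Y =>
    sv_step V (pw (tensorLeft V) n (𝟙_ C)) (pw (tensorLeft V) n Y) Y (pwT V n Y)
      (sv V q n (𝟙_ C)) (sv V q n Y)
      (aa (F := tensorLeft V) (swp V V) q n (𝟙_ C)) (aa (F := tensorLeft V) (swp V V) q n Y)
      (aa_pwT V q n Y) (sv_pwT V q n Y)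

end PW

end Pool.Agent.MUP
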