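import Pool.Agent.MUP.Defs

/-!
# Rows S2 and S3: `s_{n+1} = b_{n+1} F(s_n)` and `s_n t^n = n! t^n` (helper8)
-/

open CategoryTheory MonoidalCategory Limits Abelian

universe w v u

namespace Pool.Agent.MUP

open Pool.Agent.MUG

section Sym

variable {A : Type u} [Category.{v} A] {F : A ⥤ A}
variable [Preadditive A] [F.Additive] (τ : ∀ Y : A, F.obj (F.obj Y) ⟶ F.obj (F.obj Y)) (q : ℤ)
  (hτ : ∀ {Y Y' : A} (f : Y ⟶ Y'), F.map (F.map f) ≫ τ Y' = τ Y ≫ F.map (F.map f))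

include hτ

/-- The step of S2, on plain objects. -/
theorem ss_succ_bb_step {P : A} (s : P ⟶ P) (a b s' : F.obj P ⟶ F.obj P)
    (h1 : s' = F.map s ≫ a) (h2 : s' = b ≫ F.map s) :
    F.map s' ≫ (𝟙 (F.obj (F.obj P)) + q • (τ P ≫ F.map a)) =
      (𝟙 (F.obj (F.obj P)) + q • (F.map b ≫ τ P)) ≫ F.map s' := by
  have h3 : F.map s' ≫ τ P ≫ F.map a = F.map b ≫ τ P ≫ F.map s' := by
    calc F.map s' ≫ τ P ≫ F.map a
        = F.map b ≫ (F.map (F.map s) ≫ τ P) ≫ F.map a := by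
          rw [h2, F.map_comp, Category.assoc, Category.assoc]
      _ = F.map b ≫ τ P ≫ F.map s' := by
          rw [hτ, h1, F.map_comp, Category.assoc]
  rw [Preadditive.comp_add, Preadditive.add_comp, Preadditive.comp_zsmul,
    Preadditive.zsmul_comp, Category.assoc, Category.comp_id, Category.id_comp, h3]

/-- Row S2: `s_{n+1} = b_{n+1} F(s_n)`. -/
theorem ss_succ_bb (n : ℕ) (Y : A) :
    ss τ q (n + 1) Y = bb τ q n Y ≫ F.map (ss τ q n Y) := by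
  induction n with
  | zero =>
    change F.map (𝟙 Y) ≫ 𝟙 (F.obj Y) = 𝟙 (F.obj Y) ≫ F.map (𝟙 Y)
    rw [Category.comp_id, Category.id_comp]
  | succ n ih =>
    exact ss_succ_bb_step (F := F) τ q hτ (P := pw F n Y) (ss τ q n Y) (aa τ q n Y) (bb τ q n Y)
      (ss τ q (n + 1) Y) rfl ih

/-- The step of `aa_tt`, on plain objects. -/
theorem aa_tt_step (d : ∀ Y : A, F.obj Y ⟶ Y)
    (hcomm : ∀ Y, τ Y ≫ F.map (d Y) ≫ d Y = F.map (d Y) ≫ d Y) {P Y : A} (a : F.obj P ⟶ F.obj P)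
    (t : P ⟶ Y) (m : ℤ) (h : a ≫ (F.map t ≫ d Y) = m • (F.map t ≫ d Y)) :
    (𝟙 (F.obj (F.obj P)) + (1 : ℤ) • (τ P ≫ F.map a)) ≫ (F.map (F.map t ≫ d Y) ≫ d Y) =
      (m + 1) • (F.map (F.map t ≫ d Y) ≫ d Y) := by
  have h3 : (τ P ≫ F.map a) ≫ (F.map (F.map t ≫ d Y) ≫ d Y) =
      m • (F.map (F.map t ≫ d Y) ≫ d Y) := by
    calc (τ P ≫ F.map a) ≫ (F.map (F.map t ≫ d Y) ≫ d Y)
        = τ P ≫ F.map (a ≫ (F.map t ≫ d Y)) ≫ d Y := by
          rw [F.map_comp a, Category.assoc, Category.assoc]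
      _ = m • ((τ P ≫ F.map (F.map t)) ≫ F.map (d Y) ≫ d Y) := by
          rw [h, F.map_zsmul, Preadditive.zsmul_comp, Preadditive.comp_zsmul, F.map_comp,
            Category.assoc, Category.assoc]
      _ = m • (F.map (F.map t ≫ d Y) ≫ d Y) := by
          rw [← hτ, Category.assoc, hcomm, F.map_comp, Category.assoc]
  rw [Preadditive.add_comp, one_smul, Category.id_comp, h3, add_smul, one_smul, add_comm]

theorem aa_tt (d : ∀ Y : A, F.obj Y ⟶ Y)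
    (hcomm : ∀ Y, τ Y ≫ F.map (d Y) ≫ d Y = F.map (d Y) ≫ d Y) (n : ℕ) (Y : A) :
    aa τ 1 n Y ≫ tt d (n + 1) Y = ((n : ℤ) + 1) • tt d (n + 1) Y := by
  induction n with
  | zero =>
    change 𝟙 (F.obj Y) ≫ (F.map (𝟙 Y) ≫ d Y) = (((0 : ℕ) : ℤ) + 1) • (F.map (𝟙 Y) ≫ d Y)
    rw [Category.id_comp, Nat.cast_zero, zero_add, one_smul]
  | succ n ih =>
    have h := aa_tt_step (F := F) τ hτ d hcomm (P := pw F n Y) (Y := Y) (aa τ 1 n Y) (tt d n Y)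
      ((n : ℤ) + 1) ih
    rw [Nat.cast_succ]
    exact h

/-- Row S3. -/
theorem ss_tt (d : ∀ Y : A, F.obj Y ⟶ Y)
    (hcomm : ∀ Y, τ Y ≫ F.map (d Y) ≫ d Y = F.map (d Y) ≫ d Y) (n : ℕ) (Y : A) :
    ss τ 1 n Y ≫ tt d n Y = (n.factorial : ℤ) • tt d n Y := by
  induction n with
  | zero =>
    change 𝟙 Y ≫ 𝟙 Y = ((Nat.factorial 0 : ℕ) : ℤ) • (𝟙 Y)
    rw [Category.id_comp, Nat.factorial_zero, Nat.cast_one, one_smul]
  | succ n ih =>
    have h1 := aa_tt (F := F) τ hτ d hcomm n Y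
    have key : ∀ {P : A} (s : P ⟶ P) (a : F.obj P ⟶ F.obj P) (t : P ⟶ Y) (c m : ℤ),
        s ≫ t = c • t → a ≫ (F.map t ≫ d Y) = m • (F.map t ≫ d Y) →
        (F.map s ≫ a) ≫ (F.map t ≫ d Y) = (m * c) • (F.map t ≫ d Y) := by
      intro P s a t c m hs ha
      rw [Category.assoc, ha, Preadditive.comp_zsmul, ← Category.assoc, ← F.map_comp, hs,
        F.map_zsmul, Preadditive.zsmul_comp, smul_smul]
    have h := key (P := pw F n Y) (ss τ 1 n Y) (aa τ 1 n Y) (tt d n Y) _ _ ih h1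
    rw [Nat.factorial_succ, Nat.cast_mul, Nat.cast_succ]
    exact h

end Sym

end Pool.Agent.MUP
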