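import Pool.Agent.MUP.S1
import Pool.Agent.MUP.S2
import Pool.Agent.MUP.PW
import Pool.Agent.MUP.PRIM

/-!
# Row NIL: the iterates of a self-commuting Leibniz family vanish (helper65)
-/

open CategoryTheory MonoidalCategory Limits Abelian

universe w v u

namespace Pool.Agent.MUP

open Pool.Agent.MUG

section Fin

variable {k : Type*} [Field k] {C : Type u} [Category.{v} C] [Abelian C] [Linear k C]
  [MonoidalCategory C] [MonoidalPreadditive C] [MonoidalLinear k C] [RigidCategory C]
  [BraidedCategory C]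

omit [MonoidalLinear k C] [RigidCategory C] in
/-- If the symmetrizer of `V^N` vanishes, then so does `t^N`. -/
theorem tt_eq_zero_of_sv [CharZero k] {V : C} (L : Leib V) (hL : LComm L) {N : ℕ}
    (hN : sv V 1 N (𝟙_ C) = 0) (Y : C) : tt (F := tensorLeft V) L.d N Y = 0 := by
  have hiso := pwT_iso V N Y
  have h1 : sv V 1 N Y = 0 := by
    rw [← cancel_epi (pwT V N Y), ← sv_pwT, hN, MonoidalPreadditive.zero_whiskerRight, zero_comp,
      comp_zero]
  have h2 := ss_tt (F := tensorLeft V) (swp V V) (fun f => by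
    change V ◁ V ◁ f ≫ swp V V _ = swp V V _ ≫ V ◁ V ◁ f
    simp only [swp, Category.assoc]
    rw [← associator_naturality_right, ← whisker_exchange_assoc,
      associator_inv_naturality_right_assoc]) L.d hL N Y
  change sv V 1 N Y ≫ _ = _ at h2
  rw [h1, zero_comp] at h2
  have h3 : ((N.factorial : ℤ) : k) • tt (F := tensorLeft V) L.d N Y = 0 := by
    rw [Int.cast_smul_eq_zsmul, ← h2]
  have h4 : ((N.factorial : ℤ) : k) ≠ 0 := by
    exact_mod_cast N.factorial_ne_zero
  exact (smul_eq_zero.1 h3).resolve_left h4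

/-- Row NIL without transparency: `t^m = 0`. -/
theorem nilp' [CharZero k] (hC : IsFinite k C) {V : C} [Simple V]
    (L : Leib V) (hL : LComm L) :
    ∃ m, ∀ Y, tt (F := tensorLeft V) L.d m Y = 0 := by
  by_cases hne : L.Nonzero
  · obtain ⟨N, hN⟩ := prim_plus' hC L hne
    exact ⟨N, tt_eq_zero_of_sv (k := k) L hL hN⟩
  · refine ⟨1, fun Y => ?_⟩
    have h1 : L.d Y = 0 := by
      by_contra h
      exact hne ⟨Y, h⟩
    change V ◁ 𝟙 Y ≫ L.d Y = 0
    rw [h1, comp_zero]

/-- Row NIL: `t^m = 0`. -/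
theorem nilp [IsAlgClosed k] [CharZero k] (hC : IsFinite k C) {V : C} [Simple V]
    (ht : Transp V) (L : Leib V) (hL : LComm L) :
    ∃ m, ∀ Y, tt (F := tensorLeft V) L.d m Y = 0 := nilp' hC L hL

end Fin

end Pool.Agent.MUP
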