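import Pool.Agent.MUP.NAK

/-!
# Row NIL2 (helper5)

If the iterates `t^m` of a Leibniz family vanish, then `d` vanishes on the simple objects and on
the objects of a semisimple tensor subcategory.
-/

open CategoryTheory MonoidalCategory Limits Abelian

universe w v u

namespace Pool.Agent.MUP

open Pool.Agent.MUG

section Fin

variable {k : Type*} [Field k] {C : Type u} [Category.{v} C] [Abelian C] [Linear k C]
  [MonoidalCategory C] [MonoidalPreadditive C] [MonoidalLinear k C] [RigidCategory C]
  [BraidedCategory C]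

/-- Row NIL2. -/
theorem leib_simple_of_nilp (hC : IsFinite k C) {V : C} (L : Leib V)
    (hn : ∃ m, ∀ Y, tt (F := tensorLeft V) L.d m Y = 0) (S : C) [Simple S] : L.d S = 0 := by
  by_contra h
  exact Simple.not_isZero S (isZero_of_epi_nilp L hn (epi_of_nonzero_to_simple h))

theorem leib_semisimp_of_nilp (hC : IsFinite k C) {V : C} (L : Leib V)
    (hn : ∃ m, ∀ Y, tt (F := tensorLeft V) L.d m Y = 0) (F : ObjectProperty C) [TensorSub F]
    (hss : Semisimp F) (S : C) (hS : F S) : L.d S = 0 := by
  -- the image of `d_S` is a direct summand of `S`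
  obtain ⟨s, hs⟩ := hss (cokernel.π (Limits.image.ι (L.d S))) hS inferInstance
  have h0 : (𝟙 S - cokernel.π (Limits.image.ι (L.d S)) ≫ s) ≫
      cokernel.π (Limits.image.ι (L.d S)) = 0 := by
    rw [Preadditive.sub_comp, Category.assoc, hs, Category.id_comp, Category.comp_id, sub_self]
  obtain ⟨r, hr⟩ : ∃ r : S ⟶ Limits.image (L.d S),
      r ≫ Limits.image.ι (L.d S) = 𝟙 S - cokernel.π (Limits.image.ι (L.d S)) ≫ s :=
    ⟨monoLift (Limits.image.ι (L.d S)) _ h0, monoLift_comp _ _ _⟩
  have h1 : Limits.image.ι (L.d S) ≫ r = 𝟙 _ := by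
    rw [← cancel_mono (Limits.image.ι (L.d S)), Category.assoc, hr, Preadditive.comp_sub,
      ← Category.assoc, cokernel.condition, zero_comp, sub_zero, Category.comp_id,
      Category.id_comp]
  have h2 : (V ◁ r) ≫ L.d (Limits.image (L.d S)) = Limits.factorThruImage (L.d S) := by
    have h6 : (Limits.factorThruImage (L.d S) ≫ Limits.image.ι (L.d S)) ≫ r =
        Limits.factorThruImage (L.d S) := by rw [Category.assoc, h1, Category.comp_id]
    rw [Limits.image.fac] at h6
    rw [L.nat, h6]
  have h3 : Epi (L.d (Limits.image (L.d S))) := by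
    have h4 : Epi ((V ◁ r) ≫ L.d (Limits.image (L.d S))) := by rw [h2]; infer_instance
    exact epi_of_epi (V ◁ r) _
  have h5 := isZero_of_epi_nilp L hn h3
  have h7 := Limits.image.fac (L.d S)
  rw [h5.eq_of_src (Limits.image.ι (L.d S)) 0, comp_zero] at h7
  exact h7.symm

end Fin

end Pool.Agent.MUP
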