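import Pool.Agent.MUP.TR0
import Pool.Agent.MUG.SS5

/-!
# Row TR (helper79): traces
-/

open CategoryTheory MonoidalCategory Limits Abelian

universe w v u

set_option linter.unusedSectionVars false

namespace Pool.Agent.MUP

open Pool.Agent.MUG Pool.Agent.MUE79

section Fin

variable {k : Type*} [Field k] {C : Type u} [Category.{v} C] [Abelian C] [Linear k C]
  [MonoidalCategory C] [MonoidalPreadditive C] [MonoidalLinear k C] [RigidCategory C]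
  [BraidedCategory C]

/-- the cup -/
def cupL (V D : C) [ExactPairing V D] (Y : C) : Y ⟶ D ⊗ (V ⊗ Y) :=
  (λ_ Y).inv ≫ (kap V D ▷ Y) ≫ (α_ D V Y).hom

/-- the cap -/
def capL (V D : C) [ExactPairing V D] (Y : C) : D ⊗ (V ⊗ Y) ⟶ Y :=
  (α_ D V Y).inv ≫ (ε_ V D ▷ Y) ≫ (λ_ Y).hom

theorem cupL_nat (V D : C) [ExactPairing V D] {Y Y' : C} (f : Y ⟶ Y') :
    f ≫ cupL V D Y' = cupL V D Y ≫ (D ◁ (V ◁ f)) := by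
  unfold cupL
  rw [leftUnitor_inv_naturality_assoc, whisker_exchange_assoc]
  monoidal

theorem capL_nat (V D : C) [ExactPairing V D] {Y Y' : C} (f : Y ⟶ Y') :
    (D ◁ (V ◁ f)) ≫ capL V D Y' = capL V D Y ≫ f := by
  unfold capL
  calc (D ◁ (V ◁ f)) ≫ (α_ D V Y').inv ≫ (ε_ V D ▷ Y') ≫ (λ_ Y').hom
      = (α_ D V Y).inv ≫ ((D ⊗ V) ◁ f ≫ (ε_ V D ▷ Y')) ≫ (λ_ Y').hom := by monoidal
    _ = _ := by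
        rw [whisker_exchange]
        monoidal

theorem cupL_capL (V D : C) [ExactPairing V D] (Y : C) :
    cupL V D Y ≫ capL V D Y = 𝟙 Y ⊗≫ tr V D (𝟙 V) ▷ Y ⊗≫ 𝟙 Y := by
  unfold cupL capL
  rw [tr_eq]
  monoidal

/-- the partial trace of the braiding -/
theorem cup_swp_cap (V D : C) [ExactPairing V D] (Y : C) :
    cupL V D (V ⊗ Y) ≫ (D ◁ swp V V Y) ≫ capL V D (V ⊗ Y) = 𝟙 (V ⊗ Y) := by
  have h1 := BraidedCategory.braiding_naturality_right V (ε_ V D)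
  have h2 : (β_ V D).hom ▷ V ⊗≫ D ◁ (β_ V V).hom ⊗≫ ε_ V D ▷ V ⊗≫ 𝟙 V =
      𝟙 ((V ⊗ D) ⊗ V) ⊗≫ V ◁ ε_ V D ⊗≫ 𝟙 V := by
    have h3 : (β_ V D).hom ▷ V ⊗≫ D ◁ (β_ V V).hom ⊗≫ ε_ V D ▷ V ⊗≫ 𝟙 V =
        (α_ V D V).hom ≫ ((β_ V (D ⊗ V)).hom ≫ ε_ V D ▷ V) ⊗≫ 𝟙 V := by
      rw [BraidedCategory.braiding_tensor_right_hom]
      monoidal
    rw [h3, ← h1, braiding_tensorUnit_right]
    monoidal
  calc cupL V D (V ⊗ Y) ≫ (D ◁ swp V V Y) ≫ capL V D (V ⊗ Y)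
      = 𝟙 (V ⊗ Y) ⊗≫ (η_ V D ▷ V ⊗≫ ((β_ V D).hom ▷ V ⊗≫ D ◁ (β_ V V).hom ⊗≫ ε_ V D ▷ V
          ⊗≫ 𝟙 V)) ▷ Y ⊗≫ 𝟙 (V ⊗ Y) := by
        unfold cupL capL swp kap
        monoidal
    _ = 𝟙 (V ⊗ Y) ⊗≫ (𝟙 V ⊗≫ η_ V D ▷ V ⊗≫ V ◁ ε_ V D ⊗≫ 𝟙 V) ▷ Y ⊗≫ 𝟙 (V ⊗ Y) := by
        rw [h2]
        monoidal
    _ = 𝟙 (V ⊗ Y) := by
        rw [zig1]
        monoidal

theorem swp_nat_tr (V W : C) {Y Y' : C} (f : Y ⟶ Y') :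
    (V ◁ (W ◁ f)) ≫ swp V W Y' = swp V W Y ≫ (W ◁ (V ◁ f)) := by
  unfold swp
  calc (V ◁ (W ◁ f)) ≫ (α_ V W Y').inv ≫ ((β_ V W).hom ▷ Y') ≫ (α_ W V Y').hom
      = (α_ V W Y).inv ≫ ((V ⊗ W) ◁ f ≫ ((β_ V W).hom ▷ Y')) ≫ (α_ W V Y').hom := by monoidal
    _ = _ := by
        rw [whisker_exchange]
        monoidal

theorem swp_swp {V : C} (hV : Comm V V) (Y : C) : swp V V Y ≫ swp V V Y = 𝟙 _ := by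
  unfold swp
  have h : (β_ V V).hom ≫ (β_ V V).hom = 𝟙 (V ⊗ V) := hV
  calc ((α_ V V Y).inv ≫ ((β_ V V).hom ▷ Y) ≫ (α_ V V Y).hom) ≫
        (α_ V V Y).inv ≫ ((β_ V V).hom ▷ Y) ≫ (α_ V V Y).hom
      = (α_ V V Y).inv ≫ (((β_ V V).hom ≫ (β_ V V).hom) ▷ Y) ≫ (α_ V V Y).hom := by monoidal
    _ = _ := by
        rw [h]
        monoidal

theorem swp_yb (V : C) (Y : C) :
    (V ◁ swp V V Y) ≫ swp V V (V ⊗ Y) ≫ (V ◁ swp V V Y) =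
      swp V V (V ⊗ Y) ≫ (V ◁ swp V V Y) ≫ swp V V (V ⊗ Y) := by
  have h := BraidedCategory.yang_baxter V V V
  have h2 : 𝟙 ((V ⊗ V) ⊗ V) ⊗≫ (β_ V V).hom ▷ V ⊗≫ V ◁ (β_ V V).hom ⊗≫ (β_ V V).hom ▷ V ⊗≫
      𝟙 (V ⊗ (V ⊗ V)) = 𝟙 ((V ⊗ V) ⊗ V) ⊗≫ V ◁ (β_ V V).hom ⊗≫ (β_ V V).hom ▷ V ⊗≫
        V ◁ (β_ V V).hom ⊗≫ 𝟙 (V ⊗ (V ⊗ V)) := by
    have e1 : 𝟙 ((V ⊗ V) ⊗ V) ⊗≫ (β_ V V).hom ▷ V ⊗≫ V ◁ (β_ V V).hom ⊗≫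
        (β_ V V).hom ▷ V ⊗≫ 𝟙 (V ⊗ (V ⊗ V)) =
        (α_ V V V).hom ≫ ((α_ V V V).inv ≫ (β_ V V).hom ▷ V ≫ (α_ V V V).hom ≫
          V ◁ (β_ V V).hom ≫ (α_ V V V).inv ≫ (β_ V V).hom ▷ V ≫ (α_ V V V).hom) := by
      monoidal
    rw [e1, h]
    monoidal
  calc (V ◁ swp V V Y) ≫ swp V V (V ⊗ Y) ≫ (V ◁ swp V V Y)
      = 𝟙 (V ⊗ (V ⊗ (V ⊗ Y))) ⊗≫ (𝟙 ((V ⊗ V) ⊗ V) ⊗≫ V ◁ (β_ V V).hom ⊗≫ (β_ V V).hom ▷ V ⊗≫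
        V ◁ (β_ V V).hom ⊗≫ 𝟙 (V ⊗ (V ⊗ V))) ▷ Y ⊗≫ 𝟙 (V ⊗ (V ⊗ (V ⊗ Y))) := by
        unfold swp
        monoidal
    _ = _ := by
        rw [← h2]
        unfold swp
        monoidal

/-- Row TR: traces. -/
theorem sv_ne_zero [IsAlgClosed k] [CharZero k] (hC : IsFinite k C) {V : C} [Simple V]
    (hV : Comm V V) (N : ℕ) (hN : sv V 1 N (𝟙_ C) = 0) (n : ℕ) : sv V (-1) n (𝟙_ C) ≠ 0 := by
  have hunit := hC.unit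
  have := hC.hom_finite (𝟙_ C) (𝟙_ C)
  obtain ⟨δ, hδ⟩ := endomorphism_simple_eq_smul_id k (tr V (Vᘁ) (𝟙 V))
  refine anti_ne_zero (F := tensorLeft V) (swp V V) (fun f => swp_nat_tr V V f) (k := k)
    (tensorLeft (Vᘁ : C)) (cupL V (Vᘁ)) (capL V (Vᘁ)) (fun f => cupL_nat V _ f)
    (fun f => capL_nat V _ f) δ ?_ (fun Y => cup_swp_cap V (Vᘁ) Y) (fun Y => swp_swp hV Y)
    (fun Y => swp_yb V Y) (id_nonzero (𝟙_ C)) ?_ N hN n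
  · intro Y
    rw [cupL_capL, ← hδ]
    rw [MonoidalLinear.smul_whiskerRight, id_whiskerRight]
    simp only [monoidalComp, Linear.comp_smul, Linear.smul_comp, Category.comp_id,
      Category.id_comp]
    congr 1
    monoidal
  · have : Simple (V ⊗ 𝟙_ C) := Simple.of_iso (ρ_ V)
    exact id_nonzero (V ⊗ 𝟙_ C)

end Fin

end Pool.Agent.MUP
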