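import Pool.Agent.MUP.Defs

/-!
# Row NAK (helper5)

If the iterates `t^m` of a Leibniz family vanish, then `d_Y` is an epimorphism only for `Y = 0`.
-/

open CategoryTheory MonoidalCategory Limits Abelian

universe w v u

namespace Pool.Agent.MUP

open Pool.Agent.MUG

section Fin

variable {k : Type*} [Field k] {C : Type u} [Category.{v} C] [Abelian C] [Linear k C]
  [MonoidalCategory C] [MonoidalPreadditive C] [MonoidalLinear k C] [RigidCategory C]
  [BraidedCategory C]

theorem epi_tt_leib {V : C} (L : Leib V) {Y : C} (hY : Epi (L.d Y)) (n : ℕ) :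
    Epi (tt (F := tensorLeft V) L.d n Y) := by
  induction n with
  | zero => exact inferInstanceAs (Epi (𝟙 Y))
  | succ n ih =>
    have h1 : Epi ((tensorLeft V).map (tt (F := tensorLeft V) L.d n Y)) := inferInstance
    exact @epi_comp _ _ _ _ _ ((tensorLeft V).map (tt (F := tensorLeft V) L.d n Y)) h1 (L.d Y) hY

/-- Row NAK: Nakayama. -/
theorem isZero_of_epi_nilp {V : C} (L : Leib V)
    (hn : ∃ m, ∀ Y, tt (F := tensorLeft V) L.d m Y = 0) {Y : C} (hY : Epi (L.d Y)) :
    IsZero Y := by
  obtain ⟨m, hm⟩ := hn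
  have h1 : Epi (tt (F := tensorLeft V) L.d m Y) := epi_tt_leib L hY m
  rw [hm Y] at h1
  rw [IsZero.iff_id_eq_zero, ← cancel_epi (0 : pw (tensorLeft V) m Y ⟶ Y), zero_comp, zero_comp]

end Fin

end Pool.Agent.MUP
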