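import Pool.Agent.MUP.Kill
import Pool.Agent.MUG.B1

/-! # Row W: the object `W` (helper22) -/

open CategoryTheory MonoidalCategory Limits Abelian

universe w v u

namespace Pool.Agent.MUP

open Pool.Agent.MUG

section Pol

variable {A : Type u} [Category.{v} A] [Preadditive A]

/-- The composite of the `η + a`. -/
def pol {Y : A} (η : Y ⟶ Y) : List ℕ → (Y ⟶ Y) → (Y ⟶ Y)
  | [], θ => θ
  | a :: l, θ => pol η l (θ ≫ (η + a • 𝟙 Y))

theorem pol_eq {Y : A} (η : Y ⟶ Y) (l : List ℕ) (hl : ∀ a ∈ l, a ≠ 0) :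
    ∃ (r : Y ⟶ Y) (c : ℕ), c ≠ 0 ∧ η ≫ r = r ≫ η ∧
      ∀ θ : Y ⟶ Y, pol η l θ = θ ≫ (η ≫ r + c • 𝟙 Y) := by
  induction l with
  | nil =>
    refine ⟨0, 1, one_ne_zero, by simp, fun θ => ?_⟩
    show θ = _
    simp
  | cons a l ih =>
    obtain ⟨r, c, hc, hr, h⟩ := ih (fun b hb => hl b (List.mem_cons_of_mem _ hb))
    have ha : a ≠ 0 := hl a List.mem_cons_self
    refine ⟨η ≫ r + c • 𝟙 Y + a • r, a * c, mul_ne_zero ha hc, ?_, fun θ => ?_⟩
    · simp only [Preadditive.comp_add, Preadditive.add_comp, Preadditive.comp_nsmul,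
        Preadditive.nsmul_comp, Category.comp_id, Category.id_comp, Category.assoc]
      rw [← hr]
    · show pol η l (θ ≫ (η + a • 𝟙 Y)) = _
      rw [h]
      simp only [Preadditive.comp_add, Preadditive.add_comp, Preadditive.comp_nsmul,
        Preadditive.nsmul_comp, Category.comp_id, Category.assoc, smul_add, smul_smul]
      rw [mul_comm a c]
      abel

end Pol

section W

variable {C : Type u} [Category.{v} C] [Abelian C] [MonoidalCategory C] [MonoidalPreadditive C]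
  [RigidCategory C] [BraidedCategory C]
variable {X : C} (e : X ⟶ 𝟙_ C)

/-- Minimal stable subobjects. -/
theorem exists_min {Y : C} (hA : IsArtinianObject Y) (h : X ⊗ Y ⟶ Y) (f : Y ⟶ 𝟙_ C)
    (hf : f ≠ 0) :
    ∃ (W : C) (i : W ⟶ Y) (hW : X ⊗ W ⟶ W), Mono i ∧ hW ≫ i = (X ◁ i) ≫ h ∧ i ≫ f ≠ 0 ∧
      ∀ (W₁ : C) (i₁ : W₁ ⟶ W) (h₁ : X ⊗ W₁ ⟶ W₁), Mono i₁ → h₁ ≫ i₁ = (X ◁ i₁) ≫ hW →
        i₁ ≫ i ≫ f ≠ 0 → ∃ g : W ⟶ W₁, g ≫ i₁ = 𝟙 W := by
  let S : Set (Subobject Y) := {S | (∃ hS : X ⊗ (S : C) ⟶ (S : C),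
    hS ≫ S.arrow = (X ◁ S.arrow) ≫ h) ∧ S.arrow ≫ f ≠ 0}
  have hne : S.Nonempty := by
    refine ⟨⊤, ⟨(X ◁ (⊤ : Subobject Y).arrow) ≫ h ≫ inv (⊤ : Subobject Y).arrow, by simp⟩, ?_⟩
    intro h0
    apply hf
    rw [← cancel_epi (⊤ : Subobject Y).arrow, h0, comp_zero]
  have hwf : WellFounded (fun a b : Subobject Y => a < b) := wellFounded_lt
  obtain ⟨S₀, ⟨⟨hS, hS1⟩, hS2⟩, hmin⟩ := hwf.has_min S hne
  refine ⟨S₀, S₀.arrow, hS, inferInstance, hS1, hS2, fun W₁ i₁ h₁ hm1 hc1 hn1 => ?_⟩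
  have hm : Mono (i₁ ≫ S₀.arrow) := mono_comp _ _
  have hle : Subobject.mk (i₁ ≫ S₀.arrow) ≤ S₀ := by
    refine Subobject.le_of_comm ((Subobject.underlyingIso (i₁ ≫ S₀.arrow)).hom ≫ i₁) ?_
    rw [Category.assoc, Subobject.underlyingIso_hom_comp_eq_mk]
  have hmem : Subobject.mk (i₁ ≫ S₀.arrow) ∈ S := by
    constructor
    · refine ⟨(X ◁ (Subobject.underlyingIso (i₁ ≫ S₀.arrow)).hom) ≫ h₁ ≫
        (Subobject.underlyingIso (i₁ ≫ S₀.arrow)).inv, ?_⟩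
      rw [Category.assoc, Category.assoc, Subobject.underlyingIso_arrow, ← Category.assoc h₁,
        hc1, Category.assoc, hS1, ← Subobject.underlyingIso_hom_comp_eq_mk]
      simp only [whiskerLeft_comp, Category.assoc]
    · intro h0
      apply hn1
      rw [← Category.assoc, ← Subobject.underlyingIso_arrow (i₁ ≫ S₀.arrow), Category.assoc, h0,
        comp_zero]
  have heq : Subobject.mk (i₁ ≫ S₀.arrow) = S₀ := by
    by_contra hcon
    exact hmin _ hmem (lt_of_le_of_ne hle hcon)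
  refine ⟨Subobject.ofLEMk S₀ (i₁ ≫ S₀.arrow) heq.ge, ?_⟩
  rw [← cancel_mono S₀.arrow, Category.assoc, Subobject.ofLEMk_comp, Category.id_comp]

/-- A map killed on the quotient gives a polynomial relation. -/
theorem pol_of_kill {Y Y' : C} (η : Y ⟶ Y) (η' : Y' ⟶ Y') (i : Y' ⟶ Y) [Mono i]
    (hi : i ≫ η = η' ≫ i) (l : List ℕ) : ∀ {K : C} (f : K ⟶ Y') [Epi f] (θ : Y' ⟶ Y'),
    Kill e (((e ▷ Y) ≫ (λ_ Y).hom) ≫ η) l (f ≫ θ ≫ i) → Epi e → pol η' l θ = 0 := by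
  induction l with
  | nil =>
    intro K f _ θ h _
    rw [kill_nil] at h
    show θ = 0
    rw [← cancel_epi f, ← cancel_mono i, Category.assoc, h, comp_zero, zero_comp]
  | cons a l ih =>
    intro K f _ θ h he
    rw [kill_cons] at h
    show pol η' l (θ ≫ (η' + a • 𝟙 Y')) = 0
    have h1 : (X ◁ (f ≫ θ ≫ i)) ≫ pa e (((e ▷ Y) ≫ (λ_ Y).hom) ≫ η) a =
        (((e ▷ K) ≫ (λ_ K).hom) ≫ f) ≫ (θ ≫ (η' + a • 𝟙 Y')) ≫ i := by
      have h2 : pa e (((e ▷ Y) ≫ (λ_ Y).hom) ≫ η) a =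
          ((e ▷ Y) ≫ (λ_ Y).hom) ≫ (η + a • 𝟙 Y) := by
        unfold pa
        rw [Preadditive.comp_add, Preadditive.comp_nsmul, Category.comp_id]
      have h3 : i ≫ (η + a • 𝟙 Y) = (η' + a • 𝟙 Y') ≫ i := by
        rw [Preadditive.comp_add, Preadditive.add_comp, hi, Preadditive.comp_nsmul,
          Preadditive.nsmul_comp, Category.comp_id, Category.id_comp]
      rw [h2, ← Category.assoc, epsT_nat]
      simp only [Category.assoc]
      rw [h3]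
    rw [h1] at h
    have hek : Epi ((e ▷ K) ≫ (λ_ K).hom) := by
      have := epi_whiskerRight' K e
      exact epi_comp _ _
    have : Epi (((e ▷ K) ≫ (λ_ K).hom) ≫ f) := epi_comp _ _
    exact ih _ _ h he

end W

section WMain

variable {k : Type*} [Field k] {C : Type u} [Category.{v} C] [Abelian C] [Linear k C]
  [MonoidalCategory C] [MonoidalPreadditive C] [MonoidalLinear k C] [RigidCategory C]
  [BraidedCategory C]

/-- Row W. -/
theorem exists_W [CharZero k] (hC : IsFinite k C) {V : C} (L : Leib V) {X : C} (j : V ⟶ X)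
    (e : X ⟶ 𝟙_ C) (w : j ≫ e = 0) (hS : (ShortComplex.mk j e w).ShortExact)
    (hd : L.d X = (V ◁ e) ≫ (ρ_ V).hom ≫ j) (m : ℕ) :
    ∃ (W : C) (i : W ⟶ pw (tensorLeft X) m (𝟙_ C)) (ε : W ⟶ 𝟙_ C) (h0 : L.d W ≫ ε = 0),
      Mono i ∧ Epi ε ∧ i ≫ ee e m (𝟙_ C) = ε ∧ (ShortComplex.mk (L.d W) ε h0).Exact := by
  have hunit : Simple (𝟙_ C) := hC.unit
  have he : Epi e := hS.epi_g
  have hL1 : L.d (𝟙_ C) = 0 := leib_unit L
  have hee : Epi (ee e m (𝟙_ C)) := epi_ee e m _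
  have hee0 : ee e m (𝟙_ C) ≠ 0 := by
    intro h0
    apply id_nonzero (𝟙_ C)
    rw [← cancel_epi (ee e m (𝟙_ C)), h0, zero_comp, zero_comp]
  obtain ⟨W, i, hW, hmi, hcomp, hne, hmin⟩ :=
    exists_min (hC.artinian (pw (tensorLeft X) m (𝟙_ C))) (hm e m) (ee e m (𝟙_ C)) hee0
  -- the connection on `W`
  have hjW : (j ▷ W) ≫ hW = L.d W := by
    rw [← cancel_mono i, Category.assoc, hcomp, ← Category.assoc, ← whisker_exchange,
      Category.assoc, hm_conn L j e w hd hL1, L.nat]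
  -- the quotient
  let Q : C := cokernel (L.d W)
  let π : W ⟶ Q := cokernel.π (L.d W)
  have hπ : Epi π := inferInstanceAs (Epi (cokernel.π (L.d W)))
  have hXπ : Epi (X ◁ π) := epi_whiskerLeft' X π
  have hVπ : Epi (V ◁ π) := epi_whiskerLeft' V π
  have hex0 : (ShortComplex.mk (L.d W) π (cokernel.condition _)).Exact :=
    ShortComplex.exact_cokernel (L.d W)
  have hstab : (X ◁ L.d W) ≫ hW ≫ π = 0 := by
    have h1 := L.nat hW
    rw [leib_X L j e hd, Preadditive.add_comp, Category.assoc, hjW] at h1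
    have h2 : swp V X W ≫ (X ◁ L.d W) ≫ hW =
        (V ◁ hW) ≫ L.d W - (V ◁ ((e ▷ W) ≫ (λ_ W).hom)) ≫ L.d W := by
      rw [h1, add_sub_cancel_left, Category.assoc]
    have h3 : swp V X W ≫ (X ◁ L.d W) ≫ hW ≫ π = 0 := by
      have h4 := congrArg (fun z => z ≫ π) h2
      simp only [Category.assoc, Preadditive.sub_comp] at h4
      have h5 : L.d W ≫ π = 0 := cokernel.condition _
      rw [h5, comp_zero, comp_zero, sub_zero] at h4
      exact h4
    rw [← cancel_epi (swp V X W), comp_zero]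
    exact h3
  have hexX : ((ShortComplex.mk (L.d W) π (cokernel.condition _)).map (tensorLeft X)).Exact :=
    hex0.map (tensorLeft X)
  have hepX : Epi ((ShortComplex.mk (L.d W) π (cokernel.condition _)).map (tensorLeft X)).g := hXπ
  obtain ⟨hQ, hQ1⟩ : ∃ hQ : X ⊗ Q ⟶ Q, (X ◁ π) ≫ hQ = hW ≫ π :=
    ⟨hexX.desc (hW ≫ π) hstab, hexX.g_desc (hW ≫ π) hstab⟩
  have hjQ : (j ▷ Q) ≫ hQ = 0 := by
    rw [← cancel_epi (V ◁ π), comp_zero, ← Category.assoc, whisker_exchange, Category.assoc, hQ1,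
      ← Category.assoc, hjW]
    exact cokernel.condition _
  obtain ⟨η, hη⟩ : ∃ η : Q ⟶ Q, ((e ▷ Q) ≫ (λ_ Q).hom) ≫ η = hQ := by
    have h1 : ((ShortComplex.mk j e w).map (tensorRight Q)).ShortExact :=
      hS.map_of_exact (tensorRight Q)
    have hep : Epi ((ShortComplex.mk j e w).map (tensorRight Q)).g := h1.epi_g
    obtain ⟨η₁, hη₁⟩ : ∃ η₁ : 𝟙_ C ⊗ Q ⟶ Q, (e ▷ Q) ≫ η₁ = hQ :=
      ⟨h1.exact.desc hQ hjQ, h1.exact.g_desc hQ hjQ⟩
    refine ⟨(λ_ Q).inv ≫ η₁, ?_⟩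
    rw [Category.assoc, Iso.hom_inv_id_assoc]
    exact hη₁
  have hLd : L.d W ≫ i ≫ ee e m (𝟙_ C) = 0 := by
    rw [← L.nat, hL1, comp_zero]
  let eQ : Q ⟶ 𝟙_ C := cokernel.desc (L.d W) (i ≫ ee e m (𝟙_ C)) hLd
  have heQ : π ≫ eQ = i ≫ ee e m (𝟙_ C) := cokernel.π_desc _ _ _
  have hepsQ : Epi ((e ▷ Q) ≫ (λ_ Q).hom) := by
    have := epi_whiskerRight' Q e
    exact epi_comp _ _
  have hηe : η ≫ eQ = 0 := by
    have h1 : Epi ((X ◁ π) ≫ ((e ▷ Q) ≫ (λ_ Q).hom)) := epi_comp _ _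
    rw [← cancel_epi ((X ◁ π) ≫ ((e ▷ Q) ≫ (λ_ Q).hom)), comp_zero]
    have h2 : ((X ◁ π) ≫ ((e ▷ Q) ≫ (λ_ Q).hom)) ≫ η ≫ eQ = (X ◁ π) ≫ hQ ≫ eQ := by
      rw [← hη]; simp only [Category.assoc]
    rw [h2, ← Category.assoc, hQ1, Category.assoc, heQ, ← Category.assoc, hcomp, Category.assoc,
      hm_ee, comp_zero]
  -- the kernel of `eQ`
  let Q' : C := kernel eQ
  let ι : Q' ⟶ Q := kernel.ι eQ
  have hι : Mono ι := inferInstanceAs (Mono (kernel.ι eQ))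
  have hιe : ι ≫ eQ = 0 := kernel.condition _
  let η₀ : Q ⟶ Q' := kernel.lift eQ η hηe
  have hη₀ : η₀ ≫ ι = η := kernel.lift_ι _ _ _
  let η' : Q' ⟶ Q' := ι ≫ η₀
  have hη' : ι ≫ η = η' ≫ ι := by
    rw [← hη₀, ← Category.assoc]
  obtain ⟨l, hl0, hl⟩ := kill_ker (X := X) j e w hS m
  -- the polynomial relation
  have hpol : pol η' l (𝟙 Q') = 0 := by
    let K : C := kernel (i ≫ ee e m (𝟙_ C))
    let κ : K ⟶ W := kernel.ι (i ≫ ee e m (𝟙_ C))
    have hκ : κ ≫ i ≫ ee e m (𝟙_ C) = 0 := kernel.condition _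
    have hκe : (κ ≫ π) ≫ eQ = 0 := by rw [Category.assoc, heQ, hκ]
    let κ' : K ⟶ Q' := kernel.lift eQ (κ ≫ π) hκe
    have hκ' : κ' ≫ ι = κ ≫ π := kernel.lift_ι _ _ _
    have hepκ : Epi κ' := by
      rw [epi_iff_surjective_up_to_refinements]
      intro A y
      obtain ⟨A', q, hq, x, hx⟩ := surjective_up_to_refinements_of_epi π (y ≫ ι)
      have hx1 : x ≫ i ≫ ee e m (𝟙_ C) = 0 := by
        rw [← heQ, ← Category.assoc, ← hx, Category.assoc, Category.assoc, hιe, comp_zero,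
          comp_zero]
      refine ⟨A', q, hq, kernel.lift _ x hx1, ?_⟩
      rw [← cancel_mono ι, Category.assoc, Category.assoc, hκ', ← Category.assoc (kernel.lift _ _ _),
        kernel.lift_ι, ← hx]
    have h1 : Kill e (hm e m) l (κ ≫ i) := by
      apply hl
      rw [Category.assoc]
      exact hκ
    have h2 : Kill e hW l κ := kill_of_post e hW (hm e m) i hcomp l κ h1
    have h3 : Kill e hQ l (κ ≫ π) := kill_post e hW hQ π hQ1.symm l κ h2
    have h4 : Kill e (((e ▷ Q) ≫ (λ_ Q).hom) ≫ η) l (κ' ≫ 𝟙 Q' ≫ ι) := by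
      rw [hη, Category.id_comp, hκ']
      exact h3
    exact pol_of_kill e η η' ι hη' l κ' (𝟙 Q') h4 he
  obtain ⟨r, c, hc, hr, hpoly⟩ := pol_eq η' l hl0
  rw [hpoly, Category.id_comp] at hpol
  have hck : (c : k) ≠ 0 := by exact_mod_cast hc
  have hη'r : η' ≫ r = (-(c : k)) • 𝟙 Q' := by
    rw [neg_smul, Nat.cast_smul_eq_nsmul]
    exact eq_neg_of_add_eq_zero_left hpol
  let s : Q ⟶ Q' := (-(c : k))⁻¹ • (η₀ ≫ r)
  have hιs : ι ≫ s = 𝟙 Q' := by
    simp only [s]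
    rw [Linear.comp_smul, ← Category.assoc]
    change (-(c : k))⁻¹ • (η' ≫ r) = _
    rw [hη'r, smul_smul, inv_mul_cancel₀ (neg_ne_zero.2 hck), one_smul]
  have hsη : η ≫ s = s ≫ η' := by
    have h1 : η ≫ s = η₀ := by
      rw [← hη₀, Category.assoc, hιs, Category.comp_id]
    have h2 : s ≫ η' = η₀ := by
      simp only [s]
      rw [Linear.smul_comp, Category.assoc, ← hr, hη'r, Linear.comp_smul, smul_smul,
        inv_mul_cancel₀ (neg_ne_zero.2 hck), one_smul, Category.comp_id]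
    rw [h1, h2]
  -- the smaller subobject
  let W₁ : C := kernel (π ≫ s)
  let i₁ : W₁ ⟶ W := kernel.ι (π ≫ s)
  have hi₁ : i₁ ≫ π ≫ s = 0 := kernel.condition _
  have hst : ((X ◁ i₁) ≫ hW) ≫ π ≫ s = 0 := by
    have h1 : (X ◁ i₁) ≫ (X ◁ π) ≫ hQ ≫ s = 0 := by
      rw [← hη, Category.assoc, hsη, ← Category.assoc (X ◁ i₁), ← whiskerLeft_comp,
        ← Category.assoc, epsT_nat]
      have h2 : (i₁ ≫ π) ≫ s ≫ η' = 0 := by
        rw [← Category.assoc, Category.assoc i₁, hi₁, zero_comp]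
      rw [Category.assoc, h2, comp_zero]
    rw [Category.assoc, ← Category.assoc hW, ← hQ1, Category.assoc]
    exact h1
  have hW1ne : i₁ ≫ i ≫ ee e m (𝟙_ C) ≠ 0 := by
    intro h0
    apply hne
    rw [← heQ] at h0 ⊢
    let ρ : Q ⟶ Q := 𝟙 Q - s ≫ ι
    have hρs : ρ ≫ s = 0 := by
      simp only [ρ]
      rw [Preadditive.sub_comp, Category.assoc, hιs, Category.comp_id, Category.id_comp, sub_self]
    have hρe : ρ ≫ eQ = eQ := by
      simp only [ρ]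
      rw [Preadditive.sub_comp, Category.assoc, hιe, comp_zero, Category.id_comp, sub_zero]
    obtain ⟨A', q, hq, y, hy⟩ := surjective_up_to_refinements_of_epi π (π ≫ ρ)
    have hy1 : y ≫ π ≫ s = 0 := by
      rw [← Category.assoc, ← hy, Category.assoc, Category.assoc, hρs, comp_zero, comp_zero]
    have hy2 : kernel.lift (π ≫ s) y hy1 ≫ i₁ = y := kernel.lift_ι _ _ _
    rw [← cancel_epi q, comp_zero]
    calc q ≫ π ≫ eQ = q ≫ (π ≫ ρ) ≫ eQ := by rw [Category.assoc, hρe]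
      _ = y ≫ π ≫ eQ := by rw [← Category.assoc, hy, Category.assoc]
      _ = (kernel.lift (π ≫ s) y hy1 ≫ i₁) ≫ π ≫ eQ := by rw [hy2]
      _ = kernel.lift (π ≫ s) y hy1 ≫ i₁ ≫ π ≫ eQ := Category.assoc _ _ _
      _ = 0 := by rw [h0, comp_zero]
  obtain ⟨g, hg⟩ := hmin W₁ i₁ (kernel.lift (π ≫ s) ((X ◁ i₁) ≫ hW) hst)
    (inferInstanceAs (Mono (kernel.ι (π ≫ s)))) (kernel.lift_ι _ _ _) hW1ne
  have hs0 : s = 0 := by
    have h1 : π ≫ s = 0 := by
      rw [← Category.id_comp (π ≫ s), ← hg, Category.assoc, hi₁, comp_zero]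
    rw [← cancel_epi π, h1, comp_zero]
  have hQ'0 : 𝟙 Q' = 0 := by rw [← hιs, hs0, comp_zero]
  have hmono : Mono eQ := by
    refine Preadditive.mono_of_cancel_zero eQ (fun {A} a ha => ?_)
    have h1 : kernel.lift eQ a ha ≫ ι = a := kernel.lift_ι _ _ _
    rw [← h1, ← Category.comp_id (kernel.lift eQ a ha), hQ'0, comp_zero, zero_comp]
  refine ⟨W, i, i ≫ ee e m (𝟙_ C), hLd, hmi, epi_of_nonzero_to_simple hne, rfl, ?_⟩
  rw [ShortComplex.exact_iff_exact_up_to_refinements]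
  intro A x hx
  have hx' : x ≫ π = 0 := by
    have hx1 : x ≫ i ≫ ee e m (𝟙_ C) = 0 := hx
    have hx2 : (x ≫ π) ≫ eQ = 0 := by rw [Category.assoc, heQ]; exact hx1
    rw [← cancel_mono eQ, hx2, zero_comp]
  exact hex0.exact_up_to_refinements x hx'

end WMain

end Pool.Agent.MUP
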