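import Pool.Agent.MUP.EMB
import Pool.Agent.MUP.NAK
import Pool.Agent.MUP.W

/-! # Row PT (helper29): projectives are `W ⊗ P/dP` -/

open CategoryTheory MonoidalCategory Limits Abelian

universe w v u

namespace Pool.Agent.MUP

open Pool.Agent.MUG

section PTaux

variable {C : Type u} [Category.{v} C] [MonoidalCategory C]

/-- `X^n ⊗ Y ⟶ X ⊗ (X ⊗ ⋯ ⊗ Y)`. -/
def ptT (X : C) : ∀ (n : ℕ) (Y : C), pw (tensorLeft X) n (𝟙_ C) ⊗ Y ⟶ pw (tensorLeft X) n Y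
  | 0, Y => (λ_ Y).hom
  | n + 1, Y => (α_ X (pw (tensorLeft X) n (𝟙_ C)) Y).hom ≫ (X ◁ ptT X n Y)

theorem ptT_iso (X : C) (n : ℕ) (Y : C) : IsIso (ptT X n Y) := by
  induction n with
  | zero => exact inferInstanceAs (IsIso (λ_ Y).hom)
  | succ n ih =>
    exact inferInstanceAs
      (IsIso ((α_ X (pw (tensorLeft X) n (𝟙_ C)) Y).hom ≫ (X ◁ ptT X n Y)))

end PTaux

section PTa

variable {C : Type u} [Category.{v} C] [Abelian C] [MonoidalCategory C] [MonoidalPreadditive C]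
  [RigidCategory C] [BraidedCategory C]

theorem step_ptT {X P Y Q : C} (e : X ⟶ 𝟙_ C) (a : P ⊗ Y ⟶ Q) (b : Q ⟶ Y) (c : P ⟶ 𝟙_ C)
    (h : a ≫ b = (c ▷ Y) ≫ (λ_ Y).hom) :
    ((α_ X P Y).hom ≫ (X ◁ a)) ≫ (X ◁ b) ≫ (e ▷ Y) ≫ (λ_ Y).hom =
      (((X ◁ c) ≫ (e ▷ (𝟙_ C)) ≫ (λ_ (𝟙_ C)).hom) ▷ Y) ≫ (λ_ Y).hom := by
  rw [Category.assoc, ← whiskerLeft_comp_assoc, h, whiskerLeft_comp, comp_whiskerRight,
    comp_whiskerRight]
  simp only [Category.assoc]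
  have e1 : (α_ X P Y).hom ≫ (X ◁ (c ▷ Y)) = ((X ◁ c) ▷ Y) ≫ (α_ X (𝟙_ C) Y).hom := by simp
  rw [reassoc_of% e1]
  have e2 : (α_ X (𝟙_ C) Y).hom ≫ (X ◁ (λ_ Y).hom) = (ρ_ X).hom ▷ Y := by simp
  rw [reassoc_of% e2]
  have e3 : ((ρ_ X).hom ▷ Y) ≫ (e ▷ Y) = ((e ▷ (𝟙_ C)) ▷ Y) ≫ ((λ_ (𝟙_ C)).hom ▷ Y) := by
    rw [← comp_whiskerRight, ← comp_whiskerRight, unitors_equal, rightUnitor_naturality]
  rw [reassoc_of% e3]

theorem ptT_ee {X : C} (e : X ⟶ 𝟙_ C) (m : ℕ) (Y : C) :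
    ptT X m Y ≫ ee e m Y = (ee e m (𝟙_ C) ▷ Y) ≫ (λ_ Y).hom := by
  induction m with
  | zero =>
    change (λ_ Y).hom ≫ 𝟙 Y = (𝟙 (𝟙_ C) ▷ Y) ≫ (λ_ Y).hom
    rw [id_whiskerRight, Category.comp_id, Category.id_comp]
  | succ n ih =>
    exact step_ptT e (ptT X n Y) (ee e n Y) (ee e n (𝟙_ C)) ih

/-- `d` of `W ⊗ N` for `d_N = 0`. -/
theorem leib_tensor_zero {V : C} (L : Leib V) (W : C) {N : C} (hN : L.d N = 0) :
    L.d (W ⊗ N) = (α_ V W N).inv ≫ (L.d W ▷ N) := by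
  rw [L.leib, hN, MonoidalPreadditive.whiskerLeft_zero]
  simp

theorem leib_eps {V : C} (L : Leib V) {W : C} (ε : W ⟶ 𝟙_ C) (h0 : L.d W ≫ ε = 0) {N : C}
    (hN : L.d N = 0) : L.d (W ⊗ N) ≫ (ε ▷ N) ≫ (λ_ N).hom = 0 := by
  rw [leib_tensor_zero L W hN, Category.assoc, ← comp_whiskerRight_assoc, h0,
    MonoidalPreadditive.zero_whiskerRight, zero_comp, comp_zero]

/-- `(ε ⊗ N)` is a cokernel of `d_{W ⊗ N}`. -/
theorem exists_desc_eps {V : C} (L : Leib V) {W : C} (ε : W ⟶ 𝟙_ C) (hε : Epi ε)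
    (h0 : L.d W ≫ ε = 0) (hex : (ShortComplex.mk (L.d W) ε h0).Exact) {N T : C}
    (hN : L.d N = 0) (t : W ⊗ N ⟶ T) (ht : L.d (W ⊗ N) ≫ t = 0) :
    ∃ l : N ⟶ T, (ε ▷ N) ≫ (λ_ N).hom ≫ l = t := by
  have h1 : ((ShortComplex.mk (L.d W) ε h0).map (tensorRight N)).Exact :=
    hex.map (tensorRight N)
  have h2 : Epi ((ShortComplex.mk (L.d W) ε h0).map (tensorRight N)).g :=
    inferInstanceAs (Epi ((tensorRight N).map ε))
  have h3 : (L.d W ▷ N) ≫ t = 0 := by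
    rw [leib_tensor_zero L W hN, Category.assoc] at ht
    rw [← cancel_epi (α_ V W N).inv, ht, comp_zero]
  refine ⟨(λ_ N).inv ≫ h1.desc t h3, ?_⟩
  rw [Iso.hom_inv_id_assoc]
  exact h1.g_desc t h3

theorem bijective_eps {V : C} (L : Leib V) {W : C} (ε : W ⟶ 𝟙_ C) (hε : Epi ε)
    (h0 : L.d W ≫ ε = 0) (hex : (ShortComplex.mk (L.d W) ε h0).Exact) (N M : C)
    (hN : L.d N = 0) (hM : L.d M = 0) :
    Function.Bijective (fun f : N ⟶ M => (ε ▷ N) ≫ (λ_ N).hom ≫ f) := by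
  have h2 : Epi (ε ▷ N) := inferInstanceAs (Epi ((tensorRight N).map ε))
  constructor
  · intro f g hfg
    have h3 : (ε ▷ N) ≫ (λ_ N).hom ≫ f = (ε ▷ N) ≫ (λ_ N).hom ≫ g := hfg
    rw [cancel_epi, cancel_epi] at h3
    exact h3
  · intro t
    exact exists_desc_eps L ε hε h0 hex hN t (by rw [← L.nat t, hM, comp_zero])

end PTa

section PTb

variable {k : Type*} [Field k] {C : Type u} [Category.{v} C] [Abelian C] [Linear k C]
  [MonoidalCategory C] [MonoidalPreadditive C] [MonoidalLinear k C] [RigidCategory C]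
  [BraidedCategory C]

theorem projective_W [CharZero k] {V : C} (L : Leib V) (hL : LComm L)
    {X : C} (j : V ⟶ X) (e : X ⟶ 𝟙_ C) (w : j ≫ e = 0)
    (hS : (ShortComplex.mk j e w).ShortExact) (hd : L.d X = (V ◁ e) ≫ (ρ_ V).hom ≫ j) (m : ℕ)
    (hn : ∀ Y, tt (F := tensorLeft V) L.d m Y = 0) {W : C}
    (i : W ⟶ pw (tensorLeft X) m (𝟙_ C)) (ε : W ⟶ 𝟙_ C) (h0 : L.d W ≫ ε = 0) (hi : Mono i)
    (hε : Epi ε) (hiε : i ≫ ee e m (𝟙_ C) = ε)
    (hex : (ShortComplex.mk (L.d W) ε h0).Exact) (P : C) (hP : Projective P) :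
    Projective (W ⊗ cokernel (L.d P)) := by
  set N := cokernel (L.d P) with hNdef
  have hN : L.d N = 0 := leib_coker L P
  have hεN : Epi (ε ▷ N) := inferInstanceAs (Epi ((tensorRight N).map ε))
  have hεN' : Epi ((ε ▷ N) ≫ (λ_ N).hom) := epi_comp _ _
  let g : P ⟶ W ⊗ N := Projective.factorThru (cokernel.π (L.d P)) ((ε ▷ N) ≫ (λ_ N).hom)
  have hg : g ≫ (ε ▷ N) ≫ (λ_ N).hom = cokernel.π (L.d P) := Projective.factorThru_comp _ _
  have hn' : ∀ Y, tt (F := tensorLeft V) L.d (m + 1) Y = 0 := by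
    intro Y
    change (tensorLeft V).map (tt (F := tensorLeft V) L.d m Y) ≫ L.d Y = 0
    rw [hn, Functor.map_zero, zero_comp]
  -- `g` is mono
  have hmono : Mono g := by
    have hu : (g ≫ (i ▷ N) ≫ ptT X m N) ≫ ee e m N = cokernel.π (L.d P) := by
      rw [Category.assoc, Category.assoc, ptT_ee, ← comp_whiskerRight_assoc, hiε, hg]
    have h1 : Mono (g ≫ (i ▷ N) ≫ ptT X m N) := emb (k := k) L hL j e w hS hd m hn' _ hu
    exact mono_of_mono g ((i ▷ N) ≫ ptT X m N)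
  -- `g` is epi
  have hepi : Epi g := by
    have hQ : Epi (L.d (cokernel g)) := by
      have h1 : L.d (W ⊗ N) ≫ cokernel.π g ≫ cokernel.π (L.d (cokernel g)) = 0 := by
        rw [← Category.assoc, ← L.nat, Category.assoc, cokernel.condition, comp_zero]
      obtain ⟨l, hl⟩ := exists_desc_eps L ε hε h0 hex hN _ h1
      have h2 : cokernel.π (L.d P) ≫ l = 0 := by
        rw [← hg, Category.assoc, Category.assoc, hl, ← Category.assoc, cokernel.condition,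
          zero_comp]
      have h3 : l = 0 := by
        rw [← cancel_epi (cokernel.π (L.d P)), h2, comp_zero]
      have h4 : cokernel.π (L.d (cokernel g)) = 0 := by
        rw [← cancel_epi (cokernel.π g), ← hl, h3, comp_zero, comp_zero, comp_zero]
      exact Preadditive.epi_of_cokernel_zero h4
    have hz : IsZero (cokernel g) := isZero_of_epi_nilp L ⟨m, hn⟩ hQ
    exact Preadditive.epi_of_cokernel_zero (hz.eq_of_tgt _ _)
  have : IsIso g := isIso_of_mono_of_epi g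
  exact Projective.of_iso (asIso g) hP

/-- Row PT, from the conclusion of row W. -/
theorem exists_WW_of [CharZero k] {V : C} (L : Leib V) (hL : LComm L)
    (hn : ∃ m, ∀ Y, tt (F := tensorLeft V) L.d m Y = 0) {X : C} (j : V ⟶ X)
    (e : X ⟶ 𝟙_ C) (w : j ≫ e = 0) (hS : (ShortComplex.mk j e w).ShortExact)
    (hd : L.d X = (V ◁ e) ≫ (ρ_ V).hom ≫ j)
    (hW : ∀ m : ℕ, ∃ (W : C) (i : W ⟶ pw (tensorLeft X) m (𝟙_ C)) (ε : W ⟶ 𝟙_ C)
      (h0 : L.d W ≫ ε = 0), Mono i ∧ Epi ε ∧ i ≫ ee e m (𝟙_ C) = ε ∧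
      (ShortComplex.mk (L.d W) ε h0).Exact) :
    ∃ (W : C) (ε : W ⟶ 𝟙_ C),
      (∀ P : C, Projective P → Projective (W ⊗ cokernel (L.d P))) ∧
      (∀ N M : C, L.d N = 0 → L.d M = 0 →
        Function.Bijective (fun f : N ⟶ M => (ε ▷ N) ≫ (λ_ N).hom ≫ f)) := by
  obtain ⟨m, hm⟩ := hn
  obtain ⟨W, i, ε, h0, hi, hε, hiε, hex⟩ := hW m
  exact ⟨W, ε, fun P hP => projective_W (k := k) L hL j e w hS hd m hm i ε h0 hi hε hiε hex P hP,
    fun N M hN hM => bijective_eps L ε hε h0 hex N M hN hM⟩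

/-- Row PT. -/
theorem exists_WW [CharZero k] (hC : IsFinite k C) {V : C} (L : Leib V) (hL : LComm L)
    (hn : ∃ m, ∀ Y, tt (F := tensorLeft V) L.d m Y = 0) {X : C} (j : V ⟶ X)
    (e : X ⟶ 𝟙_ C) (w : j ≫ e = 0) (hS : (ShortComplex.mk j e w).ShortExact)
    (hd : L.d X = (V ◁ e) ≫ (ρ_ V).hom ≫ j) :
    ∃ (W : C) (ε : W ⟶ 𝟙_ C),
      (∀ P : C, Projective P → Projective (W ⊗ cokernel (L.d P))) ∧
      (∀ N M : C, L.d N = 0 → L.d M = 0 →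
        Function.Bijective (fun f : N ⟶ M => (ε ▷ N) ≫ (λ_ N).hom ≫ f)) :=
  exists_WW_of (k := k) L hL hn j e w hS hd (fun m => exists_W (k := k) hC L j e w hS hd m)

end PTb

end Pool.Agent.MUP
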