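import Pool.Agent.MUP.Defs
import Pool.Agent.MUG.E
import Pool.Agent.MUG.S1
import Pool.Agent.MUG.S3
import Pool.Agent.MUG.T1
import Pool.Agent.MUG.ExtSes

/-!
# MP_388894, Theorem P+, row DN: the iterated derivation (helper1)
-/

open CategoryTheory MonoidalCategory Limits Abelian

universe w v u

set_option linter.unusedSectionVars false

namespace Pool.Agent.MUP

open Pool.Agent.MUG Pool.Agent.MUG.Tr

namespace DNaux

section powers

variable {A : Type u} [Category.{v} A] {F : A ⥤ A}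

theorem pw_id (n : ℕ) (Y : A) : pwMap F n (𝟙 Y) = 𝟙 (pw F n Y) := by
  induction n with
  | zero => rfl
  | succ n ih => exact (congrArg F.map ih).trans (F.map_id _)

theorem pw_comp (n : ℕ) {X Y Z : A} (f : X ⟶ Y) (g : Y ⟶ Z) :
    pwMap F n (f ≫ g) = pwMap F n f ≫ pwMap F n g := by
  induction n with
  | zero => rfl
  | succ n ih => exact (congrArg F.map ih).trans (F.map_comp _ _)

/-- `F^{n+1} Y ⟶ F^n (F Y)`, the identity. -/
def sh : ∀ (n : ℕ) (Y : A), pw F (n + 1) Y ⟶ pw F n (F.obj Y)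
  | 0, Y => 𝟙 (F.obj Y)
  | n + 1, Y => F.map (sh n Y)

theorem sh_iso (n : ℕ) (Y : A) : IsIso (sh (F := F) n Y) := by
  induction n with
  | zero => exact inferInstanceAs (IsIso (𝟙 (F.obj Y)))
  | succ n ih => exact inferInstanceAs (IsIso (F.map (sh n Y)))

theorem sh_nat (n : ℕ) {X Y : A} (f : X ⟶ Y) :
    pwMap F (n + 1) f ≫ sh n Y = sh n X ≫ pwMap F n (F.map f) := by
  induction n with
  | zero => exact (Category.comp_id _).trans (Category.id_comp _).symm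
  | succ n ih =>
    change F.map (pwMap F (n + 1) f) ≫ F.map (sh n Y) = F.map (sh n X) ≫ F.map _
    rw [← F.map_comp, ih, F.map_comp]

variable (τ : ∀ Y : A, F.obj (F.obj Y) ⟶ F.obj (F.obj Y))

/-- The last strand of `F^n (F Y)` moves to the front. -/
def cy : ∀ (n : ℕ) (Y : A), pw F n (F.obj Y) ⟶ F.obj (pw F n Y)
  | 0, Y => 𝟙 (F.obj Y)
  | n + 1, Y => F.map (cy n Y) ≫ τ (pw F n Y)

theorem cy_iso (hiso : ∀ Y, IsIso (τ Y)) (n : ℕ) (Y : A) : IsIso (cy τ n Y) := by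
  induction n with
  | zero => exact inferInstanceAs (IsIso (𝟙 (F.obj Y)))
  | succ n ih =>
    have := hiso (pw F n Y)
    exact inferInstanceAs (IsIso (F.map (cy τ n Y) ≫ τ (pw F n Y)))

theorem cy_nat (hτ : ∀ {Y Y' : A} (f : Y ⟶ Y'), F.map (F.map f) ≫ τ Y' = τ Y ≫ F.map (F.map f))
    (n : ℕ) {X Y : A} (f : X ⟶ Y) :
    pwMap F n (F.map f) ≫ cy τ n Y = cy τ n X ≫ F.map (pwMap F n f) := by
  induction n with
  | zero => exact (Category.comp_id _).trans (Category.id_comp _).symm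
  | succ n ih =>
    change F.map (pwMap F n (F.map f)) ≫ F.map (cy τ n Y) ≫ τ (pw F n Y) =
      (F.map (cy τ n X) ≫ τ (pw F n X)) ≫ F.map (F.map (pwMap F n f))
    rw [← F.map_comp_assoc, ih, F.map_comp_assoc, hτ, Category.assoc]

/-- The two ways of moving the last strand to the front. -/
theorem cy_sh (hτ : ∀ {Y Y' : A} (f : Y ⟶ Y'), F.map (F.map f) ≫ τ Y' = τ Y ≫ F.map (F.map f))
    (n : ℕ) (X : A) :
    sh n (F.obj X) ≫ pwMap F n (τ X) ≫ cy τ n (F.obj X) =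
      cy τ (n + 1) X ≫ F.map (sh n X) := by
  induction n with
  | zero =>
    change 𝟙 _ ≫ τ X ≫ 𝟙 _ = (F.map (𝟙 _) ≫ τ X) ≫ F.map (𝟙 _)
    simp
  | succ n ih =>
    change F.map (sh n (F.obj X)) ≫ F.map (pwMap F n (τ X)) ≫
      F.map (cy τ n (F.obj X)) ≫ τ (pw F n (F.obj X)) =
      (F.map (cy τ (n + 1) X) ≫ τ (pw F (n + 1) X)) ≫ F.map (F.map (sh n X))
    rw [← F.map_comp_assoc, ← F.map_comp_assoc, Category.assoc, ih, F.map_comp_assoc,
      Category.assoc]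
    congr 1
    exact hτ (sh n X)

/-- The reversal of the strands. -/
def rv : ∀ (n : ℕ) (Y : A), pw F n Y ⟶ pw F n Y
  | 0, Y => 𝟙 Y
  | n + 1, Y => sh n Y ≫ cy τ n Y ≫ F.map (rv n Y)

theorem rv_iso (hiso : ∀ Y, IsIso (τ Y)) (n : ℕ) (Y : A) : IsIso (rv τ n Y) := by
  induction n with
  | zero => exact inferInstanceAs (IsIso (𝟙 Y))
  | succ n ih =>
    have := sh_iso (F := F) n Y
    have := cy_iso τ hiso n Y
    exact inferInstanceAs (IsIso (sh n Y ≫ cy τ n Y ≫ F.map (rv τ n Y)))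

theorem rv_nat (hτ : ∀ {Y Y' : A} (f : Y ⟶ Y'), F.map (F.map f) ≫ τ Y' = τ Y ≫ F.map (F.map f))
    (n : ℕ) {X Y : A} (f : X ⟶ Y) :
    pwMap F n f ≫ rv τ n Y = rv τ n X ≫ pwMap F n f := by
  induction n with
  | zero => exact (Category.comp_id _).trans (Category.id_comp _).symm
  | succ n ih =>
    change pwMap F (n + 1) f ≫ sh n Y ≫ cy τ n Y ≫ F.map (rv τ n Y) =
      (sh n X ≫ cy τ n X ≫ F.map (rv τ n X)) ≫ F.map (pwMap F n f)
    rw [← Category.assoc, sh_nat, Category.assoc, ← Category.assoc (pwMap F n (F.map f)),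
      cy_nat τ hτ, Category.assoc, ← F.map_comp, ih, F.map_comp]
    simp only [Category.assoc]

end powers

section der

variable {A : Type u} [Category.{v} A] [Abelian A] [HasExt.{w} A] [EnoughProjectives A]
  {F : A ⥤ A} [F.Additive] [PreservesFiniteLimits F] [PreservesFiniteColimits F]
  {d : F ⟶ 𝟭 A} (𝔇 : Der F d) (hF : ∀ N, d.app N = 0 → d.app (F.obj N) = 0)

omit [EnoughProjectives A] in
theorem h0_mk₀ {X Y : A} (f : X ⟶ Y) : Ext.homEquiv₀ (Ext.mk₀ f) = f := by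
  apply (Ext.mk₀_bijective X Y).1
  rw [Ext.mk₀_homEquiv₀_apply]

/-- `D^n x` as a morphism. -/
noncomputable def Dv : ∀ (n : ℕ) {N M : A} (_ : d.app N = 0) (_ : d.app M = 0), Ext N M n →
    (pw F n N ⟶ M)
  | 0, _, _, _, _, x => Ext.homEquiv₀ x
  | n + 1, N, _, hN, hM, x => sh n N ≫ Dv n (hF _ hN) hM (𝔇.D hN hM n x)

theorem Dv_eq_zero_iff (n : ℕ) {N M : A} (hN : d.app N = 0) (hM : d.app M = 0) (x : Ext N M n) :
    DZero 𝔇 hF n hN hM x ↔ Dv 𝔇 hF n hN hM x = 0 := by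
  induction n generalizing N with
  | zero =>
    change x = 0 ↔ Ext.homEquiv₀ x = 0
    constructor
    · intro h
      rw [h]
      exact map_zero (Ext.addEquiv₀ (X := N) (Y := M))
    · intro h
      rw [← Ext.mk₀_homEquiv₀_apply x, h, Ext.mk₀_zero]
  | succ n ih =>
    change DZero 𝔇 hF n (hF _ hN) hM (𝔇.D hN hM n x) ↔
      sh n N ≫ Dv 𝔇 hF n (hF _ hN) hM (𝔇.D hN hM n x) = 0
    rw [ih]
    have := sh_iso (F := F) n N
    constructor
    · intro h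
      rw [h, comp_zero]
    · intro h
      rwa [← cancel_epi (sh (F := F) n N), comp_zero]

theorem D_post (n : ℕ) {N M M' : A} (hN : d.app N = 0) (hM : d.app M = 0) (hM' : d.app M' = 0)
    (x : Ext N M (n + 1)) (g : M ⟶ M') :
    𝔇.D hN hM' n (post x g) = post (𝔇.D hN hM n x) g := 𝔇.right₀ hN hM hM' n x g

theorem D_pre (n : ℕ) {N N' M : A} (hN : d.app N = 0) (hN' : d.app N' = 0) (hM : d.app M = 0)
    (f : N ⟶ N') (x : Ext N' M (n + 1)) :
    𝔇.D hN hM n (pre f x) = pre (F.map f) (𝔇.D hN' hM n x) := 𝔇.left₀ hN hN' hM f n x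

theorem Dv_post (n : ℕ) {N M M' : A} (hN : d.app N = 0) (hM : d.app M = 0)
    (hM' : d.app M' = 0) (x : Ext N M n) (g : M ⟶ M') :
    Dv 𝔇 hF n hN hM' (post x g) = Dv 𝔇 hF n hN hM x ≫ g := by
  induction n generalizing N with
  | zero =>
    obtain ⟨f, rfl⟩ := (Ext.mk₀_bijective _ _).2 x
    change Ext.homEquiv₀ ((Ext.mk₀ f).comp (Ext.mk₀ g) (add_zero 0)) =
      Ext.homEquiv₀ (Ext.mk₀ f) ≫ g
    rw [Ext.mk₀_comp_mk₀, h0_mk₀, h0_mk₀]
  | succ n ih =>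
    change sh n N ≫ Dv 𝔇 hF n (hF _ hN) hM' (𝔇.D hN hM' n (post x g)) =
      (sh n N ≫ Dv 𝔇 hF n (hF _ hN) hM (𝔇.D hN hM n x)) ≫ g
    rw [D_post 𝔇 n hN hM hM', ih, Category.assoc]

theorem Dv_pre (n : ℕ) {N N' M : A} (hN : d.app N = 0) (hN' : d.app N' = 0)
    (hM : d.app M = 0) (f : N ⟶ N') (x : Ext N' M n) :
    Dv 𝔇 hF n hN hM (pre f x) = pwMap F n f ≫ Dv 𝔇 hF n hN' hM x := by
  induction n generalizing N N' with
  | zero =>
    obtain ⟨g, rfl⟩ := (Ext.mk₀_bijective _ _).2 x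
    change Ext.homEquiv₀ ((Ext.mk₀ f).comp (Ext.mk₀ g) (add_zero 0)) =
      f ≫ Ext.homEquiv₀ (Ext.mk₀ g)
    rw [Ext.mk₀_comp_mk₀, h0_mk₀, h0_mk₀]
  | succ n ih =>
    change sh n N ≫ Dv 𝔇 hF n (hF _ hN) hM (𝔇.D hN hM n (pre f x)) =
      pwMap F (n + 1) f ≫ sh n N' ≫ Dv 𝔇 hF n (hF _ hN') hM (𝔇.D hN' hM n x)
    rw [D_pre 𝔇 n hN hN' hM, ih (hF _ hN) (hF _ hN'), ← Category.assoc, ← sh_nat,
      Category.assoc]

variable (τ : ∀ Y : A, F.obj (F.obj Y) ⟶ F.obj (F.obj Y))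
  (hτ : ∀ {Y Y' : A} (f : Y ⟶ Y'), F.map (F.map f) ≫ τ Y' = τ Y ≫ F.map (F.map f))

/-- `D (F z) = τ · F (D z)`, hereditarily. -/
def Good : ∀ (n : ℕ) {N M : A} (_ : d.app N = 0) (_ : d.app M = 0), Ext N M n → Prop
  | 0, _, _, _, _, _ => True
  | n + 1, N, _, hN, hM, z =>
    𝔇.D (hF _ hN) (hF _ hM) n (z.mapExactFunctor F) =
      pre (τ N) ((𝔇.D hN hM n z).mapExactFunctor F) ∧ Good n (hF _ hN) hM (𝔇.D hN hM n z)

include hτ in
/-- naturality of `τ` on classes -/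
theorem ext_tau (n : ℕ) {N M : A} (z : Ext N M n) :
    post ((z.mapExactFunctor F).mapExactFunctor F) (τ M) =
      pre (τ N) ((z.mapExactFunctor F).mapExactFunctor F) := by
  let θ : F ⋙ F ⟶ F ⋙ F := { app := τ, naturality := fun _ _ f => hτ f }
  have h := nat' (F := F ⋙ F) (G := F ⋙ F) θ z
  have h2 : z.mapExactFunctor (F ⋙ F) = (z.mapExactFunctor F).mapExactFunctor F :=
    ext_map_comp F F n z
  rw [h2] at h
  exact h

theorem pre_add {X Y Z : A} {n : ℕ} (f : X ⟶ Y) (x y : Ext Y Z n) :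
    pre f (x + y) = pre f x + pre f y := Ext.comp_add _ _ _ _

theorem pre_zsmul {X Y Z : A} {n : ℕ} (f : X ⟶ Y) (c : ℤ) (x : Ext Y Z n) :
    pre f (c • x) = c • pre f x := ext_comp_zsmul _ _ _ _

theorem map_zsmul' {X Y : A} {n : ℕ} (c : ℤ) (x : Ext X Y n) :
    (c • x).mapExactFunctor F = c • x.mapExactFunctor F :=
  map_zsmul (F.mapExtAddHom X Y n) c x

theorem good_add (n : ℕ) {N M : A} (hN : d.app N = 0) (hM : d.app M = 0) (x y : Ext N M n)
    (hx : Good 𝔇 hF τ n hN hM x) (hy : Good 𝔇 hF τ n hN hM y) :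
    Good 𝔇 hF τ n hN hM (x + y) := by
  induction n generalizing N with
  | zero => trivial
  | succ n ih =>
    obtain ⟨h1, h2⟩ := hx
    obtain ⟨h3, h4⟩ := hy
    refine ⟨?_, ?_⟩
    · rw [Ext.mapExactFunctor_add, map_add, map_add, h1, h3, Ext.mapExactFunctor_add, pre_add]
    · rw [map_add]
      exact ih _ _ _ h2 h4

theorem good_zsmul (n : ℕ) {N M : A} (hN : d.app N = 0) (hM : d.app M = 0) (c : ℤ)
    (x : Ext N M n) (hx : Good 𝔇 hF τ n hN hM x) : Good 𝔇 hF τ n hN hM (c • x) := by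
  induction n generalizing N with
  | zero => trivial
  | succ n ih =>
    obtain ⟨h1, h2⟩ := hx
    refine ⟨?_, ?_⟩
    · rw [map_zsmul', map_zsmul, map_zsmul, h1, map_zsmul', pre_zsmul]
    · rw [map_zsmul]
      exact ih _ _ h2

include hτ in
theorem good_pre (n : ℕ) {N N' M : A} (hN : d.app N = 0) (hN' : d.app N' = 0)
    (hM : d.app M = 0) (f : N ⟶ N') (x : Ext N' M n) (hx : Good 𝔇 hF τ n hN' hM x) :
    Good 𝔇 hF τ n hN hM (pre f x) := by
  induction n generalizing N N' with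
  | zero => trivial
  | succ n ih =>
    obtain ⟨h1, h2⟩ := hx
    refine ⟨?_, ?_⟩
    · rw [map_pre, D_pre 𝔇 n (hF _ hN) (hF _ hN') (hF _ hM), h1, D_pre 𝔇 n hN hN' hM, map_pre,
        pre_pre, pre_pre, hτ]
    · rw [D_pre 𝔇 n hN hN' hM]
      exact ih (hF _ hN) (hF _ hN') _ _ h2

theorem good_post (n : ℕ) {N M M' : A} (hN : d.app N = 0) (hM : d.app M = 0)
    (hM' : d.app M' = 0) (x : Ext N M n) (g : M ⟶ M') (hx : Good 𝔇 hF τ n hN hM x) :
    Good 𝔇 hF τ n hN hM' (post x g) := by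
  induction n generalizing N with
  | zero => trivial
  | succ n ih =>
    obtain ⟨h1, h2⟩ := hx
    refine ⟨?_, ?_⟩
    · rw [map_post, D_post 𝔇 n (hF _ hN) (hF _ hM) (hF _ hM'), h1, D_post 𝔇 n hN hM hM',
        map_post, pre_post]
    · rw [D_post 𝔇 n hN hM hM']
      exact ih (hF _ hN) _ h2

/-- The Leibniz rule with a degree one class on the left. -/
theorem D_mul (n : ℕ) {N N' M : A} (hN : d.app N = 0) (hN' : d.app N' = 0) (hM : d.app M = 0)
    (x : Ext N N' 1) (y : Ext N' M (n + 1)) :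
    𝔇.D hN hM (n + 1) (x.comp y (add_comm 1 (n + 1))) =
      (-1 : ℤ) • (x.mapExactFunctor F).comp (𝔇.D hN' hM n y) (add_comm 1 n) +
      (𝔇.D hN hN' 0 x).comp y (zero_add (n + 1)) := by
  have h2 := 𝔇.leib hN hN' hM 0 n x y
  have key : ∀ (j : ℕ) (hj : 0 + 1 + n = j) (hj' : 1 + (n + 1) = j + 1),
      𝔇.D hN hM j (x.comp y hj') =
      ((-1 : ℤ) ^ (0 + 1)) • (x.mapExactFunctor F).comp (𝔇.D hN' hM n y) hj +
      (𝔇.D hN hN' 0 x).comp y (by omega) := by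
    intro j hj hj'
    subst hj
    exact h2
  have h3 := key (n + 1) (by omega) (by omega)
  have h4 : ((-1 : ℤ) ^ (0 + 1)) = -1 := by norm_num
  rw [h4] at h3
  exact h3

/-- every class of degree zero is a morphism -/
theorem comp_deg0 {X Y Z : A} {n : ℕ} (x : Ext X Y 0) (y : Ext Y Z n) :
    x.comp y (zero_add n) = pre (Ext.homEquiv₀ x) y := by
  unfold pre
  rw [Ext.mk₀_homEquiv₀_apply]

include hτ in
theorem good_ext1 (hleib : ∀ Y, d.app (F.obj Y) = τ Y ≫ F.map (d.app Y))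
    {N M : A} (hN : d.app N = 0) (hM : d.app M = 0) (x : Ext N M 1) :
    Good 𝔇 hF τ 1 hN hM x := by
  refine ⟨?_, trivial⟩
  obtain ⟨Y, j, q, w, hS, rfl⟩ := exists_ses (fun X Y x => ext_factor 0 x) x
  -- the map `φ`
  have : Mono j := hS.mono_f
  have hSF : ((ShortComplex.mk j q w).map F).ShortExact := hS.map_of_exact F
  have wF : F.map j ≫ F.map q = 0 := by rw [← F.map_comp, w, F.map_zero]
  have hSF' : (ShortComplex.mk (F.map j) (F.map q) wF).ShortExact := hSF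
  have : Epi (F.map q) := hSF'.epi_g
  have h1 : d.app Y ≫ q = 0 := by
    have := d.naturality q
    dsimp at this
    rw [← this, hN, comp_zero]
  let ψ : F.obj Y ⟶ M := hS.exact.lift (d.app Y) h1
  have hψ : ψ ≫ j = d.app Y := hS.exact.lift_f _ _
  have h2 : F.map j ≫ ψ = 0 := by
    rw [← cancel_mono j, Category.assoc, hψ, zero_comp]
    have := d.naturality j
    dsimp at this
    rw [this, hM, zero_comp]
  let φ : F.obj N ⟶ M := hSF'.exact.desc ψ h2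
  have hφ : F.map q ≫ φ = ψ := hSF'.exact.g_desc _ _
  have hφ' : F.map q ≫ φ ≫ j = d.app Y := by rw [← Category.assoc, hφ, hψ]
  have e1 := 𝔇.ext₁ (ShortComplex.mk j q w) hS hM hN φ hφ'
  have e2 := 𝔇.ext₁ (ShortComplex.mk (F.map j) (F.map q) wF) hSF' (hF _ hM) (hF _ hN)
    (τ N ≫ F.map φ) (by
      dsimp
      rw [hleib, ← hφ', F.map_comp, F.map_comp]
      simp only [← Category.assoc]
      rw [hτ])
  have e3 : hS.extClass.mapExactFunctor F = hSF'.extClass := Ext.mapExactFunctor_extClass F hS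
  refine (congrArg (𝔇.D (hF _ hN) (hF _ hM) 0) e3).trans ?_
  refine e2.trans ?_
  have e4 : 𝔇.D hN hM 0 hS.extClass = Ext.mk₀ φ := e1
  rw [e4, Ext.mapExactFunctor_mk₀]
  exact (Ext.mk₀_comp_mk₀ _ _).symm

include hτ in
theorem good_mul (hleib : ∀ Y, d.app (F.obj Y) = τ Y ≫ F.map (d.app Y))
    (n : ℕ) {N N' M : A} (hN : d.app N = 0) (hN' : d.app N' = 0) (hM : d.app M = 0)
    (x : Ext N N' 1) (y : Ext N' M n) (hy : Good 𝔇 hF τ n hN' hM y) :
    Good 𝔇 hF τ (n + 1) hN hM (x.comp y (add_comm 1 n)) := by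
  induction n generalizing N N' with
  | zero =>
    obtain ⟨g, rfl⟩ := (Ext.mk₀_bijective _ _).2 y
    exact good_post 𝔇 hF τ 1 hN hN' hM x g (good_ext1 𝔇 hF τ hτ hleib hN hN' x)
  | succ n ih =>
    obtain ⟨h1, h2⟩ := hy
    have hx := (good_ext1 𝔇 hF τ hτ hleib hN hN' x).1
    refine ⟨?_, ?_⟩
    · rw [Ext.mapExactFunctor_comp, D_mul 𝔇 n (hF _ hN) (hF _ hN') (hF _ hM), h1, hx,
        D_mul 𝔇 n hN hN' hM, Ext.mapExactFunctor_add, map_zsmul', pre_add, pre_zsmul,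
        Ext.mapExactFunctor_comp, Ext.mapExactFunctor_comp]
      congr 1
      · congr 1
        rw [← post_comp, ext_tau τ hτ, ← pre_comp]
      · rw [pre_comp]
    · rw [D_mul 𝔇 n hN hN' hM]
      refine good_add 𝔇 hF τ _ _ _ _ _ (good_zsmul 𝔇 hF τ _ _ _ _ _ ?_) ?_
      · exact ih (hF _ hN) (hF _ hN') _ _ h2
      · rw [comp_deg0]
        exact good_pre 𝔇 hF τ hτ (n + 1) _ _ _ _ _ ⟨h1, h2⟩

/-- Products of degree one classes. -/
inductive Prd (d : F ⟶ 𝟭 A) : ∀ {N M : A} {n : ℕ}, Ext N M n → Prop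
  | zero {N M : A} (f : N ⟶ M) : Prd d (Ext.mk₀ f)
  | cons {N N' M : A} {n : ℕ} (hN : d.app N = 0) (hN' : d.app N' = 0) (x : Ext N N' 1)
      (y : Ext N' M n) (hy : Prd d y) : Prd d (x.comp y (add_comm 1 n))

theorem Prd.map (hF : ∀ N, d.app N = 0 → d.app (F.obj N) = 0) {N M : A} {n : ℕ}
    {z : Ext N M n} (hz : Prd d z) : Prd d (z.mapExactFunctor F) := by
  induction hz with
  | zero f =>
    rw [Ext.mapExactFunctor_mk₀]
    exact Prd.zero _
  | cons hN hN' x y _ ih =>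
    rw [Ext.mapExactFunctor_comp]
    exact Prd.cons (hF _ hN) (hF _ hN') _ _ ih

include hτ in
theorem Prd.good (hleib : ∀ Y, d.app (F.obj Y) = τ Y ≫ F.map (d.app Y))
    {N M : A} {n : ℕ} {z : Ext N M n} (hz : Prd d z) (hN : d.app N = 0) (hM : d.app M = 0) :
    Good 𝔇 hF τ n hN hM z := by
  induction hz with
  | zero f => trivial
  | cons hN₀ hN' x y _ ih => exact good_mul 𝔇 hF τ hτ hleib _ hN₀ hN' hM x y (ih hN' hM)

include hτ in
/-- `D^n (F z)` for a good class `z`. -/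
theorem Dv_map (n : ℕ) {N M : A} (hN : d.app N = 0) (hM : d.app M = 0) (z : Ext N M n)
    (hz : Good 𝔇 hF τ n hN hM z) :
    Dv 𝔇 hF n (hF _ hN) (hF _ hM) (z.mapExactFunctor F) =
      cy τ n N ≫ F.map (Dv 𝔇 hF n hN hM z) := by
  induction n generalizing N with
  | zero =>
    obtain ⟨f, rfl⟩ := (Ext.mk₀_bijective _ _).2 z
    change Ext.homEquiv₀ ((Ext.mk₀ f).mapExactFunctor F) = 𝟙 _ ≫ F.map (Ext.homEquiv₀ (Ext.mk₀ f))
    rw [Ext.mapExactFunctor_mk₀, h0_mk₀, h0_mk₀, Category.id_comp]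
  | succ n ih =>
    obtain ⟨h1, h2⟩ := hz
    change sh n (F.obj N) ≫ Dv 𝔇 hF n (hF _ (hF _ hN)) (hF _ hM)
      (𝔇.D (hF _ hN) (hF _ hM) n (z.mapExactFunctor F)) =
      cy τ (n + 1) N ≫ F.map (sh n N ≫ Dv 𝔇 hF n (hF _ hN) hM (𝔇.D hN hM n z))
    rw [h1, Dv_pre 𝔇 hF n (hF _ (hF _ hN)) (hF _ (hF _ hN)) (hF _ hM), ih (hF _ hN) _ h2,
      F.map_comp, ← Category.assoc (cy τ (n + 1) N), ← cy_sh τ hτ]
    simp only [Category.assoc]

/-- the class of `S` has derivative the identity -/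
theorem D_ext1 {M Y : A} (a : F.obj M ⟶ Y) (p : Y ⟶ M) (w : a ≫ p = 0)
    (hS : (ShortComplex.mk a p w).ShortExact) (hM : d.app M = 0) (hFM : d.app (F.obj M) = 0)
    (hd : d.app Y = F.map p ≫ a) :
    𝔇.D hM hFM 0 hS.extClass = Ext.mk₀ (𝟙 (F.obj M)) :=
  𝔇.ext₁ (ShortComplex.mk a p w) hS hFM hM (𝟙 (F.obj M)) (by
    dsimp
    rw [Category.id_comp, hd])

include hF in
theorem pw_zero (n : ℕ) {M : A} (hM : d.app M = 0) : d.app (pw F n M) = 0 := by
  induction n with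
  | zero => exact hM
  | succ n ih => exact hF _ ih

theorem prd_prodP (hF : ∀ N, d.app N = 0 → d.app (F.obj N) = 0) {M Y : A} (a : F.obj M ⟶ Y)
    (p : Y ⟶ M) (w : a ≫ p = 0) (hS : (ShortComplex.mk a p w).ShortExact) (hM : d.app M = 0)
    (n : ℕ) : Prd d (prodP F a p w hS n) := by
  induction n with
  | zero => exact Prd.zero _
  | succ n ih => exact Prd.cons hM (hF _ hM) _ _ (ih.map hF)

theorem post_sub {X Y Z : A} {m : ℕ} (x : Ext X Y m) (g h : Y ⟶ Z) :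
    post x (g + (-1 : ℤ) • h) = post x g + (-1 : ℤ) • post x h := by
  unfold post
  rw [Ext.mk₀_add, Ext.comp_add, ext_mk₀_zsmul, ext_comp_zsmul]

include hτ in
theorem D_step' {M K : A} (hM : d.app M = 0) (hFM : d.app (F.obj M) = 0)
    (hFK : d.app (F.obj K) = 0)
    (hFFK : d.app (F.obj (F.obj K)) = 0) (E : Ext M (F.obj M) 1)
    (hE : 𝔇.D hM hFM 0 E = Ext.mk₀ (𝟙 (F.obj M))) (n : ℕ) (P : Ext M K n)
    (aK : F.obj K ⟶ F.obj K) (P1 : Ext M (F.obj K) (n + 1))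
    (hP1 : P1 = E.comp (P.mapExactFunctor F) (add_comm 1 n))
    (hg : 𝔇.D hFM hFFK n (P1.mapExactFunctor F) =
      pre (τ M) ((𝔇.D hM hFK n P1).mapExactFunctor F))
    (ih : 𝔇.D hM hFK n P1 = post (P.mapExactFunctor F) aK) :
    𝔇.D hM hFFK (n + 1) (E.comp (P1.mapExactFunctor F) (add_comm 1 (n + 1))) =
      post (P1.mapExactFunctor F) (𝟙 _ + (-1 : ℤ) • (τ K ≫ F.map aK)) := by
  have e2 : P1.mapExactFunctor F = (E.mapExactFunctor F).comp
      ((P.mapExactFunctor F).mapExactFunctor F) (add_comm 1 n) := by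
    rw [hP1, Ext.mapExactFunctor_comp]
  have e3 : 𝔇.D hFM hFFK n (P1.mapExactFunctor F) =
      post ((P.mapExactFunctor F).mapExactFunctor F) (τ K ≫ F.map aK) := by
    rw [hg, ih, map_post, pre_post, ← ext_tau τ hτ, post_post]
  have e4 : (𝔇.D hM hFM 0 E).comp (P1.mapExactFunctor F) (zero_add (n + 1)) =
      P1.mapExactFunctor F := by
    rw [hE, Ext.mk₀_id_comp]
  rw [D_mul 𝔇 n hM hFM hFFK, e3, e4, ← comp_post, ← e2, post_sub, post_id]
  exact add_comm _ _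

include hF hτ in
/-- `D (prodP (n+1)) = F (prodP n) · a_{n+1}`. -/
theorem D_prodP (hleib : ∀ Y, d.app (F.obj Y) = τ Y ≫ F.map (d.app Y))
    {M Y : A} (a : F.obj M ⟶ Y) (p : Y ⟶ M) (w : a ≫ p = 0)
    (hS : (ShortComplex.mk a p w).ShortExact) (hM : d.app M = 0) (hd : d.app Y = F.map p ≫ a)
    (n : ℕ) (hn : d.app (pw F (n + 1) M) = 0) :
    𝔇.D hM hn n (prodP F a p w hS (n + 1)) =
      post ((prodP F a p w hS n).mapExactFunctor F) (aa τ (-1) n M) := by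
  have hE := D_ext1 𝔇 a p w hS hM (hF _ hM) hd
  induction n with
  | zero =>
    have e1 : (prodP F a p w hS 0).mapExactFunctor F = Ext.mk₀ (𝟙 (F.obj M)) := by
      change (Ext.mk₀ (𝟙 M)).mapExactFunctor F = _
      rw [Ext.mapExactFunctor_mk₀, F.map_id]
    have e2 : prodP F a p w hS (0 + 1) = hS.extClass := by
      change hS.extClass.comp ((prodP F a p w hS 0).mapExactFunctor F) (add_comm 1 0) = _
      rw [e1]
      exact Ext.comp_mk₀_id _
    rw [e2, e1]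
    refine hE.trans ?_
    exact (Ext.comp_mk₀_id _).symm
  | succ n ih =>
    have hn' : d.app (pw F (n + 1) M) = 0 := pw_zero hF (n + 1) hM
    have hg := ((prd_prodP hF a p w hS hM (n + 1)).good 𝔇 hF τ hτ hleib hM hn').1
    exact D_step' 𝔇 τ hτ (K := pw F n M) hM (hF _ hM) hn' hn hS.extClass hE n
      (prodP F a p w hS n) (aa τ (-1) n M) (prodP F a p w hS (n + 1)) rfl hg (ih hn')

omit [Abelian A] [HasExt.{w} A] [EnoughProjectives A] in
theorem assoc_aux {X₀ X₁ X₂ X₃ X₄ X₅ : A} (a : X₀ ⟶ X₁) (b : X₁ ⟶ X₂) (c : X₂ ⟶ X₃)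
    (e : X₃ ⟶ X₄) (f : X₄ ⟶ X₅) : a ≫ (b ≫ c ≫ e) ≫ f = (a ≫ b ≫ c) ≫ e ≫ f := by
  simp only [Category.assoc]

include hτ in
/-- `D^n (prodP n)` is the antisymmetrizer, up to the reversal of the strands. -/
theorem Dv_prodP (hleib : ∀ Y, d.app (F.obj Y) = τ Y ≫ F.map (d.app Y))
    {M Y : A} (a : F.obj M ⟶ Y) (p : Y ⟶ M) (w : a ≫ p = 0)
    (hS : (ShortComplex.mk a p w).ShortExact) (hM : d.app M = 0) (hd : d.app Y = F.map p ≫ a)
    (n : ℕ) (hn : d.app (pw F n M) = 0) :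
    Dv 𝔇 hF n hM hn (prodP F a p w hS n) = rv τ n M ≫ ss τ (-1) n M := by
  induction n with
  | zero =>
    change Ext.homEquiv₀ (Ext.mk₀ (𝟙 M)) = 𝟙 M ≫ 𝟙 M
    rw [h0_mk₀, Category.comp_id]
  | succ n ih =>
    have hn' : d.app (pw F n M) = 0 := pw_zero hF n hM
    have hg := (prd_prodP hF a p w hS hM n).good 𝔇 hF τ hτ hleib hM hn'
    have h1 := D_prodP 𝔇 hF τ hτ hleib a p w hS hM hd n hn
    change sh n M ≫ Dv 𝔇 hF n (hF _ hM) hn (𝔇.D hM hn n (prodP F a p w hS (n + 1))) =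
      (sh n M ≫ cy τ n M ≫ F.map (rv τ n M)) ≫ F.map (ss τ (-1) n M) ≫ aa τ (-1) n M
    have h2 : Dv 𝔇 hF n (hF _ hM) hn (𝔇.D hM hn n (prodP F a p w hS (n + 1))) =
        (cy τ n M ≫ F.map (rv τ n M ≫ ss τ (-1) n M)) ≫ aa τ (-1) n M := by
      refine (congrArg (Dv 𝔇 hF n (hF _ hM) hn) h1).trans ?_
      refine (Dv_post 𝔇 hF n (hF _ hM) hn hn _ _).trans ?_
      refine congrArg (· ≫ aa τ (-1) n M) ?_
      refine (Dv_map 𝔇 hF τ hτ n hM hn' _ hg).trans ?_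
      rw [ih hn']
    rw [h2, F.map_comp]
    exact assoc_aux _ _ _ _ _

end der

end DNaux

section DN

variable {A : Type u} [Category.{v} A] [Abelian A] [HasExt.{w} A] [EnoughProjectives A]
  {F : A ⥤ A} [F.Additive] [PreservesFiniteLimits F] [PreservesFiniteColimits F]
  {d : F ⟶ 𝟭 A} (𝔇 : Der F d) (hF : ∀ N, d.app N = 0 → d.app (F.obj N) = 0)

/-- Row DN. -/
theorem not_dzero_prodP (τ : ∀ Y : A, F.obj (F.obj Y) ⟶ F.obj (F.obj Y))
    (hτ : ∀ {Y Y' : A} (f : Y ⟶ Y'), F.map (F.map f) ≫ τ Y' = τ Y ≫ F.map (F.map f))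
    (hiso : ∀ Y, IsIso (τ Y)) (hleib : ∀ Y, d.app (F.obj Y) = τ Y ≫ F.map (d.app Y))
    {M Y : A} (a : F.obj M ⟶ Y) (p : Y ⟶ M) (w : a ≫ p = 0)
    (hS : (ShortComplex.mk a p w).ShortExact) (hM : d.app M = 0) (hd : d.app Y = F.map p ≫ a)
    {U N : A} (hU : d.app U = 0) (hN : d.app N = 0) (u : U ⟶ M) (n : ℕ) (v : pw F n M ⟶ N)
    (h : pwMap F n u ≫ ss τ (-1) n M ≫ v ≠ 0) :
    ¬ DZero 𝔇 hF n hU hN
      ((Ext.mk₀ u).comp ((prodP F a p w hS n).comp (Ext.mk₀ v) (add_zero n)) (zero_add n)) := by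
  have hn : d.app (pw F n M) = 0 := DNaux.pw_zero hF n hM
  have h1 : DNaux.Dv 𝔇 hF n hU hN
      ((Ext.mk₀ u).comp ((prodP F a p w hS n).comp (Ext.mk₀ v) (add_zero n)) (zero_add n)) =
      DNaux.rv τ n U ≫ pwMap F n u ≫ ss τ (-1) n M ≫ v := by
    refine (DNaux.Dv_pre 𝔇 hF n hU hM hN u (post (prodP F a p w hS n) v)).trans ?_
    rw [DNaux.Dv_post 𝔇 hF n hM hn hN, DNaux.Dv_prodP 𝔇 hF τ hτ hleib a p w hS hM hd n hn,
      ← Category.assoc, ← Category.assoc, DNaux.rv_nat τ hτ]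
    simp only [Category.assoc]
  rw [DNaux.Dv_eq_zero_iff, h1]
  intro h0
  have := DNaux.rv_iso (F := F) τ hiso n U
  exact h ((cancel_epi (DNaux.rv τ n U)).1 (h0.trans comp_zero.symm))

end DN

end Pool.Agent.MUP
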