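import Pool.Agent.MUG.B1
import Pool.Agent.MUG.ExtSes

/-! Rows TY1, TY2, TY3 (helper90): extensions of a given type for a Leibniz family. -/

open CategoryTheory MonoidalCategory Limits Abelian

universe v u

namespace Pool.Agent.MUP

open Pool.Agent.MUG

section PB

variable {A : Type u} [Category.{v} A] [Abelian A]

/-- Pullback of a short exact sequence along a map into its third term. -/
theorem pullback_shortExact {K P N M : A} (i : K ⟶ P) (p : P ⟶ N) (w : i ≫ p = 0)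
    (hS : (ShortComplex.mk i p w).ShortExact) (f : M ⟶ N) :
    ∃ (Y : A) (j : K ⟶ Y) (q : Y ⟶ M) (w' : j ≫ q = 0) (g : Y ⟶ P),
      (ShortComplex.mk j q w').ShortExact ∧ j ≫ g = i ∧ g ≫ p = q ≫ f := by
  have : Mono i := hS.mono_f
  have : Epi p := hS.epi_g
  have hj1 : pullback.lift i (0 : K ⟶ M) (by simp [w]) ≫ pullback.fst p f = i :=
    pullback.lift_fst _ _ _
  have hj2 : pullback.lift i (0 : K ⟶ M) (by simp [w]) ≫ pullback.snd p f = 0 :=
    pullback.lift_snd _ _ _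
  refine ⟨pullback p f, pullback.lift i 0 (by simp [w]), pullback.snd p f, hj2,
    pullback.fst p f, ?_, hj1, pullback.condition⟩
  have hepi : Epi (pullback.snd p f) := inferInstance
  refine ShortComplex.ShortExact.mk' ?_ (mono_of_mono_fac hj1) hepi
  refine ShortComplex.exact_of_f_is_kernel _ ?_
  refine KernelFork.IsLimit.ofι _ _ (fun g' hg' => ?_) ?_ ?_
  · exact hS.exact.lift (g' ≫ pullback.fst p f) (by
      dsimp
      rw [Category.assoc, pullback.condition, reassoc_of% hg', zero_comp])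
  · intro Z g' hg'
    apply pullback.hom_ext
    · rw [Category.assoc, hj1]
      exact hS.exact.lift_f _ _
    · rw [Category.assoc, hj2, comp_zero, hg']
  · intro Z g' hg' m hm
    have e1 : m ≫ i = g' ≫ pullback.fst p f := by
      rw [← hm, Category.assoc, hj1]
    rw [← cancel_mono i, e1]
    exact (hS.exact.lift_f _ _).symm

end PB

section TY

variable {k : Type*} [Field k] {C : Type u} [Category.{v} C] [Abelian C] [Linear k C]
  [MonoidalCategory C] [MonoidalPreadditive C] [MonoidalLinear k C] [RigidCategory C]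
  [BraidedCategory C]

omit [Linear k C] [MonoidalLinear k C] in
/-- Row TY3. -/
theorem type_tensor {V B Y N K : C} (L : Leib V) (i : B ⟶ Y) (p : Y ⟶ N) (w : i ≫ p = 0)
    (hS : (ShortComplex.mk i p w).ShortExact) (φ : V ⊗ N ⟶ B)
    (hd : L.d Y = (V ◁ p) ≫ φ ≫ i) (hK : L.d K = 0) :
    ∃ w' : (i ▷ K) ≫ (p ▷ K) = 0, (ShortComplex.mk (i ▷ K) (p ▷ K) w').ShortExact ∧
      L.d (Y ⊗ K) = (V ◁ (p ▷ K)) ≫ ((α_ V N K).inv ≫ (φ ▷ K)) ≫ (i ▷ K) := by
  refine ⟨by rw [← comp_whiskerRight, w, MonoidalPreadditive.zero_whiskerRight],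
    hS.map_of_exact (tensorRight K), ?_⟩
  rw [L.leib, hK, hd]
  simp only [MonoidalPreadditive.whiskerLeft_zero, comp_zero, add_zero, comp_whiskerRight,
    Category.assoc, associator_inv_naturality_middle_assoc]

omit [Linear k C] [MonoidalLinear k C] in
/-- Row TY2. -/
theorem type_push {V B Y N B' : C} (L : Leib V) (i : B ⟶ Y) (p : Y ⟶ N) (w : i ≫ p = 0)
    (hS : (ShortComplex.mk i p w).ShortExact) (φ : V ⊗ N ⟶ B)
    (hd : L.d Y = (V ◁ p) ≫ φ ≫ i) (r : B ⟶ B') (hB' : L.d B' = 0) :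
    ∃ (Y' : C) (i' : B' ⟶ Y') (p' : Y' ⟶ N) (w' : i' ≫ p' = 0),
      (ShortComplex.mk i' p' w').ShortExact ∧ L.d Y' = (V ◁ p') ≫ (φ ≫ r) ≫ i' := by
  obtain ⟨Y', j, q, w', g, hS', h1, h2⟩ := pushout_shortExact i p w hS r
  refine ⟨Y', j, q, w', hS', ?_⟩
  have hT := hS'.map_of_exact (tensorLeft V)
  have := hT.epi_g
  have hp : Epi (V ◁ p) := by
    have : Epi p := hS.epi_g
    exact inferInstanceAs (Epi ((tensorLeft V).map p))
  rw [← sub_eq_zero]
  set h := L.d Y' - (V ◁ q) ≫ (φ ≫ r) ≫ j with hh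
  have e1 : (V ◁ j) ≫ h = 0 := by
    rw [hh, Preadditive.comp_sub, L.nat, hB', zero_comp, ← whiskerLeft_comp_assoc, w']
    simp
  have e2 : (V ◁ g) ≫ h = 0 := by
    rw [hh, Preadditive.comp_sub, L.nat, hd, ← whiskerLeft_comp_assoc, h2]
    simp only [Category.assoc]
    rw [h1, sub_self]
  obtain ⟨h', e3⟩ : ∃ h' : V ⊗ N ⟶ Y', h = (V ◁ q) ≫ h' :=
    ⟨hT.exact.desc h e1, (hT.exact.g_desc h e1).symm⟩
  have e4 : h' = 0 := by
    have e6 : (V ◁ g) ≫ (V ◁ q) ≫ h' = 0 := by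
      rw [← e3]; exact e2
    rw [← whiskerLeft_comp_assoc, h2] at e6
    rw [← cancel_epi (V ◁ p), comp_zero]
    exact e6
  rw [e3, e4, comp_zero]

omit [Linear k C] [MonoidalLinear k C] in
/-- Row TY1. -/
theorem type_of {V M Y N : C} (L : Leib V) (i : M ⟶ Y) (p : Y ⟶ N) (w : i ≫ p = 0)
    (hS : (ShortComplex.mk i p w).ShortExact) (hM : L.d M = 0) (hN : L.d N = 0)
    (φ : V ⊗ N ⟶ M) (hd : L.d Y = (V ◁ p) ≫ φ ≫ i) :
    ∃ (φ' : V ⟶ M ⊗ Nᘁ) (Y' : C) (i' : M ⊗ Nᘁ ⟶ Y') (p' : Y' ⟶ 𝟙_ C) (w' : i' ≫ p' = 0),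
      (φ ≠ 0 → φ' ≠ 0) ∧ (ShortComplex.mk i' p' w').ShortExact ∧
      L.d Y' = (V ◁ p') ≫ (ρ_ V).hom ≫ φ' ≫ i' := by
  have hN' : L.d (Nᘁ) = 0 := leib_rdual L hN
  obtain ⟨w1, hS1, hd1⟩ := type_tensor L i p w hS φ hd hN'
  obtain ⟨Y', j, q, w', g, hS', h1, h2⟩ :=
    pullback_shortExact (i ▷ Nᘁ) (p ▷ Nᘁ) w1 hS1 (η_ N (Nᘁ))
  have := hS'.mono_f
  refine ⟨tensorRightHomEquiv V N (Nᘁ) M φ, Y', j, q, w', ?_, hS', ?_⟩
  · intro hφ h0
    apply hφ
    apply (tensorRightHomEquiv V N (Nᘁ) M).injective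
    rw [h0]
    simp [tensorRightHomEquiv]
  · rw [← sub_eq_zero]
    set h := L.d Y' - (V ◁ q) ≫ (ρ_ V).hom ≫ tensorRightHomEquiv V N (Nᘁ) M φ ≫ j with hh
    have hi : Mono (i ▷ Nᘁ) := hS1.mono_f
    have e1 : h ≫ q = 0 := by
      rw [hh, Preadditive.sub_comp, ← L.nat, leib_unit, comp_zero]
      simp [w']
    have e2 : h ≫ g = 0 := by
      rw [hh, Preadditive.sub_comp, ← L.nat, hd1]
      simp only [Category.assoc]
      rw [h1, ← whiskerLeft_comp_assoc, h2]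
      simp [tensorRightHomEquiv]
    obtain ⟨h', e3⟩ : ∃ h' : V ⊗ Y' ⟶ M ⊗ Nᘁ, h = h' ≫ j :=
      ⟨hS'.exact.lift h e1, (hS'.exact.lift_f h e1).symm⟩
    have e4 : h' = 0 := by
      rw [← cancel_mono (i ▷ Nᘁ), zero_comp, ← h1]
      rw [e3, Category.assoc] at e2
      exact e2
    rw [e3, e4, zero_comp]

end TY

end Pool.Agent.MUP
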