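import Pool.Agent.MUP.B1p
import Pool.Agent.MUP.TY
import Pool.Agent.MUG.EE
import Pool.Agent.MUG.B8c

/-!
# Row E21 (helper53)

For a nonzero Leibniz family `d` with `t^m = 0` there is an extension `0 → V ⊗ M → Y → M → 0` with
`d_M = 0`, `1 ⊆ M` and `d_Y = (V ◁ p) ≫ a`.
-/

open CategoryTheory MonoidalCategory Limits Abelian

universe w v u

namespace Pool.Agent.MUP

open Pool.Agent.MUG

section Fin

variable {k : Type*} [Field k] {C : Type u} [Category.{v} C] [Abelian C] [Linear k C]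
  [MonoidalCategory C] [MonoidalPreadditive C] [MonoidalLinear k C] [RigidCategory C]
  [BraidedCategory C]

/-- An object with `d ≠ 0` and `d (V ◁ d) = 0`. -/
theorem exists_d_sq_zero {V : C} (L : Leib V)
    (hn : ∃ m, ∀ Y, tt (F := tensorLeft V) L.d m Y = 0) (hne : L.Nonzero) :
    ∃ Y : C, L.d Y ≠ 0 ∧ (V ◁ L.d Y) ≫ L.d Y = 0 := by
  classical
  obtain ⟨Z, hZ⟩ := hne
  have hf := Nat.find_spec hn
  have hmin := fun m => @Nat.find_min _ _ hn m
  set m := Nat.find hn with hm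
  clear_value m
  match m, hf, hmin with
  | 0, hf, _ =>
    exfalso
    apply hZ
    have h1 : 𝟙 Z = 0 := hf Z
    have h2 : L.d Z = L.d Z ≫ 𝟙 Z := (Category.comp_id _).symm
    rw [h2, h1, comp_zero]
  | 1, hf, _ =>
    exfalso
    apply hZ
    have h1 : (V ◁ 𝟙 Z) ≫ L.d Z = 0 := hf Z
    rw [MonoidalCategory.whiskerLeft_id, Category.id_comp] at h1
    exact h1
  | m + 2, hf, hmin =>
    have h3 := hmin (m + 1) (by omega)
    push Not at h3
    obtain ⟨Y, hY⟩ := h3
    let f : pw (tensorLeft V) m Y ⟶ Y := tt (F := tensorLeft V) L.d m Y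
    have e1 : (V ◁ f) ≫ L.d Y ≠ 0 := hY
    have e2 : (V ◁ ((V ◁ f) ≫ L.d Y)) ≫ L.d Y = 0 := hf Y
    have hfac : Limits.factorThruImage f ≫ Limits.image.ι f = f := Limits.image.fac f
    have e3 : (V ◁ Limits.factorThruImage f) ≫ L.d (Limits.image f) ≫ Limits.image.ι f = (V ◁ f) ≫ L.d Y := by
      rw [← L.nat, ← whiskerLeft_comp_assoc, hfac]
    refine ⟨Limits.image f, ?_, ?_⟩
    · intro h0
      apply e1
      rw [← e3, h0, zero_comp, comp_zero]
    · have he : Epi (V ◁ Limits.factorThruImage f) :=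
        inferInstanceAs (Epi ((tensorLeft V).map (Limits.factorThruImage f)))
      have he' : Epi (V ◁ (V ◁ Limits.factorThruImage f)) :=
        inferInstanceAs (Epi ((tensorLeft V).map (V ◁ Limits.factorThruImage f)))
      rw [← cancel_epi (V ◁ (V ◁ Limits.factorThruImage f)), ← cancel_mono (Limits.image.ι f), comp_zero,
        zero_comp]
      rw [← e2, ← e3]
      simp only [Category.assoc, whiskerLeft_comp]
      rw [L.nat]

/-- Row E21: the extension `e`. -/
theorem exists_e (hC : IsFinite k C) {V : C} [Simple V] (L : Leib V) (hV : L.d V = 0)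
    (hn : ∃ m, ∀ Y, tt (F := tensorLeft V) L.d m Y = 0) (hne : L.Nonzero) :
    ∃ (M Y : C) (a : V ⊗ M ⟶ Y) (p : Y ⟶ M) (w : a ≫ p = 0) (u : 𝟙_ C ⟶ M),
      (ShortComplex.mk a p w).ShortExact ∧ Mono u ∧ L.d M = 0 ∧ L.d Y = (V ◁ p) ≫ a := by
  have hT : TensorSub L.T := tensorSub_T' L
  obtain ⟨Y, hY, hY2⟩ := exists_d_sq_zero L hn hne
  -- the image and the cokernel of `d_Y`
  have hM : L.d (Limits.image (L.d Y)) = 0 := by
    have he : Epi (V ◁ Limits.factorThruImage (L.d Y)) :=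
      inferInstanceAs (Epi ((tensorLeft V).map (Limits.factorThruImage (L.d Y))))
    rw [← cancel_epi (V ◁ Limits.factorThruImage (L.d Y)), ← cancel_mono (Limits.image.ι (L.d Y)), comp_zero,
      zero_comp, Category.assoc, ← L.nat, ← whiskerLeft_comp_assoc, Limits.image.fac, hY2]
  have w0 : Limits.image.ι (L.d Y) ≫ cokernel.π (L.d Y) = 0 := by
    rw [← cancel_epi (Limits.factorThruImage (L.d Y)), ← Category.assoc, Limits.image.fac, comp_zero,
      cokernel.condition]
  have hN : L.d (cokernel (L.d Y)) = 0 := by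
    have he : Epi (V ◁ cokernel.π (L.d Y)) :=
      inferInstanceAs (Epi ((tensorLeft V).map (cokernel.π (L.d Y))))
    rw [← cancel_epi (V ◁ cokernel.π (L.d Y)), L.nat, cokernel.condition, comp_zero]
  have hS0 : (ShortComplex.mk (Limits.image.ι (L.d Y)) (cokernel.π (L.d Y)) w0).ShortExact := by
    refine ShortComplex.ShortExact.mk' ?_ inferInstance inferInstance
    refine ShortComplex.exact_of_g_is_cokernel _ ?_
    refine CokernelCofork.IsColimit.ofπ _ _ (fun g hg => cokernel.desc (L.d Y) g ?_) ?_ ?_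
    · have hg' : Limits.image.ι (L.d Y) ≫ g = 0 := hg
      rw [← Limits.image.fac (L.d Y), Category.assoc, hg', comp_zero]
    · intro Z g hg
      exact cokernel.π_desc _ _ _
    · intro Z g hg m hm
      rw [← cancel_epi (cokernel.π (L.d Y)), cokernel.π_desc]
      exact hm
  obtain ⟨φ, hφ⟩ := exists_phi L _ _ w0 hS0 hN hM
  have hφ0 : φ ≠ 0 := by
    intro h0
    apply hY
    rw [← hφ, h0, zero_comp, comp_zero]
  obtain ⟨φ', Y', i', p', w', hφ', hS', hd'⟩ := type_of L _ _ w0 hS0 hM hN φ hφ.symm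
  have hφ'm : Mono φ' := mono_of_nonzero_from_simple (hφ' hφ0)
  obtain ⟨I, j, hI, hj⟩ := exists_unit_projIn hC L.T
  have hB : L.T (Limits.image (L.d Y) ⊗ (cokernel (L.d Y))ᘁ) := hT.tensor hM (hT.rdual hN)
  have hVI : ProjIn L.T (V ⊗ I) := hI.tensorL L.T hV
  have hmono : Mono (φ' ▷ I) := inferInstanceAs (Mono ((tensorRight I).map φ'))
  obtain ⟨r, hr⟩ := MUE64.ProjIn.mono_split (tsub L.T) ((projIn_iff L.T _).1 hVI)
    (hT.tensor hB hI.1) (φ' ▷ I) hmono
  obtain ⟨w1, hS1, hd1⟩ := type_tensor L i' p' w' hS' ((ρ_ V).hom ≫ φ')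
    (by rw [hd', Category.assoc]) hI.1
  obtain ⟨Y2, a, p2, w2, hS2, hd2⟩ := type_push L _ _ w1 hS1 _ hd1 r hVI.1
  refine ⟨I, Y2, a, p2 ≫ (λ_ I).hom, by rw [reassoc_of% w2, zero_comp], j, ?_, hj, hI.1, ?_⟩
  · refine ShortComplex.shortExact_of_iso ?_ hS2
    exact ShortComplex.isoMk (Iso.refl _) (Iso.refl _) (λ_ I) (by simp) (by simp)
  · rw [hd2]
    simp only [Category.assoc, comp_whiskerRight, whiskerLeft_comp]
    rw [reassoc_of% hr]
    simp

end Fin

end Pool.Agent.MUP
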