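import Pool.Agent.MUP.X1a
import Pool.Agent.MUP.PRIM
import Pool.Agent.MUP.NIL
import Pool.Agent.MUP.NIL2
import Pool.Agent.MUP.E21
import Pool.Agent.MUP.TR
import Pool.Agent.MUP.PW
import Pool.Agent.MUP.DN

/-!
# Row X1 (helper45): a class in `Ext¹` between objects of `F` with nonzero derivative
-/

open CategoryTheory MonoidalCategory Limits Abelian

universe w v u

namespace Pool.Agent.MUP

open Pool.Agent.MUG

namespace X1

variable {k : Type*} [Field k] {C : Type u} [Category.{v} C] [Abelian C] [Linear k C]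
  [MonoidalCategory C] [MonoidalPreadditive C] [MonoidalLinear k C] [RigidCategory C]
  [BraidedCategory C]

omit [Abelian C] [Linear k C] [MonoidalPreadditive C] [MonoidalLinear k C] [RigidCategory C]
  [BraidedCategory C] in
theorem pwT_nat (V : C) (n : ℕ) {Y Y' : C} (f : Y ⟶ Y') :
    (pw (tensorLeft V) n (𝟙_ C) ◁ f) ≫ pwT V n Y' = pwT V n Y ≫ pwMap (tensorLeft V) n f := by
  induction n with
  | zero => exact leftUnitor_naturality f
  | succ n ih =>
    change ((V ⊗ pw (tensorLeft V) n (𝟙_ C)) ◁ f) ≫ (α_ V (pw (tensorLeft V) n (𝟙_ C)) Y').hom ≫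
      (V ◁ pwT V n Y') = ((α_ V (pw (tensorLeft V) n (𝟙_ C)) Y).hom ≫ (V ◁ pwT V n Y)) ≫
        (V ◁ pwMap (tensorLeft V) n f)
    rw [associator_naturality_right_assoc, ← whiskerLeft_comp, ih, whiskerLeft_comp,
      Category.assoc]

omit [Abelian C] [Linear k C] [MonoidalPreadditive C] [MonoidalLinear k C] [RigidCategory C]
  [BraidedCategory C] in
theorem pwT_unit (V : C) (n : ℕ) :
    pwT V n (𝟙_ C) = (ρ_ (pw (tensorLeft V) n (𝟙_ C))).hom := by
  induction n with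
  | zero => exact unitors_equal
  | succ n ih =>
    change (α_ V (pw (tensorLeft V) n (𝟙_ C)) (𝟙_ C)).hom ≫ (V ◁ pwT V n (𝟙_ C)) =
      (ρ_ (V ⊗ pw (tensorLeft V) n (𝟙_ C))).hom
    rw [ih, rightUnitor_tensor_hom]

end X1

open X1

variable {k : Type*} [Field k] {C : Type u} [Category.{v} C] [Abelian C] [Linear k C]
  [MonoidalCategory C] [MonoidalPreadditive C] [MonoidalLinear k C] [RigidCategory C]
  [BraidedCategory C]

/-- Row X1: a class in `Ext¹` between objects of `F` with nonzero derivative. -/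
theorem exists_D_ne [IsAlgClosed k] [CharZero k] [HasExt.{w} C] (hC : IsFinite k C)
    (hF : FGC.{w} k C) (F : ObjectProperty C) [TensorSub F] (hss : Semisimp F)
    (hft : ∀ S, F S → Transp S) {V : C} [Simple V] (hV : F V) (L : Leib V) (hL : LComm L)
    (hne : L.Nonzero) (𝔇 : Der (tensorLeft V) L.natTrans) :
    ∃ (N M : C) (_ : F N) (_ : F M) (hN : L.d N = 0) (hM : L.d M = 0) (x : Ext N M 1),
      𝔇.D (N := N) (M := M) hN hM 0 x ≠ 0 := by
  classical
  by_contra hno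
  have := hC.enough
  have h1s := hC.unit
  have hTF : TensorSub F := inferInstance
  obtain ⟨N₁, hN₁⟩ := prim_plus hC (hft V hV) L hL hne
  have hn := nilp hC (hft V hV) L hL
  have hI : ∀ N, F N → L.d N = 0 := fun N hN => leib_semisimp_of_nilp hC L hn F hss N hN
  have hVd : L.d V = 0 := hI V hV
  have hleib : ∀ Y, L.d (V ⊗ Y) = swp V V Y ≫ (V ◁ L.d Y) := by
    intro Y
    rw [L.leib, hVd, MonoidalPreadditive.zero_whiskerRight, comp_zero, zero_add]
    simp [swp]
  have hFd : ∀ N, L.natTrans.app N = 0 → L.natTrans.app ((tensorLeft V).obj N) = 0 := by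
    intro N hN
    change L.d (V ⊗ N) = 0
    have hN' : L.d N = 0 := hN
    rw [hleib, hN', MonoidalPreadditive.whiskerLeft_zero, comp_zero]
  have hIF : ∀ N, F N → F ((tensorLeft V).obj N) := fun N hN => hTF.tensor hV hN
  have H : ∀ (N M : C) (hN : F N) (hM : F M) (x : Ext N M 1),
      𝔇.D (hI _ hN) (hI _ hM) 0 x = 0 := by
    intro N M hN hM x
    by_contra hx
    exact hno ⟨N, M, hN, hM, hI N hN, hI M hM, x, hx⟩
  obtain ⟨M, Y, a, p, w, u, hS, hu, hM, hdY⟩ := exists_e hC L hVd hn hne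
  -- the finitely many targets
  obtain ⟨m, S, hSall⟩ := hC.simples
  have hT : ∀ i, F (S i) → L.natTrans.app (S i ⊗ M) = 0 := by
    intro i hi
    change L.d (S i ⊗ M) = 0
    rw [L.leib, hI _ hi, hM]
    simp
  have hb : ∀ i, ∃ N₀ : ℕ, ∀ hi : F (S i), ∀ n, N₀ < n → ∀ x : Ext (𝟙_ C) (S i ⊗ M) n,
      DZero 𝔇 hFd n (hI _ hTF.unit) (hT i hi) x := by
    intro i
    by_cases hi : F (S i)
    · obtain ⟨N₀, hN₀⟩ := eventually_dzero hC hF L 𝔇 hFd F hI hIF hTF.unit H (hT i hi)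
      exact ⟨N₀, fun _ => hN₀⟩
    · exact ⟨0, fun h => absurd h hi⟩
  choose Nb hNb using hb
  let n : ℕ := (∑ i, Nb i) + 1
  have hnb : ∀ i, Nb i < n := fun i => Nat.lt_succ_of_le
    (Finset.single_le_sum (fun _ _ => Nat.zero_le _) (Finset.mem_univ i))
  -- the antisymmetrizer is detected by a simple quotient
  have hsv : sv V (-1) n (𝟙_ C) ≠ 0 := sv_ne_zero hC (hft V hV V) N₁ hN₁ n
  obtain ⟨S', r', hS', hFS', hr'⟩ := exists_simple_detect hC F (fun hA _ q hq => hss q hA hq)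
    (pw_mem F hV n) _ hsv
  obtain ⟨i, ⟨θ⟩⟩ := hSall S' hS'
  have hFi : F (S i) := hTF.sub θ.inv hFS'
  let r : pw (tensorLeft V) n (𝟙_ C) ⟶ S i := r' ≫ θ.hom
  have hr : sv V (-1) n (𝟙_ C) ≫ r ≠ 0 := by
    intro h
    apply hr'
    rw [← cancel_mono θ.hom, zero_comp, Category.assoc]
    exact h
  have hiso : IsIso (pwT V n M) := pwT_iso V n M
  let v : pw (tensorLeft V) n M ⟶ S i ⊗ M := inv (pwT V n M) ≫ (r ▷ M)
  have hτn : ∀ {Y Y' : C} (f : Y ⟶ Y'), (tensorLeft V).map ((tensorLeft V).map f) ≫ swp V V Y' =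
      swp V V Y ≫ (tensorLeft V).map ((tensorLeft V).map f) := by
    intro Y Y' f
    change (V ◁ (V ◁ f)) ≫ swp V V Y' = swp V V Y ≫ (V ◁ (V ◁ f))
    unfold swp
    rw [associator_inv_naturality_right_assoc, whisker_exchange_assoc,
      associator_naturality_right]
    simp only [Category.assoc]
  refine not_dzero_prodP 𝔇 hFd (fun Y => swp V V Y) hτn ?_ hleib a p w hS hM hdY
    (hI _ hTF.unit) (hT i hFi) u n v ?_ ?_
  · intro Y
    unfold swp
    infer_instance
  · intro h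
    have e1 : pwMap (tensorLeft V) n u = (ρ_ (pw (tensorLeft V) n (𝟙_ C))).inv ≫
        (pw (tensorLeft V) n (𝟙_ C) ◁ u) ≫ pwT V n M := by
      rw [pwT_nat, pwT_unit, Iso.inv_hom_id_assoc]
    have e2 : pwT V n M ≫ sv V (-1) n M ≫ inv (pwT V n M) = sv V (-1) n (𝟙_ C) ▷ M := by
      rw [← Category.assoc, ← sv_pwT, Category.assoc, IsIso.hom_inv_id, Category.comp_id]
    have e3 : pwMap (tensorLeft V) n u ≫ sv V (-1) n M ≫ v =
        (sv V (-1) n (𝟙_ C) ≫ r) ≫ (ρ_ (S i)).inv ≫ (S i ◁ u) := by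
      rw [e1]
      calc ((ρ_ (pw (tensorLeft V) n (𝟙_ C))).inv ≫ (pw (tensorLeft V) n (𝟙_ C) ◁ u) ≫
            pwT V n M) ≫ sv V (-1) n M ≫ v
          = (ρ_ (pw (tensorLeft V) n (𝟙_ C))).inv ≫ (pw (tensorLeft V) n (𝟙_ C) ◁ u) ≫
            (pwT V n M ≫ sv V (-1) n M ≫ inv (pwT V n M)) ≫ (r ▷ M) := by
            simp only [v, Category.assoc]
        _ = _ := by
            rw [e2, ← comp_whiskerRight, whisker_exchange, ← rightUnitor_inv_naturality_assoc]
    have e4 : (sv V (-1) n (𝟙_ C) ≫ r) ≫ (ρ_ (S i)).inv ≫ (S i ◁ u) = 0 := by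
      rw [← e3]
      exact h
    have hm : Mono (S i ◁ u) := inferInstanceAs (Mono ((tensorLeft (S i)).map u))
    apply hr
    rw [← cancel_mono ((ρ_ (S i)).inv ≫ (S i ◁ u)), e4, zero_comp]
  · exact hNb i hFi n (hnb i) _

end Pool.Agent.MUP
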