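import Pool.Agent.MUP.Defs
import Pool.Agent.MUG.B1

/-!
# Row B1' (helper5)

The objects on which a Leibniz family vanishes form a tensor subcategory.
-/

open CategoryTheory MonoidalCategory Limits Abelian

universe w v u

namespace Pool.Agent.MUP

open Pool.Agent.MUG

section Fin

variable {k : Type*} [Field k] {C : Type u} [Category.{v} C] [Abelian C] [Linear k C]
  [MonoidalCategory C] [MonoidalPreadditive C] [MonoidalLinear k C] [RigidCategory C]
  [BraidedCategory C]

/-- Row B1': `{d = 0}` is a tensor subcategory. -/
theorem tensorSub_T' {V : C} (L : Leib V) : TensorSub L.T where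
  unit := leib_unit L
  tensor h1 h2 := leib_tensor L h1 h2
  rdual h := leib_rdual L h
  ldual h := leib_ldual L h
  sub := by
    intro X Y f _ h
    have h' : L.d Y = 0 := h
    show L.d X = 0
    rw [← cancel_mono f, ← L.nat, h', comp_zero, zero_comp]
  quot := by
    intro X Y f _ h
    have h' : L.d X = 0 := h
    show L.d Y = 0
    have : Epi (V ◁ f) := inferInstanceAs (Epi ((tensorLeft V).map f))
    rw [← cancel_epi (V ◁ f), L.nat, h', comp_zero, zero_comp]
  biprod := by
    intro X Y h1 h2
    have h1' : L.d X = 0 := h1
    have h2' : L.d Y = 0 := h2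
    show L.d (X ⊞ Y) = 0
    ext
    · rw [← L.nat, h1', comp_zero, zero_comp]
    · rw [← L.nat, h2', comp_zero, zero_comp]

end Fin

end Pool.Agent.MUP
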