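import Pool.Agent.MUG.B8c
import Pool.Agent.MUP.Defs
import Pool.Agent.MUP.TY
import Pool.Agent.MUP.B1p

/-! Row X2 (helper87): from a class in `Ext¹` with nonzero derivative to the object `X`. -/

open CategoryTheory MonoidalCategory Limits Abelian

universe w w' v v' u u'

attribute [local instance] CategoryTheory.Abelian.hasFiniteBiproducts

namespace Pool.Agent.MUP

open Pool.Agent.MUG

section Fin

/-- In a semisimple class closed under quotients, monomorphisms into an object of the class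
split. -/
theorem exists_retraction_of_semisimp {C : Type u} [Category.{v} C] [Abelian C]
    {F : ObjectProperty C} (hss : Semisimp F) {V B : C} (hB : F B) (f : V ⟶ B) [Mono f] :
    ∃ r : B ⟶ V, f ≫ r = 𝟙 V := by
  obtain ⟨s, hs⟩ := hss (cokernel.π f) hB inferInstance
  have hex : (ShortComplex.mk f (cokernel.π f) (cokernel.condition f)).Exact :=
    ShortComplex.exact_cokernel f
  have h1 : (𝟙 B - cokernel.π f ≫ s) ≫ cokernel.π f = 0 := by
    rw [Preadditive.sub_comp, Category.assoc, hs, Category.comp_id, Category.id_comp, sub_self]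
  haveI : Mono (ShortComplex.mk f (cokernel.π f) (cokernel.condition f)).f := ‹Mono f›
  refine ⟨hex.lift (𝟙 B - cokernel.π f ≫ s) h1, ?_⟩
  have h2 : hex.lift (𝟙 B - cokernel.π f ≫ s) h1 ≫ f = 𝟙 B - cokernel.π f ≫ s :=
    hex.lift_f _ h1
  rw [← cancel_mono f, Category.assoc, h2, Preadditive.comp_sub, Category.comp_id,
    cokernel.condition_assoc, zero_comp, sub_zero, Category.id_comp]

variable {k : Type*} [Field k] {C : Type u} [Category.{v} C] [Abelian C] [Linear k C]
  [MonoidalCategory C] [MonoidalPreadditive C] [MonoidalLinear k C] [RigidCategory C]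
  [BraidedCategory C]

/-- Row X2: from such a class to the object `X`. -/
theorem exists_X_of_D_ne [HasExt.{w} C] (hC : IsFinite k C) (F : ObjectProperty C)
    [TensorSub F] (hss : Semisimp F) {V : C} [Simple V] (hV : F V) (L : Leib V)
    (𝔇 : Der (tensorLeft V) L.natTrans) {N M : C} (hFN : F N) (hFM : F M) (hN : L.d N = 0)
    (hM : L.d M = 0) (x : Ext N M 1) (hx : 𝔇.D (N := N) (M := M) hN hM 0 x ≠ 0) :
    ∃ (X : C) (j : V ⟶ X) (e : X ⟶ 𝟙_ C) (w : j ≫ e = 0), (ShortComplex.mk j e w).ShortExact ∧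
      L.d X = (V ◁ e) ≫ (ρ_ V).hom ≫ j := by
  have := hC.enough
  obtain ⟨Y, i, p, w, hS, rfl⟩ := exists_ses (fun X Y x => ext_factor 0 x) x
  obtain ⟨φ, hφ⟩ := exists_phi L i p w hS hN hM
  have h1 := 𝔇.ext₁ (ShortComplex.mk i p w) hS hM hN φ hφ
  have hφ0 : φ ≠ 0 := by
    intro h0
    apply hx
    rw [h1, h0, Ext.mk₀_zero]
  obtain ⟨φ', Y', i', p', w', hφ', hS', hd'⟩ := type_of L i p w hS hM hN φ hφ.symm
  have hφ'0 := hφ' hφ0
  have : Mono φ' := mono_of_nonzero_from_simple hφ'0
  have hFB : F (M ⊗ Nᘁ) := TensorSub.tensor hFM (TensorSub.rdual hFN)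
  obtain ⟨r, hr⟩ := exists_retraction_of_semisimp hss hFB φ'
  have hLV : L.d V = 0 := by
    have h2 : L.d (M ⊗ Nᘁ) = 0 := (tensorSub_T' L).tensor hM ((tensorSub_T' L).rdual hN)
    have h3 := L.nat φ'
    rw [h2, comp_zero] at h3
    exact (cancel_mono φ').1 (h3.symm.trans zero_comp.symm)
  obtain ⟨X, j, e, we, hSX, hdX⟩ := type_push L i' p' w' hS' ((ρ_ V).hom ≫ φ')
    (by rw [hd', Category.assoc]) r hLV
  refine ⟨X, j, e, we, hSX, ?_⟩
  rw [hdX]
  simp only [Category.assoc]
  rw [reassoc_of% hr]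

end Fin

end Pool.Agent.MUP
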