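import Pool.Agent.MUP.NIL
import Pool.Agent.MUP.X1
import Pool.Agent.MUP.X2
import Pool.Agent.MUP.PT
import Pool.Agent.MUG.T2

/-!
# Row A+ (helper85): FGC passes from `A` to `{d = 0}`, simple `V` in a transparent fusion category
-/

open CategoryTheory MonoidalCategory Limits Abelian

universe w w' v v' u u'

namespace Pool.Agent.MUP

open Pool.Agent.MUG

section Transfer

variable {k : Type*} [Field k]
  {A : Type u} [Category.{v} A] [Abelian A] [Linear k A] [MonoidalCategory A]
  [MonoidalPreadditive A] [MonoidalLinear k A] [RigidCategory A] [HasExt.{w} A]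
  {T : Type u'} [Category.{v'} T] [Abelian T] [Linear k T] [MonoidalCategory T]
  [MonoidalPreadditive T] [MonoidalLinear k T] [RigidCategory T] [HasExt.{w'} T]

omit [RigidCategory A] [RigidCategory T] [MonoidalLinear k T] [MonoidalPreadditive T] in
/-- The case `d = 0`. -/
theorem fgc_of_zero [BraidedCategory A] [RigidCategory A] [RigidCategory T]
    [MonoidalPreadditive T] [MonoidalLinear k T] (hA : IsFinite k A)
    (hF : FGC.{w} k A) {V : A} (L : Leib V)
    [EnoughProjectives T] (i : T ⥤ A) [i.Additive] [i.Linear k] [PreservesFiniteLimits i]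
    [PreservesFiniteColimits i] [i.Monoidal] [i.Full] [i.Faithful]
    (hess : ∀ Y : A, L.d Y = 0 ↔ i.essImage Y) (hz : ∀ Y, L.d Y = 0) : FGC.{w'} k T := by
  have := hA.enough
  refine fgc_transfer i (𝟙_ A) (𝟙 _) (hbij_of i (𝟙_ A) (𝟙 _) ?_ ?_) hF
  · intro Q hQ
    refine proj_of L i hess (𝟙_ A) (fun P hP => ?_) Q hQ
    have aux : ∀ f : V ⊗ P ⟶ P, f = 0 → IsIso (cokernel.π f) := by
      rintro _ rfl; infer_instance
    have h3 : IsIso (cokernel.π (L.d P)) := aux _ (hz P)
    have ret : Retract (𝟙_ A ⊗ cokernel (L.d P)) P :=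
      { i := (λ_ _).hom ≫ inv (cokernel.π (L.d P))
        r := cokernel.π (L.d P) ≫ (λ_ _).inv
        retract := by simp }
    exact ret.projective
  · intro N M
    have h2 : Function.Bijective (fun f : N ⟶ M => i.map f) :=
      ⟨i.map_injective, i.map_surjective⟩
    constructor
    · intro f g h
      dsimp at h
      simp only [id_whiskerRight, Category.id_comp] at h
      exact h2.1 ((cancel_epi _).1 h)
    · intro g
      obtain ⟨f, hf⟩ := h2.2 ((λ_ (i.obj N)).inv ≫ g)
      refine ⟨f, ?_⟩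
      dsimp at hf ⊢
      rw [hf]
      simp

/-- Row A+. -/
theorem theoremA_plus [IsAlgClosed k] [CharZero k] [BraidedCategory A] (hA : IsFinite k A)
    (hF : FGC.{w} k A) (F : ObjectProperty A) [TensorSub F] (hss : Semisimp F)
    (hft : ∀ S, F S → Transp S) {V : A} [Simple V] (hV : F V) (L : Leib V) (hL : LComm L)
    [EnoughProjectives T] (i : T ⥤ A) [i.Additive] [i.Linear k] [PreservesFiniteLimits i]
    [PreservesFiniteColimits i] [i.Monoidal] [i.Full] [i.Faithful]
    (hess : ∀ Y : A, L.d Y = 0 ↔ i.essImage Y) : FGC.{w'} k T := by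
  have := hA.enough
  have hd0 : ∀ N : T, L.d (i.obj N) = 0 := fun N => (hess _).2 ⟨N, ⟨Iso.refl _⟩⟩
  by_cases hne : L.Nonzero
  · obtain ⟨𝔇⟩ := exists_der (tensorLeft V) L.natTrans
    have hn := nilp hA (hft V hV) L hL
    obtain ⟨N, M, hFN, hFM, hN, hM, x, hx⟩ := exists_D_ne hA hF F hss hft hV L hL hne 𝔇
    obtain ⟨X, j, e, w, hS, hd⟩ := exists_X_of_D_ne hA F hss hV L 𝔇 hFN hFM hN hM x hx
    obtain ⟨W, ε, hproj, hbij⟩ := exists_WW hA L hL hn j e w hS hd
    refine fgc_transfer i W ε (hbij_of i W ε ?_ ?_) hF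
    · intro Q hQ
      exact proj_of L i hess W hproj Q hQ
    · intro N M
      have h1 := hbij (i.obj N) (i.obj M) (hd0 N) (hd0 M)
      have h2 : Function.Bijective (fun f : N ⟶ M => i.map f) :=
        ⟨i.map_injective, i.map_surjective⟩
      exact h1.comp h2
  · refine fgc_of_zero hA hF L i hess (fun Y => ?_)
    by_contra h
    exact hne ⟨Y, h⟩

end Transfer

end Pool.Agent.MUP
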