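import Pool.Agent.MUP.Res
import Pool.Agent.MUG.ThmJ
import Pool.Agent.MUG.FB
import Pool.Agent.MUG.T2
import Pool.Agent.MUG.Q5

/-!
# The base case relative to a tensor subcategory (helper14)

`fg_base_rel` is `fg_base'` of helper64 with `Z` replaced by a tensor subcategory `A` of `Z`, and
`joinProj_rel` is Theorem J inside `A`.
-/

open CategoryTheory MonoidalCategory Limits Abelian

universe w v u

set_option linter.unusedSectionVars false

namespace Pool.Agent.MUP

open Pool.Agent.MUG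

section BR

variable {k : Type*} [Field k] {Z : Type u} [Category.{v} Z] [Abelian Z] [Linear k Z]
  [MonoidalCategory Z] [MonoidalPreadditive Z] [MonoidalLinear k Z] [RigidCategory Z]
  [BraidedCategory Z]

/-- `D ⊓ D'` semisimple and `P' ⊗ P` projective in `A` for `P` projective in `D` and `P'`
projective in `D'`; then FGC passes from `A` to `D`. -/
theorem fg_base_rel (hZ : IsFinite k Z) (A : ObjectProperty Z) (hA : TensorSub A)
    (hF : FG k A hA) (D D' : ObjectProperty Z) [hD : TensorSub D] [hD' : TensorSub D']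
    (hDA : D ≤ A) (hDA' : D' ≤ A)
    (hE : ∀ {X Y : Z}, D X → D' X → D Y → D' Y → ∀ p : X ⟶ Y, Epi p → ∃ s, s ≫ p = 𝟙 Y)
    (hdir : ∀ P P', ProjIn D P → ProjIn D' P' → ProjIn A (P' ⊗ P)) : FG k D hD := by
  have finA := finite_sub hZ A
  have finD := finite_sub hZ D
  have finD' := finite_sub hZ D'
  have enA := finA.enough
  have enD := finD.enough
  have enD' := finD'.enough
  obtain ⟨W', e', hcov⟩ := exists_cover finD'
  let ε : W'.obj ⟶ 𝟙_ Z := e'.hom
  have he' : Epi e' := hcov.epi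
  have hε : Epi ε := sub_epi_hom D' e'
  have hone : Simple (𝟙_ Z) := hZ.unit
  have hε0 : ε ≠ 0 := by
    intro h0
    have h1 : (𝟙 (𝟙_ Z)) = 0 := by
      rw [← cancel_epi ε, h0, zero_comp, zero_comp]
    exact id_nonzero (𝟙_ Z) h1
  have hcov' : ∀ {M : Z} (m : M ⟶ W'.obj), Mono m → m ≫ ε ≠ 0 → Epi m := by
    intro M m hm hne
    have hM : D' M := hD'.sub m W'.property
    let m' : (⟨M, hM⟩ : D'.FullSubcategory) ⟶ W' := ObjectProperty.homMk m
    have hm' : Mono m' := sub_mono_of D' m' hm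
    have hiso := cover_sub finD' hcov m' (by
      intro h0
      exact hne (congrArg (fun t => t.hom) h0))
    exact sub_epi_hom D' m'
  have hfac : ∀ {Y : Z}, D Y → ∀ h : W'.obj ⟶ Y, ∃ g, ε ≫ g = h := fun hY h =>
    MUE64.fac_of_cover (tsub D) (tsub D') hE W'.property ε hε0 hε hcov' hY h
  let W : A.FullSubcategory := ⟨W'.obj, hDA' _ W'.property⟩
  let e : W ⟶ 𝟙_ A.FullSubcategory := ObjectProperty.homMk ε
  let i := ObjectProperty.ιOfLE hDA
  have hExt : HasExt.{max u v} D.FullSubcategory := HasExt.standard _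
  have hExt' : HasExt.{max u v} A.FullSubcategory := HasExt.standard _
  unfold FG at hF
  change FGC.{max u v} k D.FullSubcategory
  refine fgc_transfer i W e (hbij_of i W e ?_ ?_) hF
  · intro P hP
    refine projective_of_projIn A _ ?_
    exact hdir P.obj W'.obj (projIn_of_projective D P hP) (projIn_of_projective D' W' hcov.proj)
  · intro N M
    have hepi : Epi ((ε ▷ N.obj) ≫ (λ_ N.obj).hom) := epi_comp _ _
    constructor
    · intro f g hfg
      have h0 := congrArg (fun t => t.hom) hfg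
      have h1 : ((ε ▷ N.obj) ≫ (λ_ N.obj).hom) ≫ f.hom =
          ((ε ▷ N.obj) ≫ (λ_ N.obj).hom) ≫ g.hom := by
        rw [Category.assoc, Category.assoc]
        exact h0
      ext
      exact (cancel_epi _).1 h1
    · intro h
      obtain ⟨l, hl⟩ := hfac (hD.tensor M.property (hD.rdual N.property))
        (tensorRightHomEquiv W'.obj N.obj (N.objᘁ) M.obj h.hom)
      let l' : 𝟙_ Z ⊗ N.obj ⟶ M.obj := (tensorRightHomEquiv (𝟙_ Z) N.obj (N.objᘁ) M.obj).symm l
      have hl' : ε ▷ N.obj ≫ l' = h.hom := by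
        rw [← tensorRightHomEquiv_symm_naturality, hl, Equiv.symm_apply_apply]
      refine ⟨ObjectProperty.homMk ((λ_ N.obj).inv ≫ l'), ?_⟩
      ext
      change (ε ▷ N.obj) ≫ (λ_ N.obj).hom ≫ (λ_ N.obj).inv ≫ l' = h.hom
      rw [Iso.hom_inv_id_assoc, hl']

/-- Theorem J inside the tensor subcategory `A`. -/
theorem joinProj_rel (hZ : IsFinite k Z) (A K : ObjectProperty Z) [hA : TensorSub A]
    [hK : TensorSub K] (hKA : K ≤ A) (hAE : A ≤ centralizer (K ⊓ centralizer K)) (P P' : Z)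
    (hP : ProjIn K P) (hP' : ProjIn (A ⊓ centralizer K) P') : ProjIn A (P ⊗ P') := by
  have hfin := finite_sub hZ A
  have hKr : TensorSub (fun Y : A.FullSubcategory => K Y.obj) := tensorSub_restrict A K
  have hc : ∀ Y : A.FullSubcategory, centralizer (fun Y : A.FullSubcategory => K Y.obj) Y ↔
      centralizer K Y.obj := by
    intro Y
    constructor
    · intro h X hX
      have h1 := h ⟨X, hKA X hX⟩ hX
      exact congrArg (fun t => t.hom) h1
    · intro h X hX
      ext
      exact h X.obj hX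
  have hJ := joinProj hfin (fun Y : A.FullSubcategory => K Y.obj)
    (⟨P, hKA _ hP.1⟩ : A.FullSubcategory) (⟨P', hP'.1.1⟩ : A.FullSubcategory) ?_ ?_
  · refine ⟨hA.tensor (hKA _ hP.1) hP'.1.1, ?_⟩
    intro Y Y' f hf hY hY' g
    have hE : ∀ Y : A.FullSubcategory, centralizer
        ((fun Y : A.FullSubcategory => K Y.obj) ⊓
          centralizer (fun Y : A.FullSubcategory => K Y.obj)) Y := by
      intro Y X hX
      ext
      exact hAE Y.obj Y.property X.obj ⟨hX.1, (hc X).1 hX.2⟩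
    let f' : (⟨Y, hY⟩ : A.FullSubcategory) ⟶ ⟨Y', hY'⟩ := ObjectProperty.homMk f
    let g' : (⟨P, hKA _ hP.1⟩ : A.FullSubcategory) ⊗ (⟨P', hP'.1.1⟩ : A.FullSubcategory) ⟶
      ⟨Y', hY'⟩ := ObjectProperty.homMk g
    obtain ⟨h, hh⟩ := hJ.2 f' (sub_epi_of A f' hf) (hE _) (hE _) g'
    exact ⟨h.hom, congrArg (fun t => t.hom) hh⟩
  · refine ⟨hP.1, ?_⟩
    intro Y Y' f hf hY hY' g
    obtain ⟨h, hh⟩ := hP.2 f.hom (sub_epi_hom A f) hY hY' g.hom
    exact ⟨ObjectProperty.homMk h, ObjectProperty.hom_ext _ hh⟩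
  · refine ⟨(hc _).2 hP'.1.2, ?_⟩
    intro Y Y' f hf hY hY' g
    obtain ⟨h, hh⟩ := hP'.2 f.hom (sub_epi_hom A f) ⟨Y.property, (hc Y).1 hY⟩
      ⟨Y'.property, (hc Y').1 hY'⟩ g.hom
    exact ⟨ObjectProperty.homMk h, ObjectProperty.hom_ext _ hh⟩

end BR

end Pool.Agent.MUP
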