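import Pool.Agent.MUP.Defs
import Pool.Agent.MUG.DCF
import Pool.Agent.MUG.PI

/-! Row DCF of the skeleton: the double centralizer of a symmetric fusion subcategory
(helper27). -/

open CategoryTheory MonoidalCategory Limits Abelian

universe w v u

attribute [local instance] CategoryTheory.Abelian.hasFiniteBiproducts

namespace Pool.Agent.MUP

open Pool.Agent.MUG

set_option linter.unusedSectionVars false

section DCF

variable {k : Type*} [Field k] {Z : Type u} [Category.{v} Z] [Abelian Z] [Linear k Z]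
  [MonoidalCategory Z] [MonoidalPreadditive Z] [MonoidalLinear k Z] [RigidCategory Z]

/-- Sums of copies of the unit are in every tensor subcategory. -/
theorem mem_sum_unit (F : ObjectProperty Z) [hF : TensorSub F] (n : ℕ) :
    F (⨁ (fun _ : Fin n => 𝟙_ Z)) := by
  have : PreservesBiproduct (fun _ : Fin n => 𝟙_ F.FullSubcategory) F.ι := inferInstance
  have e : F.ι.obj (⨁ (fun _ : Fin n => 𝟙_ F.FullSubcategory)) ≅
      ⨁ (fun _ : Fin n => 𝟙_ Z) := F.ι.mapBiproduct (fun _ : Fin n => 𝟙_ F.FullSubcategory)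
  exact hF.quot e.hom (⨁ (fun _ : Fin n => 𝟙_ F.FullSubcategory)).property

theorem iso_unit_of_simple (h1 : Simple (𝟙_ Z)) {T : Z} (hT : Simple T) {n : ℕ}
    (e : T ≅ ⨁ (fun _ : Fin n => 𝟙_ Z)) : Nonempty (T ≅ 𝟙_ Z) := by
  classical
  by_cases hn : n = 0
  · subst hn
    exfalso
    apply Simple.not_isZero T
    have h2 : 𝟙 (⨁ (fun _ : Fin 0 => 𝟙_ Z)) = 0 := by
      apply biproduct.hom_ext
      intro j
      exact j.elim0
    have h3 : 𝟙 T = 0 := by
      rw [← e.hom_inv_id, ← Category.id_comp e.inv, h2, zero_comp, comp_zero]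
    exact (IsZero.iff_id_eq_zero T).2 h3
  · let j : Fin n := ⟨0, Nat.pos_of_ne_zero hn⟩
    let f : 𝟙_ Z ⟶ T := biproduct.ι (fun _ : Fin n => 𝟙_ Z) j ≫ e.inv
    have hf : f ≠ 0 := by
      intro h
      have h2 : biproduct.ι (fun _ : Fin n => 𝟙_ Z) j = 0 := by
        rw [← cancel_mono e.inv, zero_comp]
        exact h
      have h3 := biproduct.ι_π_self (fun _ : Fin n => 𝟙_ Z) j
      rw [h2, zero_comp] at h3
      exact id_nonzero (𝟙_ Z) h3.symm
    have : IsIso f := isIso_of_hom_simple hf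
    exact ⟨(asIso f).symm⟩

variable [BraidedCategory Z]

/-- `F^^ = F`, relative to a loop with transparent images. -/
theorem dcf_of_pi [IsAlgClosed k] (hZ : IsFinite k Z)
    (hnd : ∀ X : Z, (∀ Y, Comm X Y) → ∃ n : ℕ, Nonempty (X ≅ ⨁ (fun _ : Fin n => 𝟙_ Z)))
    (hpi : ∃ (M X : Z) (ℓ : LoopData M), ℓ.map X ≠ 0 ∧
      ∀ U Y : Z, (U ◁ ℓ.map Y) ≫ c2 U Y = U ◁ ℓ.map Y)
    (F : ObjectProperty Z) [hF : TensorSub F] (hss : Semisimp F) (hsym : F ≤ centralizer F) :
    centralizer (centralizer F) ≤ F := by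
  obtain ⟨M, X, ℓ, hne, hTR⟩ := hpi
  refine DCF.dcf_of_loop (k := k) hZ F (fun {A B} hA _ p hp => hss p hA hp)
    (fun A B hA hB => hsym A hA B hB) ?_ ?_ ℓ hne hTR
  · intro W hW
    obtain ⟨n, ⟨e⟩⟩ := hnd W hW
    exact hF.quot e.inv (mem_sum_unit F n)
  · intro T hT hTt
    obtain ⟨n, ⟨e⟩⟩ := hnd T hTt
    exact iso_unit_of_simple hZ.unit hT e

/-- `F^^ = F` in every characteristic. -/
theorem dcf_any [IsAlgClosed k] (hZ : IsFinite k Z)
    (hnd : ∀ X : Z, (∀ Y, Comm X Y) → ∃ n : ℕ, Nonempty (X ≅ ⨁ (fun _ : Fin n => 𝟙_ Z)))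
    (F : ObjectProperty Z) [TensorSub F] (hss : Semisimp F) (hsym : F ≤ centralizer F) :
    centralizer (centralizer F) ≤ F :=
  dcf_of_pi hZ hnd (PI.exists_loop hZ) F hss hsym

/-- Row DCF: the double centralizer of a symmetric fusion subcategory. -/
theorem dcf [IsAlgClosed k] [CharZero k] (hZ : IsFinite k Z)
    (hnd : ∀ X : Z, (∀ Y, Comm X Y) → ∃ n : ℕ, Nonempty (X ≅ ⨁ (fun _ : Fin n => 𝟙_ Z)))
    (F : ObjectProperty Z) [TensorSub F] (hss : Semisimp F) (hsym : F ≤ centralizer F) :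
    centralizer (centralizer F) ≤ F :=
  dcf_any hZ hnd F hss hsym

end DCF

end Pool.Agent.MUP
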