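import Pool.Agent.MUP.Defs

/-!
# Degrees of natural families (helper78)

`BF` is a functor together with isomorphisms `F (X ⊗ Y) ≅ X ⊗ F Y`; `Deg m f` says that the
natural family `f` has degree at most `m - 1`.
-/

open CategoryTheory MonoidalCategory Limits

universe v u

set_option linter.unusedSectionVars false
set_option linter.unusedVariables false

namespace Pool.Agent.MUP

open Pool.Agent.MUG

namespace DG

section Mon

variable {C : Type u} [Category.{v} C] [MonoidalCategory C] [BraidedCategory C]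

/-- The swap `X (X' Y) ≅ X' (X Y)`. -/
def sw (X X' Y : C) : X ⊗ (X' ⊗ Y) ≅ X' ⊗ (X ⊗ Y) :=
  (α_ X X' Y).symm ≪≫ whiskerRightIso (β_ X X') Y ≪≫ α_ X' X Y

theorem sw_hom (X X' Y : C) : (sw X X' Y).hom =
    (α_ X X' Y).inv ≫ ((β_ X X').hom ▷ Y) ≫ (α_ X' X Y).hom := by
  simp [sw]

theorem sw_inv (X X' Y : C) : (sw X X' Y).inv =
    (α_ X' X Y).inv ≫ ((β_ X X').inv ▷ Y) ≫ (α_ X X' Y).hom := by
  simp [sw]

@[reassoc]
theorem sw_nat (X X' : C) {Y Y' : C} (f : Y ⟶ Y') :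
    (X ◁ (X' ◁ f)) ≫ (sw X X' Y').hom = (sw X X' Y).hom ≫ (X' ◁ (X ◁ f)) := by
  rw [sw_hom, sw_hom]
  simp only [Category.assoc]
  rw [associator_inv_naturality_right_assoc, ← associator_naturality_right,
    whisker_exchange_assoc]

@[reassoc]
theorem sw_nat_left {X Z : C} (g : X ⟶ Z) (X' Y : C) :
    (g ▷ (X' ⊗ Y)) ≫ (sw Z X' Y).hom = (sw X X' Y).hom ≫ (X' ◁ (g ▷ Y)) := by
  rw [sw_hom, sw_hom]
  simp only [Category.assoc]
  rw [← associator_naturality_middle, associator_inv_naturality_left_assoc,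
    ← comp_whiskerRight_assoc, ← comp_whiskerRight_assoc, BraidedCategory.braiding_naturality_left]

@[reassoc]
theorem sw_nat_mid (X : C) {X' Z : C} (g : X' ⟶ Z) (Y : C) :
    (X ◁ (g ▷ Y)) ≫ (sw X Z Y).hom = (sw X X' Y).hom ≫ (g ▷ (X ⊗ Y)) := by
  rw [sw_hom, sw_hom]
  simp only [Category.assoc]
  rw [← associator_naturality_left, associator_inv_naturality_middle_assoc,
    ← comp_whiskerRight_assoc, ← comp_whiskerRight_assoc, BraidedCategory.braiding_naturality_right]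

/-- Moving `X` past a tensor product. -/
theorem sw_tensor (X X' X'' Y : C) :
    (sw X X' (X'' ⊗ Y)).hom ≫ (X' ◁ (sw X X'' Y).hom) =
      (X ◁ (α_ X' X'' Y).inv) ≫ (sw X (X' ⊗ X'') Y).hom ≫ (α_ X' X'' (X ⊗ Y)).hom := by
  rw [sw_hom, sw_hom, sw_hom, BraidedCategory.braiding_tensor_right_hom]
  monoidal

/-- Moving a tensor product past `X''`. -/
theorem sw_tensor_left (X X' X'' Y : C) :
    (X ◁ (sw X' X'' Y).hom) ≫ (sw X X'' (X' ⊗ Y)).hom =
      (α_ X X' (X'' ⊗ Y)).inv ≫ (sw (X ⊗ X') X'' Y).hom ≫ (X'' ◁ (α_ X X' Y).hom) := by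
  rw [sw_hom, sw_hom, sw_hom, BraidedCategory.braiding_tensor_left_hom]
  monoidal

@[reassoc]
theorem sw_yb (X X' X'' Y : C) :
    (sw X X' (X'' ⊗ Y)).hom ≫ (X' ◁ (sw X X'' Y).hom) ≫ (sw X' X'' (X ⊗ Y)).hom =
      (X ◁ (sw X' X'' Y).hom) ≫ (sw X X'' (X' ⊗ Y)).hom ≫ (X'' ◁ (sw X X' Y).hom) := by
  rw [← Category.assoc, sw_tensor, sw_tensor]
  have h : (α_ X' X'' (X ⊗ Y)).hom ≫ (sw X' X'' (X ⊗ Y)).hom =
      ((β_ X' X'').hom ▷ (X ⊗ Y)) ≫ (α_ X'' X' (X ⊗ Y)).hom := by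
    rw [sw_hom, Iso.hom_inv_id_assoc]
  have h' : (X ◁ (sw X' X'' Y).hom) ≫ (X ◁ (α_ X'' X' Y).inv) =
      (X ◁ (α_ X' X'' Y).inv) ≫ (X ◁ ((β_ X' X'').hom ▷ Y)) := by
    rw [sw_hom, ← MonoidalCategory.whiskerLeft_comp, ← MonoidalCategory.whiskerLeft_comp]
    simp
  rw [Category.assoc, Category.assoc, h, ← sw_nat_mid_assoc, reassoc_of% h']

end Mon

section Fun

variable {C : Type u} [Category.{v} C] [Preadditive C] [MonoidalCategory C] [BraidedCategory C]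

variable (C) in
/-- A functor which commutes with tensoring on the left. -/
structure BF where
  /-- the functor -/
  F : C ⥤ C
  /-- additivity -/
  add : F.Additive
  /-- the commutation -/
  σ : ∀ X Y : C, F.obj (X ⊗ Y) ≅ X ⊗ F.obj Y
  nat : ∀ (X : C) {Y Y' : C} (f : Y ⟶ Y'),
    F.map (X ◁ f) ≫ (σ X Y').hom = (σ X Y).hom ≫ (X ◁ F.map f)
  yb : ∀ X X' Y : C, (σ X (X' ⊗ Y)).hom ≫ (X ◁ (σ X' Y).hom) ≫ (sw X X' (F.obj Y)).hom =
    F.map (sw X X' Y).hom ≫ (σ X' (X ⊗ Y)).hom ≫ (X' ◁ (σ X Y).hom)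

attribute [instance] BF.add

attribute [reassoc] BF.nat BF.yb

namespace BF

/-- The identity. -/
def one : BF C where
  F := 𝟭 C
  add := inferInstance
  σ X Y := Iso.refl _
  nat X Y Y' f := by simp
  yb X X' Y := by simp

/-- Composition, `G` after `F`. -/
def comp (G F : BF C) : BF C where
  F := F.F ⋙ G.F
  add := inferInstance
  σ X Y := G.F.mapIso (F.σ X Y) ≪≫ G.σ X (F.F.obj Y)
  nat X Y Y' f := by
    simp only [Functor.comp_map, Iso.trans_hom, Functor.mapIso_hom, Category.assoc]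
    rw [← G.F.map_comp_assoc, F.nat, G.F.map_comp_assoc, G.nat]
  yb X X' Y := by
    simp only [Functor.comp_obj, Functor.comp_map, Iso.trans_hom, Functor.mapIso_hom,
      Category.assoc, MonoidalCategory.whiskerLeft_comp]
    have h := congrArg G.F.map (F.yb X X' Y)
    simp only [G.F.map_comp] at h
    rw [← G.nat_assoc, G.yb, reassoc_of% h, G.nat_assoc]

variable [MonoidalPreadditive C]

/-- Tensoring with `X` on the left. -/
def T (X : C) : BF C where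
  F := tensorLeft X
  add := inferInstance
  σ X' Y := sw X X' Y
  nat X' Y Y' f := sw_nat X X' f
  yb X' X'' Y := sw_yb X X' X'' Y

end BF

variable [MonoidalPreadditive C]

/-- A natural family of degree zero. -/
def Nat0 {F G : BF C} (a : F.F ⟶ G.F) : Prop :=
  ∀ X Y : C, a.app (X ⊗ Y) ≫ (G.σ X Y).hom = (F.σ X Y).hom ≫ (X ◁ a.app Y)

/-- `f` at `X ⊗ Y`. -/
def tr {F G : BF C} (f : F.F ⟶ G.F) (X : C) : (F.comp (BF.T X)).F ⟶ (G.comp (BF.T X)).F :=
  Functor.whiskerLeft (tensorLeft X) f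

/-- `H f`. -/
def wl (H : BF C) {F G : BF C} (f : F.F ⟶ G.F) : (H.comp F).F ⟶ (H.comp G).F :=
  Functor.whiskerRight f H.F

/-- `f` at `K Y`. -/
def wr (K : BF C) {F G : BF C} (f : F.F ⟶ G.F) : (F.comp K).F ⟶ (G.comp K).F :=
  Functor.whiskerLeft K.F f

/-- The commutation as a natural family. -/
def sg (F : BF C) (X : C) : (F.comp (BF.T X)).F ≅ ((BF.T X).comp F).F :=
  NatIso.ofComponents (fun Y => F.σ X Y) (fun f => F.nat X f)

/-- The twist of `f` by `X`. -/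
def tw {F G : BF C} (f : F.F ⟶ G.F) (X : C) : (F.comp (BF.T X)).F ⟶ (G.comp (BF.T X)).F :=
  (sg F X).hom ≫ wl (BF.T X) f ≫ (sg G X).inv

/-- The difference `f_{X Y} - X f_Y`. -/
def br {F G : BF C} (f : F.F ⟶ G.F) (X : C) : (F.comp (BF.T X)).F ⟶ (G.comp (BF.T X)).F :=
  tr f X - tw f X

@[simp] theorem tr_app {F G : BF C} (f : F.F ⟶ G.F) (X Y : C) :
    (tr f X).app Y = f.app (X ⊗ Y) := rfl

@[simp] theorem wl_app (H : BF C) {F G : BF C} (f : F.F ⟶ G.F) (Y : C) :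
    (wl H f).app Y = H.F.map (f.app Y) := rfl

@[simp] theorem wr_app (K : BF C) {F G : BF C} (f : F.F ⟶ G.F) (Y : C) :
    (wr K f).app Y = f.app (K.F.obj Y) := rfl

@[simp] theorem sg_hom_app (F : BF C) (X Y : C) : (sg F X).hom.app Y = (F.σ X Y).hom := rfl

@[simp] theorem sg_inv_app (F : BF C) (X Y : C) : (sg F X).inv.app Y = (F.σ X Y).inv := rfl

theorem tw_app {F G : BF C} (f : F.F ⟶ G.F) (X Y : C) :
    (tw f X).app Y = (F.σ X Y).hom ≫ (X ◁ f.app Y) ≫ (G.σ X Y).inv := rfl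

theorem br_app {F G : BF C} (f : F.F ⟶ G.F) (X Y : C) :
    (br f X).app Y = f.app (X ⊗ Y) - (F.σ X Y).hom ≫ (X ◁ f.app Y) ≫ (G.σ X Y).inv := rfl

theorem comp_σ_hom (G F : BF C) (X Y : C) :
    ((G.comp F).σ X Y).hom = G.F.map (F.σ X Y).hom ≫ (G.σ X (F.F.obj Y)).hom := rfl

theorem comp_σ_inv (G F : BF C) (X Y : C) :
    ((G.comp F).σ X Y).inv = (G.σ X (F.F.obj Y)).inv ≫ G.F.map (F.σ X Y).inv := rfl

/-! ### families of degree zero -/

theorem nat0_id (F : BF C) : Nat0 (𝟙 F.F : F.F ⟶ F.F) := fun X Y => by simp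

theorem Nat0.comp {F G H : BF C} {a : F.F ⟶ G.F} {b : G.F ⟶ H.F} (ha : Nat0 a) (hb : Nat0 b) :
    Nat0 (a ≫ b) := fun X Y => by
  rw [NatTrans.comp_app, NatTrans.comp_app, Category.assoc, hb, ← Category.assoc, ha,
    Category.assoc, MonoidalCategory.whiskerLeft_comp]

theorem Nat0.add {F G : BF C} {a b : F.F ⟶ G.F} (ha : Nat0 a) (hb : Nat0 b) :
    Nat0 (a + b) := fun X Y => by
  rw [NatTrans.app_add, NatTrans.app_add, Preadditive.add_comp, ha, hb,
    MonoidalPreadditive.whiskerLeft_add, Preadditive.comp_add]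

theorem Nat0.tr {F G : BF C} {a : F.F ⟶ G.F} (ha : Nat0 a) (Z : C) : Nat0 (tr a Z) := fun X Y => by
  have h1 := a.naturality (sw Z X Y).hom
  change a.app (Z ⊗ (X ⊗ Y)) ≫ G.F.map (sw Z X Y).hom ≫ (G.σ X (Z ⊗ Y)).hom =
    (F.F.map (sw Z X Y).hom ≫ (F.σ X (Z ⊗ Y)).hom) ≫ (X ◁ a.app (Z ⊗ Y))
  rw [← reassoc_of% h1, ha, Category.assoc]

theorem Nat0.wl {F G : BF C} {a : F.F ⟶ G.F} (ha : Nat0 a) (H : BF C) : Nat0 (wl H a) :=
  fun X Y => by
  change H.F.map (a.app (X ⊗ Y)) ≫ H.F.map (G.σ X Y).hom ≫ (H.σ X (G.F.obj Y)).hom =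
    (H.F.map (F.σ X Y).hom ≫ (H.σ X (F.F.obj Y)).hom) ≫ (X ◁ H.F.map (a.app Y))
  rw [← H.F.map_comp_assoc, ha, H.F.map_comp_assoc, H.nat, Category.assoc]

theorem Nat0.wr {F G : BF C} {a : F.F ⟶ G.F} (ha : Nat0 a) (K : BF C) : Nat0 (wr K a) :=
  fun X Y => by
  have h1 := a.naturality (K.σ X Y).hom
  change a.app (K.F.obj (X ⊗ Y)) ≫ G.F.map (K.σ X Y).hom ≫ (G.σ X (K.F.obj Y)).hom =
    (F.F.map (K.σ X Y).hom ≫ (F.σ X (K.F.obj Y)).hom) ≫ (X ◁ a.app (K.F.obj Y))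
  rw [← reassoc_of% h1, ha, Category.assoc]

theorem Nat0.inv {F G : BF C} {a : F.F ≅ G.F} (ha : Nat0 a.hom) : Nat0 a.inv := fun X Y => by
  have h := ha X Y
  rw [← cancel_epi (a.hom.app (X ⊗ Y)), ← Category.assoc, ← NatTrans.comp_app, a.hom_inv_id,
    ← Category.assoc, h, Category.assoc, ← MonoidalCategory.whiskerLeft_comp, ← NatTrans.comp_app,
    a.hom_inv_id]
  simp

theorem nat0_sg (F : BF C) (Z : C) : Nat0 (sg F Z).hom := fun X Y => by
  change (F.σ Z (X ⊗ Y)).hom ≫ (Z ◁ (F.σ X Y).hom) ≫ (sw Z X (F.F.obj Y)).hom =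
    (F.F.map (sw Z X Y).hom ≫ (F.σ X (Z ⊗ Y)).hom) ≫ (X ◁ (F.σ Z Y).hom)
  rw [F.yb, Category.assoc]

theorem nat0_sg_inv (F : BF C) (Z : C) : Nat0 (sg F Z).inv := (nat0_sg F Z).inv


/-! ### the bracket -/

theorem br_zero {F G : BF C} (X : C) : br (0 : F.F ⟶ G.F) X = 0 := by
  ext Y
  change (0 : F.F.obj (X ⊗ Y) ⟶ G.F.obj (X ⊗ Y)) -
    (F.σ X Y).hom ≫ (X ◁ (0 : F.F.obj Y ⟶ G.F.obj Y)) ≫ (G.σ X Y).inv = 0
  rw [MonoidalPreadditive.whiskerLeft_zero, zero_comp, comp_zero, sub_zero]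

theorem br_add {F G : BF C} (f g : F.F ⟶ G.F) (X : C) : br (f + g) X = br f X + br g X := by
  ext Y
  rw [NatTrans.app_add, br_app, br_app, br_app, NatTrans.app_add, NatTrans.app_add]
  simp only [MonoidalPreadditive.whiskerLeft_add, Preadditive.add_comp, Preadditive.comp_add]
  abel

theorem br_neg {F G : BF C} (f : F.F ⟶ G.F) (X : C) : br (-f) X = -br f X := by
  rw [eq_neg_iff_add_eq_zero, ← br_add, neg_add_cancel, br_zero]

theorem br_pre {F F' G : BF C} {a : F'.F ⟶ F.F} (ha : Nat0 a) (f : F.F ⟶ G.F) (X : C) :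
    br (a ≫ f) X = tr a X ≫ br f X := by
  ext Y
  change a.app (X ⊗ Y) ≫ f.app (X ⊗ Y) -
    (F'.σ X Y).hom ≫ (X ◁ (a.app Y ≫ f.app Y)) ≫ (G.σ X Y).inv =
    a.app (X ⊗ Y) ≫ (f.app (X ⊗ Y) - (F.σ X Y).hom ≫ (X ◁ f.app Y) ≫ (G.σ X Y).inv)
  rw [Preadditive.comp_sub, ← Category.assoc (a.app (X ⊗ Y)) (F.σ X Y).hom, ha X Y,
    MonoidalCategory.whiskerLeft_comp]
  simp only [Category.assoc]

theorem br_post {F G G' : BF C} {b : G.F ⟶ G'.F} (hb : Nat0 b) (f : F.F ⟶ G.F) (X : C) :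
    br (f ≫ b) X = br f X ≫ tr b X := by
  ext Y
  have h : (X ◁ b.app Y) ≫ (G'.σ X Y).inv = (G.σ X Y).inv ≫ b.app (X ⊗ Y) := by
    rw [Iso.comp_inv_eq, Category.assoc, hb X Y, Iso.inv_hom_id_assoc]
  change f.app (X ⊗ Y) ≫ b.app (X ⊗ Y) -
    (F.σ X Y).hom ≫ (X ◁ (f.app Y ≫ b.app Y)) ≫ (G'.σ X Y).inv =
    (f.app (X ⊗ Y) - (F.σ X Y).hom ≫ (X ◁ f.app Y) ≫ (G.σ X Y).inv) ≫ b.app (X ⊗ Y)
  rw [Preadditive.sub_comp, MonoidalCategory.whiskerLeft_comp]
  simp only [Category.assoc, h]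

theorem br_nat0 {F G : BF C} {a : F.F ⟶ G.F} (ha : Nat0 a) (X : C) : br a X = 0 := by
  ext Y
  change a.app (X ⊗ Y) - (F.σ X Y).hom ≫ (X ◁ a.app Y) ≫ (G.σ X Y).inv = 0
  rw [← Category.assoc, ← ha X Y, Category.assoc, Iso.hom_inv_id, Category.comp_id, sub_self]

/-- Degree at most `m - 1`. -/
def Deg : ℕ → ∀ {F G : BF C}, (F.F ⟶ G.F) → Prop
  | 0, _, _, f => f = 0
  | m + 1, _, _, f => ∀ X : C, Deg m (br f X)

theorem deg_zero (m : ℕ) {F G : BF C} : Deg m (0 : F.F ⟶ G.F) := by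
  induction m generalizing F G with
  | zero => exact rfl
  | succ m ih => intro X; rw [br_zero]; exact ih

theorem deg_add (m : ℕ) {F G : BF C} {f g : F.F ⟶ G.F} (hf : Deg m f) (hg : Deg m g) :
    Deg m (f + g) := by
  induction m generalizing F G with
  | zero => change f + g = 0; rw [show f = 0 from hf, show g = 0 from hg, add_zero]
  | succ m ih => intro X; rw [br_add]; exact ih (hf X) (hg X)

theorem deg_neg (m : ℕ) {F G : BF C} {f : F.F ⟶ G.F} (hf : Deg m f) : Deg m (-f) := by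
  induction m generalizing F G with
  | zero => change -f = 0; rw [show f = 0 from hf, neg_zero]
  | succ m ih => intro X; rw [br_neg]; exact ih (hf X)

theorem deg_sub (m : ℕ) {F G : BF C} {f g : F.F ⟶ G.F} (hf : Deg m f) (hg : Deg m g) :
    Deg m (f - g) := by
  rw [sub_eq_add_neg]; exact deg_add m hf (deg_neg m hg)

theorem deg_pre (m : ℕ) {F F' G : BF C} {a : F'.F ⟶ F.F} (ha : Nat0 a) {f : F.F ⟶ G.F}
    (hf : Deg m f) : Deg m (a ≫ f) := by
  induction m generalizing F F' G with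
  | zero => change a ≫ f = 0; rw [show f = 0 from hf, comp_zero]
  | succ m ih => intro X; rw [br_pre ha]; exact ih (ha.tr X) (hf X)

theorem deg_post (m : ℕ) {F G G' : BF C} {b : G.F ⟶ G'.F} (hb : Nat0 b) {f : F.F ⟶ G.F}
    (hf : Deg m f) : Deg m (f ≫ b) := by
  induction m generalizing F G G' with
  | zero => change f ≫ b = 0; rw [show f = 0 from hf, zero_comp]
  | succ m ih => intro X; rw [br_post hb]; exact ih (hb.tr X) (hf X)

theorem deg_succ (m : ℕ) {F G : BF C} {f : F.F ⟶ G.F} (hf : Deg m f) : Deg (m + 1) f := by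
  induction m generalizing F G with
  | zero => rw [show f = 0 from hf]; exact deg_zero 1
  | succ m ih => intro X; exact ih (hf X)

theorem deg_mono {m n : ℕ} (h : m ≤ n) {F G : BF C} {f : F.F ⟶ G.F} (hf : Deg m f) : Deg n f := by
  induction h with
  | refl => exact hf
  | step _ ih => exact deg_succ _ ih

/-- Change of the commutations on both sides. -/
theorem deg_congr (m : ℕ) {F G F' G' : BF C} (f : F.F ⟶ G.F) (f' : F'.F ⟶ G'.F)
    (a : F'.F ⟶ F.F) (b : G.F ⟶ G'.F) (ha : Nat0 a) (hb : Nat0 b) (h : f' = a ≫ f ≫ b)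
    (hf : Deg m f) : Deg m f' := by
  rw [h]; exact deg_pre m ha (deg_post m hb hf)

theorem nat0_assoc (H F K : BF C) :
    Nat0 (F := (H.comp F).comp K) (G := H.comp (F.comp K)) (𝟙 _) := fun X Y => by
  change 𝟙 _ ≫ H.F.map (F.F.map (K.σ X Y).hom ≫ (F.σ X (K.F.obj Y)).hom) ≫
      (H.σ X (F.F.obj (K.F.obj Y))).hom =
    (H.F.map (F.F.map (K.σ X Y).hom) ≫ (H.F.map (F.σ X (K.F.obj Y)).hom ≫
      (H.σ X (F.F.obj (K.F.obj Y))).hom)) ≫ (X ◁ 𝟙 _)
  rw [Category.id_comp, MonoidalCategory.whiskerLeft_id, Category.comp_id, H.F.map_comp,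
    Category.assoc]

theorem nat0_assoc' (H F K : BF C) :
    Nat0 (F := H.comp (F.comp K)) (G := (H.comp F).comp K) (𝟙 _) := fun X Y => by
  change 𝟙 _ ≫ (H.F.map (F.F.map (K.σ X Y).hom) ≫ (H.F.map (F.σ X (K.F.obj Y)).hom ≫
      (H.σ X (F.F.obj (K.F.obj Y))).hom)) =
    (H.F.map (F.F.map (K.σ X Y).hom ≫ (F.σ X (K.F.obj Y)).hom) ≫
      (H.σ X (F.F.obj (K.F.obj Y))).hom) ≫ (X ◁ 𝟙 _)
  rw [Category.id_comp, MonoidalCategory.whiskerLeft_id, Category.comp_id, H.F.map_comp,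
    Category.assoc]

theorem σ_assoc (H F K : BF C) (X Y : C) :
    (((H.comp F).comp K).σ X Y).hom = ((H.comp (F.comp K)).σ X Y).hom := by
  change H.F.map (F.F.map (K.σ X Y).hom) ≫ (H.F.map (F.σ X (K.F.obj Y)).hom ≫
      (H.σ X (F.F.obj (K.F.obj Y))).hom) =
    H.F.map (F.F.map (K.σ X Y).hom ≫ (F.σ X (K.F.obj Y)).hom) ≫
      (H.σ X (F.F.obj (K.F.obj Y))).hom
  rw [H.F.map_comp, Category.assoc]

theorem Nat0.src {H F K G : BF C} {a : ((H.comp F).comp K).F ⟶ G.F}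
    (h : Nat0 (F := H.comp (F.comp K)) (G := G) a) : Nat0 (F := (H.comp F).comp K) (G := G) a :=
  fun X Y => (h X Y).trans (congrArg (fun t => t ≫ (X ◁ a.app Y)) (σ_assoc H F K X Y).symm)

theorem Nat0.src' {H F K G : BF C} {a : ((H.comp F).comp K).F ⟶ G.F}
    (h : Nat0 (F := (H.comp F).comp K) (G := G) a) : Nat0 (F := H.comp (F.comp K)) (G := G) a :=
  fun X Y => (h X Y).trans (congrArg (fun t => t ≫ (X ◁ a.app Y)) (σ_assoc H F K X Y))

theorem Nat0.tgt {H F K G : BF C} {a : G.F ⟶ ((H.comp F).comp K).F}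
    (h : Nat0 (F := G) (G := H.comp (F.comp K)) a) : Nat0 (F := G) (G := (H.comp F).comp K) a :=
  fun X Y => (congrArg (fun t => a.app (X ⊗ Y) ≫ t) (σ_assoc H F K X Y)).trans (h X Y)

theorem Nat0.tgt' {H F K G : BF C} {a : G.F ⟶ ((H.comp F).comp K).F}
    (h : Nat0 (F := G) (G := (H.comp F).comp K) a) : Nat0 (F := G) (G := H.comp (F.comp K)) a :=
  fun X Y => (congrArg (fun t => a.app (X ⊗ Y) ≫ t) (σ_assoc H F K X Y).symm).trans (h X Y)

theorem Deg.src {m : ℕ} {H F K G : BF C} {f : ((H.comp F).comp K).F ⟶ G.F}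
    (h : Deg m (F := H.comp (F.comp K)) (G := G) f) :
    Deg m (F := (H.comp F).comp K) (G := G) f :=
  Eq.mp (congrArg (fun t => Deg m (F := (H.comp F).comp K) (G := G) t) (Category.id_comp f))
    (deg_pre m (F := H.comp (F.comp K)) (F' := (H.comp F).comp K) (G := G)
      (nat0_assoc H F K) h)

theorem Deg.src' {m : ℕ} {H F K G : BF C} {f : ((H.comp F).comp K).F ⟶ G.F}
    (h : Deg m (F := (H.comp F).comp K) (G := G) f) :
    Deg m (F := H.comp (F.comp K)) (G := G) f :=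
  Eq.mp (congrArg (fun t => Deg m (F := H.comp (F.comp K)) (G := G) t) (Category.id_comp f))
    (deg_pre m (F := (H.comp F).comp K) (F' := H.comp (F.comp K)) (G := G)
      (nat0_assoc' H F K) h)

theorem Deg.tgt {m : ℕ} {H F K G : BF C} {f : G.F ⟶ ((H.comp F).comp K).F}
    (h : Deg m (F := G) (G := H.comp (F.comp K)) f) :
    Deg m (F := G) (G := (H.comp F).comp K) f :=
  Eq.mp (congrArg (fun t => Deg m (F := G) (G := (H.comp F).comp K) t) (Category.comp_id f))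
    (deg_post m (F := G) (G := H.comp (F.comp K)) (G' := (H.comp F).comp K)
      (nat0_assoc' H F K) h)

theorem Deg.tgt' {m : ℕ} {H F K G : BF C} {f : G.F ⟶ ((H.comp F).comp K).F}
    (h : Deg m (F := G) (G := (H.comp F).comp K) f) :
    Deg m (F := G) (G := H.comp (F.comp K)) f :=
  Eq.mp (congrArg (fun t => Deg m (F := G) (G := H.comp (F.comp K)) t) (Category.comp_id f))
    (deg_post m (F := G) (G := (H.comp F).comp K) (G' := H.comp (F.comp K))
      (nat0_assoc H F K) h)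

/-- Whiskering by `H` on the left. -/
theorem deg_wl (m : ℕ) (H : BF C) {F G : BF C} {f : F.F ⟶ G.F} (hf : Deg m f) :
    Deg m (wl H f) := by
  induction m generalizing F G with
  | zero =>
    change wl H f = 0
    rw [show f = 0 from hf]
    ext Y
    exact H.F.map_zero _ _
  | succ m ih =>
    intro X
    refine deg_congr m (wl H (br f X)) (br (wl H f) X) (𝟙 _) (𝟙 _) (nat0_assoc H F (BF.T X))
      (nat0_assoc' H G (BF.T X)) ?_ (ih (hf X))
    ext Y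
    have h := H.nat X (f.app Y)
    change H.F.map (f.app (X ⊗ Y)) -
      (H.F.map (F.σ X Y).hom ≫ (H.σ X (F.F.obj Y)).hom) ≫ (X ◁ H.F.map (f.app Y)) ≫
        ((H.σ X (G.F.obj Y)).inv ≫ H.F.map (G.σ X Y).inv) =
      𝟙 (H.F.obj (F.F.obj (X ⊗ Y))) ≫
        H.F.map (f.app (X ⊗ Y) - (F.σ X Y).hom ≫ (X ◁ f.app Y) ≫ (G.σ X Y).inv) ≫
          𝟙 (H.F.obj (G.F.obj (X ⊗ Y)))
    rw [Category.comp_id, Category.id_comp, H.F.map_sub, H.F.map_comp, H.F.map_comp,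
      Category.assoc, ← reassoc_of% h, Iso.hom_inv_id_assoc]

theorem deg_tw (m : ℕ) {F G : BF C} {f : F.F ⟶ G.F} (hf : Deg m f) (X : C) :
    Deg m (tw f X) :=
  deg_pre m (nat0_sg F X) (deg_post m (nat0_sg_inv G X) (deg_wl m (BF.T X) hf))

theorem deg_tr (m : ℕ) {F G : BF C} {f : F.F ⟶ G.F} (hf : Deg m f) (X : C) :
    Deg m (tr f X) := by
  have h : tr f X = br f X + tw f X := (sub_add_cancel _ _).symm
  rw [h]
  refine deg_add m ?_ (deg_tw m hf X)
  cases m with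
  | zero => rw [show f = 0 from hf, br_zero]; exact deg_zero 0
  | succ m => exact deg_succ m (hf X)

end Fun

end DG

end Pool.Agent.MUP
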