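import Pool.Agent.MUP.Defs

/-!
# Row S1: naturality of the iterates and of the symmetrizers (helper29)
-/

open CategoryTheory MonoidalCategory Limits Abelian

universe w v u

namespace Pool.Agent.MUP

open Pool.Agent.MUG

section Sym

variable {A : Type u} [Category.{v} A] {F : A ⥤ A}

theorem pwMap_id (n : ℕ) (Y : A) : pwMap F n (𝟙 Y) = 𝟙 (pw F n Y) := by
  induction n with
  | zero => rfl
  | succ n ih =>
    change F.map (pwMap F n (𝟙 Y)) = 𝟙 (F.obj (pw F n Y))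
    rw [ih, F.map_id]

theorem pwMap_comp (n : ℕ) {X Y Z : A} (f : X ⟶ Y) (g : Y ⟶ Z) :
    pwMap F n (f ≫ g) = pwMap F n f ≫ pwMap F n g := by
  induction n with
  | zero => rfl
  | succ n ih =>
    change F.map (pwMap F n (f ≫ g)) = F.map (pwMap F n f) ≫ F.map (pwMap F n g)
    rw [ih, F.map_comp]

theorem tt_nat (d : ∀ Y : A, F.obj Y ⟶ Y)
    (hd : ∀ {Y Y' : A} (f : Y ⟶ Y'), F.map f ≫ d Y' = d Y ≫ f) (n : ℕ) {Y Y' : A} (f : Y ⟶ Y') :
    pwMap F n f ≫ tt d n Y' = tt d n Y ≫ f := by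
  induction n with
  | zero =>
    change f ≫ 𝟙 Y' = 𝟙 Y ≫ f
    rw [Category.comp_id, Category.id_comp]
  | succ n ih =>
    change F.map (pwMap F n f) ≫ F.map (tt d n Y') ≫ d Y' = (F.map (tt d n Y) ≫ d Y) ≫ f
    rw [← Category.assoc, ← F.map_comp, ih, F.map_comp, Category.assoc, hd, Category.assoc]

theorem jj_nat {G : A ⥤ A} (j : ∀ Y : A, F.obj Y ⟶ G.obj Y)
    (hj : ∀ {Y Y' : A} (f : Y ⟶ Y'), F.map f ≫ j Y' = j Y ≫ G.map f) (n : ℕ) {Y Y' : A}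
    (f : Y ⟶ Y') : pwMap F n f ≫ jj j n Y' = jj j n Y ≫ pwMap G n f := by
  induction n with
  | zero =>
    change f ≫ 𝟙 Y' = 𝟙 Y ≫ f
    rw [Category.comp_id, Category.id_comp]
  | succ n ih =>
    change F.map (pwMap F n f) ≫ F.map (jj j n Y') ≫ j (pw G n Y') =
      (F.map (jj j n Y) ≫ j (pw G n Y)) ≫ G.map (pwMap G n f)
    rw [← Category.assoc, ← F.map_comp, ih, F.map_comp, Category.assoc, hj, Category.assoc]

/-- `F^n (F Y) ⟶ F^{n+1} Y`, the identity. -/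
def shft : ∀ (n : ℕ) (Y : A), pw F n (F.obj Y) ⟶ pw F (n + 1) Y
  | 0, Y => 𝟙 (F.obj Y)
  | n + 1, Y => F.map (shft n Y)

theorem shft_iso (n : ℕ) (Y : A) : IsIso (shft (F := F) n Y) := by
  induction n with
  | zero =>
    change IsIso (𝟙 (F.obj Y))
    infer_instance
  | succ n ih =>
    change IsIso (F.map (shft n Y))
    infer_instance

theorem shft_tt (d : ∀ Y : A, F.obj Y ⟶ Y) (n : ℕ) (Y : A) :
    pwMap F n (d Y) ≫ tt d n Y = shft n Y ≫ tt d (n + 1) Y := by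
  induction n with
  | zero =>
    change d Y ≫ 𝟙 Y = 𝟙 (F.obj Y) ≫ F.map (𝟙 Y) ≫ d Y
    rw [Category.comp_id, Category.id_comp, F.map_id, Category.id_comp]
  | succ n ih =>
    change F.map (pwMap F n (d Y)) ≫ F.map (tt d n Y) ≫ d Y =
      F.map (shft n Y) ≫ F.map (tt d (n + 1) Y) ≫ d Y
    rw [← Category.assoc, ← F.map_comp, ih, F.map_comp, Category.assoc]

variable [Preadditive A] [F.Additive] (τ : ∀ Y : A, F.obj (F.obj Y) ⟶ F.obj (F.obj Y)) (q : ℤ)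
  (hτ : ∀ {Y Y' : A} (f : Y ⟶ Y'), F.map (F.map f) ≫ τ Y' = τ Y ≫ F.map (F.map f))

include hτ

omit hτ in
private lemma aux_comp {X Y Z X' Y' Z' : A} {f : X ⟶ X'} {g : Y ⟶ Y'} {h : Z ⟶ Z'} {a : X ⟶ Y}
    {a' : X' ⟶ Y'} {b : Y ⟶ Z} {b' : Y' ⟶ Z'} (h₁ : f ≫ a' = a ≫ g) (h₂ : g ≫ b' = b ≫ h) :
    f ≫ a' ≫ b' = (a ≫ b) ≫ h := by
  rw [← Category.assoc, h₁, Category.assoc, h₂, Category.assoc]

omit hτ in
private lemma aux_add {X X' : A} {f : X ⟶ X'} {a : X ⟶ X} {a' : X' ⟶ X'} (q : ℤ)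
    (h : f ≫ a' = a ≫ f) : f ≫ (𝟙 X' + q • a') = (𝟙 X + q • a) ≫ f := by
  rw [Preadditive.comp_add, Preadditive.add_comp, Category.comp_id, Category.id_comp,
    Preadditive.comp_zsmul, Preadditive.zsmul_comp, h]

omit hτ in
private lemma aux_map {X X' Y Y' : A} {f : X ⟶ X'} {g : Y ⟶ Y'} {a : X ⟶ Y} {a' : X' ⟶ Y'}
    (h : f ≫ a' = a ≫ g) : F.map f ≫ F.map a' = F.map a ≫ F.map g := by
  rw [← F.map_comp, h, F.map_comp]

theorem aa_nat (n : ℕ) {Y Y' : A} (f : Y ⟶ Y') :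
    pwMap F (n + 1) f ≫ aa τ q n Y' = aa τ q n Y ≫ pwMap F (n + 1) f := by
  induction n with
  | zero =>
    change F.map f ≫ 𝟙 (F.obj Y') = 𝟙 (F.obj Y) ≫ F.map f
    rw [Category.comp_id, Category.id_comp]
  | succ n ih => exact aux_add q (aux_comp (hτ (pwMap F n f)) (aux_map ih))

theorem bb_nat (n : ℕ) {Y Y' : A} (f : Y ⟶ Y') :
    pwMap F (n + 1) f ≫ bb τ q n Y' = bb τ q n Y ≫ pwMap F (n + 1) f := by
  induction n with
  | zero =>
    change F.map f ≫ 𝟙 (F.obj Y') = 𝟙 (F.obj Y) ≫ F.map f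
    rw [Category.comp_id, Category.id_comp]
  | succ n ih => exact aux_add q (aux_comp (aux_map ih) (hτ (pwMap F n f)))

theorem ss_nat (n : ℕ) {Y Y' : A} (f : Y ⟶ Y') :
    pwMap F n f ≫ ss τ q n Y' = ss τ q n Y ≫ pwMap F n f := by
  induction n with
  | zero =>
    change f ≫ 𝟙 Y' = 𝟙 Y ≫ f
    rw [Category.comp_id, Category.id_comp]
  | succ n ih => exact aux_comp (aux_map ih) (aa_nat τ q hτ n f)

end Sym

end Pool.Agent.MUP
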