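import Pool.Agent.MUP.DG1
import Pool.Agent.MUP.S1
import Pool.Agent.MUP.S2

/-!
# Degrees of the iterates of a Leibniz family (helper78)
-/

open CategoryTheory MonoidalCategory Limits

universe v u

set_option linter.unusedSectionVars false
set_option linter.unusedVariables false

namespace Pool.Agent.MUP

open Pool.Agent.MUG

namespace DG

section Leib

variable {C : Type u} [Category.{v} C] [Abelian C] [MonoidalCategory C] [MonoidalPreadditive C]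
  [BraidedCategory C] {V : C} (L : Leib V)

/-- `n_X ⊗ Y`. -/
def nx (X Y : C) : V ⊗ (X ⊗ Y) ⟶ X ⊗ Y := (α_ V X Y).inv ≫ (L.d X ▷ Y)

@[reassoc]
theorem nx_nat (X : C) {Y Y' : C} (f : Y ⟶ Y') :
    (V ◁ (X ◁ f)) ≫ nx L X Y' = nx L X Y ≫ (X ◁ f) := by
  rw [nx, nx, associator_inv_naturality_right_assoc, whisker_exchange, Category.assoc]

/-- `n_X ⊗ Y`. -/
def NX (X : C) : ((BF.T V).comp (BF.T X)).F ⟶ (BF.T X).F where
  app Y := nx L X Y
  naturality Y Y' f := nx_nat L X f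

theorem nat0_NX (X : C) : Nat0 (F := (BF.T V).comp (BF.T X)) (G := BF.T X) (NX L X) :=
  fun X' Y => by
  change nx L X (X' ⊗ Y) ≫ (sw X X' Y).hom =
    ((V ◁ (sw X X' Y).hom) ≫ (sw V X' (X ⊗ Y)).hom) ≫ (X' ◁ nx L X Y)
  rw [sw_tensor_left, nx, nx, Category.assoc, Category.assoc, Category.assoc,
    ← MonoidalCategory.whiskerLeft_comp, Iso.hom_inv_id_assoc, sw_nat_left]

theorem leib_eq' (X Y : C) :
    L.d (X ⊗ Y) = nx L X Y + (sw V X Y).hom ≫ (X ◁ L.d Y) := by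
  rw [L.leib, nx, sw_hom]
  simp only [Category.assoc]

@[reassoc]
theorem σ_inv_nat (G : BF C) (X : C) {Y Y' : C} (f : Y ⟶ Y') :
    (X ◁ G.F.map f) ≫ (G.σ X Y').inv = (G.σ X Y).inv ≫ G.F.map (X ◁ f) := by
  rw [Iso.comp_inv_eq, Category.assoc, G.nat, Iso.inv_hom_id_assoc]

/-- The operator `D`. -/
def dop {F G : BF C} (f : F.F ⟶ G.F) (Y : C) : V ⊗ F.F.obj Y ⟶ G.F.obj Y :=
  (V ◁ f.app Y) ≫ (G.σ V Y).inv ≫ G.F.map (L.d Y)

/-- The operator `D`. -/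
def Dop {F G : BF C} (f : F.F ⟶ G.F) : ((BF.T V).comp F).F ⟶ G.F where
  app Y := dop L f Y
  naturality Y Y' g := by
    change (V ◁ F.F.map g) ≫ (V ◁ f.app Y') ≫ (G.σ V Y').inv ≫ G.F.map (L.d Y') =
      ((V ◁ f.app Y) ≫ (G.σ V Y).inv ≫ G.F.map (L.d Y)) ≫ G.F.map g
    rw [← MonoidalCategory.whiskerLeft_comp_assoc, f.naturality,
      MonoidalCategory.whiskerLeft_comp_assoc, σ_inv_nat_assoc, ← G.F.map_comp, L.nat,
      G.F.map_comp]
    simp only [Category.assoc]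

/-- The error term. -/
def ex {F G : BF C} (f : F.F ⟶ G.F) (X Y : C) : V ⊗ F.F.obj (X ⊗ Y) ⟶ G.F.obj (X ⊗ Y) :=
  (V ◁ f.app (X ⊗ Y)) ≫ (G.σ V (X ⊗ Y)).inv ≫ G.F.map (nx L X Y)

/-- The operator applied last in the error term. -/
def PX (G : BF C) (X : C) : ((BF.T V).comp (G.comp (BF.T X))).F ⟶ (G.comp (BF.T X)).F where
  app Y := (G.σ V (X ⊗ Y)).inv ≫ G.F.map (nx L X Y)
  naturality Y Y' g := by
    change (V ◁ G.F.map (X ◁ g)) ≫ (G.σ V (X ⊗ Y')).inv ≫ G.F.map (nx L X Y') =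
      ((G.σ V (X ⊗ Y)).inv ≫ G.F.map (nx L X Y)) ≫ G.F.map (X ◁ g)
    rw [σ_inv_nat_assoc, ← G.F.map_comp, nx_nat, G.F.map_comp, Category.assoc]

theorem nat0_PX (G : BF C) (X : C) : Nat0 (F := (BF.T V).comp (G.comp (BF.T X)))
    (G := G.comp (BF.T X)) (PX L G X) := by
  have h1 : Nat0 (F := ((BF.T V).comp G).comp (BF.T X)) (G := (G.comp (BF.T V)).comp (BF.T X))
    (wr (BF.T X) (sg G V).inv) := (nat0_sg_inv G V).wr (BF.T X)
  have h2 : Nat0 (F := G.comp ((BF.T V).comp (BF.T X))) (G := G.comp (BF.T X))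
    (wl G (NX L X)) := (nat0_NX L X).wl G
  exact (h1.src'.comp h2.src :)

/-- The error term. -/
def EX {F G : BF C} (f : F.F ⟶ G.F) (X : C) :
    (((BF.T V).comp F).comp (BF.T X)).F ⟶ (G.comp (BF.T X)).F :=
  wl (BF.T V) (tr f X) ≫ PX L G X

theorem EX_app {F G : BF C} (f : F.F ⟶ G.F) (X Y : C) :
    (EX L f X).app Y = ex L f X Y := rfl

theorem sw_inv_transp (ht : Transp V) (X Y : C) : (sw X V Y).inv = (sw V X Y).hom := by
  have h : (β_ X V).inv = (β_ V X).hom := by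
    rw [← cancel_mono (β_ X V).hom, Iso.inv_hom_id, ht X]
  rw [sw_inv, sw_hom, h]

@[reassoc]
theorem yb_inv (G : BF C) (X Y : C) :
    (V ◁ (G.σ X Y).inv) ≫ (G.σ V (X ⊗ Y)).inv ≫ G.F.map (sw V X Y).hom =
      (sw V X (G.F.obj Y)).hom ≫ (X ◁ (G.σ V Y).inv) ≫ (G.σ X (V ⊗ Y)).inv := by
  have h := G.yb V X Y
  rw [← cancel_epi (V ◁ (G.σ X Y).hom), ← cancel_epi (G.σ V (X ⊗ Y)).hom]
  rw [← MonoidalCategory.whiskerLeft_comp_assoc, Iso.hom_inv_id,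
    MonoidalCategory.whiskerLeft_id, Category.id_comp, Iso.hom_inv_id_assoc, reassoc_of% h,
    ← MonoidalCategory.whiskerLeft_comp_assoc, Iso.hom_inv_id,
    MonoidalCategory.whiskerLeft_id, Category.id_comp, Iso.hom_inv_id, Category.comp_id]

/-- `br` on objects. -/
def bra {F G : BF C} (f : F.F ⟶ G.F) (X Y : C) : F.F.obj (X ⊗ Y) ⟶ G.F.obj (X ⊗ Y) :=
  f.app (X ⊗ Y) - (F.σ X Y).hom ≫ (X ◁ f.app Y) ≫ (G.σ X Y).inv

theorem D_br (ht : Transp V) {F G : BF C} (f : F.F ⟶ G.F) (X Y : C) :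
    dop L f (X ⊗ Y) - ((V ◁ (F.σ X Y).hom) ≫ (sw V X (F.F.obj Y)).hom) ≫
        (X ◁ dop L f Y) ≫ (G.σ X Y).inv =
      (V ◁ bra f X Y) ≫ ((G.σ V (X ⊗ Y)).inv ≫ G.F.map (sw X V Y).inv) ≫
        G.F.map (X ◁ L.d Y) + ex L f X Y := by
  have h1 : dop L f (X ⊗ Y) = ex L f X Y +
      (V ◁ f.app (X ⊗ Y)) ≫ (G.σ V (X ⊗ Y)).inv ≫ G.F.map (sw V X Y).hom ≫
        G.F.map (X ◁ L.d Y) := by
    rw [dop, ex, leib_eq', G.F.map_add, G.F.map_comp]
    simp only [Preadditive.comp_add]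
  have h5 : ((V ◁ (F.σ X Y).hom) ≫ (sw V X (F.F.obj Y)).hom) ≫
        (X ◁ dop L f Y) ≫ (G.σ X Y).inv =
      (V ◁ ((F.σ X Y).hom ≫ (X ◁ f.app Y) ≫ (G.σ X Y).inv)) ≫
        ((G.σ V (X ⊗ Y)).inv ≫ G.F.map (sw V X Y).hom) ≫ G.F.map (X ◁ L.d Y) := by
    rw [dop]
    simp only [MonoidalCategory.whiskerLeft_comp, Category.assoc]
    rw [σ_inv_nat, ← sw_nat_assoc, yb_inv_assoc]
  have h6 : ∀ {A B : C} (u v : A ⟶ B), V ◁ (u - v) = V ◁ u - V ◁ v := fun u v =>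
    (tensorLeft V).map_sub
  rw [h1, sw_inv_transp ht, h5, bra, h6, Preadditive.sub_comp]
  simp only [Category.assoc]
  abel

/-- `D` raises the degree by at most one. -/
theorem deg_D (ht : Transp V) (m : ℕ) {F G : BF C} {f : F.F ⟶ G.F} (hf : Deg m f) :
    Deg (m + 1) (Dop L f) := by
  induction m generalizing F G with
  | zero =>
    have h : Dop L f = 0 := by
      rw [show f = 0 from hf]
      ext Y
      change (V ◁ (0 : F.F.obj Y ⟶ G.F.obj Y)) ≫ _ ≫ _ = 0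
      rw [MonoidalPreadditive.whiskerLeft_zero, zero_comp]
    rw [h]
    exact deg_zero 1
  | succ m ih =>
    intro X
    let A : (((BF.T V).comp F).comp (BF.T X)).F ⟶ (G.comp (BF.T X)).F := Dop L (br f X)
    let B : (((BF.T V).comp F).comp (BF.T X)).F ⟶ (G.comp (BF.T X)).F := EX L f X
    have h : br (Dop L f) X = A + B := by
      ext Y
      exact D_br L ht f X Y
    rw [h]
    refine deg_add (m + 1) ?_ ?_
    · exact Deg.src (H := BF.T V) (F := F) (K := BF.T X) (ih (hf X))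
    · refine Deg.src (H := BF.T V) (F := F) (K := BF.T X) ?_
      exact deg_post (m + 1) (F := (BF.T V).comp (F.comp (BF.T X)))
        (G := (BF.T V).comp (G.comp (BF.T X))) (nat0_PX L G X)
        (deg_wl (m + 1) (BF.T V) (deg_tr (m + 1) hf X))

end Leib

end DG

end Pool.Agent.MUP
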