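import Pool.Agent.MUP.DG2

/-!
# The iterates of a Leibniz family have top term the symmetrizer (helper78)
-/

open CategoryTheory MonoidalCategory Limits

universe v u

set_option linter.unusedSectionVars false
set_option linter.unusedVariables false

namespace Pool.Agent.MUP

open Pool.Agent.MUG

namespace DG

section PW

variable {C : Type u} [Category.{v} C] [Abelian C] [MonoidalCategory C] [MonoidalPreadditive C]
  [BraidedCategory C] (V : C)

theorem swp_eq (X Y : C) : swp V X Y = (sw V X Y).hom := by rw [sw_hom]; rfl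

/-- `V^n (X Y) ≅ X (V^n Y)`. -/
def sgm : ∀ (n : ℕ) (X Y : C), pw (tensorLeft V) n (X ⊗ Y) ≅ X ⊗ pw (tensorLeft V) n Y
  | 0, _, _ => Iso.refl _
  | n + 1, X, Y => (tensorLeft V).mapIso (sgm n X Y) ≪≫ sw V X (pw (tensorLeft V) n Y)

theorem sgm_zero (X Y : C) : (sgm V 0 X Y).hom = 𝟙 (X ⊗ Y) := rfl

theorem sgm_succ (n : ℕ) (X Y : C) : (sgm V (n + 1) X Y).hom =
    (V ◁ (sgm V n X Y).hom) ≫ (sw V X (pw (tensorLeft V) n Y)).hom := rfl

@[reassoc]
theorem sgm_nat (n : ℕ) (X : C) {Y Y' : C} (f : Y ⟶ Y') :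
    pwMap (tensorLeft V) n (X ◁ f) ≫ (sgm V n X Y').hom =
      (sgm V n X Y).hom ≫ (X ◁ pwMap (tensorLeft V) n f) := by
  induction n with
  | zero => exact (Category.comp_id _).trans (Category.id_comp _).symm
  | succ n ih =>
    rw [sgm_succ, sgm_succ]
    change (V ◁ pwMap (tensorLeft V) n (X ◁ f)) ≫ _ = _ ≫ (X ◁ (V ◁ pwMap (tensorLeft V) n f))
    rw [← MonoidalCategory.whiskerLeft_comp_assoc, ih, MonoidalCategory.whiskerLeft_comp_assoc,
      sw_nat, Category.assoc]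

/-- `V^n` as a functor. -/
def pwF (n : ℕ) : C ⥤ C where
  obj := pw (tensorLeft V) n
  map := pwMap (tensorLeft V) n
  map_id := pwMap_id n
  map_comp := pwMap_comp n

theorem pwMap_add (n : ℕ) {Y Y' : C} (f g : Y ⟶ Y') :
    pwMap (tensorLeft V) n (f + g) = pwMap (tensorLeft V) n f + pwMap (tensorLeft V) n g := by
  induction n with
  | zero => rfl
  | succ n ih =>
    change (V ◁ pwMap (tensorLeft V) n (f + g)) = (V ◁ _) + (V ◁ _)
    rw [ih]
    exact MonoidalPreadditive.whiskerLeft_add _ _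

theorem sgm_yb (n : ℕ) (X X' Y : C) :
    (sgm V n X (X' ⊗ Y)).hom ≫ (X ◁ (sgm V n X' Y).hom) ≫
      (sw X X' (pw (tensorLeft V) n Y)).hom =
    pwMap (tensorLeft V) n (sw X X' Y).hom ≫ (sgm V n X' (X ⊗ Y)).hom ≫
      (X' ◁ (sgm V n X Y).hom) := by
  induction n with
  | zero =>
    change 𝟙 _ ≫ (X ◁ 𝟙 _) ≫ (sw X X' Y).hom = (sw X X' Y).hom ≫ 𝟙 _ ≫ (X' ◁ 𝟙 _)
    simp
  | succ n ih =>
    rw [sgm_succ, sgm_succ, sgm_succ, sgm_succ]
    change ((V ◁ (sgm V n X (X' ⊗ Y)).hom) ≫ (sw V X (pw (tensorLeft V) n (X' ⊗ Y))).hom) ≫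
      (X ◁ ((V ◁ (sgm V n X' Y).hom) ≫ (sw V X' (pw (tensorLeft V) n Y)).hom)) ≫
        (sw X X' (V ⊗ pw (tensorLeft V) n Y)).hom =
      (V ◁ pwMap (tensorLeft V) n (sw X X' Y).hom) ≫ ((V ◁ (sgm V n X' (X ⊗ Y)).hom) ≫
        (sw V X' (pw (tensorLeft V) n (X ⊗ Y))).hom) ≫ (X' ◁ ((V ◁ (sgm V n X Y).hom) ≫
          (sw V X (pw (tensorLeft V) n Y)).hom))
    simp only [MonoidalCategory.whiskerLeft_comp, Category.assoc]
    have h := congrArg (fun t => V ◁ t) ih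
    simp only [MonoidalCategory.whiskerLeft_comp] at h
    rw [← sw_nat_assoc, sw_yb, reassoc_of% h, sw_nat_assoc]

/-- Iterated tensoring as a `BF`. -/
def PW (n : ℕ) : BF C where
  F := pwF V n
  add := ⟨fun {_ _ _ _} => pwMap_add V n _ _⟩
  σ X Y := sgm V n X Y
  nat X Y Y' f := sgm_nat V n X f
  yb X X' Y := sgm_yb V n X X' Y

theorem PW_succ (n : ℕ) : PW V (n + 1) = (BF.T V).comp (PW V n) := rfl

variable {V} (L : Leib V)

/-- `G (t^m)`. -/
def Th (G : BF C) (m : ℕ) : (G.comp (PW V m)).F ⟶ G.F where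
  app Y := G.F.map (tt (F := tensorLeft V) L.d m Y)
  naturality Y Y' f := by
    have h := tt_nat (F := tensorLeft V) L.d (fun g => L.nat g) m f
    change G.F.map (pwMap (tensorLeft V) m f) ≫ G.F.map (tt (F := tensorLeft V) L.d m Y') =
      G.F.map (tt (F := tensorLeft V) L.d m Y) ≫ G.F.map f
    rw [← G.F.map_comp, h, G.F.map_comp]

/-- `bb m`. -/
def bbN (m : ℕ) : (PW V (m + 1)).F ⟶ (PW V (m + 1)).F where
  app Y := bb (F := tensorLeft V) (swp V V) 1 m Y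
  naturality Y Y' f := bb_nat (F := tensorLeft V) (swp V V) 1
    (fun g => by rw [swp_eq, swp_eq]; exact sw_nat V V g) m f

/-- `ss m`. -/
def SYN (m : ℕ) : (PW V m).F ⟶ (PW V m).F where
  app Y := ss (F := tensorLeft V) (swp V V) 1 m Y
  naturality Y Y' f := ss_nat (F := tensorLeft V) (swp V V) 1
    (fun g => by rw [swp_eq, swp_eq]; exact sw_nat V V g) m f


/-- `bb` with its type spelled out. -/
def bx (m : ℕ) (Y : C) : V ⊗ pw (tensorLeft V) m Y ⟶ V ⊗ pw (tensorLeft V) m Y :=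
  bb (F := tensorLeft V) (swp V V) 1 m Y

/-- `ss` with its type spelled out. -/
def sx (m : ℕ) (Y : C) : pw (tensorLeft V) m Y ⟶ pw (tensorLeft V) m Y :=
  ss (F := tensorLeft V) (swp V V) 1 m Y

theorem bb_succ' (m : ℕ) (Y : C) :
    @Eq (V ⊗ (V ⊗ pw (tensorLeft V) m Y) ⟶ V ⊗ (V ⊗ pw (tensorLeft V) m Y))
      (bx (V := V) (m + 1) Y)
      (𝟙 (V ⊗ (V ⊗ pw (tensorLeft V) m Y)) + (V ◁ bx (V := V) m Y) ≫
        (sw V V (pw (tensorLeft V) m Y)).hom) := by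
  rw [← swp_eq]
  exact congrArg (fun t => 𝟙 (V ⊗ (V ⊗ pw (tensorLeft V) m Y)) + t) (one_zsmul _)

theorem nat0_bbN (m : ℕ) : Nat0 (F := PW V (m + 1)) (G := PW V (m + 1)) (bbN (V := V) m) := by
  induction m with
  | zero => exact nat0_id (PW V 1)
  | succ m ih =>
    have h1 : Nat0 (F := (BF.T V).comp (PW V (m + 1))) (G := (BF.T V).comp (PW V (m + 1)))
      (wl (BF.T V) (bbN (V := V) m)) := ih.wl (BF.T V)
    have h2 : Nat0 (F := ((BF.T V).comp (BF.T V)).comp (PW V m))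
      (G := ((BF.T V).comp (BF.T V)).comp (PW V m)) (wr (PW V m) (sg (BF.T V) V).hom) :=
      (nat0_sg (BF.T V) V).wr (PW V m)
    have h3 := (nat0_id (PW V (m + 2))).add (h1.comp h2.src'.tgt')
    intro X Y
    have h4 := h3 X Y
    have h5 : ∀ Y, (bbN (V := V) (m + 1)).app Y = (𝟙 (PW V (m + 2)).F +
      (wl (BF.T V) (bbN (V := V) m) ≫ wr (PW V m) (sg (BF.T V) V).hom :
        (PW V (m + 2)).F ⟶ (PW V (m + 2)).F)).app Y := fun Y => bb_succ' m Y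
    rw [h5, h5]
    exact h4

theorem SY_succ (m : ℕ) (Y : C) :
    @Eq (V ⊗ pw (tensorLeft V) m Y ⟶ V ⊗ pw (tensorLeft V) m Y)
      (sx (V := V) (m + 1) Y) (bx (V := V) m Y ≫ (V ◁ sx (V := V) m Y)) :=
  ss_succ_bb (F := tensorLeft V) (swp V V) 1
    (fun g => by rw [swp_eq, swp_eq]; exact sw_nat V V g) m Y

theorem nat0_SYN (m : ℕ) : Nat0 (F := PW V m) (G := PW V m) (SYN (V := V) m) := by
  induction m with
  | zero => exact nat0_id (PW V 0)
  | succ m ih =>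
    have h1 : Nat0 (F := (BF.T V).comp (PW V m)) (G := (BF.T V).comp (PW V m))
      (wl (BF.T V) (SYN (V := V) m)) := ih.wl (BF.T V)
    have h3 := (nat0_bbN (V := V) m).comp h1
    intro X Y
    have h4 := h3 X Y
    have h5 : ∀ Y, (SYN (V := V) (m + 1)).app Y =
      (bbN (V := V) m ≫ wl (BF.T V) (SYN (V := V) m) :
        (PW V (m + 1)).F ⟶ (PW V (m + 1)).F).app Y := fun Y => SY_succ m Y
    rw [h5, h5]
    exact h4

/-- `κ` on objects. -/
def kap (m : ℕ) (X Y : C) : V ⊗ pw (tensorLeft V) m (X ⊗ Y) ⟶ X ⊗ pw (tensorLeft V) m Y :=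
  bx (V := V) m (X ⊗ Y) ≫ (V ◁ (sgm V m X Y).hom) ≫ nx L X (pw (tensorLeft V) m Y)

/-- First part of `κ`. -/
def Kap1 (m : ℕ) (X : C) : ((PW V (m + 1)).comp (BF.T X)).F ⟶
    ((BF.T V).comp ((BF.T X).comp (PW V m))).F :=
  wl (BF.T V) (sg (PW V m) X).hom

/-- Second part of `κ`. -/
def Kap2 (m : ℕ) (X : C) : ((BF.T V).comp ((BF.T X).comp (PW V m))).F ⟶
    ((BF.T X).comp (PW V m)).F :=
  wr (PW V m) (NX L X)

/-- `κ`. -/
def Kap (m : ℕ) (X : C) : ((PW V (m + 1)).comp (BF.T X)).F ⟶ ((BF.T X).comp (PW V m)).F :=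
  tr (bbN (V := V) m) X ≫ Kap1 m X ≫ Kap2 L m X

theorem Kap_app (m : ℕ) (X Y : C) : (Kap L m X).app Y = kap L m X Y := rfl

theorem nat0_Kap (m : ℕ) (X : C) : Nat0 (F := (PW V (m + 1)).comp (BF.T X))
    (G := (BF.T X).comp (PW V m)) (Kap L m X) := by
  have h1 : Nat0 (F := (PW V (m + 1)).comp (BF.T X)) (G := (PW V (m + 1)).comp (BF.T X))
    (tr (bbN (V := V) m) X) := (nat0_bbN m).tr X
  have h2 : Nat0 (F := (BF.T V).comp ((PW V m).comp (BF.T X)))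
    (G := (BF.T V).comp ((BF.T X).comp (PW V m))) (wl (BF.T V) (sg (PW V m) X).hom) :=
    (nat0_sg (PW V m) X).wl (BF.T V)
  have h2' : Nat0 (F := ((BF.T V).comp (PW V m)).comp (BF.T X))
    (G := (BF.T V).comp ((BF.T X).comp (PW V m))) (Kap1 m X) :=
    Nat0.src (H := BF.T V) (F := PW V m) (K := BF.T X) h2
  have h3 : Nat0 (F := ((BF.T V).comp (BF.T X)).comp (PW V m)) (G := (BF.T X).comp (PW V m))
    (wr (PW V m) (NX L X)) := (nat0_NX L X).wr (PW V m)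
  have h3' : Nat0 (F := (BF.T V).comp ((BF.T X).comp (PW V m))) (G := (BF.T X).comp (PW V m))
    (Kap2 L m X) := Nat0.src' (H := BF.T V) (F := BF.T X) (K := PW V m) h3
  exact h1.comp (h2'.comp h3')

/-- Naturality of the braiding at `n_X`. -/
@[reassoc]
theorem nx_sw (X Z : C) :
    (sw V V (X ⊗ Z)).hom ≫ (V ◁ (sw V X Z).hom) ≫ nx L X (V ⊗ Z) =
      (V ◁ nx L X Z) ≫ (sw V X Z).hom := by
  rw [← Category.assoc, sw_tensor, nx, nx, MonoidalCategory.whiskerLeft_comp, Category.assoc,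
    Category.assoc, Category.assoc, Iso.hom_inv_id_assoc, sw_nat_mid]

/-- The recursion of `κ`. -/
theorem kap_succ (m : ℕ) (X Y : C) :
    @Eq (V ⊗ (V ⊗ pw (tensorLeft V) m (X ⊗ Y)) ⟶ X ⊗ (V ⊗ pw (tensorLeft V) m Y))
      (kap L (m + 1) X Y)
      ((V ◁ kap L m X Y) ≫ (sw V X (pw (tensorLeft V) m Y)).hom +
        (V ◁ ((V ◁ (sgm V m X Y).hom) ≫ (sw V X (pw (tensorLeft V) m Y)).hom)) ≫
          nx L X (V ⊗ pw (tensorLeft V) m Y)) := by
  have h : @Eq (V ⊗ (V ⊗ pw (tensorLeft V) m (X ⊗ Y)) ⟶ X ⊗ (V ⊗ pw (tensorLeft V) m Y))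
      (kap L (m + 1) X Y) ((𝟙 (V ⊗ (V ⊗ pw (tensorLeft V) m (X ⊗ Y))) +
        (V ◁ bx (V := V) m (X ⊗ Y)) ≫ (sw V V (pw (tensorLeft V) m (X ⊗ Y))).hom) ≫
        (V ◁ ((V ◁ (sgm V m X Y).hom) ≫ (sw V X (pw (tensorLeft V) m Y)).hom)) ≫
          nx L X (V ⊗ pw (tensorLeft V) m Y)) :=
    congrArg (fun t => t ≫ (V ◁ ((V ◁ (sgm V m X Y).hom) ≫
      (sw V X (pw (tensorLeft V) m Y)).hom)) ≫ nx L X (V ⊗ pw (tensorLeft V) m Y))
      (bb_succ' m (X ⊗ Y))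
  rw [h, Preadditive.add_comp, add_comm, Category.id_comp, kap]
  congr 1
  simp only [MonoidalCategory.whiskerLeft_comp, Category.assoc]
  rw [← sw_nat_assoc, nx_sw]

end PW

end DG

end Pool.Agent.MUP
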