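import Pool.Agent.MUP.DG3

/-!
# The bracket of the iterates (helper78)
-/

open CategoryTheory MonoidalCategory Limits

universe v u

set_option linter.unusedSectionVars false
set_option linter.unusedVariables false

namespace Pool.Agent.MUP

open Pool.Agent.MUG

namespace DG

section Th

variable {C : Type u} [Category.{v} C] [Abelian C] [MonoidalCategory C] [MonoidalPreadditive C]
  [BraidedCategory C] {V : C} (L : Leib V)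

/-- `t^m` with its type spelled out. -/
def tx (m : ℕ) (Y : C) : pw (tensorLeft V) m Y ⟶ Y := tt (F := tensorLeft V) L.d m Y

theorem tx_succ (m : ℕ) (Y : C) :
    @Eq (V ⊗ pw (tensorLeft V) m Y ⟶ Y) (tx L (m + 1) Y) ((V ◁ tx L m Y) ≫ L.d Y) := rfl

/-- `t^m`. -/
def ThO (m : ℕ) : (PW V m).F ⟶ (BF.one (C := C)).F where
  app Y := tx L m Y
  naturality Y Y' f := tt_nat (F := tensorLeft V) L.d (fun g => L.nat g) m f

theorem dop_ThO (m : ℕ) (Y : C) : dop L (ThO L m) Y = (V ◁ tx L m Y) ≫ L.d Y := by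
  change (V ◁ tx L m Y) ≫ 𝟙 _ ≫ L.d Y = _
  rw [Category.id_comp]

theorem ThO_succ (m : ℕ) : ThO L (m + 1) = (Dop L (ThO L m) : (PW V (m + 1)).F ⟶
    (BF.one (C := C)).F) := by
  ext Y
  exact (dop_ThO L m Y).symm

theorem deg_ThO (ht : Transp V) (m : ℕ) : Deg (m + 1) (ThO L m) := by
  induction m with
  | zero =>
    intro X
    have h : Nat0 (F := PW V 0) (G := BF.one) (ThO L 0) := fun X Y => by
      change 𝟙 _ ≫ 𝟙 _ = 𝟙 _ ≫ (X ◁ 𝟙 _)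
      simp
    rw [br_nat0 h]
    exact deg_zero 0
  | succ m ih =>
    rw [ThO_succ]
    exact deg_D L ht (m + 1) ih

/-- `t^m_{X Y} - X t^m_Y`. -/
def bt (m : ℕ) (X Y : C) : pw (tensorLeft V) m (X ⊗ Y) ⟶ X ⊗ Y :=
  tx L m (X ⊗ Y) - (sgm V m X Y).hom ≫ (X ◁ tx L m Y)

theorem bra_ThO (m : ℕ) (X Y : C) : bra (ThO L m) X Y = bt L m X Y := by
  change tx L m (X ⊗ Y) - (sgm V m X Y).hom ≫ (X ◁ tx L m Y) ≫ 𝟙 _ = _
  rw [Category.comp_id]; rfl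

/-- Components of a remainder. -/
def rap {m : ℕ} {X : C} (ρ : ((PW V (m + 1)).comp (BF.T X)).F ⟶
    ((BF.one (C := C)).comp (BF.T X)).F) (Y : C) :
    V ⊗ pw (tensorLeft V) m (X ⊗ Y) ⟶ X ⊗ Y := ρ.app Y

/-- Auxiliary, with a convenient type. -/
def r1 {m : ℕ} {X : C} (ρ : ((PW V (m + 1)).comp (BF.T X)).F ⟶
    ((BF.one (C := C)).comp (BF.T X)).F) (Y : C) :
    V ⊗ pw (tensorLeft V) (m + 1) (X ⊗ Y) ⟶ V ⊗ (X ⊗ Y) := V ◁ rap ρ Y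

/-- Auxiliary, with a convenient type. -/
def r2 (m : ℕ) (X Y : C) : V ⊗ pw (tensorLeft V) (m + 1) (X ⊗ Y) ⟶
    X ⊗ pw (tensorLeft V) (m + 1) Y :=
  (V ◁ kap L m X Y) ≫ (sw V X (pw (tensorLeft V) m Y)).hom

theorem kap_succ' (m : ℕ) (X Y : C) : kap L (m + 1) X Y = r2 L m X Y +
    (V ◁ (sgm V (m + 1) X Y).hom) ≫ nx L X (pw (tensorLeft V) (m + 1) Y) := kap_succ L m X Y

theorem r2_tx (m : ℕ) (X Y : C) : r2 L m X Y ≫ (X ◁ tx L (m + 1) Y) =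
    (V ◁ (kap L m X Y ≫ (X ◁ tx L m Y)) :
      V ⊗ pw (tensorLeft V) (m + 1) (X ⊗ Y) ⟶ V ⊗ (X ⊗ Y)) ≫ (sw V X Y).hom ≫ (X ◁ L.d Y) := by
  change ((V ◁ kap L m X Y) ≫ (sw V X (pw (tensorLeft V) m Y)).hom) ≫
    (X ◁ ((V ◁ tx L m Y) ≫ L.d Y)) = _ ≫ _ ≫ _
  rw [MonoidalCategory.whiskerLeft_comp, Category.assoc, ← sw_nat_assoc]
  exact (MonoidalCategory.whiskerLeft_comp_assoc _ _ _ _).symm

theorem theta_br (ht : Transp V) (m : ℕ) (X : C) :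
    ∃ ρ : ((PW V (m + 1)).comp (BF.T X)).F ⟶ ((BF.one (C := C)).comp (BF.T X)).F,
      Deg m ρ ∧ ∀ Y, @Eq (V ⊗ pw (tensorLeft V) m (X ⊗ Y) ⟶ X ⊗ Y) (bt L (m + 1) X Y)
        (kap L m X Y ≫ (X ◁ tx L m Y) + rap ρ Y) := by
  induction m with
  | zero =>
    refine ⟨0, deg_zero 0, fun Y => ?_⟩
    have h : @Eq (V ⊗ (X ⊗ Y) ⟶ X ⊗ Y) (bt L 1 X Y)
      ((V ◁ 𝟙 _) ≫ L.d (X ⊗ Y) - ((V ◁ 𝟙 _) ≫ (sw V X Y).hom) ≫
        (X ◁ ((V ◁ 𝟙 _) ≫ L.d Y))) := rfl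
    have h2 : @Eq (V ⊗ (X ⊗ Y) ⟶ X ⊗ Y) ((𝟙 _ ≫ (V ◁ 𝟙 _) ≫ nx L X Y) ≫ (X ◁ 𝟙 _) + 0)
      (kap L 0 X Y ≫ (X ◁ tx L 0 Y) +
        rap (V := V) (m := 0) (0 : ((PW V 1).comp (BF.T X)).F ⟶
          ((BF.one (C := C)).comp (BF.T X)).F) Y) := rfl
    refine h.trans (Eq.trans ?_ h2)
    simp only [MonoidalCategory.whiskerLeft_id, Category.id_comp, Category.comp_id, add_zero]
    rw [leib_eq']
    abel
  | succ m ih =>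
    obtain ⟨ρ, h1, h2⟩ := ih
    have hbr : Deg (m + 1) (br (ThO L (m + 1)) X) := deg_ThO L ht (m + 1) X
    have hA : Deg (m + 1) (F := (BF.T V).comp ((PW V (m + 1)).comp (BF.T X)))
      (G := (BF.one (C := C)).comp (BF.T X)) (Dop L ρ) := deg_D L ht m h1
    have hB : Deg (m + 1) (F := (BF.T V).comp ((PW V (m + 1)).comp (BF.T X)))
      (G := (BF.one (C := C)).comp (BF.T X))
      (wl (BF.T V) (br (ThO L (m + 1)) X) ≫ PX L (BF.one (C := C)) X) :=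
      deg_post (m + 1) (F := (BF.T V).comp ((PW V (m + 1)).comp (BF.T X)))
        (G := (BF.T V).comp ((BF.one (C := C)).comp (BF.T X))) (nat0_PX L _ X)
        (deg_wl (m + 1) (BF.T V) hbr)
    refine ⟨_, Deg.src (H := BF.T V) (F := PW V (m + 1)) (K := BF.T X) (deg_add (m + 1) hA hB),
      fun Y => ?_⟩
    have h3 := D_br L ht (ThO L (m + 1)) X Y
    rw [dop_ThO, dop_ThO, bra_ThO] at h3
    change ((V ◁ tx L (m + 1) (X ⊗ Y)) ≫ L.d (X ⊗ Y)) -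
      ((V ◁ (sgm V (m + 1) X Y).hom) ≫ (sw V X (pw (tensorLeft V) (m + 1) Y)).hom) ≫
        (X ◁ ((V ◁ tx L (m + 1) Y) ≫ L.d Y)) ≫ 𝟙 (X ⊗ Y) =
      (V ◁ bt L (m + 1) X Y) ≫ (𝟙 (V ⊗ (X ⊗ Y)) ≫ (sw X V Y).inv) ≫ (X ◁ L.d Y) +
        (V ◁ tx L (m + 1) (X ⊗ Y)) ≫ 𝟙 (V ⊗ (X ⊗ Y)) ≫ nx L X Y at h3
    rw [Category.comp_id, Category.id_comp, Category.id_comp, sw_inv_transp ht] at h3
    have h4 : bt L (m + 2) X Y =
      ((V ◁ tx L (m + 1) (X ⊗ Y)) ≫ L.d (X ⊗ Y) -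
        ((V ◁ (sgm V (m + 1) X Y).hom) ≫ (sw V X (pw (tensorLeft V) (m + 1) Y)).hom) ≫
          (X ◁ ((V ◁ tx L (m + 1) Y) ≫ L.d Y)) :
        V ⊗ pw (tensorLeft V) (m + 1) (X ⊗ Y) ⟶ X ⊗ Y) := rfl
    have h5 : (r1 ρ Y ≫ (𝟙 (V ⊗ (X ⊗ Y)) ≫ (sw X V Y).inv) ≫ (X ◁ L.d Y) +
        (V ◁ (tx L (m + 1) (X ⊗ Y) - (sgm V (m + 1) X Y).hom ≫ (X ◁ tx L (m + 1) Y) ≫
          𝟙 (X ⊗ Y))) ≫ 𝟙 (V ⊗ (X ⊗ Y)) ≫ nx L X Y :
        V ⊗ pw (tensorLeft V) (m + 1) (X ⊗ Y) ⟶ X ⊗ Y) =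
      (rap (V := V) (m := m + 1) (Dop L ρ +
        wl (BF.T V) (br (ThO L (m + 1)) X) ≫ PX L (BF.one (C := C)) X :
          ((PW V (m + 2)).comp (BF.T X)).F ⟶ ((BF.one (C := C)).comp (BF.T X)).F) Y) := rfl
    have h6 : tx L (m + 1) (X ⊗ Y) = bt L (m + 1) X Y +
      (sgm V (m + 1) X Y).hom ≫ (X ◁ tx L (m + 1) Y) := (sub_add_cancel _ _).symm
    have h7 : tx L (m + 1) (X ⊗ Y) - (sgm V (m + 1) X Y).hom ≫ (X ◁ tx L (m + 1) Y) ≫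
          𝟙 (X ⊗ Y) = bt L (m + 1) X Y := by rw [Category.comp_id]; rfl
    have h8 : (V ◁ tx L (m + 1) (X ⊗ Y)) ≫ nx L X Y = (V ◁ bt L (m + 1) X Y) ≫ nx L X Y +
        ((V ◁ (sgm V (m + 1) X Y).hom) ≫ nx L X (pw (tensorLeft V) (m + 1) Y)) ≫
          (X ◁ tx L (m + 1) Y) := by
      rw [h6, MonoidalPreadditive.whiskerLeft_add, Preadditive.add_comp,
        MonoidalCategory.whiskerLeft_comp, Category.assoc, nx_nat, Category.assoc]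
    have h10 : V ◁ bt L (m + 1) X Y = (V ◁ (kap L m X Y ≫ (X ◁ tx L m Y)) :
      V ⊗ pw (tensorLeft V) (m + 1) (X ⊗ Y) ⟶ V ⊗ (X ⊗ Y)) + r1 ρ Y :=
      (congrArg (fun t => V ◁ t) (h2 Y)).trans (MonoidalPreadditive.whiskerLeft_add _ _)
    have h9 : (V ◁ bt L (m + 1) X Y) ≫ (sw V X Y).hom ≫ (X ◁ L.d Y) =
        r2 L m X Y ≫ (X ◁ tx L (m + 1) Y) + r1 ρ Y ≫ (sw V X Y).hom ≫ (X ◁ L.d Y) := by
      rw [h10, Preadditive.add_comp, r2_tx]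
    have h12 : (bt L (m + 2) X Y : V ⊗ pw (tensorLeft V) (m + 1) (X ⊗ Y) ⟶ X ⊗ Y) =
      kap L (m + 1) X Y ≫ (X ◁ tx L (m + 1) Y) +
      rap (V := V) (m := m + 1) (Dop L ρ +
        wl (BF.T V) (br (ThO L (m + 1)) X) ≫ PX L (BF.one (C := C)) X :
          ((PW V (m + 2)).comp (BF.T X)).F ⟶ ((BF.one (C := C)).comp (BF.T X)).F) Y := by
      rw [h4, h3, ← h5, h7, h8, h9, Category.id_comp, Category.id_comp, sw_inv_transp ht,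
        kap_succ', Preadditive.add_comp]
      abel
    exact h12

end Th

end DG

end Pool.Agent.MUP
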