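import Pool.Agent.MUP.AP
import Pool.Agent.MUP.B1p
import Pool.Agent.MUG.Q5

/-!
# Row FL (helper85): peel off a Leibniz family inside a braided finite tensor category
-/

open CategoryTheory MonoidalCategory Limits Abelian

universe w w' v v' u u'

namespace Pool.Agent.MUP

open Pool.Agent.MUG

section Big

variable {k : Type*} [Field k] {Z : Type u} [Category.{v} Z] [Abelian Z] [Linear k Z]
  [MonoidalCategory Z] [MonoidalPreadditive Z] [MonoidalLinear k Z] [RigidCategory Z]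
  [BraidedCategory Z]

omit [Linear k Z] [MonoidalLinear k Z] in
theorem tensorSub_leib_of {P : ObjectProperty Z} [hP : TensorSub P] {b : P.FullSubcategory}
    (L : Leib b) (hL : TensorSub L.T) : TensorSub (fun Y : Z => ∃ h : P Y, L.d ⟨Y, h⟩ = 0) := by
  refine ⟨⟨hP.unit, hL.unit⟩, ?_, ?_, ?_, ?_, ?_, ?_⟩
  · rintro X Y ⟨hX, hX'⟩ ⟨hY, hY'⟩
    exact ⟨hP.tensor hX hY, hL.tensor (X := ⟨X, hX⟩) (Y := ⟨Y, hY⟩) hX' hY'⟩
  · rintro X ⟨hX, hX'⟩
    exact ⟨hP.rdual hX, hL.rdual (X := ⟨X, hX⟩) hX'⟩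
  · rintro X ⟨hX, hX'⟩
    exact ⟨hP.ldual hX, hL.ldual (X := ⟨X, hX⟩) hX'⟩
  · rintro X Y f hf ⟨hY, hY'⟩
    have hX : P X := hP.sub f hY
    let f' : (⟨X, hX⟩ : P.FullSubcategory) ⟶ ⟨Y, hY⟩ := ObjectProperty.homMk f
    have : Mono f' := by
      have : Mono (P.ι.map f') := hf
      exact P.ι.mono_of_mono_map this
    exact ⟨hX, hL.sub f' hY'⟩
  · rintro X Y f hf ⟨hX, hX'⟩
    have hY : P Y := hP.quot f hX
    let f' : (⟨X, hX⟩ : P.FullSubcategory) ⟶ ⟨Y, hY⟩ := ObjectProperty.homMk f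
    have : Epi f' := by
      have : Epi (P.ι.map f') := hf
      exact P.ι.epi_of_epi_map this
    exact ⟨hY, hL.quot f' hX'⟩
  · rintro X Y ⟨hX, hX'⟩ ⟨hY, hY'⟩
    have hXY : P (X ⊞ Y) := hP.biprod hX hY
    refine ⟨hXY, ?_⟩
    let q₁ : (⟨X ⊞ Y, hXY⟩ : P.FullSubcategory) ⟶ ⟨X, hX⟩ := ObjectProperty.homMk biprod.fst
    let q₂ : (⟨X ⊞ Y, hXY⟩ : P.FullSubcategory) ⟶ ⟨Y, hY⟩ := ObjectProperty.homMk biprod.snd
    have h1 : L.d ⟨X ⊞ Y, hXY⟩ ≫ q₁ = 0 := by rw [← L.nat q₁, hX', comp_zero]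
    have h2 : L.d ⟨X ⊞ Y, hXY⟩ ≫ q₂ = 0 := by rw [← L.nat q₂, hY', comp_zero]
    ext1
    apply biprod.hom_ext
    · have := congrArg (fun t => t.hom) h1
      simpa [q₁] using this
    · have := congrArg (fun t => t.hom) h2
      simpa [q₂] using this

omit [Linear k Z] [MonoidalLinear k Z] [BraidedCategory Z] in
/-- The objects of `P` in `F` form a tensor subcategory of `P`. -/
theorem tensorSub_rel (P F : ObjectProperty Z) [hP : TensorSub P] [hF : TensorSub F] :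
    TensorSub (fun Y : P.FullSubcategory => F Y.obj) where
  unit := hF.unit
  tensor := fun hX hY => hF.tensor hX hY
  rdual := fun hX => hF.rdual hX
  ldual := fun hX => hF.ldual hX
  sub := fun {X Y} f hf hY => by
    have : Mono (P.ι.map f) := inferInstance
    exact hF.sub (P.ι.map f) hY
  quot := fun {X Y} f hf hX => by
    have : Epi (P.ι.map f) := inferInstance
    exact hF.quot (P.ι.map f) hX
  biprod := fun {X Y} hX hY => by
    let e : (X ⊞ Y).obj ⟶ X.obj ⊞ Y.obj :=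
      biprod.lift (P.ι.map (biprod.fst : X ⊞ Y ⟶ X)) (P.ι.map (biprod.snd : X ⊞ Y ⟶ Y))
    let r : X.obj ⊞ Y.obj ⟶ (X ⊞ Y).obj :=
      biprod.desc (P.ι.map (biprod.inl : X ⟶ X ⊞ Y)) (P.ι.map (biprod.inr : Y ⟶ X ⊞ Y))
    have her : e ≫ r = 𝟙 _ := by
      have h2 : e ≫ r = P.ι.map (biprod.fst ≫ biprod.inl + biprod.snd ≫ biprod.inr) := by
        rw [Functor.map_add, Functor.map_comp, Functor.map_comp]
        exact biprod.lift_desc
      rw [h2, biprod.total, CategoryTheory.Functor.map_id]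
      rfl
    have h3 : Mono (e ≫ r) := by rw [her]; infer_instance
    have h4 : Mono e := mono_of_mono e r
    exact hF.sub e (hF.biprod hX hY)

omit [Linear k Z] [MonoidalLinear k Z] in
theorem semisimp_rel (P F : ObjectProperty Z) [hP : TensorSub P] (hss : Semisimp F) :
    Semisimp (fun Y : P.FullSubcategory => F Y.obj) := by
  intro X Y f hX hf
  have : Epi (P.ι.map f) := inferInstance
  obtain ⟨s, hs⟩ := hss (P.ι.map f) hX inferInstance
  refine ⟨ObjectProperty.homMk s, ?_⟩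
  apply P.ι.map_injective
  exact hs

omit [Linear k Z] [MonoidalLinear k Z] in
theorem transp_rel (P F : ObjectProperty Z) [hP : TensorSub P] (hPF : P ≤ centralizer F)
    (S : P.FullSubcategory) (hS : F S.obj) : Transp S := by
  intro Y
  ext
  exact comm_symm (hPF _ Y.property S.obj hS)

/-- Row FL: peel off a Leibniz family. -/
theorem fg_leib_plus [IsAlgClosed k] [CharZero k] (hZ : IsFinite k Z) (F : ObjectProperty Z)
    [TensorSub F] (hss : Semisimp F) (P : ObjectProperty Z) (hP : TensorSub P)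
    (hPF : P ≤ centralizer F) (hF : FG k P hP) (V : P.FullSubcategory) (hFV : F V.obj)
    (hs : Simple V.obj) (L : Leib V) (hL : LComm L) :
    ∃ h' : TensorSub (fun Y : Z => ∃ h : P Y, L.d ⟨Y, h⟩ = 0),
      FG k (fun Y : Z => ∃ h : P Y, L.d ⟨Y, h⟩ = 0) h' := by
  have h' : TensorSub (fun Y : Z => ∃ h : P Y, L.d ⟨Y, h⟩ = 0) :=
    tensorSub_leib_of L (tensorSub_T' L)
  refine ⟨h', ?_⟩
  unfold FG at hF ⊢
  have i1 : HasExt.{max u v} P.FullSubcategory := HasExt.standard _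
  have i2 : HasExt.{max u v} (ObjectProperty.FullSubcategory
    (fun Y : Z => ∃ h : P Y, L.d ⟨Y, h⟩ = 0)) := HasExt.standard _
  have hfin := finite_sub hZ P
  have hfin' := finite_sub hZ (fun Y : Z => ∃ h : P Y, L.d ⟨Y, h⟩ = 0)
  have := hfin'.enough
  have hle : (fun Y : Z => ∃ h : P Y, L.d ⟨Y, h⟩ = 0) ≤ P := fun Y hY => hY.1
  have hsV : Simple V := (sub_simple_iff P V).2 hs
  have hrel := tensorSub_rel P F
  refine theoremA_plus (k := k) hfin hF (fun Y : P.FullSubcategory => F Y.obj)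
    (semisimp_rel P F hss) (fun S hS => transp_rel P F hPF S hS) hFV L hL
    (ObjectProperty.ιOfLE hle) ?_
  intro Y
  constructor
  · intro hY
    exact ⟨⟨Y.obj, Y.property, hY⟩, ⟨Iso.refl _⟩⟩
  · rintro ⟨X, ⟨e⟩⟩
    have hX : L.d ((ObjectProperty.ιOfLE hle).obj X) = 0 := X.property.2
    have h1 := L.nat e.inv
    rw [hX, comp_zero] at h1
    rw [← cancel_mono e.inv, ← h1, zero_comp]

end Big

end Pool.Agent.MUP
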