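import Pool.Agent.MUP.PPlus
import Pool.Agent.MCH.Chev
import Pool.Agent.NDC.NDC
import Pool.Agent.MUG.TNh

/-!
# FGC for all centralizers, characteristic zero (assembly, helper72)

Theorem P+ (`theoremP_plus`), the Chevalley property (`MCH.chevalley`) and the nondegeneracy of
the Drinfeld center (`NDC.center_nondegenerate`).
-/

open CategoryTheory MonoidalCategory Limits Abelian

universe w w' v u

set_option linter.unusedSectionVars false

attribute [local instance] CategoryTheory.Abelian.hasFiniteBiproducts

namespace Pool.Agent.MUP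

open Pool.Agent.MUG

section Final

variable {k : Type*} [Field k] {Z : Type u} [Category.{v} Z] [Abelian Z] [Linear k Z]
  [MonoidalCategory Z] [MonoidalPreadditive Z] [MonoidalLinear k Z] [RigidCategory Z]
  [BraidedCategory Z]

/-- A tensor subcategory `D` with `D^^ = D` of a nondegenerate category with FGC satisfies FGC,
characteristic zero. -/
theorem fg_of_double [IsAlgClosed k] [CharZero k] [HasExt.{w} Z] (hZ : IsFinite k Z)
    (hnd : ∀ X : Z, (∀ Y, Comm X Y) → ∃ n : ℕ, Nonempty (X ≅ ⨁ (fun _ : Fin n => 𝟙_ Z)))
    (hF : FGC.{w} k Z) (D : ObjectProperty Z) (hD : TensorSub D)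
    (hDD : centralizer (centralizer D) ≤ D) : FG k D hD := by
  have hcD : TensorSub (centralizer D) := tensorSub_centralizer D
  have hE : TensorSub (D ⊓ centralizer D) := tensorSub_inf _ _
  have hsym : D ⊓ centralizer D ≤ centralizer (D ⊓ centralizer D) :=
    fun X hX Y hY => hX.2 Y hY.1
  obtain ⟨F, hF', hss, hFE, hs⟩ := MCH.chevalley hZ (D ⊓ centralizer D) hsym
  exact theoremP_plus hZ hnd hF D F hD hDD hss hFE hs

theorem centralizer_triple (B : ObjectProperty Z) :
    centralizer (centralizer (centralizer B)) ≤ centralizer B := by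
  intro X hX Y hY
  exact hX Y fun W hW => comm_symm (hW Y hY)

/-- **FGC for centralizers**, characteristic zero. -/
theorem fgc_centralizer [IsAlgClosed k] [CharZero k] [HasExt.{w} Z] (hZ : IsFinite k Z)
    (hnd : ∀ X : Z, (∀ Y, Comm X Y) → ∃ n : ℕ, Nonempty (X ≅ ⨁ (fun _ : Fin n => 𝟙_ Z)))
    (hF : FGC.{w} k Z) (B : ObjectProperty Z) [HasExt.{w'} (centralizer B).FullSubcategory] :
    FGC.{w'} k (centralizer B).FullSubcategory := by
  have hD : TensorSub (centralizer B) := tensorSub_centralizer B
  exact fgc_of_fg hZ (centralizer B)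
    (fg_of_double hZ hnd hF (centralizer B) hD (centralizer_triple B))

end Final

section Cen

variable {k : Type*} [Field k] {C : Type u} [Category.{v} C] [Abelian C]
  [Linear k C] [MonoidalCategory C] [MonoidalPreadditive C] [MonoidalLinear k C]
  [RigidCategory C]

/-- **FGC for centralizers in a Drinfeld center**, characteristic zero. -/
theorem fgc_centralizer_center [IsAlgClosed k] [CharZero k] [HasExt.{w} (Center C)]
    (hC : IsFinite k C) (hF : FGC.{w} k (Center C)) (B : ObjectProperty (Center C))
    [HasExt.{w'} (centralizer B).FullSubcategory] :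
    FGC.{w'} k (centralizer B).FullSubcategory :=
  fgc_centralizer (center_isFinite_gen hC) (NDC.center_nondegenerate hC) hF B

end Cen

end Pool.Agent.MUP
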