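import Pool.Agent.MUP.Defs
import Pool.Agent.MUG.SS6

/-!
# Rows K1, K2, K3 (helper79): the centralizer of a symmetric fusion subcategory
-/

open CategoryTheory MonoidalCategory Limits

universe w v u

set_option linter.unusedSectionVars false

namespace Pool.Agent.MUP

open Pool.Agent.MUG

section Big

variable {k : Type*} [Field k] {Z : Type u} [Category.{v} Z] [Abelian Z] [Linear k Z]
  [MonoidalCategory Z] [MonoidalPreadditive Z] [MonoidalLinear k Z] [RigidCategory Z]
  [BraidedCategory Z]

theorem semisimp_split {F : ObjectProperty Z} (hss : Semisimp F) :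
    ∀ {A B : Z}, F A → F B → ∀ p : A ⟶ B, Epi p → ∃ s, s ≫ p = 𝟙 B :=
  fun hA _ p hp => hss p hA hp

theorem sym_comm {F : ObjectProperty Z} (hsym : F ≤ centralizer F) :
    ∀ A B, F A → F B → Comm A B :=
  fun A B hA hB => hsym A hA B hB

/-- Row K1: the centralizer of a symmetric fusion subcategory is a direct summand. -/
theorem kirby [IsAlgClosed k] [CharZero k] (hZ : IsFinite k Z) (F : ObjectProperty Z)
    [TensorSub F] (hss : Semisimp F) (hsym : F ≤ centralizer F) :
    ∃ e : ∀ Y : Z, Y ⟶ Y, (∀ {Y Y' : Z} (f : Y ⟶ Y'), e Y ≫ f = f ≫ e Y') ∧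
      (∀ Y, e Y ≫ e Y = e Y) ∧ (∀ Y, centralizer F Y → e Y = 𝟙 Y) ∧
      (∀ (Y I : Z) (r : Y ⟶ I) (i : I ⟶ Y), r ≫ i = e Y → i ≫ r = 𝟙 I →
        centralizer F I) := by
  obtain ⟨e, enat, ecc, eone, him, eidem⟩ := exists_averaging (k := k) hZ F
    (semisimp_split hss) (sym_comm hsym)
  refine ⟨e, enat, eidem, eone, fun Y I r i h1 h2 => ?_⟩
  intro V hV
  have h3 : cc V I = 𝟙 (V ⊗ I) := by
    have h4 : V ◁ i = (V ◁ i) ≫ (V ◁ e Y) := by
      rw [← h1, ← MonoidalCategory.whiskerLeft_comp, ← Category.assoc, h2, Category.id_comp]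
    have h5 : (V ◁ i) ≫ cc V Y = V ◁ i := by
      have h6 : (V ◁ e Y) ≫ cc V Y = V ◁ e Y := ecc V Y hV
      rw [h4, Category.assoc, h6]
    calc cc V I = cc V I ≫ (V ◁ i) ≫ (V ◁ r) := by
          rw [← MonoidalCategory.whiskerLeft_comp, h2, MonoidalCategory.whiskerLeft_id,
            Category.comp_id]
      _ = (V ◁ i) ≫ cc V Y ≫ (V ◁ r) := by rw [← Category.assoc, ← cc_nat_right, Category.assoc]
      _ = 𝟙 (V ⊗ I) := by
          rw [← Category.assoc, h5, ← MonoidalCategory.whiskerLeft_comp, h2,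
            MonoidalCategory.whiskerLeft_id]
  exact comm_swap h3

/-- Row K2. -/
theorem projective_of_projIn_cent [IsAlgClosed k] [CharZero k] (hZ : IsFinite k Z)
    (F : ObjectProperty Z) [TensorSub F] (hss : Semisimp F) (hsym : F ≤ centralizer F) {P : Z}
    (hP : ProjIn (centralizer F) P) : Projective P :=
  projective_of_projIn_centralizer_ss hZ F (semisimp_split hss) (sym_comm hsym) hP

/-- Relative form of K2. -/
theorem projIn_of_projIn_inf [IsAlgClosed k] [CharZero k] (hZ : IsFinite k Z)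
    (F : ObjectProperty Z) [TensorSub F] (hss : Semisimp F) (hsym : F ≤ centralizer F)
    (P : ObjectProperty Z) [hP : TensorSub P] {Q : Z}
    (hQ : ProjIn (P ⊓ centralizer F) Q) : ProjIn P Q := by
  obtain ⟨e, enat, ecc, eone, him, eidem⟩ := exists_averaging (k := k) hZ F
    (semisimp_split hss) (sym_comm hsym)
  refine ⟨hQ.1.1, fun {Y' Y} f hf hY' hY g => ?_⟩
  have h5 : e Y ≫ factorThruImage (e Y) = factorThruImage (e Y) := by
    rw [enat, eone _ (him Y), Category.comp_id]
  let m : image (e Y') ⟶ image (e Y) := image.ι (e Y') ≫ f ≫ factorThruImage (e Y)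
  have hm : Epi m := by
    have : Epi (factorThruImage (e Y') ≫ m) := by
      have h6 : factorThruImage (e Y') ≫ m = f ≫ factorThruImage (e Y) := by
        simp only [m]
        rw [image.fac_assoc, ← Category.assoc, enat, Category.assoc, h5]
      rw [h6]
      exact epi_comp _ _
    exact epi_of_epi (factorThruImage (e Y')) m
  have hm1 : m ≫ image.ι (e Y) = image.ι (e Y') ≫ f := by
    have h7 : image.ι (e Y') ≫ e Y' = image.ι (e Y') := by
      rw [← enat, eone _ (him Y'), Category.id_comp]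
    calc m ≫ image.ι (e Y) = image.ι (e Y') ≫ f ≫ e Y := by
          simp only [m, Category.assoc, image.fac]
      _ = image.ι (e Y') ≫ f := by
          rw [← enat, reassoc_of% h7]
  obtain ⟨h, hh⟩ := hQ.2 m hm ⟨hP.quot (factorThruImage (e Y')) hY', him Y'⟩
    ⟨hP.quot (factorThruImage (e Y)) hY, him Y⟩ (g ≫ factorThruImage (e Y))
  refine ⟨h ≫ image.ι (e Y'), ?_⟩
  rw [Category.assoc, ← hm1, reassoc_of% hh, image.fac, ← enat, eone _ hQ.1.2, Category.id_comp]

/-- Row K3. -/
theorem fg_fusion [IsAlgClosed k] [CharZero k] (hZ : IsFinite k Z)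
    (F : ObjectProperty Z) [TensorSub F] (hss : Semisimp F) (hsym : F ≤ centralizer F)
    (P : ObjectProperty Z) (hP : TensorSub P) (hF : FG k P hP)
    (h' : TensorSub (P ⊓ centralizer F)) : FG k (P ⊓ centralizer F) h' := by
  have : HasExt.{max u v} P.FullSubcategory := HasExt.standard _
  have : HasExt.{max u v} (P ⊓ centralizer F).FullSubcategory := HasExt.standard _
  have := (finite_sub hZ P).enough
  have := (finite_sub hZ (P ⊓ centralizer F)).enough
  let i := ObjectProperty.ιOfLE (inf_le_left : P ⊓ centralizer F ≤ P)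
  have : Functor.Linear k i := { map_smul := fun _ _ => rfl }
  refine fgc_of_full (k := k) i (fun Q hQ => ?_) hF
  refine projective_of_projIn P (i.obj Q) ?_
  exact projIn_of_projIn_inf hZ F hss hsym P (projIn_of_projective _ Q hQ)

end Big

end Pool.Agent.MUP
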