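import Pool.Agent.MUP.EMB

/-! # Row W, part 1: connections and their weights (helper22) -/

open CategoryTheory MonoidalCategory Limits Abelian

universe w v u

namespace Pool.Agent.MUP

open Pool.Agent.MUG

section Kill

variable {C : Type u} [Category.{v} C] [Abelian C] [MonoidalCategory C] [MonoidalPreadditive C]
  [RigidCategory C] [BraidedCategory C]

theorem epi_whiskerLeft' (X : C) {Y Y' : C} (f : Y ⟶ Y') [Epi f] : Epi (X ◁ f) :=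
  inferInstanceAs (Epi ((tensorLeft X).map f))

theorem mono_whiskerLeft' (X : C) {Y Y' : C} (f : Y ⟶ Y') [Mono f] : Mono (X ◁ f) :=
  inferInstanceAs (Mono ((tensorLeft X).map f))

theorem epi_whiskerRight' (X : C) {Y Y' : C} (f : Y ⟶ Y') [Epi f] : Epi (f ▷ X) :=
  inferInstanceAs (Epi ((tensorRight X).map f))

theorem mono_whiskerRight' (X : C) {Y Y' : C} (f : Y ⟶ Y') [Mono f] : Mono (f ▷ X) :=
  inferInstanceAs (Mono ((tensorRight X).map f))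

variable {X : C} (e : X ⟶ 𝟙_ C)

/-- `h + a ε`. -/
def pa {Y : C} (h : X ⊗ Y ⟶ Y) (a : ℕ) : X ⊗ Y ⟶ Y := h + a • ((e ▷ Y) ≫ (λ_ Y).hom)

theorem pa_nat {Y Y' : C} (h : X ⊗ Y ⟶ Y) (h' : X ⊗ Y' ⟶ Y') (g : Y ⟶ Y')
    (hg : h ≫ g = (X ◁ g) ≫ h') (a : ℕ) : pa e h a ≫ g = (X ◁ g) ≫ pa e h' a := by
  unfold pa
  rw [Preadditive.add_comp, Preadditive.comp_add, hg, Preadditive.nsmul_comp,
    Preadditive.comp_nsmul, epsT_nat e g]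

/-- The composite of the `h + a ε`, `a` in the list, kills `κ`. -/
def Kill {Y : C} (h : X ⊗ Y ⟶ Y) : List ℕ → ∀ {K : C}, (K ⟶ Y) → Prop
  | [], _, κ => κ = 0
  | a :: l, _, κ => Kill h l ((X ◁ κ) ≫ pa e h a)

theorem kill_nil {Y : C} (h : X ⊗ Y ⟶ Y) {K : C} (κ : K ⟶ Y) : Kill e h [] κ ↔ κ = 0 := Iff.rfl

theorem kill_cons {Y : C} (h : X ⊗ Y ⟶ Y) (a : ℕ) (l : List ℕ) {K : C} (κ : K ⟶ Y) :
    Kill e h (a :: l) κ ↔ Kill e h l ((X ◁ κ) ≫ pa e h a) := Iff.rfl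

theorem kill_pre {Y : C} (h : X ⊗ Y ⟶ Y) (l : List ℕ) : ∀ {K K' : C} (f : K' ⟶ K) (κ : K ⟶ Y),
    Kill e h l κ → Kill e h l (f ≫ κ) := by
  induction l with
  | nil =>
    intro K K' f κ hκ
    rw [kill_nil] at hκ ⊢
    rw [hκ, comp_zero]
  | cons a l ih =>
    intro K K' f κ hκ
    rw [kill_cons] at hκ ⊢
    rw [whiskerLeft_comp, Category.assoc]
    exact ih _ _ hκ

theorem kill_of_pre {Y : C} (h : X ⊗ Y ⟶ Y) (l : List ℕ) : ∀ {K K' : C} (f : K' ⟶ K) [Epi f]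
    (κ : K ⟶ Y), Kill e h l (f ≫ κ) → Kill e h l κ := by
  induction l with
  | nil =>
    intro K K' f _ κ hκ
    rw [kill_nil] at hκ ⊢
    rwa [← cancel_epi f, comp_zero]
  | cons a l ih =>
    intro K K' f _ κ hκ
    rw [kill_cons] at hκ ⊢
    rw [whiskerLeft_comp, Category.assoc] at hκ
    have := epi_whiskerLeft' X f
    exact ih (X ◁ f) _ hκ

theorem kill_post {Y Y' : C} (h : X ⊗ Y ⟶ Y) (h' : X ⊗ Y' ⟶ Y') (g : Y ⟶ Y')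
    (hg : h ≫ g = (X ◁ g) ≫ h') (l : List ℕ) : ∀ {K : C} (κ : K ⟶ Y),
    Kill e h l κ → Kill e h' l (κ ≫ g) := by
  induction l with
  | nil =>
    intro K κ hκ
    rw [kill_nil] at hκ ⊢
    rw [hκ, zero_comp]
  | cons a l ih =>
    intro K κ hκ
    rw [kill_cons] at hκ ⊢
    have h1 := ih _ hκ
    rwa [Category.assoc, pa_nat e h h' g hg, ← Category.assoc, ← whiskerLeft_comp] at h1

theorem kill_of_post {Y Y' : C} (h : X ⊗ Y ⟶ Y) (h' : X ⊗ Y' ⟶ Y') (g : Y ⟶ Y') [Mono g]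
    (hg : h ≫ g = (X ◁ g) ≫ h') (l : List ℕ) : ∀ {K : C} (κ : K ⟶ Y),
    Kill e h' l (κ ≫ g) → Kill e h l κ := by
  induction l with
  | nil =>
    intro K κ hκ
    rw [kill_nil] at hκ ⊢
    rwa [← cancel_mono g, zero_comp]
  | cons a l ih =>
    intro K κ hκ
    rw [kill_cons] at hκ ⊢
    apply ih
    rwa [Category.assoc, pa_nat e h h' g hg, ← Category.assoc, ← whiskerLeft_comp]

/-- Extensions. -/
theorem kill_append {Y₁ Y Y₂ : C} (h₁ : X ⊗ Y₁ ⟶ Y₁) (h : X ⊗ Y ⟶ Y) (h₂ : X ⊗ Y₂ ⟶ Y₂)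
    (i : Y₁ ⟶ Y) (g : Y ⟶ Y₂) (hi : h₁ ≫ i = (X ◁ i) ≫ h) (hg : h ≫ g = (X ◁ g) ≫ h₂)
    (hfac : ∀ {K : C} (κ : K ⟶ Y), κ ≫ g = 0 → ∃ κ' : K ⟶ Y₁, κ' ≫ i = κ)
    (l₁ : List ℕ) (hl₁ : Kill e h₁ l₁ (𝟙 Y₁)) (l₂ : List ℕ) : ∀ {K : C} (κ : K ⟶ Y),
    Kill e h₂ l₂ (κ ≫ g) → Kill e h (l₂ ++ l₁) κ := by
  induction l₂ with
  | nil =>
    intro K κ hκ
    rw [kill_nil] at hκ
    obtain ⟨κ', rfl⟩ := hfac κ hκ
    have h1 := kill_pre e h₁ l₁ κ' _ hl₁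
    rw [Category.comp_id] at h1
    exact kill_post e h₁ h i hi l₁ κ' h1
  | cons a l ih =>
    intro K κ hκ
    rw [List.cons_append, kill_cons]
    apply ih
    rw [kill_cons] at hκ
    rwa [Category.assoc, pa_nat e h h₂ g hg, ← Category.assoc, ← whiskerLeft_comp]

/-- The connection on `V ⊗ Y`. -/
def hV (V : C) {Y : C} (h : X ⊗ Y ⟶ Y) : X ⊗ (V ⊗ Y) ⟶ V ⊗ Y :=
  swp X V Y ≫ (V ◁ h) - (e ▷ (V ⊗ Y)) ≫ (λ_ (V ⊗ Y)).hom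

theorem swp_epsT (V Y : C) :
    swp X V Y ≫ (V ◁ ((e ▷ Y) ≫ (λ_ Y).hom)) = (e ▷ (V ⊗ Y)) ≫ (λ_ (V ⊗ Y)).hom := by
  rw [whiskerLeft_comp, ← Category.assoc, ← swp_nat_left, Category.assoc, swp_unit']

theorem pa_hV (V : C) {Y : C} (h : X ⊗ Y ⟶ Y) (a : ℕ) :
    pa e (hV e V h) (a + 1) = swp X V Y ≫ (V ◁ pa e h a) := by
  unfold pa hV
  rw [MonoidalPreadditive.whiskerLeft_add, Preadditive.comp_add]
  have h1 : (V ◁ (a • ((e ▷ Y) ≫ (λ_ Y).hom))) = a • (V ◁ ((e ▷ Y) ≫ (λ_ Y).hom)) :=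
    (tensorLeft V).map_nsmul
  rw [h1, Preadditive.comp_nsmul, swp_epsT, add_smul, one_smul]
  abel

theorem kill_hV (V : C) {Y : C} (h : X ⊗ Y ⟶ Y) (l : List ℕ) : ∀ {K : C} (κ : K ⟶ Y),
    Kill e h l κ → Kill e (hV e V h) (l.map (· + 1)) (V ◁ κ) := by
  induction l with
  | nil =>
    intro K κ hκ
    rw [kill_nil] at hκ
    rw [List.map_nil, kill_nil, hκ, MonoidalPreadditive.whiskerLeft_zero]
  | cons a l ih =>
    intro K κ hκ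
    rw [kill_cons] at hκ
    rw [List.map_cons, kill_cons, pa_hV, ← Category.assoc, swp_nat, Category.assoc,
      ← whiskerLeft_comp]
    exact kill_pre e _ _ _ _ (ih _ hκ)

end Kill

section Conn

variable {C : Type u} [Category.{v} C] [Abelian C] [MonoidalCategory C] [MonoidalPreadditive C]
  [RigidCategory C] [BraidedCategory C]
variable {V X : C} (L : Leib V) (j : V ⟶ X) (e : X ⟶ 𝟙_ C)

/-- The connection on `X ⊗ Y`. -/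
def hX {Y : C} (h : X ⊗ Y ⟶ Y) : X ⊗ (X ⊗ Y) ⟶ X ⊗ Y :=
  (X ◁ ((e ▷ Y) ≫ (λ_ Y).hom)) - (e ▷ (X ⊗ Y)) ≫ (λ_ (X ⊗ Y)).hom + swp X X Y ≫ (X ◁ h)

theorem hX_conn (w : j ≫ e = 0) (hd : L.d X = (V ◁ e) ≫ (ρ_ V).hom ≫ j) {Y : C}
    (h : X ⊗ Y ⟶ Y) (hh : (j ▷ Y) ≫ h = L.d Y) : (j ▷ (X ⊗ Y)) ≫ hX e h = L.d (X ⊗ Y) := by
  rw [leib_X L j e hd, hX, Preadditive.comp_add, Preadditive.comp_sub, ← whisker_exchange,
    j_eps j e w, sub_zero, ← Category.assoc (j ▷ (X ⊗ Y)) (swp X X Y), swp_nat_left,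
    Category.assoc, ← whiskerLeft_comp, hh]

theorem hX_eps {Y : C} (h : X ⊗ Y ⟶ Y) :
    hX e h ≫ ((e ▷ Y) ≫ (λ_ Y).hom) = (X ◁ ((e ▷ Y) ≫ (λ_ Y).hom)) ≫ h := by
  have h1 := epsT_nat e ((e ▷ Y) ≫ (λ_ Y).hom)
  have h2 := epsT_nat e h
  rw [hX, Preadditive.add_comp, Preadditive.sub_comp, h1, sub_self, zero_add, Category.assoc, h2,
    ← Category.assoc, chi_eps]

theorem hX_sub (w : j ≫ e = 0) {Y : C} (h : X ⊗ Y ⟶ Y) :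
    (X ◁ (j ▷ Y)) ≫ hX e h = hV e V h ≫ (j ▷ Y) := by
  have h1 : (X ◁ (j ▷ Y)) ≫ (X ◁ ((e ▷ Y) ≫ (λ_ Y).hom)) = 0 := by
    rw [← whiskerLeft_comp, j_eps j e w, MonoidalPreadditive.whiskerLeft_zero]
  have h2 := epsT_nat e (j ▷ Y)
  have h3 : (X ◁ (j ▷ Y)) ≫ swp X X Y ≫ (X ◁ h) = (swp X V Y ≫ (V ◁ h)) ≫ (j ▷ Y) := by
    rw [← Category.assoc, swp_nat_mid, Category.assoc, Category.assoc, ← whisker_exchange]
  rw [hX, hV, Preadditive.comp_add, Preadditive.comp_sub, h1, zero_sub, h2, h3,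
    Preadditive.sub_comp]
  abel

/-- The connection on `X^m`. -/
def hm : ∀ m : ℕ, X ⊗ pw (tensorLeft X) m (𝟙_ C) ⟶ pw (tensorLeft X) m (𝟙_ C)
  | 0 => (0 : X ⊗ 𝟙_ C ⟶ 𝟙_ C)
  | m + 1 => hX (Y := pw (tensorLeft X) m (𝟙_ C)) e (hm m)

theorem hm_conn (w : j ≫ e = 0) (hd : L.d X = (V ◁ e) ≫ (ρ_ V).hom ≫ j)
    (h1 : L.d (𝟙_ C) = 0) (m : ℕ) :
    (j ▷ (pw (tensorLeft X) m (𝟙_ C))) ≫ hm e m = L.d (pw (tensorLeft X) m (𝟙_ C)) := by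
  induction m with
  | zero =>
    show (j ▷ 𝟙_ C) ≫ (0 : X ⊗ 𝟙_ C ⟶ 𝟙_ C) = L.d (𝟙_ C)
    rw [h1, comp_zero]
  | succ m ih => exact hX_conn L j e w hd _ ih

theorem ee_zero : ee e 0 (𝟙_ C) = 𝟙 (𝟙_ C) := rfl

theorem ee_succ (m : ℕ) : ee e (m + 1) (𝟙_ C) =
    ((e ▷ (pw (tensorLeft X) m (𝟙_ C))) ≫ (λ_ _).hom) ≫ ee e m (𝟙_ C) :=
  ee_succ' (G := tensorLeft X) (ε := fun Y => (e ▷ Y) ≫ (λ_ Y).hom)
    (fun f => epsT_nat e f) m (𝟙_ C)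

theorem step_hm {Y Z : C} (h : X ⊗ Y ⟶ Y) (f : Y ⟶ Z) (hf : h ≫ f = 0) :
    hX e h ≫ ((e ▷ Y) ≫ (λ_ Y).hom) ≫ f = 0 := by
  rw [← Category.assoc, hX_eps, Category.assoc, hf, comp_zero]

theorem hm_ee (m : ℕ) : hm e m ≫ ee e m (𝟙_ C) = 0 := by
  induction m with
  | zero =>
    show (0 : X ⊗ 𝟙_ C ⟶ 𝟙_ C) ≫ 𝟙 (𝟙_ C) = 0
    rw [zero_comp]
  | succ m ih =>
    rw [ee_succ]
    exact step_hm e _ _ ih

/-- The exact sequence `V ⊗ Y ⟶ X ⊗ Y ⟶ Y`. -/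
theorem fac_eps (w : j ≫ e = 0) (hS : (ShortComplex.mk j e w).ShortExact) (Y : C) {K : C}
    (κ : K ⟶ X ⊗ Y) (hκ : κ ≫ (e ▷ Y) ≫ (λ_ Y).hom = 0) : ∃ κ' : K ⟶ V ⊗ Y, κ' ≫ (j ▷ Y) = κ := by
  have h1 : ((ShortComplex.mk j e w).map (tensorRight Y)).ShortExact :=
    hS.map_of_exact (tensorRight Y)
  have hκ' : κ ≫ (e ▷ Y) = 0 := by
    rw [← cancel_mono (λ_ Y).hom, zero_comp, Category.assoc]
    exact hκ
  have : Mono ((ShortComplex.mk j e w).map (tensorRight Y)).f := h1.mono_f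
  exact ⟨h1.exact.lift κ hκ', h1.exact.lift_f κ hκ'⟩

theorem kill_all (w : j ≫ e = 0) (hS : (ShortComplex.mk j e w).ShortExact) (m : ℕ) :
    ∃ l : List ℕ, Kill e (hm e m) l (𝟙 (pw (tensorLeft X) m (𝟙_ C))) := by
  induction m with
  | zero =>
    refine ⟨[0], ?_⟩
    rw [kill_cons, kill_nil]
    show (X ◁ (𝟙 (𝟙_ C))) ≫ pa e (0 : X ⊗ 𝟙_ C ⟶ 𝟙_ C) 0 = 0
    unfold pa
    simp
  | succ m ih =>
    obtain ⟨l, hl⟩ := ih
    refine ⟨l ++ l.map (· + 1), ?_⟩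
    have h1 := kill_hV e V (hm e m) l _ hl
    rw [whiskerLeft_id] at h1
    refine kill_append e (hV e V (hm e m)) (hX e (hm e m)) (hm e m) (j ▷ _)
      ((e ▷ _) ≫ (λ_ _).hom) (hX_sub j e w _).symm (hX_eps e _)
      (fun κ hκ => fac_eps j e w hS _ κ hκ) _ h1 l _ ?_
    have h2 := kill_pre e (hm e m) l
      ((𝟙 _) ≫ ((e ▷ (pw (tensorLeft X) m (𝟙_ C))) ≫ (λ_ _).hom)) _ hl
    rwa [Category.comp_id] at h2

theorem kill_ker (w : j ≫ e = 0) (hS : (ShortComplex.mk j e w).ShortExact) (m : ℕ) :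
    ∃ l : List ℕ, (∀ a ∈ l, a ≠ 0) ∧ ∀ {K : C} (κ : K ⟶ pw (tensorLeft X) m (𝟙_ C)),
      κ ≫ ee e m (𝟙_ C) = 0 → Kill e (hm e m) l κ := by
  induction m with
  | zero =>
    refine ⟨[], by simp, fun κ hκ => ?_⟩
    rw [kill_nil]
    rw [ee_zero] at hκ
    exact (Category.comp_id κ).symm.trans hκ
  | succ m ih =>
    obtain ⟨l, hl, hk⟩ := ih
    obtain ⟨l', hl'⟩ := kill_all j e w hS m
    refine ⟨l ++ l'.map (· + 1), ?_, fun {K} κ hκ => ?_⟩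
    · intro a ha
      rw [List.mem_append] at ha
      rcases ha with ha | ha
      · exact hl a ha
      · rw [List.mem_map] at ha
        obtain ⟨b, -, rfl⟩ := ha
        exact Nat.succ_ne_zero b
    · have h1 := kill_hV e V (hm e m) l' _ hl'
      rw [whiskerLeft_id] at h1
      refine kill_append e (hV e V (hm e m)) (hX e (hm e m)) (hm e m) (j ▷ _)
        ((e ▷ _) ≫ (λ_ _).hom) (hX_sub j e w _).symm (hX_eps e _)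
        (fun κ hκ => fac_eps j e w hS _ κ hκ) _ h1 l _ ?_
      apply hk
      rw [ee_succ] at hκ
      exact (Category.assoc _ _ _).trans hκ

end Conn

end Pool.Agent.MUP
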