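import Pool.Agent.MUG.C0
import Pool.Agent.MUG.B1

/-!
# Row U2a: a nonzero Leibniz family gives an extension of the unit (helper5)

For a Leibniz family `d` of simple type `V` which vanishes on all simple objects and is not zero
there is an extension `0 ⟶ M ⟶ Y ⟶ 1 ⟶ 0` with `d_M = 0` and `d_Y` induced by a monomorphism
`V ⟶ M`.
-/

open CategoryTheory MonoidalCategory Limits Abelian

universe w v u

namespace Pool.Agent.MUP

set_option linter.unusedSectionVars false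

open Pool.Agent.MUG

section Pull

variable {C : Type u} [Category.{v} C] [Abelian C]

/-- Pullback of a short exact sequence along a morphism to the last term. -/
theorem ses_pullback {M Y N T : C} (i : M ⟶ Y) (p : Y ⟶ N) (w : i ≫ p = 0)
    (hS : (ShortComplex.mk i p w).ShortExact) (t : T ⟶ N) :
    ∃ (i' : M ⟶ pullback p t) (w' : i' ≫ pullback.snd p t = 0), i' ≫ pullback.fst p t = i ∧
      (ShortComplex.mk i' (pullback.snd p t) w').ShortExact := by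
  have hm : Mono i := hS.mono_f
  have he : Epi p := hS.epi_g
  have w0 : i ≫ p = (0 : M ⟶ T) ≫ t := by rw [w, zero_comp]
  obtain ⟨i', hi1, hi2⟩ : ∃ i' : M ⟶ pullback p t, i' ≫ pullback.fst p t = i ∧
      i' ≫ pullback.snd p t = 0 :=
    ⟨pullback.lift i 0 w0, pullback.lift_fst _ _ _, pullback.lift_snd _ _ _⟩
  refine ⟨i', hi2, hi1, ?_⟩
  have hm' : Mono i' := by
    have h1 : Mono (i' ≫ pullback.fst p t) := by
      rw [hi1]; exact hm
    exact mono_of_mono _ (pullback.fst p t)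
  have he' : Epi (pullback.snd p t) := inferInstance
  have hm'' : Mono (ShortComplex.mk i' (pullback.snd p t) hi2).f := hm'
  refine ⟨?_⟩
  refine ShortComplex.exact_of_f_is_kernel _ (KernelFork.IsLimit.ofι' _ _ ?_)
  intro A a ha
  have ha' : a ≫ pullback.snd p t = 0 := ha
  have h1 : (a ≫ pullback.fst p t) ≫ p = 0 := by
    rw [Category.assoc, pullback.condition, reassoc_of% ha', zero_comp]
  refine ⟨hS.exact.lift (a ≫ pullback.fst p t) h1, ?_⟩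
  apply pullback.hom_ext
  · rw [Category.assoc]
    change _ ≫ i' ≫ pullback.fst p t = _
    rw [hi1]
    exact hS.exact.lift_f _ _
  · rw [Category.assoc]
    change _ ≫ i' ≫ pullback.snd p t = _
    rw [hi2, comp_zero, ha']

end Pull

section U2a

variable {k : Type*} [Field k] {C : Type u} [Category.{v} C] [Abelian C] [Linear k C]
  [MonoidalCategory C] [MonoidalPreadditive C] [MonoidalLinear k C] [RigidCategory C]
  [BraidedCategory C]

/-- Row U2a. -/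
theorem exists_unit_ext (hC : IsFinite k C) {V : C} [Simple V] (L : Leib V)
    (hS : ∀ S : C, Simple S → L.d S = 0) (hne : L.Nonzero) :
    ∃ (M Y : C) (i : M ⟶ Y) (p : Y ⟶ 𝟙_ C) (w : i ≫ p = 0) (ι : V ⟶ M),
      (ShortComplex.mk i p w).ShortExact ∧ L.d M = 0 ∧ Mono ι ∧
        (V ◁ p) ≫ (ρ_ V).hom ≫ ι ≫ i = L.d Y := by
  by_contra hno
  obtain ⟨Y₀, hY₀⟩ := hne
  apply hY₀
  refine fl_induction hC.artinian hC.noetherian (fun Y => L.d Y = 0) ?_ ?_ Y₀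
  · intro X hX
    exact hX.eq_of_tgt _ _
  intro S hSE hK hT
  have hTd : L.d S.X₃ = 0 := hS _ hT
  obtain @⟨K, Y, T, i, p, w⟩ := S
  change Y ⟶ T at p
  change (ShortComplex.mk i p w).ShortExact at hSE
  change L.d K = 0 at hK
  change L.d T = 0 at hTd
  change L.d Y = 0
  by_contra hd
  apply hno
  have hm : Mono i := hSE.mono_f
  have hSb : ((ShortComplex.mk i p w).map (tensorLeft V)).ShortExact :=
    hSE.map_of_exact (tensorLeft V)
  have wb : (V ◁ i) ≫ (V ◁ p) = 0 := by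
    rw [← whiskerLeft_comp, w, MonoidalPreadditive.whiskerLeft_zero]
  have hSb' : (ShortComplex.mk (V ◁ i) (V ◁ p) wb).ShortExact := hSb
  have h1 : L.d Y ≫ p = 0 := by rw [← L.nat p, hTd, comp_zero]
  obtain ⟨ψ, hψ⟩ : ∃ ψ : V ⊗ Y ⟶ K, ψ ≫ i = L.d Y :=
    ⟨hSE.exact.lift (L.d Y) h1, hSE.exact.lift_f _ _⟩
  have h2 : (V ◁ i) ≫ ψ = 0 := by
    rw [← cancel_mono i, Category.assoc, hψ, L.nat i, hK]
  have hepi : Epi (V ◁ p) := hSb'.epi_g
  obtain ⟨φ, hφ⟩ : ∃ φ : V ⊗ T ⟶ K, (V ◁ p) ≫ φ = ψ :=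
    ⟨hSb'.exact.desc ψ h2, hSb'.exact.g_desc _ _⟩
  have hφ' : (V ◁ p) ≫ φ ≫ i = L.d Y := by rw [reassoc_of% hφ, hψ]
  have hφ0 : φ ≠ 0 := by
    rintro rfl
    apply hd
    rw [← hφ', zero_comp, comp_zero]
  -- tensor with the dual of `T`
  have wT : (i ▷ Tᘁ) ≫ (p ▷ Tᘁ) = 0 := by
    rw [← comp_whiskerRight, w, MonoidalPreadditive.zero_whiskerRight]
  have hST : (ShortComplex.mk (i ▷ Tᘁ) (p ▷ Tᘁ) wT).ShortExact :=
    hSE.map_of_exact (tensorRight (Tᘁ))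
  have hTd' : L.d (Tᘁ) = 0 := leib_rdual L hTd
  have hMd : L.d (K ⊗ Tᘁ) = 0 := leib_tensor L hK hTd'
  obtain ⟨i', w', hi', hS'⟩ := ses_pullback (i ▷ Tᘁ) (p ▷ Tᘁ) wT hST (η_ T (Tᘁ))
  obtain ⟨ι, hι⟩ : ∃ ι : V ⟶ K ⊗ Tᘁ,
      ι = (ρ_ V).inv ≫ (V ◁ η_ T (Tᘁ)) ≫ (α_ V T (Tᘁ)).inv ≫ (φ ▷ Tᘁ) := ⟨_, rfl⟩
  have hι0 : ι ≠ 0 := by
    intro h0
    apply hφ0
    have h3 : (tensorRightHomEquiv V T (Tᘁ) K) φ = (tensorRightHomEquiv V T (Tᘁ) K) 0 := by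
      have e1 : (tensorRightHomEquiv V T (Tᘁ) K) φ = ι := by
        rw [hι]; rfl
      have e2 : (tensorRightHomEquiv V T (Tᘁ) K) 0 = 0 := by
        change (ρ_ V).inv ≫ (V ◁ η_ T (Tᘁ)) ≫ (α_ V T (Tᘁ)).inv ≫ ((0 : V ⊗ T ⟶ K) ▷ Tᘁ) = 0
        simp
      rw [e1, e2, h0]
    exact (tensorRightHomEquiv V T (Tᘁ) K).injective h3
  have hιm : Mono ι := mono_of_nonzero_from_simple hι0
  refine ⟨K ⊗ Tᘁ, _, _, _, w', ι, hS', hMd, hιm, ?_⟩
  have hYd : L.d (Y ⊗ Tᘁ) = (α_ V Y (Tᘁ)).inv ≫ (L.d Y ▷ Tᘁ) := by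
    rw [L.leib, hTd']; simp
  apply pullback.hom_ext
  · simp only [Category.assoc]
    rw [hi', ← L.nat (pullback.fst (p ▷ Tᘁ) (η_ T (Tᘁ))), hYd, ← hφ', hι]
    have e3 : (α_ V Y (Tᘁ)).inv ≫ (((V ◁ p) ≫ φ ≫ i) ▷ Tᘁ) =
        (V ◁ (p ▷ Tᘁ)) ≫ (α_ V T (Tᘁ)).inv ≫ (φ ▷ Tᘁ) ≫ (i ▷ Tᘁ) := by simp
    rw [e3, ← whiskerLeft_comp_assoc, pullback.condition, whiskerLeft_comp_assoc]
    simp
  · simp only [Category.assoc]
    rw [w', ← L.nat (pullback.snd (p ▷ Tᘁ) (η_ T (Tᘁ))), leib_unit]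
    simp

end U2a

end Pool.Agent.MUP
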