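import Pool.Agent.MUP.LE
import Pool.Agent.MUP.U2a
import Pool.Agent.MUG.P4
import Pool.Agent.MUG.ExtSes
import Pool.Agent.MUG.DualEx

/-!
# Row PD: the dual data for the peeling (helper64)
-/

open CategoryTheory MonoidalCategory Limits Abelian

universe w v u

set_option linter.unusedSectionVars false

namespace Pool.Agent.MUP

open Pool.Agent.MUG

section PD0

variable {Z : Type u} [Category.{v} Z] [Abelian Z]
  [MonoidalCategory Z] [MonoidalPreadditive Z] [RigidCategory Z] [BraidedCategory Z]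

theorem comm_symm' {X Y : Z} (h : Comm X Y) : Comm Y X := by
  have h' : (β_ X Y).hom ≫ (β_ Y X).hom = 𝟙 _ := h
  have h2 : (β_ Y X).hom = (β_ X Y).inv := by
    rw [← cancel_epi (β_ X Y).hom, h', Iso.hom_inv_id]
  change (β_ Y X).hom ≫ (β_ X Y).hom = 𝟙 _
  rw [h2, Iso.inv_hom_id]

/-- The objects commuting with `Y`. -/
theorem cent1 (Y : Z) : TensorSub (fun X : Z => Comm X Y) := by
  have h := tensorSub_centralizer (fun X : Z => X = Y)
  have e : centralizer (fun X : Z => X = Y) = fun X : Z => Comm X Y := by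
    funext X
    apply propext
    constructor
    · intro h
      exact h Y rfl
    · rintro h _ rfl
      exact h
  rw [e] at h
  exact h

theorem core_cancel' {W W' b : Z} (i : 𝟙_ Z ⟶ W) (p : W' ⟶ b) [Mono i] [Epi p] {Y Y' : Z}
    {f g : b ⊗ Y ⟶ Y'}
    (h : (p ▷ Y) ≫ f ≫ (λ_ Y').inv ≫ (i ▷ Y') = (p ▷ Y) ≫ g ≫ (λ_ Y').inv ≫ (i ▷ Y')) :
    f = g := by
  rw [cancel_epi] at h
  have : Mono ((λ_ Y').inv ≫ (i ▷ Y')) := inferInstance
  exact (cancel_mono ((λ_ Y').inv ≫ (i ▷ Y'))).1 h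

/-- The zigzag which produces the identity. -/
theorem zig {V B : Z} [ExactPairing V B] :
    (B ◁ (η_ V B ≫ (β_ V B).hom)) ≫ swp B B V ≫ (B ◁ ε_ V B) = 𝟙 (B ⊗ 𝟙_ Z) := by
  have h1 : (B ◁ (β_ V B).hom) ≫ (α_ B B V).inv ≫ ((β_ B B).hom ▷ V) ≫ (α_ B B V).hom =
      (α_ B V B).inv ≫ (β_ (B ⊗ V) B).hom := by
    rw [BraidedCategory.braiding_tensor_left_hom]
    simp
  have h2 : (β_ (B ⊗ V) B).hom ≫ (B ◁ ε_ V B) = (ε_ V B ▷ B) ≫ (β_ (𝟙_ Z) B).hom :=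
    (BraidedCategory.braiding_naturality_left (ε_ V B) B).symm
  have h3 : (B ◁ η_ V B) ≫ (α_ B V B).inv ≫ (ε_ V B ▷ B) = (ρ_ B).hom ≫ (λ_ B).inv :=
    ExactPairing.coevaluation_evaluation V B
  unfold swp
  simp only [whiskerLeft_comp, Category.assoc]
  rw [reassoc_of% h1, h2, reassoc_of% h3, braiding_tensorUnit_left]
  simp

end PD0

section PD

variable {Z : Type u} [Category.{v} Z] [Abelian Z]
  [MonoidalCategory Z] [MonoidalPreadditive Z] [RigidCategory Z] [BraidedCategory Z]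

/-- Row PD: the dual data for the peeling. -/
theorem peel_dual {V U X : Z} [Simple V] (K : ObjectProperty Z) [hK : TensorSub K]
    (ι : 𝟙_ Z ⟶ U) (π : U ⟶ V) (w : ι ≫ π = 0) (hU : (ShortComplex.mk ι π w).ShortExact)
    (hKU : K U) (hcV : centralizer K V) (hUV : Comm U V) (j : V ⟶ X) (e : X ⟶ 𝟙_ Z)
    (w' : j ≫ e = 0) (hX : (ShortComplex.mk j e w').ShortExact)
    (hd : dbr U X = (π ▷ X) ≫ ((V ◁ e) ≫ (ρ_ V).hom ≫ j) ≫ (λ_ X).inv ≫ (ι ▷ X)) :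
    ∃ (b : K.FullSubcategory) (L : Leib b) (U' : K.FullSubcategory) (j' : b ⟶ U')
      (e' : U' ⟶ 𝟙_ K.FullSubcategory) (w'' : j' ≫ e' = 0), Simple b.obj ∧ Transp b ∧
      LComm L ∧ L.Nonzero ∧ (ShortComplex.mk j' e' w'').ShortExact ∧
      L.d U' = (b ◁ e') ≫ (ρ_ b).hom ≫ j' ∧ (∀ Y, L.d Y = 0 ↔ Comm X Y.obj) ∧
      (∀ Y, Comm Y U → Comm Y U'.obj) := by
  have hmι : Mono ι := hU.mono_f
  have heπ : Epi π := hU.epi_g
  have hmj : Mono j := hX.mono_f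
  have hee : Epi e := hX.epi_g
  have hcK : TensorSub (centralizer K) := tensorSub_centralizer K
  have hKV : K V := hK.quot π hKU
  let B : Z := Vᘁ
  have hKB : K B := hK.rdual hKV
  have hcB : centralizer K B := hcK.rdual hcV
  -- `X` commutes with `V`
  have hXU := dbr_XU ι π j e hd
  have hXV : Comm X V := by
    rw [← dbr_eq_zero, ← cancel_epi (X ◁ π), dbr_nat_right, hXU, comp_zero]
    simp only [Category.assoc]
    have e2 : (V ◁ ι) ≫ (V ◁ π) = 0 := by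
      rw [← whiskerLeft_comp, w, MonoidalPreadditive.whiskerLeft_zero]
    rw [← whisker_exchange, reassoc_of% e2, zero_comp, comp_zero, comp_zero, comp_zero,
      comp_zero]
  have hXB : Comm X B := comm_symm' ((cent1 X).rdual (comm_symm' hXV))
  -- the extension `W` of `B` by `1`
  have w₁ : (B ◁ j) ≫ ((B ◁ e) ≫ (ρ_ B).hom) = 0 := by
    rw [← whiskerLeft_comp_assoc, w', MonoidalPreadditive.whiskerLeft_zero, zero_comp]
  have hBX : (ShortComplex.mk (B ◁ j) ((B ◁ e) ≫ (ρ_ B).hom) w₁).ShortExact := by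
    have h2 := hX.map_of_exact (tensorLeft B)
    let i₀ : (ShortComplex.mk j e w').map (tensorLeft B) ≅
        ShortComplex.mk (B ◁ j) ((B ◁ e) ≫ (ρ_ B).hom) w₁ :=
      ShortComplex.isoMk (Iso.refl _) (Iso.refl _) (ρ_ B) (by
        change 𝟙 _ ≫ (B ◁ j) = (B ◁ j) ≫ 𝟙 _
        simp) (by
        change 𝟙 _ ≫ (B ◁ e) ≫ (ρ_ B).hom = (B ◁ e) ≫ (ρ_ B).hom
        simp)
    exact ShortComplex.shortExact_of_iso i₀ h2
  obtain ⟨W, i, p, wW, q, hW, hq1, hq2⟩ :=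
    pushout_shortExact (B ◁ j) ((B ◁ e) ≫ (ρ_ B).hom) w₁ hBX (ε_ V B)
  have hmi : Mono i := hW.mono_f
  have hep : Epi p := hW.epi_g
  obtain ⟨L, hL⟩ := leib_of_ext K i p wW hW hKB hcB
  have hep₀ : Epi ((B ◁ e) ≫ (ρ_ B).hom) := inferInstance
  -- the double braiding of `W`
  have hLY : ∀ Y : K.FullSubcategory, (((B ◁ e) ≫ (ρ_ B).hom) ▷ Y.obj) ≫ (L.d Y).hom ≫
      (λ_ Y.obj).inv ≫ (i ▷ Y.obj) =
      (α_ B X Y.obj).hom ≫ (B ◁ dbr X Y.obj) ≫ (α_ B X Y.obj).inv ≫ (q ▷ Y.obj) := by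
    intro Y
    rw [← hq2, comp_whiskerRight, Category.assoc, ← hL Y, dbr_nat_left,
      dbr_tensor_left (hcB Y.obj Y.property)]
    simp only [Category.assoc]
  have hjq : ∀ Y : Z, (B ◁ (j ▷ Y)) ≫ (α_ B X Y).inv ≫ (q ▷ Y) =
      (α_ B V Y).inv ≫ (ε_ V B ▷ Y) ≫ (i ▷ Y) := by
    intro Y
    rw [associator_inv_naturality_middle_assoc, ← comp_whiskerRight, hq1, comp_whiskerRight]
  -- the value on `U`
  have hLU : (L.d ⟨U, hKU⟩).hom = (B ◁ π) ≫ ε_ V B ≫ ι := by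
    apply core_cancel' i ((B ◁ e) ≫ (ρ_ B).hom)
    rw [hLY ⟨U, hKU⟩]
    change (α_ B X U).hom ≫ (B ◁ dbr X U) ≫ (α_ B X U).inv ≫ (q ▷ U) = _
    rw [hXU]
    simp only [whiskerLeft_comp, comp_whiskerRight, Category.assoc]
    rw [hjq U]
    have e2 : (α_ B X U).hom ≫ (B ◁ (e ▷ U)) ≫ (B ◁ (λ_ U).hom) =
        ((B ◁ e) ▷ U) ≫ ((ρ_ B).hom ▷ U) := by
      simp
    have e3 : (B ◁ (ρ_ V).inv) ≫ (B ◁ (V ◁ ι)) ≫ (α_ B V U).inv =
        (ρ_ (B ⊗ V)).inv ≫ ((B ⊗ V) ◁ ι) := by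
      simp
    have e4 : (ρ_ (B ⊗ V)).inv ≫ ((B ⊗ V) ◁ ι) ≫ (ε_ V B ▷ U) =
        ε_ V B ≫ ι ≫ (λ_ U).inv := by
      rw [whisker_exchange, ← rightUnitor_inv_naturality_assoc, leftUnitor_inv_naturality,
        unitors_inv_equal]
    rw [reassoc_of% e3, reassoc_of% e4, reassoc_of% e2]
  -- vanishing
  have hvan : ∀ Y : K.FullSubcategory, L.d Y = 0 ↔ Comm X Y.obj := by
    intro Y
    constructor
    · intro h
      have hVY : Comm V Y.obj := hcV Y.obj Y.property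
      have hj0 : (j ▷ Y.obj) ≫ dbr X Y.obj = 0 := by
        rw [dbr_nat_left, dbr_eq_zero.2 hVY, zero_comp]
      have he0 : dbr X Y.obj ≫ (e ▷ Y.obj) = 0 := by
        rw [← dbr_nat_left, dbr_eq_zero.2 (comm_unit_left Y.obj), comp_zero]
      have hXY := hX.map_of_exact (tensorRight Y.obj)
      have wY : (j ▷ Y.obj) ≫ (e ▷ Y.obj) = 0 := by
        rw [← comp_whiskerRight, w', MonoidalPreadditive.zero_whiskerRight]
      have hXY' : (ShortComplex.mk (j ▷ Y.obj) (e ▷ Y.obj) wY).ShortExact := hXY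
      obtain ⟨δ₁, hδ₁⟩ : ∃ δ₁ : 𝟙_ Z ⊗ Y.obj ⟶ X ⊗ Y.obj, (e ▷ Y.obj) ≫ δ₁ = dbr X Y.obj :=
        ⟨hXY'.exact.desc _ hj0, hXY'.exact.g_desc _ _⟩
      have hδ₀ : δ₁ ≫ (e ▷ Y.obj) = 0 := by
        rw [← cancel_epi (e ▷ Y.obj), reassoc_of% hδ₁, he0, comp_zero]
      obtain ⟨δ, hδ⟩ : ∃ δ : 𝟙_ Z ⊗ Y.obj ⟶ V ⊗ Y.obj, δ ≫ (j ▷ Y.obj) = δ₁ :=
        ⟨hXY'.exact.lift _ hδ₀, hXY'.exact.lift_f _ _⟩
      have h1 := hLY Y
      have h2 : (L.d Y).hom = 0 := by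
        rw [h]
        rfl
      rw [h2, zero_comp, comp_zero, ← hδ₁, ← hδ] at h1
      simp only [whiskerLeft_comp, Category.assoc] at h1
      rw [hjq] at h1
      have h3 : (B ◁ δ) ≫ (α_ B V Y.obj).inv ≫ (ε_ V B ▷ Y.obj) = 0 := by
        rw [← cancel_epi (B ◁ (e ▷ Y.obj)), ← cancel_epi (α_ B X Y.obj).hom,
          ← cancel_mono (i ▷ Y.obj)]
        simp only [Category.assoc]
        rw [← h1]
        simp
      have h4 : δ = 0 := by
        apply (tensorLeftHomEquiv (𝟙_ Z ⊗ Y.obj) V B Y.obj).symm.injective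
        change (B ◁ δ) ≫ (α_ B V Y.obj).inv ≫ (ε_ V B ▷ Y.obj) ≫ (λ_ Y.obj).hom =
          (B ◁ (0 : 𝟙_ Z ⊗ Y.obj ⟶ V ⊗ Y.obj)) ≫ (α_ B V Y.obj).inv ≫ (ε_ V B ▷ Y.obj) ≫
            (λ_ Y.obj).hom
        rw [reassoc_of% h3, MonoidalPreadditive.whiskerLeft_zero, zero_comp, zero_comp]
      rw [← dbr_eq_zero, ← hδ₁, ← hδ, h4, zero_comp, comp_zero]
    · intro h
      ext
      apply core_cancel' i ((B ◁ e) ≫ (ρ_ B).hom)
      rw [hLY Y, dbr_eq_zero.2 h, MonoidalPreadditive.whiskerLeft_zero]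
      change _ = (((B ◁ e) ≫ (ρ_ B).hom) ▷ Y.obj) ≫ (0 : B ⊗ Y.obj ⟶ Y.obj) ≫
        (λ_ Y.obj).inv ≫ (i ▷ Y.obj)
      rw [zero_comp, zero_comp, comp_zero, comp_zero]
  have hne : L.Nonzero := by
    refine ⟨⟨U, hKU⟩, fun h => ?_⟩
    have h2 : dbr X U = 0 := dbr_eq_zero.2 ((hvan ⟨U, hKU⟩).1 h)
    rw [hXU] at h2
    have h3 : Epi ((e ▷ U) ≫ (λ_ U).hom ≫ π ≫ (ρ_ V).inv) := inferInstance
    have h4 : (V ◁ ι) ≫ (j ▷ U) = 0 := by
      rw [← cancel_epi ((e ▷ U) ≫ (λ_ U).hom ≫ π ≫ (ρ_ V).inv), comp_zero]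
      simpa only [Category.assoc] using h2
    have h5 : 𝟙 (V ⊗ 𝟙_ Z) = 0 := by
      rw [← cancel_mono ((V ◁ ι) ≫ (j ▷ U)), h4, comp_zero, comp_zero]
    exact id_nonzero V (by
      rw [← cancel_epi (ρ_ V).hom, ← cancel_mono (ρ_ V).inv, comp_zero, zero_comp, Category.comp_id,
        Iso.hom_inv_id, h5])
  have hLB : L.d ⟨B, hKB⟩ = 0 := (hvan ⟨B, hKB⟩).2 hXB
  have ht : Transp (⟨B, hKB⟩ : K.FullSubcategory) := by
    intro Y
    ext
    exact hcB Y.obj Y.property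
  -- the object `U'`
  have wBU : ((B ◁ ι) : B ⊗ 𝟙_ Z ⟶ B ⊗ U) ≫ (B ◁ π) = 0 := by
    rw [← whiskerLeft_comp, w, MonoidalPreadditive.whiskerLeft_zero]
  have hBU : (ShortComplex.mk (B ◁ ι) (B ◁ π) wBU).ShortExact :=
    hU.map_of_exact (tensorLeft B)
  let κ : 𝟙_ Z ⟶ B ⊗ V := η_ V B ≫ (β_ V B).hom
  obtain ⟨i', wi', hi', hS'⟩ := ses_pullback (B ◁ ι) (B ◁ π) wBU hBU κ
  let P : Z := pullback (B ◁ π) κ
  let f₁ : P ⟶ B ⊗ U := pullback.fst (B ◁ π) κ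
  let f₂ : P ⟶ 𝟙_ Z := pullback.snd (B ◁ π) κ
  have hP : ∀ Q : ObjectProperty Z, TensorSub Q → Q (B ⊗ U) → Q P := by
    intro Q hQ hB
    have h1 : Mono (biprod.lift f₁ f₂) := by
      refine ⟨fun a b hab => ?_⟩
      apply pullback.hom_ext
      · have := congrArg (fun t => t ≫ biprod.fst) hab
        simpa only [Category.assoc, biprod.lift_fst] using this
      · have := congrArg (fun t => t ≫ biprod.snd) hab
        simpa only [Category.assoc, biprod.lift_snd] using this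
    exact hQ.sub (biprod.lift f₁ f₂) (hQ.biprod hB hQ.unit)
  have hKP : K P := hP K hK (hK.tensor hKB hKU)
  have wj : ((ρ_ B).inv ≫ i') ≫ f₂ = 0 := by
    rw [Category.assoc]
    change (ρ_ B).inv ≫ i' ≫ pullback.snd (B ◁ π) κ = 0
    rw [wi', comp_zero]
  have hSj : (ShortComplex.mk ((ρ_ B).inv ≫ i') f₂ wj).ShortExact := by
    let i₀ : ShortComplex.mk i' (pullback.snd (B ◁ π) κ) wi' ≅
        ShortComplex.mk ((ρ_ B).inv ≫ i') f₂ wj :=
      ShortComplex.isoMk (ρ_ B) (Iso.refl _) (Iso.refl _) (by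
        change (ρ_ B).hom ≫ (ρ_ B).inv ≫ i' = i' ≫ 𝟙 _
        simp) (by
        change 𝟙 _ ≫ f₂ = f₂ ≫ 𝟙 _
        simp)
    exact ShortComplex.shortExact_of_iso i₀ hS'
  let b : K.FullSubcategory := ⟨B, hKB⟩
  let Uo : K.FullSubcategory := ⟨U, hKU⟩
  let U' : K.FullSubcategory := ⟨P, hKP⟩
  let j' : b ⟶ U' := ObjectProperty.homMk ((ρ_ B).inv ≫ i')
  let e' : U' ⟶ 𝟙_ K.FullSubcategory := ObjectProperty.homMk f₂
  let m : U' ⟶ b ⊗ Uo := ObjectProperty.homMk f₁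
  have w'' : j' ≫ e' = 0 := by
    ext
    exact wj
  have hdbU : (L.d (b ⊗ Uo)).hom = swp B B U ≫ (B ◁ ((B ◁ π) ≫ ε_ V B ≫ ι)) := by
    have h1 : L.d (b ⊗ Uo) = (α_ b b Uo).inv ≫ ((β_ b b).hom ▷ Uo) ≫ (α_ b b Uo).hom ≫
        (b ◁ L.d Uo) := by
      rw [L.leib b Uo, hLB, MonoidalPreadditive.zero_whiskerRight, comp_zero, zero_add]
    rw [h1]
    change (α_ B B U).inv ≫ ((β_ B B).hom ▷ U) ≫ (α_ B B U).hom ≫
        (B ◁ (L.d ⟨U, hKU⟩).hom) = _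
    rw [hLU]
    unfold swp
    simp only [Category.assoc]
  have hfst : (L.d U').hom ≫ f₁ = (B ◁ f₂) ≫ (B ◁ ι) := by
    have h1 := congrArg (fun t => t.hom) (L.nat m)
    have h2 : (B ◁ f₁) ≫ (L.d (b ⊗ Uo)).hom = (L.d U').hom ≫ f₁ := h1
    rw [← h2, hdbU]
    have h3 : (B ◁ (B ◁ π)) ≫ swp B B V = swp B B U ≫ (B ◁ (B ◁ π)) := by
      unfold swp
      simp only [Category.assoc]
      rw [associator_inv_naturality_right_assoc, whisker_exchange_assoc,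
        associator_naturality_right]
    rw [whiskerLeft_comp, whiskerLeft_comp, ← reassoc_of% h3, ← whiskerLeft_comp_assoc]
    have h4 : f₁ ≫ (B ◁ π) = f₂ ≫ κ := pullback.condition
    rw [h4, whiskerLeft_comp, Category.assoc]
    have h5 := zig (V := V) (B := B)
    change (B ◁ κ) ≫ _ = _ at h5
    rw [reassoc_of% h5]
  refine ⟨b, L, U', j', e', w'', simple_rdual V, ht, lcomm_of_self L hLB, hne, ?_, ?_, hvan, ?_⟩
  · exact shortExact_sub K j' e' w'' wj hSj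
  · apply ObjectProperty.hom_ext
    change (L.d U').hom = (B ◁ f₂) ≫ (ρ_ B).hom ≫ (ρ_ B).inv ≫ i'
    rw [Iso.hom_inv_id_assoc]
    apply pullback.hom_ext
    · rw [Category.assoc, hi']
      exact hfst
    · rw [Category.assoc, wi', comp_zero]
      have h1 := congrArg (fun t => t.hom) (L.nat e')
      have h2 : (B ◁ f₂) ≫ (L.d (𝟙_ K.FullSubcategory)).hom = (L.d U').hom ≫ f₂ := h1
      have h3 : L.d (𝟙_ K.FullSubcategory) = 0 :=
        (hvan (𝟙_ K.FullSubcategory)).2 (comm_symm' (comm_unit_left X))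
      have h4 : (L.d (𝟙_ K.FullSubcategory)).hom = 0 := by
        rw [h3]
        rfl
      rw [h4, comp_zero] at h2
      exact h2.symm
  · intro Y hY
    have h1 := cent1 Y
    have h2 : Comm V Y := h1.quot π (comm_symm' hY)
    have h3 : Comm B Y := h1.rdual h2
    have h4 : Comm (B ⊗ U) Y := h1.tensor h3 (comm_symm' hY)
    exact comm_symm' (hP _ h1 h4)

end PD

end Pool.Agent.MUP
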