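import Pool.Agent.MUP.Defs
import Pool.Agent.MUG.C4

/-! Restriction of a tensor subcategory to a tensor subcategory (helper27). -/

open CategoryTheory MonoidalCategory Limits Abelian

universe w v u

namespace Pool.Agent.MUP

open Pool.Agent.MUG

set_option linter.unusedSectionVars false

section Res

variable {Z : Type u} [Category.{v} Z] [Abelian Z] [MonoidalCategory Z] [MonoidalPreadditive Z]
  [RigidCategory Z]

/-- The restriction of `F` to the tensor subcategory `P` is a tensor subcategory of `P`. -/
theorem tensorSub_restrict (P F : ObjectProperty Z) [hP : TensorSub P] [hF : TensorSub F] :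
    TensorSub (fun Y : P.FullSubcategory => F Y.obj) where
  unit := hF.unit
  tensor h h' := hF.tensor h h'
  rdual h := hF.rdual h
  ldual h := hF.ldual h
  sub f _ h := by
    have := sub_mono_hom P f
    exact hF.sub f.hom h
  quot f _ h := by
    have := sub_epi_hom P f
    exact hF.quot f.hom h
  biprod {X Y} h h' := by
    have h1 : F (X.obj ⊞ Y.obj) := hF.biprod h h'
    have : PreservesBinaryBiproducts P.ι := preservesBinaryBiproducts_of_preservesBiproducts P.ι
    have e : P.ι.obj (X ⊞ Y) ≅ P.ι.obj X ⊞ P.ι.obj Y := P.ι.mapBiprod X Y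
    exact hF.quot e.inv h1

/-- The restriction of a semisimple subcategory is semisimple. -/
theorem semisimp_restrict (P F : ObjectProperty Z) [hP : TensorSub P] (hss : Semisimp F) :
    Semisimp (fun Y : P.FullSubcategory => F Y.obj) := by
  intro X Y f hX hf
  have h1 := sub_epi_hom P f
  obtain ⟨s, hs⟩ := hss f.hom hX h1
  refine ⟨ObjectProperty.homMk s, ?_⟩
  ext
  exact hs

section
variable [BraidedCategory Z]

/-- Objects of `F` are transparent in the subcategories which commute with `F`. -/
theorem transp_restrict (P F : ObjectProperty Z) [hP : TensorSub P] (hPF : P ≤ centralizer F)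
    (V : P.FullSubcategory) (hV : F V.obj) : Transp V := by
  intro Y
  ext
  have h1 : (β_ Y.obj V.obj).hom ≫ (β_ V.obj Y.obj).hom = 𝟙 _ := hPF Y.obj Y.property V.obj hV
  have h2 : (β_ Y.obj V.obj).hom = (β_ V.obj Y.obj).inv := by
    rw [← cancel_mono (β_ V.obj Y.obj).hom, h1, Iso.inv_hom_id]
  change (β_ V.obj Y.obj).hom ≫ (β_ Y.obj V.obj).hom = 𝟙 _
  rw [h2, Iso.hom_inv_id]

end

end Res

end Pool.Agent.MUP
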