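import Pool.Agent.MUP.K
import Pool.Agent.MUP.LE
import Pool.Agent.MUP.PD
import Pool.Agent.MUP.X1
import Pool.Agent.MUP.X2
import Pool.Agent.MUP.NIL
import Pool.Agent.MUP.EMB
import Pool.Agent.MUP.Res
import Pool.Agent.MUP.DCF
import Pool.Agent.MUG.P2b
import Pool.Agent.MUG.E4

/-! Row PE: the peeling step (helper27). -/

open CategoryTheory MonoidalCategory Limits Abelian

universe w v u

attribute [local instance] CategoryTheory.Abelian.hasFiniteBiproducts

namespace Pool.Agent.MUP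

open Pool.Agent.MUG

set_option linter.unusedSectionVars false

section PE

variable {k : Type*} [Field k] {Z : Type u} [Category.{v} Z] [Abelian Z] [Linear k Z]
  [MonoidalCategory Z] [MonoidalPreadditive Z] [MonoidalLinear k Z] [RigidCategory Z]
  [BraidedCategory Z]

theorem tensorSub_top : TensorSub (⊤ : ObjectProperty Z) where
  unit := trivial
  tensor := fun _ _ => trivial
  rdual := fun _ => trivial
  ldual := fun _ => trivial
  sub := fun _ _ _ => trivial
  quot := fun _ _ _ => trivial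
  biprod := fun _ _ => trivial

/-- `F^` has FGC. -/
theorem fg_cent [IsAlgClosed k] [CharZero k] [HasExt.{w} Z] (hZ : IsFinite k Z)
    (hF : FGC.{w} k Z) (F : ObjectProperty Z) [TensorSub F] (hss : Semisimp F)
    (hsym : F ≤ centralizer F) (h : TensorSub (centralizer F)) : FG k (centralizer F) h := by
  have htop : TensorSub (⊤ : ObjectProperty Z) := tensorSub_top
  have h2 : TensorSub ((⊤ : ObjectProperty Z) ⊓ centralizer F) := tensorSub_inf _ _
  have h3 := fg_fusion hZ F hss hsym ⊤ htop (fg_top hZ hF htop) h2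
  have e : (⊤ : ObjectProperty Z) ⊓ centralizer F = centralizer F := top_inf_eq _
  revert h2
  rw [e]
  intro h2 h3
  exact h3

/-- The object `X` of the peeling, back in `Z`. -/
theorem exists_X_plus [IsAlgClosed k] [CharZero k] [HasExt.{w} Z] (hZ : IsFinite k Z)
    (hnd : ∀ X : Z, (∀ Y, Comm X Y) → ∃ n : ℕ, Nonempty (X ≅ ⨁ (fun _ : Fin n => 𝟙_ Z)))
    (hF : FGC.{w} k Z) (F : ObjectProperty Z) [hTF : TensorSub F] (hss : Semisimp F)
    (hsym : F ≤ centralizer F) {V U : Z} [hsV : Simple V] (hFV : F V) (hcU : centralizer F U)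
    (hUV : Comm U V) (ι : 𝟙_ Z ⟶ U) (π : U ⟶ V) (w : ι ≫ π = 0)
    (hS : (ShortComplex.mk ι π w).ShortExact) (hno : ¬ ∃ s : V ⟶ U, s ≫ π = 𝟙 V) :
    ∃ (X : Z) (j : V ⟶ X) (e : X ⟶ 𝟙_ Z) (w' : j ≫ e = 0),
      (ShortComplex.mk j e w').ShortExact ∧ centralizer F X ∧
      dbr U X = (π ▷ X) ≫ ((V ◁ e) ≫ (ρ_ V).hom ≫ j) ≫ (λ_ X).inv ≫ (ι ▷ X) := by
  have hmι : Mono ι := hS.mono_f
  have heπ : Epi π := hS.epi_g
  let A : ObjectProperty Z := centralizer F
  have hA : TensorSub A := tensorSub_centralizer _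
  have hAf := finite_sub hZ A
  have hFA : FG k A hA := fg_cent hZ hF F hss hsym hA
  have hAV : A V := hsym V hFV
  have hcA : centralizer A V := fun Y hY => comm_symm (hY V hFV)
  obtain ⟨L, hL⟩ := leib_of_ext A ι π w hS hAV hcA
  have hLz := leib_eq_zero_iff A ι π hmι heπ hAV L hL
  have hne : L.Nonzero := by
    by_contra hcon
    apply hno
    have h1 : F U := by
      refine dcf hZ hnd F hss hsym U (fun Y hY => ?_)
      have h0 : L.d ⟨Y, hY⟩ = 0 := by
        by_contra h
        exact hcon ⟨_, h⟩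
      exact (hLz ⟨Y, hY⟩).1 h0
    exact hss π h1 heπ
  have hLc : LComm L := lcomm_of_ext A ι π hmι heπ hAV hUV L hL
  have hTF' : TensorSub (fun Y : A.FullSubcategory => F Y.obj) := tensorSub_restrict A F
  have hss' : Semisimp (fun Y : A.FullSubcategory => F Y.obj) := semisimp_restrict A F hss
  have hen : EnoughProjectives A.FullSubcategory := hAf.enough
  have : HasExt.{max u v} A.FullSubcategory := HasExt.standard _
  have hsV' : Simple (⟨V, hAV⟩ : A.FullSubcategory) := (sub_simple_iff A _).2 hsV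
  obtain ⟨𝔇⟩ := exists_der (F := tensorLeft (⟨V, hAV⟩ : A.FullSubcategory)) L.natTrans
  obtain ⟨N, M, hFN, hFM, hN, hM, x, hx⟩ := exists_D_ne (k := k) hAf hFA
    (fun Y : A.FullSubcategory => F Y.obj) hss'
    (fun S hS' => transp_restrict A F le_rfl S hS') (V := ⟨V, hAV⟩) hFV L hLc hne 𝔇
  obtain ⟨X, j, e, w', hX, hdX⟩ := exists_X_of_D_ne (k := k) hAf
    (fun Y : A.FullSubcategory => F Y.obj) hss' (V := ⟨V, hAV⟩) hFV L 𝔇 hFN hFM hN hM x hx
  have hX' := hX.map_of_exact A.ι
  have w₁ : j.hom ≫ e.hom = 0 := congrArg (fun f => f.hom) w'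
  refine ⟨X.obj, j.hom, e.hom, w₁, hX', X.property, ?_⟩
  rw [hL X, hdX]
  rfl

/-- Row PE: the peeling step. -/
theorem peel_plus [IsAlgClosed k] [CharZero k] [HasExt.{w} Z] (hZ : IsFinite k Z)
    (hnd : ∀ X : Z, (∀ Y, Comm X Y) → ∃ n : ℕ, Nonempty (X ≅ ⨁ (fun _ : Fin n => 𝟙_ Z)))
    (hF : FGC.{w} k Z) (D F : ObjectProperty Z) [hD : TensorSub D] [hTF : TensorSub F]
    (hss : Semisimp F)
    (hFE : F ≤ D ⊓ centralizer D) (hsimp : ∀ S, Simple S → (D ⊓ centralizer D) S → F S)
    (K : ObjectProperty Z) [hK : TensorSub K] (hKD : K ≤ centralizer D)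
    (hns : ¬ Semisimp (K ⊓ D)) :
    ∃ K₁ : ObjectProperty Z, TensorSub K₁ ∧ K₁ < K ∧
      centralizer (D ⊓ centralizer D) ⊓ centralizer K₁ ≤ centralizer K := by
  have hE : TensorSub (K ⊓ D) := tensorSub_inf _ _
  have hKE : K ⊓ D ≤ D ⊓ centralizer D := fun X h => ⟨h.2, hKD X h.1⟩
  have hns' : ∃ (A B : Z) (p : A ⟶ B), (K ⊓ D) A ∧ (K ⊓ D) B ∧ Epi p ∧
      ¬ ∃ s : B ⟶ A, s ≫ p = 𝟙 B := by
    unfold Semisimp at hns
    push Not at hns
    obtain ⟨A, B, p, hA, hp, hno⟩ := hns
    exact ⟨A, B, p, hA, hE.quot p hA, hp, fun ⟨s, hs⟩ => hno s hs⟩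
  obtain ⟨V, U, ι, π, w, hEV, hEU, hsV, hS, hno⟩ := exists_nonsplit' hZ _ hns'
  have hFV : F V := hsimp V hsV (hKE V hEV)
  have hsym : F ≤ centralizer F := fun X hX Y hY => (hFE X hX).2 Y (hFE Y hY).1
  have hcU : centralizer F U := fun Y hY => (hKE U hEU).2 Y (hFE Y hY).1
  have hUV : Comm U V := (hKE U hEU).2 V (hKE V hEV).1
  obtain ⟨X, j, e, w', hX, hcX, hd⟩ :=
    exists_X_plus hZ hnd hF F hss hsym hFV hcU hUV ι π w hS hno
  have hcV : centralizer K V := fun Y hY => comm_symm (hKD Y hY V hEV.2)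
  obtain ⟨b, L, U', j', e', w'', hbs, hbt, hLc, hLne, hS', hdU', hX0, hUU'⟩ :=
    peel_dual K ι π w hS hEU.1 hcV hUV j e w' hX hd
  have hKf := finite_sub hZ K
  have hbs' : Simple b := (sub_simple_iff K b).2 hbs
  have hn := nilp (k := k) hKf hbt L hLc
  obtain ⟨m, hm⟩ := exists_mono_tensor (k := k) hKf L hLc hn j' e' w'' hS' hdU'
  have hcX' : TensorSub (centralizer (fun Y : Z => Y = X)) := tensorSub_centralizer _
  have hK₁ : TensorSub (K ⊓ centralizer (fun Y : Z => Y = X)) := tensorSub_inf _ _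
  refine ⟨K ⊓ centralizer (fun Y : Z => Y = X), hK₁, ?_, ?_⟩
  · refine lt_of_le_of_ne inf_le_left (fun h => ?_)
    obtain ⟨Y, hY⟩ := hLne
    apply hY
    rw [hX0 Y]
    have h1 : (K ⊓ centralizer (fun Y : Z => Y = X)) Y.obj := by
      rw [h]
      exact Y.property
    exact comm_symm (h1.2 X rfl)
  · rintro Y ⟨hYE, hY⟩ T hT
    have hC := tensorSub_centralizer (fun T : Z => T = Y)
    have hYU : Comm Y U := hYE U (hKE U hEU)
    have hU'c : centralizer (fun T : Z => T = Y) U'.obj := by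
      rintro _ rfl
      exact comm_symm (hUU' _ hYU)
    -- a projective cover of `T` in `K`
    have hen := hKf.enough
    let T' : K.FullSubcategory := ⟨T, hT⟩
    let P : K.FullSubcategory := Projective.over T'
    obtain ⟨f, hf⟩ := hm P (Projective.projective_over T')
    have hck : centralizer (fun T : Z => T = Y) (cokernel (L.d P)).obj := by
      rintro _ rfl
      have h3 : (K ⊓ centralizer (fun Y => Y = X)) (cokernel (L.d P)).obj := by
        refine ⟨(cokernel (L.d P)).property, ?_⟩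
        rintro _ rfl
        refine comm_symm ((hX0 _).1 ?_)
        have h4 : (b ◁ cokernel.π (L.d P)) ≫ L.d (cokernel (L.d P)) = 0 := by
          rw [L.nat, cokernel.condition]
        have h5 : Epi (b ◁ cokernel.π (L.d P)) :=
          inferInstanceAs (Epi ((tensorLeft b).map (cokernel.π (L.d P))))
        rw [← cancel_epi (b ◁ cokernel.π (L.d P)), h4, comp_zero]
      exact comm_symm (hY _ h3)
    have hpw : ∀ m : ℕ, centralizer (fun T : Z => T = Y)
        (pw (tensorLeft U') m (cokernel (L.d P))).obj := by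
      intro m
      induction m with
      | zero => exact hck
      | succ m ih => exact hC.tensor hU'c ih
    have hfm : Mono f.hom := sub_mono_hom K f
    have hP : centralizer (fun T : Z => T = Y) P.obj := hC.sub f.hom (hpw m)
    have hπ : Epi (Projective.π T').hom := sub_epi_hom K _
    have hTc : centralizer (fun T : Z => T = Y) T := hC.quot (Projective.π T').hom hP
    exact comm_symm (hTc Y rfl)

end PE

end Pool.Agent.MUP
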