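import Pool.Agent.MUP.QP
import Pool.Agent.MUP.PE
import Pool.Agent.MUP.BR

/-!
# Theorem P+ (helper14)

In a finite nondegenerate braided tensor category satisfying (FGC), every tensor subcategory `D`
with `D^^ = D` satisfies (FGC), provided that the simple objects of `E = D ∩ D^` all lie in a
fusion subcategory of `E`.
-/

open CategoryTheory MonoidalCategory Limits Abelian

universe w v u

set_option linter.unusedSectionVars false

attribute [local instance] CategoryTheory.Abelian.hasFiniteBiproducts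

namespace Pool.Agent.MUP

open Pool.Agent.MUG

section

variable {k : Type*} [Field k] {Z : Type u} [Category.{v} Z] [Abelian Z] [Linear k Z]
  [MonoidalCategory Z] [MonoidalPreadditive Z] [MonoidalLinear k Z] [RigidCategory Z]
  [BraidedCategory Z]

/-- **Theorem P+.** -/
theorem theoremP_plus [IsAlgClosed k] [CharZero k] [HasExt.{w} Z] (hZ : IsFinite k Z)
    (hnd : ∀ X : Z, (∀ Y, Comm X Y) → ∃ n : ℕ, Nonempty (X ≅ ⨁ (fun _ : Fin n => 𝟙_ Z)))
    (hF : FGC.{w} k Z) (D F : ObjectProperty Z) (hD : TensorSub D) [TensorSub F]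
    (hDD : centralizer (centralizer D) ≤ D) (hss : Semisimp F)
    (hFE : F ≤ D ⊓ centralizer D) (hsimp : ∀ S, Simple S → (D ⊓ centralizer D) S → F S) :
    FG k D hD := by
  classical
  have hcD : TensorSub (centralizer D) := tensorSub_centralizer D
  have hE : TensorSub (D ⊓ centralizer D) := tensorSub_inf _ _
  have hA : TensorSub (centralizer (D ⊓ centralizer D)) := tensorSub_centralizer _
  have hsym : D ⊓ centralizer D ≤ centralizer (D ⊓ centralizer D) :=
    fun X hX Y hY => hX.2 Y hY.1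
  -- FGC of `E^`
  have htop : TensorSub (⊤ : ObjectProperty Z) :=
    { unit := trivial, tensor := fun _ _ => trivial, rdual := fun _ => trivial,
      ldual := fun _ => trivial, sub := fun _ _ _ => trivial, quot := fun _ _ _ => trivial,
      biprod := fun _ _ => trivial }
  have h2 : TensorSub ((⊤ : ObjectProperty Z) ⊓ centralizer (D ⊓ centralizer D)) :=
    tensorSub_inf _ _
  have hFA : FG k (centralizer (D ⊓ centralizer D)) hA :=
    fg_congr (top_inf_eq _) h2 hA
      (theoremQ_plus hZ _ F hss hsym hFE hsimp ⊤ htop (fg_top hZ hF htop) h2)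
  -- the set of good tensor subcategories
  let good : Set {K : ObjectProperty Z // TensorSub K} :=
    {K | K.1 ≤ centralizer D ∧ centralizer (D ⊓ centralizer D) ⊓ centralizer K.1 ≤ D}
  have hgood : good.Nonempty :=
    ⟨⟨centralizer D, hcD⟩, le_rfl, le_trans inf_le_right hDD⟩
  obtain ⟨⟨K, hK⟩, ⟨h1, hΦ⟩, hmin⟩ := (dcc_sub hZ).has_min good hgood
  have := hK
  have hKs : Semisimp (K ⊓ D) := by
    by_contra hns
    obtain ⟨K₁, hK₁, hlt, hle⟩ := peel_plus hZ hnd hF D F hss hFE hsimp K h1 hns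
    refine hmin ⟨K₁, hK₁⟩ ⟨le_trans hlt.le h1, ?_⟩ hlt
    intro Y hY
    exact hΦ Y ⟨hY.1, hle Y hY⟩
  have hsw : ∀ {X Y : Z}, Comm X Y → Comm Y X := fun h => comm_symm h
  have hKA : K ≤ centralizer (D ⊓ centralizer D) := fun X hX Y hY => h1 X hX Y hY.1
  have hDA : D ≤ centralizer (D ⊓ centralizer D) := fun X hX Y hY => hsw (hY.2 X hX)
  have hAE : centralizer (D ⊓ centralizer D) ≤ centralizer (K ⊓ centralizer K) := by
    intro Y hY X hX
    have hXD : D X := hΦ X ⟨hKA X hX.1, hX.2⟩
    exact hY X ⟨hXD, h1 X hX.1⟩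
  refine fg_base_rel hZ _ hA hFA D K hDA hKA ?_ ?_
  · intro X Y hX hX' _ _ p hp
    exact hKs p ⟨hX', hX⟩ hp
  · intro P P' hP hP'
    refine joinProj_rel hZ _ K hKA hAE P' P hP' ⟨?_, ?_⟩
    · exact ⟨hDA P hP.1, fun X hX => hsw (h1 X hX P hP.1)⟩
    · intro Y Y' f hf hY hY' g
      exact hP.2 f hf (hΦ Y hY) (hΦ Y' hY') g

end

end Pool.Agent.MUP
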