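import Pool.Agent.MUP.EMB
import Pool.Agent.MUP.S2

/-!
# PRIM, definitions: the coefficients of `t^n` on a tensor product (helper22)
-/

open CategoryTheory MonoidalCategory Limits Abelian

universe w v u

namespace Pool.Agent.MUP

open Pool.Agent.MUG

section Co

variable {C : Type u} [Category.{v} C] [Abelian C] [MonoidalCategory C] [MonoidalPreadditive C]
  [BraidedCategory C]

/-- `V^n (X ⊗ Y) ⟶ X ⊗ V^n Y`, the braiding. -/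
def sg (V X : C) : ∀ (n : ℕ) (Y : C),
    pw (tensorLeft V) n (X ⊗ Y) ⟶ X ⊗ pw (tensorLeft V) n Y
  | 0, Y => 𝟙 (X ⊗ Y)
  | n + 1, Y => (V ◁ sg V X n Y) ≫ swp V X (pw (tensorLeft V) n Y)

/-- `d` on the first factor. -/
def nn {V : C} (L : Leib V) (X Y : C) : V ⊗ (X ⊗ Y) ⟶ X ⊗ Y :=
  (α_ V X Y).inv ≫ (L.d X ▷ Y)

/-- The coefficients: `t^i (X ⊗ Y) = ∑ j, tc i j ≫ X ◁ t^j Y`. -/
def tc {V : C} (L : Leib V) (X : C) : ∀ (i j : ℕ) (Y : C),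
    pw (tensorLeft V) i (X ⊗ Y) ⟶ X ⊗ pw (tensorLeft V) j Y
  | 0, 0, Y => 𝟙 (X ⊗ Y)
  | 0, _ + 1, _ => 0
  | i + 1, 0, Y => (V ◁ tc L X i 0 Y) ≫ nn L X Y
  | i + 1, j + 1, Y =>
      ((V ◁ tc L X i (j + 1) Y) ≫ nn L X (pw (tensorLeft V) (j + 1) Y) :
        pw (tensorLeft V) (i + 1) (X ⊗ Y) ⟶ X ⊗ pw (tensorLeft V) (j + 1) Y) +
      ((V ◁ tc L X i j Y) ≫ swp V X (pw (tensorLeft V) j Y) :
        pw (tensorLeft V) (i + 1) (X ⊗ Y) ⟶ X ⊗ pw (tensorLeft V) (j + 1) Y)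

end Co

end Pool.Agent.MUP
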