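import Pool.Agent.MUP.PRa

/-! Part PRc of row PRIM (helper94). -/

open CategoryTheory MonoidalCategory Limits Abelian

universe w v u

namespace Pool.Agent.MUP

open Pool.Agent.MUG

section Co

variable {C : Type u} [Category.{v} C] [Abelian C] [MonoidalCategory C] [MonoidalPreadditive C]
  [BraidedCategory C]

omit [Abelian C] [MonoidalPreadditive C] in
/-- Yang-Baxter for `swp`. -/
theorem swp_yb3 (V X Z Y : C) :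
    (V ◁ swp X Z Y) ≫ swp V Z (X ⊗ Y) ≫ (Z ◁ swp V X Y) =
      swp V X (Z ⊗ Y) ≫ (X ◁ swp V Z Y) ≫ swp X Z (V ⊗ Y) :=
  (prd_yb V X Z Y).symm

omit [Abelian C] [MonoidalPreadditive C] in
theorem swp_natl {X X' : C} (f : X ⟶ X') (Z Y : C) :
    (f ▷ (Z ⊗ Y)) ≫ swp X' Z Y = swp X Z Y ≫ (Z ◁ (f ▷ Y)) := by
  have h : (f ▷ Z) ≫ (β_ X' Z).hom = (β_ X Z).hom ≫ (Z ◁ f) :=
    BraidedCategory.braiding_naturality_left f Z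
  have h2 : (f ▷ Z ▷ Y) ≫ (β_ X' Z).hom ▷ Y = (β_ X Z).hom ▷ Y ≫ (Z ◁ f) ▷ Y := by
    rw [← comp_whiskerRight, h, comp_whiskerRight]
  unfold swp
  simp only [Category.assoc]
  rw [associator_inv_naturality_left_assoc, reassoc_of% h2, associator_naturality_middle]

omit [MonoidalPreadditive C] in
theorem nn_swp {V : C} (L : Leib V) (X Z Y : C) :
    (V ◁ swp X Z Y) ≫ swp V Z (X ⊗ Y) ≫ (Z ◁ nn L X Y) = nn L X (Z ⊗ Y) ≫ swp X Z Y := by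
  have h := prd_hex_left V X Z Y
  have h1 : (V ◁ swp X Z Y) ≫ swp V Z (X ⊗ Y) =
      (α_ V X (Z ⊗ Y)).inv ≫ swp (V ⊗ X) Z Y ≫ (Z ◁ (α_ V X Y).hom) := by
    rw [← h, Iso.inv_hom_id_assoc]
  have h2 : (Z ◁ (α_ V X Y).hom) ≫ (Z ◁ nn L X Y) = Z ◁ (L.d X ▷ Y) := by
    rw [← MonoidalCategory.whiskerLeft_comp]
    unfold nn
    rw [Iso.hom_inv_id_assoc]
  rw [← Category.assoc, h1]
  simp only [Category.assoc]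
  rw [h2, ← swp_natl]
  unfold nn
  rw [Category.assoc]

omit [MonoidalPreadditive C] in
theorem prc_step1 {V : C} (L : Leib V) (X Z Q0 Q1 Q P P' : C) (A : Q0 ⟶ Q1) (G : Q1 ⟶ Z ⊗ Q)
    (t : Q ⟶ X ⊗ P) (t' : Q0 ⟶ X ⊗ P') (g : P' ⟶ Z ⊗ P)
    (h : A ≫ G ≫ (Z ◁ t) = t' ≫ (X ◁ g) ≫ swp X Z P) :
    (V ◁ A) ≫ ((V ◁ G) ≫ swp V Z Q) ≫ (Z ◁ ((V ◁ t) ≫ nn L X P)) =
      ((V ◁ t') ≫ nn L X P') ≫ (X ◁ g) ≫ swp X Z P := by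
  calc (V ◁ A) ≫ ((V ◁ G) ≫ swp V Z Q) ≫ (Z ◁ ((V ◁ t) ≫ nn L X P))
      = (V ◁ A) ≫ (V ◁ G) ≫ (swp V Z Q ≫ (Z ◁ (V ◁ t))) ≫ (Z ◁ nn L X P) := by
        simp only [MonoidalCategory.whiskerLeft_comp, Category.assoc]
    _ = (V ◁ (A ≫ G ≫ (Z ◁ t))) ≫ swp V Z (X ⊗ P) ≫ (Z ◁ nn L X P) := by
        rw [← swp_nat V Z t]
        simp only [MonoidalCategory.whiskerLeft_comp, Category.assoc]
    _ = (V ◁ t') ≫ (V ◁ (X ◁ g)) ≫ ((V ◁ swp X Z P) ≫ swp V Z (X ⊗ P) ≫ (Z ◁ nn L X P)) := by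
        rw [h]
        simp only [MonoidalCategory.whiskerLeft_comp, Category.assoc]
    _ = (V ◁ t') ≫ ((V ◁ (X ◁ g)) ≫ nn L X (Z ⊗ P)) ≫ swp X Z P := by
        rw [nn_swp, Category.assoc]
    _ = _ := by
        rw [nn_nat]
        simp only [Category.assoc]

omit [Abelian C] [MonoidalPreadditive C] in
theorem prc_step2 (V X Z Q0 Q1 Q P P' : C) (A : Q0 ⟶ Q1) (G : Q1 ⟶ Z ⊗ Q)
    (t : Q ⟶ X ⊗ P) (t' : Q0 ⟶ X ⊗ P') (g : P' ⟶ Z ⊗ P)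
    (h : A ≫ G ≫ (Z ◁ t) = t' ≫ (X ◁ g) ≫ swp X Z P) :
    (V ◁ A) ≫ ((V ◁ G) ≫ swp V Z Q) ≫ (Z ◁ ((V ◁ t) ≫ swp V X P)) =
      ((V ◁ t') ≫ swp V X P') ≫ (X ◁ ((V ◁ g) ≫ swp V Z P)) ≫ swp X Z (V ⊗ P) := by
  calc (V ◁ A) ≫ ((V ◁ G) ≫ swp V Z Q) ≫ (Z ◁ ((V ◁ t) ≫ swp V X P))
      = (V ◁ A) ≫ (V ◁ G) ≫ (swp V Z Q ≫ (Z ◁ (V ◁ t))) ≫ (Z ◁ swp V X P) := by
        simp only [MonoidalCategory.whiskerLeft_comp, Category.assoc]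
    _ = (V ◁ (A ≫ G ≫ (Z ◁ t))) ≫ swp V Z (X ⊗ P) ≫ (Z ◁ swp V X P) := by
        rw [← swp_nat V Z t]
        simp only [MonoidalCategory.whiskerLeft_comp, Category.assoc]
    _ = (V ◁ t') ≫ (V ◁ (X ◁ g)) ≫ ((V ◁ swp X Z P) ≫ swp V Z (X ⊗ P) ≫ (Z ◁ swp V X P)) := by
        rw [h]
        simp only [MonoidalCategory.whiskerLeft_comp, Category.assoc]
    _ = (V ◁ t') ≫ ((V ◁ (X ◁ g)) ≫ swp V X (Z ⊗ P)) ≫ (X ◁ swp V Z P) ≫ swp X Z (V ⊗ P) := by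
        rw [swp_yb3, Category.assoc]
    _ = _ := by
        rw [swp_nat V X g]
        simp only [MonoidalCategory.whiskerLeft_comp, Category.assoc]

theorem prc_step3 {V : C} (L : Leib V) (X Z Q0 Q1 Q P P' : C) (A : Q0 ⟶ Q1) (G : Q1 ⟶ Z ⊗ Q)
    (t : Q ⟶ X ⊗ (V ⊗ P)) (t' : Q0 ⟶ X ⊗ (V ⊗ P')) (u : Q ⟶ X ⊗ P) (u' : Q0 ⟶ X ⊗ P')
    (g : P' ⟶ Z ⊗ P)
    (h : A ≫ G ≫ (Z ◁ t) = t' ≫ (X ◁ ((V ◁ g) ≫ swp V Z P)) ≫ swp X Z (V ⊗ P))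
    (h' : A ≫ G ≫ (Z ◁ u) = u' ≫ (X ◁ g) ≫ swp X Z P) :
    (V ◁ A) ≫ ((V ◁ G) ≫ swp V Z Q) ≫
        (Z ◁ ((V ◁ t) ≫ nn L X (V ⊗ P) + (V ◁ u) ≫ swp V X P)) =
      ((V ◁ t') ≫ nn L X (V ⊗ P') + (V ◁ u') ≫ swp V X P') ≫
        (X ◁ ((V ◁ g) ≫ swp V Z P)) ≫ swp X Z (V ⊗ P) := by
  rw [MonoidalPreadditive.whiskerLeft_add, Preadditive.comp_add, Preadditive.comp_add,
    Preadditive.add_comp, prc_step1 L X Z Q0 Q1 Q (V ⊗ P) (V ⊗ P') A G t t' _ h,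
    prc_step2 V X Z Q0 Q1 Q P P' A G u u' g h']

theorem tc_yb {V : C} (L : Leib V) (X Z : C) : ∀ (i j : ℕ) (Y : C),
    pwMap (tensorLeft V) i (swp X Z Y) ≫ sg V Z i (X ⊗ Y) ≫ (Z ◁ tc L X i j Y) =
      tc L X i j (Z ⊗ Y) ≫ (X ◁ sg V Z j Y) ≫ swp X Z (pw (tensorLeft V) j Y)
  | 0, 0, Y => by
    have h1 : Z ◁ 𝟙 (X ⊗ Y) = 𝟙 (Z ⊗ (X ⊗ Y)) := MonoidalCategory.whiskerLeft_id _ _
    have h2 : X ◁ 𝟙 (Z ⊗ Y) = 𝟙 (X ⊗ (Z ⊗ Y)) := MonoidalCategory.whiskerLeft_id _ _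
    change swp X Z Y ≫ 𝟙 (Z ⊗ (X ⊗ Y)) ≫ (Z ◁ 𝟙 (X ⊗ Y)) =
      𝟙 (X ⊗ (Z ⊗ Y)) ≫ (X ◁ 𝟙 (Z ⊗ Y)) ≫ swp X Z Y
    rw [h1, h2, Category.id_comp, Category.comp_id, Category.id_comp, Category.id_comp]
  | 0, j + 1, Y => by
    have h1 : tc L X 0 (j + 1) (Z ⊗ Y) = 0 := rfl
    have h2 : tc L X 0 (j + 1) Y = 0 := rfl
    rw [h1, h2, MonoidalPreadditive.whiskerLeft_zero, zero_comp, comp_zero, comp_zero]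
  | i + 1, 0, Y =>
    prc_step1 L X Z (pw (tensorLeft V) i (X ⊗ (Z ⊗ Y))) (pw (tensorLeft V) i (Z ⊗ (X ⊗ Y)))
      (pw (tensorLeft V) i (X ⊗ Y)) Y (Z ⊗ Y) (pwMap (tensorLeft V) i (swp X Z Y))
      (sg V Z i (X ⊗ Y)) (tc L X i 0 Y) (tc L X i 0 (Z ⊗ Y)) (sg V Z 0 Y)
      (tc_yb L X Z i 0 Y)
  | i + 1, j + 1, Y =>
    prc_step3 L X Z (pw (tensorLeft V) i (X ⊗ (Z ⊗ Y))) (pw (tensorLeft V) i (Z ⊗ (X ⊗ Y)))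
      (pw (tensorLeft V) i (X ⊗ Y)) (pw (tensorLeft V) j Y) (pw (tensorLeft V) j (Z ⊗ Y))
      (pwMap (tensorLeft V) i (swp X Z Y)) (sg V Z i (X ⊗ Y)) (tc L X i (j + 1) Y)
      (tc L X i (j + 1) (Z ⊗ Y)) (tc L X i j Y) (tc L X i j (Z ⊗ Y)) (sg V Z j Y)
      (tc_yb L X Z i (j + 1) Y) (tc_yb L X Z i j Y)

end Co

end Pool.Agent.MUP
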