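import Pool.Agent.MUP.PRa
import Pool.Agent.MUP.PRc

/-!
# PRe: strong functors and the induction (helper22)
-/

open CategoryTheory MonoidalCategory Limits Abelian

universe w v u

set_option linter.unusedSectionVars false

namespace Pool.Agent.MUP

open Pool.Agent.MUG

section SFs

variable {C : Type u} [Category.{v} C] [Abelian C] [MonoidalCategory C] [MonoidalPreadditive C]
  [BraidedCategory C]

/-- A functor commuting with left tensoring. -/
structure SF (C : Type u) [Category.{v} C] [Abelian C] [MonoidalCategory C] where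
  G : C ⥤ C
  add : G.Additive
  s : ∀ X Y : C, G.obj (X ⊗ Y) ⟶ X ⊗ G.obj Y
  iso : ∀ X Y, IsIso (s X Y)
  natY : ∀ (X : C) {Y Y' : C} (f : Y ⟶ Y'), G.map (X ◁ f) ≫ s X Y' = s X Y ≫ (X ◁ G.map f)
  natX : ∀ {X X' : C} (g : X ⟶ X') (Y : C),
    G.map (g ▷ Y) ≫ s X' Y = s X Y ≫ (g ▷ G.obj Y)
  hex : ∀ X X' Y : C, G.map (α_ X X' Y).hom ≫ s X (X' ⊗ Y) ≫ (X ◁ s X' Y) =
    s (X ⊗ X') Y ≫ (α_ X X' (G.obj Y)).hom

/-- The identity. -/
def SF.one : SF C where
  G := 𝟭 C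
  add := inferInstance
  s X Y := 𝟙 (X ⊗ Y)
  iso X Y := IsIso.id (X ⊗ Y)
  natY X {Y Y'} f := by simp
  natX {X X'} g Y := by simp
  hex X X' Y := by simp

/-- `S ⊗ -`. -/
def SF.left (S : C) : SF C where
  G := tensorLeft S
  add := inferInstance
  s X Y := swp S X Y
  iso X Y := inferInstance
  natY X {Y Y'} f := swp_nat S X f
  natX {X X'} g Y := swp_nat_mid S g Y
  hex X X' Y := by
    change (S ◁ (α_ X X' Y).hom) ≫ swp S X (X' ⊗ Y) ≫ (X ◁ swp S X' Y) =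
      swp S (X ⊗ X') Y ≫ (α_ X X' (S ⊗ Y)).hom
    rw [swp_eq, swp_eq, swp_eq, BraidedCategory.braiding_tensor_right_hom]
    monoidal

/-- Composition: `Y ↦ G (K Y)`. -/
def SF.comp (G K : SF C) : SF C where
  G := K.G ⋙ G.G
  add := by
    have := K.add
    have := G.add
    infer_instance
  s X Y := G.G.map (K.s X Y) ≫ G.s X (K.G.obj Y)
  iso X Y := by
    have := K.iso X Y
    have := G.iso X (K.G.obj Y)
    infer_instance
  natY X {Y Y'} f := by
    change G.G.map (K.G.map (X ◁ f)) ≫ G.G.map (K.s X Y') ≫ G.s X (K.G.obj Y') = _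
    rw [← Functor.map_comp_assoc, K.natY, Functor.map_comp_assoc, G.natY]
    simp
  natX {X X'} g Y := by
    change G.G.map (K.G.map (g ▷ Y)) ≫ G.G.map (K.s X' Y) ≫ G.s X' (K.G.obj Y) = _
    rw [← Functor.map_comp_assoc, K.natX, Functor.map_comp_assoc, G.natX]
    simp
  hex X X' Y := by
    change G.G.map (K.G.map (α_ X X' Y).hom) ≫ (G.G.map (K.s X (X' ⊗ Y)) ≫
      G.s X (K.G.obj (X' ⊗ Y))) ≫ (X ◁ (G.G.map (K.s X' Y) ≫ G.s X' (K.G.obj Y))) =
      (G.G.map (K.s (X ⊗ X') Y) ≫ G.s (X ⊗ X') (K.G.obj Y)) ≫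
        (α_ X X' (G.G.obj (K.G.obj Y))).hom
    have h1 : G.s X (K.G.obj (X' ⊗ Y)) ≫ (X ◁ G.G.map (K.s X' Y)) =
        G.G.map (X ◁ K.s X' Y) ≫ G.s X (X' ⊗ K.G.obj Y) := (G.natY X (K.s X' Y)).symm
    have h2 := K.hex X X' Y
    have h3 := G.hex X X' (K.G.obj Y)
    calc G.G.map (K.G.map (α_ X X' Y).hom) ≫ (G.G.map (K.s X (X' ⊗ Y)) ≫
          G.s X (K.G.obj (X' ⊗ Y))) ≫ (X ◁ (G.G.map (K.s X' Y) ≫ G.s X' (K.G.obj Y)))
        = G.G.map (K.G.map (α_ X X' Y).hom) ≫ G.G.map (K.s X (X' ⊗ Y)) ≫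
          (G.s X (K.G.obj (X' ⊗ Y)) ≫ (X ◁ G.G.map (K.s X' Y))) ≫
            (X ◁ G.s X' (K.G.obj Y)) := by
          simp only [MonoidalCategory.whiskerLeft_comp, Category.assoc]
      _ = G.G.map (K.G.map (α_ X X' Y).hom ≫ K.s X (X' ⊗ Y) ≫ X ◁ K.s X' Y) ≫
          G.s X (X' ⊗ K.G.obj Y) ≫ (X ◁ G.s X' (K.G.obj Y)) := by
          rw [h1]
          simp only [Functor.map_comp, Category.assoc]
      _ = _ := by
          rw [h2, Functor.map_comp, Category.assoc, h3, Category.assoc]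

theorem SF.hexs (H : SF C) (X X' Y : C) : H.s (X ⊗ X') Y =
    H.G.map (α_ X X' Y).hom ≫ H.s X (X' ⊗ Y) ≫ (X ◁ H.s X' Y) ≫ (α_ X X' (H.G.obj Y)).inv := by
  have h := H.hex X X' Y
  have h2 : H.G.map (α_ X X' Y).hom ≫ H.s X (X' ⊗ Y) ≫ (X ◁ H.s X' Y) ≫
      (α_ X X' (H.G.obj Y)).inv = (H.G.map (α_ X X' Y).hom ≫ H.s X (X' ⊗ Y) ≫ (X ◁ H.s X' Y)) ≫
      (α_ X X' (H.G.obj Y)).inv := by simp only [Category.assoc]
  rw [h2, h, Category.assoc, Iso.hom_inv_id, Category.comp_id]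

end SFs

section Det

variable {C : Type u} [Category.{v} C] [Abelian C] [MonoidalCategory C] [MonoidalPreadditive C]
  [BraidedCategory C] [RigidCategory C]

theorem cancel_core' {V X D : C} [ExactPairing D X] [Simple V] (m : X ⊗ V ⟶ X) (hm : m ≠ 0)
    {A B : C} (u : A ⟶ V ⊗ B) (h : (X ◁ u) ≫ (α_ X V B).inv ≫ (m ▷ B) = 0) : u = 0 := by
  have key : ∀ {A' B' : C} (u' : A' ⟶ V ⊗ B'),
      u' ≫ ((λ_ V).inv ≫ (η_ D X ▷ V) ≫ (α_ D X V).hom ≫ (D ◁ m)) ▷ B' =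
      (λ_ A').inv ≫ (η_ D X ▷ A') ≫ (α_ D X A').hom ≫
        (D ◁ ((X ◁ u') ≫ (α_ X V B').inv ≫ (m ▷ B'))) ≫ (α_ D X B').inv := by
    intro A' B' u'
    have h1 : (λ_ A').inv ≫ (η_ D X ▷ A') ≫ ((D ⊗ X) ◁ u') =
        u' ≫ (λ_ (V ⊗ B')).inv ≫ (η_ D X ▷ (V ⊗ B')) := by
      rw [← whisker_exchange]
      simp
    calc u' ≫ ((λ_ V).inv ≫ (η_ D X ▷ V) ≫ (α_ D X V).hom ≫ (D ◁ m)) ▷ B'
        = (u' ≫ (λ_ (V ⊗ B')).inv ≫ (η_ D X ▷ (V ⊗ B'))) ≫
          (α_ D X (V ⊗ B')).hom ≫ (D ◁ ((α_ X V B').inv ≫ (m ▷ B'))) ≫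
            (α_ D X B').inv := by monoidal
      _ = _ := by
          rw [← h1]
          monoidal
  have hne : (λ_ V).inv ≫ (η_ D X ▷ V) ≫ (α_ D X V).hom ≫ (D ◁ m) ≠ 0 := by
    intro h0
    apply hm
    have h2 : (X ◁ ((λ_ V).inv ≫ (η_ D X ▷ V) ≫ (α_ D X V).hom ≫ (D ◁ m))) ≫
        (α_ X D X).inv ≫ (ε_ D X ▷ X) ≫ (λ_ X).hom = m := by
      calc (X ◁ ((λ_ V).inv ≫ (η_ D X ▷ V) ≫ (α_ D X V).hom ≫ (D ◁ m))) ≫
            (α_ X D X).inv ≫ (ε_ D X ▷ X) ≫ (λ_ X).hom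
          = 𝟙 (X ⊗ V) ⊗≫ (X ◁ η_ D X) ▷ V ⊗≫ ((X ⊗ D) ◁ m ≫ (ε_ D X ▷ X)) ⊗≫ 𝟙 X := by
            monoidal
        _ = 𝟙 (X ⊗ V) ⊗≫ (X ◁ η_ D X ⊗≫ ε_ D X ▷ X) ▷ V ⊗≫ m := by
            rw [whisker_exchange]
            monoidal
        _ = m := by
            rw [ExactPairing.coevaluation_evaluation'']
            monoidal
    rw [← h2, h0]
    simp
  have hmono := mono_of_nonzero_from_simple hne
  have h3 := key u
  rw [h] at h3
  rw [MonoidalPreadditive.whiskerLeft_zero, zero_comp, comp_zero, comp_zero, comp_zero] at h3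
  have : Mono (((λ_ V).inv ≫ (η_ D X ▷ V) ≫ (α_ D X V).hom ≫ (D ◁ m)) ▷ B) :=
    inferInstanceAs (Mono ((tensorRight B).map _))
  exact (cancel_mono _).1 (h3.trans zero_comp.symm)

theorem detect {V : C} [Simple V] (L : Leib V) {X : C} (hX : L.d X ≠ 0) (G H : SF C)
    {Y W W₁ : C} (σ : W₁ ⟶ X ⊗ W)
    (z₁ : G.G.obj (X ⊗ Y) ⟶ H.G.obj (V ⊗ W₁)) (z : G.G.obj Y ⟶ H.G.obj (V ⊗ W))
    (hz : z₁ ≫ H.G.map ((V ◁ σ) ≫ swp V X W) ≫ H.s X (V ⊗ W) = G.s X Y ≫ (X ◁ z))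
    (h0 : z₁ ≫ H.G.map ((V ◁ σ) ≫ nn L X W) = 0) : z = 0 := by
  have hHi := H.iso
  have hGi := G.iso
  have hm : (β_ V X).inv ≫ L.d X ≠ 0 := by
    intro h
    apply hX
    have := congrArg ((β_ V X).hom ≫ ·) h
    simpa using this
  have e1 : (V ◁ σ) ≫ nn L X W =
      ((V ◁ σ) ≫ swp V X W) ≫ (α_ X V W).inv ≫ (((β_ V X).inv ≫ L.d X) ▷ W) := by
    rw [swp_eq]
    simp only [Category.assoc, Iso.hom_inv_id_assoc, comp_whiskerRight, nn]
    simp only [hom_inv_whiskerRight_assoc]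
  rw [e1, Functor.map_comp] at h0
  have e2 : H.G.map ((α_ X V W).inv ≫ (((β_ V X).inv ≫ L.d X) ▷ W)) ≫ H.s X W =
      H.s X (V ⊗ W) ≫ (X ◁ H.s V W) ≫ (α_ X V (H.G.obj W)).inv ≫
        (((β_ V X).inv ≫ L.d X) ▷ H.G.obj W) := by
    rw [Functor.map_comp, Category.assoc, H.natX, H.hexs]
    simp only [← Category.assoc, ← Functor.map_comp]
    simp
  have h2 : G.s X Y ≫ (X ◁ (z ≫ H.s V W)) ≫ (α_ X V (H.G.obj W)).inv ≫
        (((β_ V X).inv ≫ L.d X) ▷ H.G.obj W) = 0 := by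
    have h3 := congrArg (· ≫ H.s X W) h0
    simp only [Category.assoc, zero_comp] at h3
    rw [e2] at h3
    rw [MonoidalCategory.whiskerLeft_comp, Category.assoc, ← Category.assoc (G.s X Y), ← hz]
    simpa only [Category.assoc] using h3
  have h5 : (X ◁ (z ≫ H.s V W)) ≫ (α_ X V (H.G.obj W)).inv ≫
        (((β_ V X).inv ≫ L.d X) ▷ H.G.obj W) = 0 := by
    have := hGi X Y
    exact (cancel_epi (G.s X Y)).1 (h2.trans comp_zero.symm)
  have h6 := cancel_core' (D := ᘁX) _ hm _ h5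
  have := hHi V W
  exact (cancel_mono (H.s V W)).1 (h6.trans zero_comp.symm)

end Det

section Ind

variable {C : Type u} [Category.{v} C] [Abelian C] [MonoidalCategory C] [MonoidalPreadditive C]
  [BraidedCategory C]

/-- One term of the new coefficients is compatible. -/
theorem term_compat {V : C} (X Z : C) (G H : SF C) (i j : ℕ)
    (s : ∀ Y : C, G.G.obj Y ⟶ H.G.obj (pw (tensorLeft V) i Y))
    (hnat : ∀ {Y Y' : C} (f : Y ⟶ Y'),
        G.G.map f ≫ s Y' = s Y ≫ H.G.map (pwMap (tensorLeft V) i f))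
    (hc : ∀ (X Y : C), s (X ⊗ Y) ≫ H.G.map (sg V X i Y) ≫ H.s X _ = G.s X Y ≫ (X ◁ s Y))
    (t : ∀ Y : C, pw (tensorLeft V) i (X ⊗ Y) ⟶ X ⊗ pw (tensorLeft V) j Y)
    (ht : ∀ Y : C, pwMap (tensorLeft V) i (swp X Z Y) ≫ sg V Z i (X ⊗ Y) ≫ (Z ◁ t Y) =
      t (Z ⊗ Y) ≫ (X ◁ sg V Z j Y) ≫ swp X Z (pw (tensorLeft V) j Y)) (Y : C) :
    (s (X ⊗ (Z ⊗ Y)) ≫ H.G.map (t (Z ⊗ Y))) ≫ H.G.map (X ◁ sg V Z j Y) ≫
        H.G.map (swp X Z _) ≫ H.s Z _ =
      (G.G.map (swp X Z Y) ≫ G.s Z (X ⊗ Y)) ≫ (Z ◁ (s (X ⊗ Y) ≫ H.G.map (t Y))) := by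
  symm
  calc (G.G.map (swp X Z Y) ≫ G.s Z (X ⊗ Y)) ≫ (Z ◁ (s (X ⊗ Y) ≫ H.G.map (t Y)))
      = G.G.map (swp X Z Y) ≫ (G.s Z (X ⊗ Y) ≫ (Z ◁ s (X ⊗ Y))) ≫ (Z ◁ H.G.map (t Y)) := by
        rw [MonoidalCategory.whiskerLeft_comp]
        simp only [Category.assoc]
    _ = (G.G.map (swp X Z Y) ≫ s (Z ⊗ (X ⊗ Y))) ≫ H.G.map (sg V Z i (X ⊗ Y)) ≫
          (H.s Z _ ≫ (Z ◁ H.G.map (t Y))) := by
        rw [← hc]
        simp only [Category.assoc]
    _ = s (X ⊗ (Z ⊗ Y)) ≫ H.G.map (pwMap (tensorLeft V) i (swp X Z Y) ≫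
          sg V Z i (X ⊗ Y) ≫ (Z ◁ t Y)) ≫ H.s Z _ := by
        rw [hnat, ← H.natY]
        simp only [Functor.map_comp, Category.assoc]
    _ = _ := by
        rw [ht]
        simp only [Functor.map_comp, Category.assoc]

theorem plain_aux {V X A₁ W : C} (b : V ⊗ A₁ ⟶ V ⊗ A₁) (sA : A₁ ⟶ A₁) (σ : A₁ ⟶ X ⊗ W)
    (sW : W ⟶ W) (n : V ⊗ (X ⊗ W) ⟶ X ⊗ W) (e2 : sA ≫ σ = σ ≫ (X ◁ sW))
    (e3 : (V ◁ (X ◁ sW)) ≫ n = n ≫ (X ◁ sW)) :
    (b ≫ (V ◁ sA)) ≫ (V ◁ σ) ≫ n = (b ≫ (V ◁ σ) ≫ n) ≫ (X ◁ sW) := by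
  rw [Category.assoc, ← MonoidalCategory.whiskerLeft_comp_assoc, e2,
    MonoidalCategory.whiskerLeft_comp_assoc, e3]
  simp only [Category.assoc]

theorem map_aux (H : C ⥤ C) {A B D E : C} (a : E ⟶ H.obj A) (b : A ⟶ B) (c : B ⟶ D) :
    (a ≫ H.map b) ≫ H.map c = a ≫ H.map (b ≫ c) := by
  rw [Category.assoc, Functor.map_comp]

theorem map_aux' (H : C ⥤ C) {A B D E : C} (a : E ⟶ H.obj A) (b : A ⟶ B) (c : B ⟶ D) :
    a ≫ H.map (b ≫ c) = a ≫ H.map b ≫ H.map c := by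
  rw [Functor.map_comp]

variable [RigidCategory C]

theorem ind {V : C} [Simple V] (L : Leib V) (hne : L.Nonzero) (m : ℕ) :
    ∀ (G H : SF C) (s : ∀ (i : ℕ) (Y : C), G.G.obj Y ⟶ H.G.obj (pw (tensorLeft V) i Y)),
      (∀ (i : ℕ) {Y Y' : C} (f : Y ⟶ Y'),
        G.G.map f ≫ s i Y' = s i Y ≫ H.G.map (pwMap (tensorLeft V) i f)) →
      (∀ (i : ℕ) (X Y : C), s i (X ⊗ Y) ≫ H.G.map (sg V X i Y) ≫ H.s X _ =
        G.s X Y ≫ (X ◁ s i Y)) →
      (∀ Y : C, ∑ i ∈ Finset.range (m + 1),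
        s i Y ≫ H.G.map (tt (F := tensorLeft V) L.d i Y) = 0) →
      ∀ Y : C, s m Y ≫ H.G.map (sv V 1 m Y) = 0 := by
  induction m with
  | zero =>
    intro G H s _ _ hrel Y
    have h := hrel Y
    rw [Finset.sum_range_one] at h
    exact h
  | succ m ih =>
    intro G H s hnat hc hrel Y
    have hHa := H.add
    have hHi := H.iso
    have hGa := G.add
    -- the new coefficients
    have step : ∀ X Y : C, s (m + 1) (X ⊗ Y) ≫ H.G.map (tc L X (m + 1) m Y) ≫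
        H.G.map (X ◁ sv V 1 m Y) = 0 := by
      intro X Y₀
      let t' : ∀ (j : ℕ) (Y : C), G.G.obj (X ⊗ Y) ⟶ H.G.obj (X ⊗ pw (tensorLeft V) j Y) :=
        fun j Y => (∑ i ∈ Finset.range (m + 2), s i (X ⊗ Y) ≫ H.G.map (tc L X i j Y)) -
          s j (X ⊗ Y) ≫ H.G.map (sg V X j Y)
      have htm : ∀ (Y : C), t' m Y = s (m + 1) (X ⊗ Y) ≫ H.G.map (tc L X (m + 1) m Y) := by
        intro Y
        change (∑ i ∈ Finset.range (m + 2), s i (X ⊗ Y) ≫ H.G.map (tc L X i m Y)) -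
          s m (X ⊗ Y) ≫ H.G.map (sg V X m Y) = _
        rw [Finset.sum_range_succ, Finset.sum_range_succ, Finset.sum_eq_zero, prd_tc_self]
        · abel
        · intro i hi
          rw [prd_tc_gt L X i m (Finset.mem_range.1 hi), Functor.map_zero, comp_zero]
      have ht0 : ∀ (Y : C), t' (m + 1) Y = 0 := by
        intro Y
        change (∑ i ∈ Finset.range (m + 2), s i (X ⊗ Y) ≫ H.G.map (tc L X i (m + 1) Y)) -
          s (m + 1) (X ⊗ Y) ≫ H.G.map (sg V X (m + 1) Y) = _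
        rw [Finset.sum_range_succ, Finset.sum_eq_zero, prd_tc_self]
        · abel
        · intro i hi
          rw [prd_tc_gt L X i (m + 1) (Finset.mem_range.1 hi), Functor.map_zero, comp_zero]
      have h := ih (G.comp (SF.left X)) (H.comp (SF.left X)) t' ?_ ?_ ?_ Y₀
      · have h' : t' m Y₀ ≫ H.G.map (X ◁ sv V 1 m Y₀) = 0 := h
        rw [htm, Category.assoc] at h'
        exact h'
      · -- naturality
        intro j Y Y' f
        change G.G.map (X ◁ f) ≫ ((∑ i ∈ Finset.range (m + 2),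
            s i (X ⊗ Y') ≫ H.G.map (tc L X i j Y')) - s j (X ⊗ Y') ≫ H.G.map (sg V X j Y')) =
          ((∑ i ∈ Finset.range (m + 2), s i (X ⊗ Y) ≫ H.G.map (tc L X i j Y)) -
            s j (X ⊗ Y) ≫ H.G.map (sg V X j Y)) ≫ H.G.map (X ◁ pwMap (tensorLeft V) j f)
        rw [Preadditive.comp_sub, Preadditive.sub_comp, Preadditive.comp_sum,
          Preadditive.sum_comp]
        congr 1
        · refine Finset.sum_congr rfl fun i _ => ?_
          rw [← Category.assoc, hnat, Category.assoc, Category.assoc, ← Functor.map_comp,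
            ← Functor.map_comp, tc_nat]
        · rw [← Category.assoc, hnat, Category.assoc, Category.assoc, ← Functor.map_comp,
            ← Functor.map_comp, sg_nat]
      · -- compatibility
        intro j Z Y
        change ((∑ i ∈ Finset.range (m + 2),
            s i (X ⊗ (Z ⊗ Y)) ≫ H.G.map (tc L X i j (Z ⊗ Y))) -
              s j (X ⊗ (Z ⊗ Y)) ≫ H.G.map (sg V X j (Z ⊗ Y))) ≫
            H.G.map (X ◁ sg V Z j Y) ≫ H.G.map (swp X Z _) ≫ H.s Z _ =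
          (G.G.map (swp X Z Y) ≫ G.s Z (X ⊗ Y)) ≫
            (Z ◁ ((∑ i ∈ Finset.range (m + 2), s i (X ⊗ Y) ≫ H.G.map (tc L X i j Y)) -
              s j (X ⊗ Y) ≫ H.G.map (sg V X j Y)))
        rw [Preadditive.sub_comp, Preadditive.sum_comp]
        have e : (Z ◁ ((∑ i ∈ Finset.range (m + 2), s i (X ⊗ Y) ≫ H.G.map (tc L X i j Y)) -
              s j (X ⊗ Y) ≫ H.G.map (sg V X j Y))) =
            (∑ i ∈ Finset.range (m + 2), (Z ◁ (s i (X ⊗ Y) ≫ H.G.map (tc L X i j Y)))) -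
              (Z ◁ (s j (X ⊗ Y) ≫ H.G.map (sg V X j Y))) := by
          change (tensorLeft Z).map _ = _
          rw [Functor.map_sub, Functor.map_sum]
          rfl
        rw [e, Preadditive.comp_sub, Preadditive.comp_sum]
        congr 1
        · refine Finset.sum_congr rfl fun i _ => ?_
          exact term_compat X Z G H i j (s i) (hnat i) (hc i) (tc L X i j)
            (fun Y => tc_yb L X Z i j Y) Y
        · refine term_compat X Z G H j j (s j) (hnat j) (hc j) (sg V X j) (fun Y => ?_) Y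
          have := tc_yb L X Z j j Y
          rwa [prd_tc_self, prd_tc_self] at this
      · -- the relation
        intro Y
        change ∑ j ∈ Finset.range (m + 1),
          t' j Y ≫ H.G.map (X ◁ tt (F := tensorLeft V) L.d j Y) = 0
        have h1 : ∑ j ∈ Finset.range (m + 1),
            t' j Y ≫ H.G.map (X ◁ tt (F := tensorLeft V) L.d j Y) =
            ∑ j ∈ Finset.range (m + 2),
              t' j Y ≫ H.G.map (X ◁ tt (F := tensorLeft V) L.d j Y) := by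
          rw [Finset.sum_range_succ _ (m + 1), ht0, zero_comp, add_zero]
        rw [h1]
        have h2 : ∑ j ∈ Finset.range (m + 2),
            t' j Y ≫ H.G.map (X ◁ tt (F := tensorLeft V) L.d j Y) =
            (∑ i ∈ Finset.range (m + 2),
              s i (X ⊗ Y) ≫ H.G.map (tt (F := tensorLeft V) L.d i (X ⊗ Y))) -
            ∑ j ∈ Finset.range (m + 2), s j (X ⊗ Y) ≫ H.G.map (sg V X j Y) ≫
              H.G.map (X ◁ tt (F := tensorLeft V) L.d j Y) := by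
          have h3 : ∀ j, t' j Y ≫ H.G.map (X ◁ tt (F := tensorLeft V) L.d j Y) =
              (∑ i ∈ Finset.range (m + 2), s i (X ⊗ Y) ≫ H.G.map (tc L X i j Y) ≫
                H.G.map (X ◁ tt (F := tensorLeft V) L.d j Y)) -
              s j (X ⊗ Y) ≫ H.G.map (sg V X j Y) ≫
                H.G.map (X ◁ tt (F := tensorLeft V) L.d j Y) := by
            intro j
            change ((∑ i ∈ Finset.range (m + 2), s i (X ⊗ Y) ≫ H.G.map (tc L X i j Y)) -
              s j (X ⊗ Y) ≫ H.G.map (sg V X j Y)) ≫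
                H.G.map (X ◁ tt (F := tensorLeft V) L.d j Y) = _
            rw [Preadditive.sub_comp, Preadditive.sum_comp]
            simp only [Category.assoc]
          rw [Finset.sum_congr rfl fun j _ => h3 j, Finset.sum_sub_distrib, Finset.sum_comm]
          congr 1
          refine Finset.sum_congr rfl fun i hi => ?_
          rw [tt_tensor L X i (m + 2) (Finset.mem_range.1 hi) Y, Functor.map_sum,
            Preadditive.comp_sum]
          refine Finset.sum_congr rfl fun j _ => ?_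
          rw [Functor.map_comp]
        rw [h2]
        have h4 := hrel (X ⊗ Y)
        have h5 : (∑ j ∈ Finset.range (m + 2), s j (X ⊗ Y) ≫ H.G.map (sg V X j Y) ≫
              H.G.map (X ◁ tt (F := tensorLeft V) L.d j Y)) ≫ H.s X Y =
            G.s X Y ≫ (X ◁ (∑ i ∈ Finset.range (m + 2),
              s i Y ≫ H.G.map (tt (F := tensorLeft V) L.d i Y))) := by
          have e : (X ◁ (∑ i ∈ Finset.range (m + 2),
              s i Y ≫ H.G.map (tt (F := tensorLeft V) L.d i Y))) =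
              ∑ i ∈ Finset.range (m + 2),
                (X ◁ (s i Y ≫ H.G.map (tt (F := tensorLeft V) L.d i Y))) := by
            change (tensorLeft X).map _ = _
            rw [Functor.map_sum]
            rfl
          rw [e, Preadditive.comp_sum, Preadditive.sum_comp]
          refine Finset.sum_congr rfl fun j _ => ?_
          rw [MonoidalCategory.whiskerLeft_comp, ← Category.assoc (G.s X Y), ← hc j X Y]
          simp only [Category.assoc]
          rw [← H.natY]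
        rw [hrel Y] at h5
        have h6 : ∑ j ∈ Finset.range (m + 2), s j (X ⊗ Y) ≫ H.G.map (sg V X j Y) ≫
              H.G.map (X ◁ tt (F := tensorLeft V) L.d j Y) = 0 := by
          have := hHi X Y
          refine (cancel_mono (H.s X Y)).1 (h5.trans ?_)
          simp
        rw [h4, h6, sub_zero]
    obtain ⟨X, hX⟩ := hne
    refine detect L hX G H (Y := Y) (W := pw (tensorLeft V) m Y)
      (W₁ := pw (tensorLeft V) m (X ⊗ Y)) (sg V X m Y)
      (s (m + 1) (X ⊗ Y) ≫ H.G.map (sv V 1 (m + 1) (X ⊗ Y)))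
      (s (m + 1) Y ≫ H.G.map (sv V 1 (m + 1) Y)) ?_ ?_
    · have h1 := ss_sg V X 1 (m + 1) Y
      have h2 := hc (m + 1) X Y
      change (s (m + 1) (X ⊗ Y) ≫ H.G.map (sv V 1 (m + 1) (X ⊗ Y))) ≫
        H.G.map (sg V X (m + 1) Y) ≫ H.s X (pw (tensorLeft V) (m + 1) Y) = _
      calc (s (m + 1) (X ⊗ Y) ≫ H.G.map (sv V 1 (m + 1) (X ⊗ Y))) ≫
          H.G.map (sg V X (m + 1) Y) ≫ H.s X (pw (tensorLeft V) (m + 1) Y)
          = s (m + 1) (X ⊗ Y) ≫ H.G.map (sv V 1 (m + 1) (X ⊗ Y) ≫ sg V X (m + 1) Y) ≫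
            H.s X (pw (tensorLeft V) (m + 1) Y) := by
            simp only [Functor.map_comp, Category.assoc]
        _ = (s (m + 1) (X ⊗ Y) ≫ H.G.map (sg V X (m + 1) Y) ≫ H.s X _) ≫
            (X ◁ H.G.map (sv V 1 (m + 1) Y)) := by
            rw [h1, Functor.map_comp]
            simp only [Category.assoc]
            rw [H.natY]
        _ = _ := by
            rw [h2, Category.assoc, ← MonoidalCategory.whiskerLeft_comp]
            rfl
    · have h1 := step X Y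
      rw [tc_sub] at h1
      have e : sv V 1 (m + 1) (X ⊗ Y) ≫ (V ◁ sg V X m Y) ≫ nn L X (pw (tensorLeft V) m Y) =
          (bb (F := tensorLeft V) (swp V V) 1 m (X ⊗ Y) ≫
            (V ◁ sg V X m Y) ≫ nn L X (pw (tensorLeft V) m Y)) ≫ (X ◁ sv V 1 m Y) := by
        have e1 : sv V 1 (m + 1) (X ⊗ Y) = bb (F := tensorLeft V) (swp V V) 1 m (X ⊗ Y) ≫
            (V ◁ sv V 1 m (X ⊗ Y)) := by
          exact ss_succ_bb (F := tensorLeft V) (swp V V) 1 (fun f => swp_nat V V f) m (X ⊗ Y)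
        have e2 := ss_sg V X 1 m Y
        have e3 := nn_nat L X (sv V 1 m Y)
        rw [e1]
        exact plain_aux _ _ _ _ _ e2 e3
      refine (map_aux H.G _ _ _).trans ?_
      refine (congrArg (fun f => s (m + 1) (X ⊗ Y) ≫ H.G.map f) e).trans ?_
      exact (map_aux' H.G _ _ _).trans h1

end Ind

end Pool.Agent.MUP
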