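import Pool.Agent.MUP.PRd

/-! Parts PRa and PRb of row PRIM (helper94). -/

open CategoryTheory MonoidalCategory Limits Abelian

universe w v u

namespace Pool.Agent.MUP

open Pool.Agent.MUG

section Co

variable {C : Type u} [Category.{v} C] [Abelian C] [MonoidalCategory C] [MonoidalPreadditive C]
  [BraidedCategory C]

/-! ### PRa -/

omit [Abelian C] [MonoidalPreadditive C] in
theorem pra_sg_step (V X P P' Q Q' : C) (a : Q ⟶ Q') (g' : Q' ⟶ X ⊗ P') (g : Q ⟶ X ⊗ P)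
    (b : P ⟶ P') (h : a ≫ g' = g ≫ (X ◁ b)) :
    (V ◁ a) ≫ ((V ◁ g') ≫ swp V X P') = ((V ◁ g) ≫ swp V X P) ≫ (X ◁ (V ◁ b)) := by
  rw [← MonoidalCategory.whiskerLeft_comp_assoc, h, MonoidalCategory.whiskerLeft_comp,
    Category.assoc, swp_nat, Category.assoc]

omit [Abelian C] [MonoidalPreadditive C] in
theorem sg_nat (V X : C) : ∀ (n : ℕ) {Y Y' : C} (f : Y ⟶ Y'),
    pwMap (tensorLeft V) n (X ◁ f) ≫ sg V X n Y' =
      sg V X n Y ≫ (X ◁ pwMap (tensorLeft V) n f)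
  | 0, _, _, f => (Category.comp_id (X ◁ f)).trans (Category.id_comp (X ◁ f)).symm
  | n + 1, Y, Y', f =>
    pra_sg_step V X (pw (tensorLeft V) n Y) (pw (tensorLeft V) n Y')
      (pw (tensorLeft V) n (X ⊗ Y)) (pw (tensorLeft V) n (X ⊗ Y'))
      (pwMap (tensorLeft V) n (X ◁ f)) (sg V X n Y') (sg V X n Y)
      (pwMap (tensorLeft V) n f) (sg_nat V X n f)

omit [Abelian C] [MonoidalPreadditive C] in
theorem sg_iso_ (V X : C) : ∀ (n : ℕ) (Y : C), IsIso (sg V X n Y)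
  | 0, Y => IsIso.id (X ⊗ Y)
  | n + 1, Y => by
    have := sg_iso_ V X n Y
    change IsIso ((V ◁ sg V X n Y) ≫ swp V X (pw (tensorLeft V) n Y))
    infer_instance

instance sg_iso (V X : C) (n : ℕ) (Y : C) : IsIso (sg V X n Y) := sg_iso_ V X n Y

omit [MonoidalPreadditive C] in
theorem nn_nat {V : C} (L : Leib V) (X : C) {Y Y' : C} (f : Y ⟶ Y') :
    (V ◁ (X ◁ f)) ≫ nn L X Y' = nn L X Y ≫ (X ◁ f) := by
  unfold nn
  rw [associator_inv_naturality_right_assoc, whisker_exchange, Category.assoc]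

omit [MonoidalPreadditive C] in
theorem pra_tc_step1 {V : C} (L : Leib V) (X Q Q' P P' : C) (a : Q ⟶ Q') (t' : Q' ⟶ X ⊗ P')
    (t : Q ⟶ X ⊗ P) (b : P ⟶ P') (h : a ≫ t' = t ≫ (X ◁ b)) :
    (V ◁ a) ≫ ((V ◁ t') ≫ nn L X P') = ((V ◁ t) ≫ nn L X P) ≫ (X ◁ b) := by
  rw [← MonoidalCategory.whiskerLeft_comp_assoc, h, MonoidalCategory.whiskerLeft_comp,
    Category.assoc, nn_nat, Category.assoc]

omit [MonoidalPreadditive C] in
theorem pra_tc_step2 {V : C} (L : Leib V) (X Q Q' P P' : C) (a : Q ⟶ Q')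
    (t' : Q' ⟶ X ⊗ (V ⊗ P')) (t : Q ⟶ X ⊗ (V ⊗ P)) (u' : Q' ⟶ X ⊗ P') (u : Q ⟶ X ⊗ P)
    (b : P ⟶ P') (h : a ≫ t' = t ≫ (X ◁ (V ◁ b))) (h2 : a ≫ u' = u ≫ (X ◁ b)) :
    (V ◁ a) ≫ ((V ◁ t') ≫ nn L X (V ⊗ P') + (V ◁ u') ≫ swp V X P') =
      ((V ◁ t) ≫ nn L X (V ⊗ P) + (V ◁ u) ≫ swp V X P) ≫ (X ◁ (V ◁ b)) := by
  rw [Preadditive.comp_add, Preadditive.add_comp, pra_tc_step1 L X Q Q' _ _ a t' t (V ◁ b) h,
    pra_sg_step V X P P' Q Q' a u' u b h2]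

omit [MonoidalPreadditive C] in
theorem tc_nat {V : C} (L : Leib V) (X : C) : ∀ (i j : ℕ) {Y Y' : C} (f : Y ⟶ Y'),
    pwMap (tensorLeft V) i (X ◁ f) ≫ tc L X i j Y' =
      tc L X i j Y ≫ (X ◁ pwMap (tensorLeft V) j f)
  | 0, 0, Y, Y', f => (Category.comp_id (X ◁ f)).trans (Category.id_comp (X ◁ f)).symm
  | 0, j + 1, Y, Y', f => by
    have h1 : tc L X 0 (j + 1) Y' = 0 := rfl
    have h2 : tc L X 0 (j + 1) Y = 0 := rfl
    rw [h1, h2, comp_zero, zero_comp]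
  | i + 1, 0, Y, Y', f =>
    pra_tc_step1 L X (pw (tensorLeft V) i (X ⊗ Y)) (pw (tensorLeft V) i (X ⊗ Y')) Y Y'
      (pwMap (tensorLeft V) i (X ◁ f)) (tc L X i 0 Y') (tc L X i 0 Y) f (tc_nat L X i 0 f)
  | i + 1, j + 1, Y, Y', f =>
    pra_tc_step2 L X (pw (tensorLeft V) i (X ⊗ Y)) (pw (tensorLeft V) i (X ⊗ Y'))
      (pw (tensorLeft V) j Y) (pw (tensorLeft V) j Y')
      (pwMap (tensorLeft V) i (X ◁ f)) (tc L X i (j + 1) Y') (tc L X i (j + 1) Y)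
      (tc L X i j Y') (tc L X i j Y) (pwMap (tensorLeft V) j f) (tc_nat L X i (j + 1) f)
      (tc_nat L X i j f)

/-! ### PRb -/

theorem tc_gt {V : C} (L : Leib V) (X : C) (i j : ℕ) (h : i < j) (Y : C) :
    tc L X i j Y = 0 := prd_tc_gt L X i j h Y

theorem tc_self {V : C} (L : Leib V) (X : C) (i : ℕ) (Y : C) :
    tc L X i i Y = sg V X i Y := prd_tc_self L X i Y

omit [MonoidalPreadditive C] in
/-- `d (X ⊗ Y) = nn + swp ≫ X ◁ d`. -/
theorem d_tensor {V : C} (L : Leib V) (X Y : C) :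
    L.d (X ⊗ Y) = nn L X Y + swp V X Y ≫ (X ◁ L.d Y) := by
  rw [L.leib]
  unfold nn swp
  simp

omit [MonoidalPreadditive C] in
theorem prb_step {V : C} (L : Leib V) (X Y Q P : C) (t : Q ⟶ X ⊗ P) (r : P ⟶ Y) :
    (V ◁ (t ≫ (X ◁ r))) ≫ L.d (X ⊗ Y) =
      ((V ◁ t) ≫ nn L X P) ≫ (X ◁ r) + ((V ◁ t) ≫ swp V X P) ≫ (X ◁ ((V ◁ r) ≫ L.d Y)) := by
  rw [d_tensor, Preadditive.comp_add]
  congr 1
  · rw [MonoidalCategory.whiskerLeft_comp, Category.assoc, nn_nat, Category.assoc]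
  · rw [MonoidalCategory.whiskerLeft_comp, Category.assoc, ← Category.assoc (V ◁ (X ◁ r)),
      swp_nat, Category.assoc, Category.assoc, MonoidalCategory.whiskerLeft_comp]

omit [Category.{v} C] [Abelian C] [MonoidalCategory C] [MonoidalPreadditive C]
  [BraidedCategory C] in
theorem prb_sum {G : Type*} [AddCommGroup G] (A B T : ℕ → G) (M : ℕ) (h0 : T 0 = A 0)
    (hs : ∀ j, T (j + 1) = A (j + 1) + B j) (hM : A M = 0) :
    ∑ j ∈ Finset.range M, (A j + B j) = ∑ j ∈ Finset.range (M + 1), T j := by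
  rw [Finset.sum_range_succ', Finset.sum_congr rfl fun j _ => hs j, Finset.sum_add_distrib,
    Finset.sum_add_distrib, add_right_comm, h0, ← Finset.sum_range_succ', Finset.sum_range_succ,
    hM, add_zero]

theorem tt_tensor {V : C} (L : Leib V) (X : C) (i M : ℕ) (h : i < M) (Y : C) :
    tt (F := tensorLeft V) L.d i (X ⊗ Y) =
      ∑ j ∈ Finset.range M, tc L X i j Y ≫ (X ◁ tt (F := tensorLeft V) L.d j Y) := by
  induction i generalizing M with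
  | zero =>
    rw [Finset.sum_eq_single_of_mem 0 (Finset.mem_range.mpr h)]
    · have h1 : X ◁ 𝟙 Y = 𝟙 (X ⊗ Y) := MonoidalCategory.whiskerLeft_id _ _
      exact (((congrArg (fun t => 𝟙 (X ⊗ Y) ≫ t) h1).trans (Category.comp_id _)).symm)
    · intro j hj hj0
      rw [tc_gt L X 0 j (Nat.pos_of_ne_zero hj0) Y, zero_comp]
  | succ i ih =>
    obtain ⟨M, rfl⟩ : ∃ M', M = M' + 1 := ⟨M - 1, by omega⟩
    have ih' := ih M (by omega)
    have e1 : tt (F := tensorLeft V) L.d (i + 1) (X ⊗ Y) =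
        (V ◁ tt (F := tensorLeft V) L.d i (X ⊗ Y)) ≫ L.d (X ⊗ Y) := rfl
    rw [e1, ih', CategoryTheory.whiskerLeft_sum]
    have e2 : (∑ j ∈ Finset.range M, V ◁ (tc L X i j Y ≫ (X ◁ tt (F := tensorLeft V) L.d j Y))) ≫
        L.d (X ⊗ Y) = ∑ j ∈ Finset.range M,
          (V ◁ (tc L X i j Y ≫ (X ◁ tt (F := tensorLeft V) L.d j Y))) ≫ L.d (X ⊗ Y) :=
      Preadditive.sum_comp _ _ _
    have e3 : ∀ j, (V ◁ (tc L X i j Y ≫ (X ◁ tt (F := tensorLeft V) L.d j Y))) ≫ L.d (X ⊗ Y) =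
        ((V ◁ tc L X i j Y) ≫ nn L X (pw (tensorLeft V) j Y)) ≫
            (X ◁ tt (F := tensorLeft V) L.d j Y) +
          ((V ◁ tc L X i j Y) ≫ swp V X (pw (tensorLeft V) j Y)) ≫
            (X ◁ ((V ◁ tt (F := tensorLeft V) L.d j Y) ≫ L.d Y)) := fun j =>
      prb_step L X Y (pw (tensorLeft V) i (X ⊗ Y)) (pw (tensorLeft V) j Y) (tc L X i j Y)
        (tt (F := tensorLeft V) L.d j Y)
    refine e2.trans ((Finset.sum_congr rfl fun j _ => e3 j).trans ?_)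
    refine prb_sum
      (fun j => ((V ◁ tc L X i j Y) ≫ nn L X (pw (tensorLeft V) j Y)) ≫
            (X ◁ tt (F := tensorLeft V) L.d j Y))
      (fun j => ((V ◁ tc L X i j Y) ≫ swp V X (pw (tensorLeft V) j Y)) ≫
            (X ◁ ((V ◁ tt (F := tensorLeft V) L.d j Y) ≫ L.d Y)))
      (fun j => tc L X (i + 1) j Y ≫ (X ◁ tt (F := tensorLeft V) L.d j Y)) M rfl
      (fun j => Preadditive.add_comp _ _ _ _ _ _) ?_
    have e6 : tc L X i M Y = 0 := tc_gt L X i M (by omega) Y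
    have e7 : ((V ◁ tc L X i M Y) ≫ nn L X (pw (tensorLeft V) M Y)) ≫
        (X ◁ tt (F := tensorLeft V) L.d M Y) = 0 := by
      rw [e6, MonoidalPreadditive.whiskerLeft_zero, zero_comp, zero_comp]
    exact e7

end Co

end Pool.Agent.MUP
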