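import Pool.Agent.MUP.PRIM0
import Pool.Agent.MUP.PW

/-! Part PRd of row PRIM (helper94). -/

open CategoryTheory MonoidalCategory Limits Abelian

universe w v u

namespace Pool.Agent.MUP

open Pool.Agent.MUG

section Braid

variable {C : Type u} [Category.{v} C] [MonoidalCategory C] [BraidedCategory C]

theorem prd_hex_left (V P X Y : C) :
    (α_ V P (X ⊗ Y)).hom ≫ (V ◁ swp P X Y) ≫ swp V X (P ⊗ Y) =
      swp (V ⊗ P) X Y ≫ (X ◁ (α_ V P Y).hom) := by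
  have h := BraidedCategory.hexagon_reverse V P X
  have h2 : (β_ (V ⊗ P) X).hom = (α_ V P X).hom ≫ (V ◁ (β_ P X).hom) ≫ (α_ V X P).inv ≫
      ((β_ V X).hom ▷ P) ≫ (α_ X V P).hom := by
    rw [← cancel_epi (α_ V P X).inv, ← cancel_mono (α_ X V P).inv, Category.assoc, h]
    simp
  unfold swp
  rw [h2]
  monoidal

theorem prd_yb (V P X Y : C) :
    swp V P (X ⊗ Y) ≫ (P ◁ swp V X Y) ≫ swp P X (V ⊗ Y) =
      (V ◁ swp P X Y) ≫ swp V X (P ⊗ Y) ≫ (X ◁ swp V P Y) := by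
  have h := BraidedCategory.yang_baxter V P X
  have h2 : 𝟙 ((V ⊗ P) ⊗ X) ⊗≫ (β_ V P).hom ▷ X ⊗≫ P ◁ (β_ V X).hom ⊗≫ (β_ P X).hom ▷ V ⊗≫
      𝟙 (X ⊗ (P ⊗ V)) = 𝟙 ((V ⊗ P) ⊗ X) ⊗≫ V ◁ (β_ P X).hom ⊗≫ (β_ V X).hom ▷ P ⊗≫
        X ◁ (β_ V P).hom ⊗≫ 𝟙 (X ⊗ (P ⊗ V)) := by
    have e1 : 𝟙 ((V ⊗ P) ⊗ X) ⊗≫ (β_ V P).hom ▷ X ⊗≫ P ◁ (β_ V X).hom ⊗≫
        (β_ P X).hom ▷ V ⊗≫ 𝟙 (X ⊗ (P ⊗ V)) =
        (α_ V P X).hom ≫ ((α_ V P X).inv ≫ (β_ V P).hom ▷ X ≫ (α_ P V X).hom ≫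
          P ◁ (β_ V X).hom ≫ (α_ P X V).inv ≫ (β_ P X).hom ▷ V ≫ (α_ X P V).hom) := by
      monoidal
    rw [e1, h]
    monoidal
  calc swp V P (X ⊗ Y) ≫ (P ◁ swp V X Y) ≫ swp P X (V ⊗ Y)
      = 𝟙 (V ⊗ (P ⊗ (X ⊗ Y))) ⊗≫ (𝟙 ((V ⊗ P) ⊗ X) ⊗≫ (β_ V P).hom ▷ X ⊗≫ P ◁ (β_ V X).hom ⊗≫
        (β_ P X).hom ▷ V ⊗≫ 𝟙 (X ⊗ (P ⊗ V))) ▷ Y ⊗≫ 𝟙 (X ⊗ (P ⊗ (V ⊗ Y))) := by
        unfold swp
        monoidal
    _ = _ := by
        rw [h2]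
        unfold swp
        monoidal

end Braid

section Co

variable {C : Type u} [Category.{v} C] [Abelian C] [MonoidalCategory C] [MonoidalPreadditive C]
  [BraidedCategory C]

omit [MonoidalPreadditive C] in
theorem prd_nn {V : C} (L : Leib V) (U X P : C) :
    swp U V (X ⊗ P) ≫ (V ◁ swp U X P) ≫ nn L X (U ⊗ P) = (U ◁ nn L X P) ≫ swp U X P := by
  have h := BraidedCategory.hexagon_forward U V X
  have hn : (U ◁ L.d X) ≫ (β_ U X).hom = (β_ U (V ⊗ X)).hom ≫ (L.d X ▷ U) :=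
    BraidedCategory.braiding_naturality_right U (L.d X)
  have h2 : ((β_ U V).hom ▷ X) ≫ (α_ V U X).hom ≫ (V ◁ (β_ U X).hom) ≫ (α_ V X U).inv ≫
      (L.d X ▷ U) = (α_ U V X).hom ≫ (U ◁ L.d X) ≫ (β_ U X).hom := by
    rw [hn, ← Category.assoc (V ◁ (β_ U X).hom), ← Category.assoc (α_ V U X).hom,
      ← Category.assoc ((β_ U V).hom ▷ X)]
    simp only [Category.assoc]
    have h3 : (β_ U (V ⊗ X)).hom = (α_ U V X).inv ≫ ((β_ U V).hom ▷ X) ≫ (α_ V U X).hom ≫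
        (V ◁ (β_ U X).hom) ≫ (α_ V X U).inv := by
      rw [← cancel_epi (α_ U V X).hom, ← cancel_mono (α_ V X U).hom, Category.assoc, h]
      simp
    rw [h3]
    simp
  calc swp U V (X ⊗ P) ≫ (V ◁ swp U X P) ≫ nn L X (U ⊗ P)
      = 𝟙 (U ⊗ (V ⊗ (X ⊗ P))) ⊗≫ (((β_ U V).hom ▷ X) ≫ (α_ V U X).hom ≫ (V ◁ (β_ U X).hom) ≫
          (α_ V X U).inv ≫ (L.d X ▷ U)) ▷ P ⊗≫ 𝟙 (X ⊗ (U ⊗ P)) := by
        unfold swp nn
        monoidal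
    _ = _ := by
        rw [h2]
        unfold swp nn
        monoidal

/-! ### `ss_sg` -/

theorem prd_aa_step (V X P Q : C) (q : ℤ) (g : Q ⟶ X ⊗ P) (a : V ⊗ Q ⟶ V ⊗ Q)
    (a' : V ⊗ P ⟶ V ⊗ P)
    (h : a ≫ (V ◁ g) ≫ swp V X P = ((V ◁ g) ≫ swp V X P) ≫ (X ◁ a')) :
    (𝟙 (V ⊗ (V ⊗ Q)) + q • (swp V V Q ≫ (V ◁ a))) ≫
        ((V ◁ ((V ◁ g) ≫ swp V X P)) ≫ swp V X (V ⊗ P)) =
      ((V ◁ ((V ◁ g) ≫ swp V X P)) ≫ swp V X (V ⊗ P)) ≫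
        (X ◁ (𝟙 (V ⊗ (V ⊗ P)) + q • (swp V V P ≫ (V ◁ a')))) := by
  rw [Preadditive.add_comp, MonoidalPreadditive.whiskerLeft_add, Preadditive.comp_add,
    MonoidalCategory.whiskerLeft_id, Category.id_comp, Category.comp_id]
  congr 1
  have hz : X ◁ (q • (swp V V P ≫ (V ◁ a'))) = q • (X ◁ (swp V V P ≫ (V ◁ a'))) :=
    map_zsmul ((tensorLeft X).mapAddHom) _ _
  rw [hz, Preadditive.zsmul_comp, Preadditive.comp_zsmul]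
  congr 1
  calc (swp V V Q ≫ (V ◁ a)) ≫ (V ◁ ((V ◁ g) ≫ swp V X P)) ≫ swp V X (V ⊗ P)
      = swp V V Q ≫ (V ◁ (a ≫ (V ◁ g) ≫ swp V X P)) ≫ swp V X (V ⊗ P) := by
        simp only [MonoidalCategory.whiskerLeft_comp, Category.assoc]
    _ = (swp V V Q ≫ (V ◁ (V ◁ g))) ≫ (V ◁ swp V X P) ≫
          ((V ◁ (X ◁ a')) ≫ swp V X (V ⊗ P)) := by
        rw [h]
        simp only [MonoidalCategory.whiskerLeft_comp, Category.assoc]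
    _ = (V ◁ (V ◁ g)) ≫ (swp V V (X ⊗ P) ≫ (V ◁ swp V X P) ≫ swp V X (V ⊗ P)) ≫
          (X ◁ (V ◁ a')) := by
        rw [← swp_nat, swp_nat V X a']
        simp only [Category.assoc]
    _ = _ := by
        rw [prd_yb]
        simp only [MonoidalCategory.whiskerLeft_comp, Category.assoc]

theorem prd_aa_sg (V X : C) (q : ℤ) : ∀ (n : ℕ) (Y : C),
    aa (F := tensorLeft V) (swp V V) q n (X ⊗ Y) ≫ sg V X (n + 1) Y =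
      sg V X (n + 1) Y ≫ (X ◁ aa (F := tensorLeft V) (swp V V) q n Y)
  | 0, Y => by
    have h : X ◁ 𝟙 (V ⊗ Y) = 𝟙 (X ⊗ (V ⊗ Y)) := MonoidalCategory.whiskerLeft_id _ _
    exact (Category.id_comp (sg V X 1 Y)).trans
      ((congrArg (fun t => sg V X 1 Y ≫ t) h).trans (Category.comp_id _)).symm
  | n + 1, Y =>
    prd_aa_step V X (pw (tensorLeft V) n Y) (pw (tensorLeft V) n (X ⊗ Y)) q (sg V X n Y)
      (aa (F := tensorLeft V) (swp V V) q n (X ⊗ Y)) (aa (F := tensorLeft V) (swp V V) q n Y)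
      (prd_aa_sg V X q n Y)

omit [Abelian C] [MonoidalPreadditive C] in
theorem prd_ss_step (V X P Q : C) (g : Q ⟶ X ⊗ P) (s : Q ⟶ Q) (s' : P ⟶ P)
    (a : V ⊗ Q ⟶ V ⊗ Q) (a' : V ⊗ P ⟶ V ⊗ P)
    (h : a ≫ (V ◁ g) ≫ swp V X P = ((V ◁ g) ≫ swp V X P) ≫ (X ◁ a'))
    (hs : s ≫ g = g ≫ (X ◁ s')) :
    ((V ◁ s) ≫ a) ≫ ((V ◁ g) ≫ swp V X P) =
      ((V ◁ g) ≫ swp V X P) ≫ (X ◁ ((V ◁ s') ≫ a')) := by
  calc ((V ◁ s) ≫ a) ≫ ((V ◁ g) ≫ swp V X P)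
      = (V ◁ (s ≫ g)) ≫ swp V X P ≫ (X ◁ a') := by
        rw [Category.assoc, h]
        simp only [MonoidalCategory.whiskerLeft_comp, Category.assoc]
    _ = (V ◁ g) ≫ ((V ◁ (X ◁ s')) ≫ swp V X P) ≫ (X ◁ a') := by
        rw [hs]
        simp only [MonoidalCategory.whiskerLeft_comp, Category.assoc]
    _ = _ := by
        rw [swp_nat V X s']
        simp only [MonoidalCategory.whiskerLeft_comp, Category.assoc]

theorem ss_sg (V X : C) (q : ℤ) : ∀ (n : ℕ) (Y : C),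
    sv V q n (X ⊗ Y) ≫ sg V X n Y = sg V X n Y ≫ (X ◁ sv V q n Y)
  | 0, Y => by
    have h : X ◁ 𝟙 Y = 𝟙 (X ⊗ Y) := MonoidalCategory.whiskerLeft_id _ _
    exact (Category.id_comp (sg V X 0 Y)).trans
      ((congrArg (fun t => sg V X 0 Y ≫ t) h).trans (Category.comp_id _)).symm
  | n + 1, Y =>
    prd_ss_step V X (pw (tensorLeft V) n Y) (pw (tensorLeft V) n (X ⊗ Y)) (sg V X n Y)
      (sv V q n (X ⊗ Y)) (sv V q n Y)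
      (aa (F := tensorLeft V) (swp V V) q n (X ⊗ Y)) (aa (F := tensorLeft V) (swp V V) q n Y)
      (prd_aa_sg V X q n Y) (ss_sg V X q n Y)

/-! ### `tc_sub` -/

omit [BraidedCategory C] in
theorem prd_gt_step (V Q A B R : C) (a : Q ⟶ A) (b : Q ⟶ B) (n : V ⊗ A ⟶ R) (s : V ⊗ B ⟶ R)
    (ha : a = 0) (hb : b = 0) : (V ◁ a) ≫ n + (V ◁ b) ≫ s = 0 := by
  rw [ha, hb, MonoidalPreadditive.whiskerLeft_zero, MonoidalPreadditive.whiskerLeft_zero,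
    zero_comp, zero_comp, add_zero]

omit [BraidedCategory C] in
theorem prd_self_step (V Q A B R : C) (a : Q ⟶ A) (b b' : Q ⟶ B) (n : V ⊗ A ⟶ R)
    (s : V ⊗ B ⟶ R) (ha : a = 0) (hb : b = b') : (V ◁ a) ≫ n + (V ◁ b) ≫ s = (V ◁ b') ≫ s := by
  rw [ha, hb, MonoidalPreadditive.whiskerLeft_zero, zero_comp, zero_add]

theorem prd_tc_gt {V : C} (L : Leib V) (X : C) : ∀ (i j : ℕ) (_ : i < j) (Y : C),
    tc L X i j Y = 0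
  | 0, j + 1, _, Y => rfl
  | i + 1, j + 1, h, Y =>
    prd_gt_step V (pw (tensorLeft V) i (X ⊗ Y)) (X ⊗ pw (tensorLeft V) (j + 1) Y)
      (X ⊗ pw (tensorLeft V) j Y) (X ⊗ pw (tensorLeft V) (j + 1) Y) (tc L X i (j + 1) Y)
      (tc L X i j Y) (nn L X (pw (tensorLeft V) (j + 1) Y)) (swp V X (pw (tensorLeft V) j Y))
      (prd_tc_gt L X i (j + 1) (by omega) Y) (prd_tc_gt L X i j (by omega) Y)

theorem prd_tc_self {V : C} (L : Leib V) (X : C) : ∀ (i : ℕ) (Y : C),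
    tc L X i i Y = sg V X i Y
  | 0, Y => rfl
  | i + 1, Y =>
    prd_self_step V (pw (tensorLeft V) i (X ⊗ Y)) (X ⊗ pw (tensorLeft V) (i + 1) Y)
      (X ⊗ pw (tensorLeft V) i Y) (X ⊗ pw (tensorLeft V) (i + 1) Y) (tc L X i (i + 1) Y)
      (tc L X i i Y) (sg V X i Y) (nn L X (pw (tensorLeft V) (i + 1) Y))
      (swp V X (pw (tensorLeft V) i Y))
      (prd_tc_gt L X i (i + 1) (by omega) Y) (prd_tc_self L X i Y)

omit [MonoidalPreadditive C] in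
theorem prd_tc_step {V : C} (L : Leib V) (X P Q : C) (g : Q ⟶ X ⊗ P) (b : V ⊗ Q ⟶ V ⊗ Q)
    (t : V ⊗ Q ⟶ X ⊗ P) (ht : t = b ≫ (V ◁ g) ≫ nn L X P) :
    (V ◁ ((V ◁ g) ≫ swp V X P)) ≫ nn L X (V ⊗ P) + (V ◁ t) ≫ swp V X P =
      (𝟙 (V ⊗ (V ⊗ Q)) + (1 : ℤ) • ((V ◁ b) ≫ swp V V Q)) ≫
        (V ◁ ((V ◁ g) ≫ swp V X P)) ≫ nn L X (V ⊗ P) := by
  rw [Preadditive.add_comp, Category.id_comp, one_smul]
  congr 1
  symm
  calc ((V ◁ b) ≫ swp V V Q) ≫ (V ◁ ((V ◁ g) ≫ swp V X P)) ≫ nn L X (V ⊗ P)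
      = (V ◁ b) ≫ (swp V V Q ≫ (V ◁ (V ◁ g))) ≫ (V ◁ swp V X P) ≫ nn L X (V ⊗ P) := by
        simp only [MonoidalCategory.whiskerLeft_comp, Category.assoc]
    _ = (V ◁ b) ≫ (V ◁ (V ◁ g)) ≫ (swp V V (X ⊗ P) ≫ (V ◁ swp V X P) ≫ nn L X (V ⊗ P)) := by
        rw [← swp_nat]
        simp only [Category.assoc]
    _ = _ := by
        rw [prd_nn, ht]
        simp only [MonoidalCategory.whiskerLeft_comp, Category.assoc]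

theorem tc_sub {V : C} (L : Leib V) (X : C) : ∀ (m : ℕ) (Y : C),
    tc L X (m + 1) m Y = bb (F := tensorLeft V) (swp V V) 1 m (X ⊗ Y) ≫
      (V ◁ sg V X m Y) ≫ nn L X (pw (tensorLeft V) m Y)
  | 0, Y => (Category.id_comp _).symm
  | m + 1, Y => by
    have h := prd_tc_step L X (pw (tensorLeft V) m Y) (pw (tensorLeft V) m (X ⊗ Y)) (sg V X m Y)
      (bb (F := tensorLeft V) (swp V V) 1 m (X ⊗ Y)) (tc L X (m + 1) m Y) (tc_sub L X m Y)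
    have h1 := prd_tc_self L X (m + 1) Y
    refine Eq.trans ?_ h
    change ((V ◁ tc L X (m + 1) (m + 1) Y) ≫ nn L X (pw (tensorLeft V) (m + 1) Y) :
        pw (tensorLeft V) (m + 2) (X ⊗ Y) ⟶ X ⊗ pw (tensorLeft V) (m + 1) Y) +
      ((V ◁ tc L X (m + 1) m Y) ≫ swp V X (pw (tensorLeft V) m Y) :
        pw (tensorLeft V) (m + 2) (X ⊗ Y) ⟶ X ⊗ pw (tensorLeft V) (m + 1) Y) = _
    rw [h1]
    rfl

/-! ### `pwT_sg` -/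

omit [Abelian C] [MonoidalPreadditive C] in
theorem prd_pwT_step (V X Y P Q R : C) (g : Q ⟶ X ⊗ R) (f : P ⊗ (X ⊗ Y) ⟶ Q)
    (f' : P ⊗ Y ⟶ R) (h : f ≫ g = swp P X Y ≫ (X ◁ f')) :
    ((α_ V P (X ⊗ Y)).hom ≫ (V ◁ f)) ≫ ((V ◁ g) ≫ swp V X R) =
      swp (V ⊗ P) X Y ≫ (X ◁ ((α_ V P Y).hom ≫ (V ◁ f'))) := by
  calc ((α_ V P (X ⊗ Y)).hom ≫ (V ◁ f)) ≫ ((V ◁ g) ≫ swp V X R)
      = (α_ V P (X ⊗ Y)).hom ≫ (V ◁ (f ≫ g)) ≫ swp V X R := by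
        simp only [MonoidalCategory.whiskerLeft_comp, Category.assoc]
    _ = (α_ V P (X ⊗ Y)).hom ≫ (V ◁ swp P X Y) ≫ ((V ◁ (X ◁ f')) ≫ swp V X R) := by
        rw [h]
        simp only [MonoidalCategory.whiskerLeft_comp, Category.assoc]
    _ = ((α_ V P (X ⊗ Y)).hom ≫ (V ◁ swp P X Y) ≫ swp V X (P ⊗ Y)) ≫ (X ◁ (V ◁ f')) := by
        rw [swp_nat V X f']
        simp only [Category.assoc]
    _ = _ := by
        rw [prd_hex_left]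
        simp only [MonoidalCategory.whiskerLeft_comp, Category.assoc]

omit [Abelian C] [MonoidalPreadditive C] in
theorem pwT_sg (V X : C) : ∀ (n : ℕ) (Y : C),
    pwT V n (X ⊗ Y) ≫ sg V X n Y =
      swp (pw (tensorLeft V) n (𝟙_ C)) X Y ≫ (X ◁ pwT V n Y)
  | 0, Y => (Category.comp_id (λ_ (X ⊗ Y)).hom).trans (swp_unit' X Y).symm
  | n + 1, Y =>
    prd_pwT_step V X Y (pw (tensorLeft V) n (𝟙_ C)) (pw (tensorLeft V) n (X ⊗ Y))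
      (pw (tensorLeft V) n Y) (sg V X n Y) (pwT V n (X ⊗ Y)) (pwT V n Y) (pwT_sg V X n Y)

end Co

end Pool.Agent.MUP
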