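import Mathlib

/-!
# Weights (helper64): vectors killed by a product of operators `Θ - i`, `i ≥ a`
-/

namespace Pool.Agent.MUP

section Pos

variable {k : Type*} [Field k] {V V' V'' : Type*} [AddCommGroup V] [Module k V]
  [AddCommGroup V'] [Module k V'] [AddCommGroup V''] [Module k V'']

/-- `x` is killed by `(Θ - i₁) ⋯ (Θ - i_m)` with natural numbers `i_j ≥ a`. -/
inductive Pos (a : ℕ) (Θ : V →ₗ[k] V) : V → Prop
  | zero : Pos a Θ 0
  | step (i : ℕ) (hi : a ≤ i) (x : V) (h : Pos a Θ (Θ x - (i : k) • x)) : Pos a Θ x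

namespace Pos

variable {a b : ℕ} {Θ : V →ₗ[k] V} {Θ' : V' →ₗ[k] V'} {Θ'' : V'' →ₗ[k] V''}

theorem map (φ : V →ₗ[k] V') (hφ : ∀ x, φ (Θ x) = Θ' (φ x)) {x : V} (h : Pos a Θ x) :
    Pos a Θ' (φ x) := by
  induction h with
  | zero => rw [map_zero]; exact Pos.zero
  | step i hi x _ ih =>
    refine Pos.step i hi _ ?_
    rw [map_sub, hφ, map_smul] at ih
    exact ih

theorem op (c : k) {x : V} (h : Pos a Θ x) : Pos a Θ (Θ x - c • x) := by
  have := h.map (Θ' := Θ) (Θ - c • LinearMap.id) (fun x => by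
    simp [map_sub, map_smul])
  simpa using this

theorem smul (c : k) {x : V} (h : Pos a Θ x) : Pos a Θ (c • x) := by
  have := h.map (Θ' := Θ) (c • LinearMap.id) (fun x => by simp)
  simpa using this

theorem add {x y : V} (hx : Pos a Θ x) (hy : Pos a Θ y) : Pos a Θ (x + y) := by
  induction hx generalizing y with
  | zero => rw [zero_add]; exact hy
  | step i hi x _ ih =>
    refine Pos.step i hi _ ?_
    have h := ih (hy.op (i : k))
    have e : Θ (x + y) - (i : k) • (x + y) =
        Θ x - (i : k) • x + (Θ y - (i : k) • y) := by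
      rw [map_add, smul_add]; abel
    rw [e]
    exact h

theorem neg {x : V} (h : Pos a Θ x) : Pos a Θ (-x) := by
  have := h.smul (-1 : k)
  simpa using this

theorem sub {x y : V} (hx : Pos a Θ x) (hy : Pos a Θ y) : Pos a Θ (x - y) := by
  rw [sub_eq_add_neg]
  exact hx.add hy.neg

theorem mono {a' : ℕ} (h' : a' ≤ a) {x : V} (h : Pos a Θ x) : Pos a' Θ x := by
  induction h with
  | zero => exact Pos.zero
  | step i hi x _ ih => exact Pos.step i (h'.trans hi) x ih

theorem eq_zero [CharZero k] {x : V} (h : Pos 1 Θ x) (h0 : Θ x = 0) : x = 0 := by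
  induction h with
  | zero => rfl
  | step i hi x _ ih =>
    have hi' : (i : k) ≠ 0 := by
      have : i ≠ 0 := by omega
      exact_mod_cast this
    have h1 := ih (by rw [h0, zero_sub, map_neg, map_smul, h0, smul_zero, neg_zero])
    rw [h0, zero_sub, neg_eq_zero] at h1
    exact (smul_eq_zero.1 h1).resolve_left hi'

theorem shift {Ξ : V →ₗ[k] V} (hΞ : ∀ y, Ξ y = Θ y + y) {x : V} (h : Pos a Θ x) :
    Pos (a + 1) Ξ x := by
  induction h with
  | zero => exact Pos.zero
  | step i hi x _ ih =>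
    refine Pos.step (i + 1) (by omega) x ?_
    have e : Ξ x - ((i + 1 : ℕ) : k) • x = Θ x - (i : k) • x := by
      rw [hΞ, Nat.cast_add, Nat.cast_one, add_smul, one_smul]; abel
    rw [e]
    exact ih

/-- Products. -/
theorem mul (B : V →ₗ[k] V' →ₗ[k] V'')
    (hB : ∀ x y, Θ'' (B x y) = B (Θ x) y + B x (Θ' y)) {x : V} {y : V'} (hx : Pos a Θ x)
    (hy : Pos b Θ' y) : Pos (a + b) Θ'' (B x y) := by
  induction hx generalizing y with
  | zero => rw [map_zero, LinearMap.zero_apply]; exact Pos.zero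
  | step i hi x _ ihx =>
    induction hy with
    | zero => rw [map_zero]; exact Pos.zero
    | step j hj y hy' ihy =>
      refine Pos.step (i + j) (by omega) _ ?_
      have e : Θ'' (B x y) - ((i + j : ℕ) : k) • B x y =
          B (Θ x - (i : k) • x) y + B x (Θ' y - (j : k) • y) := by
        rw [hB, map_sub, map_sub, LinearMap.sub_apply, map_smul, map_smul,
          LinearMap.smul_apply, Nat.cast_add, add_smul]
        abel
      rw [e]
      exact (ihx (Pos.step j hj y hy')).add ihy

/-- A vector whose image is positive, all vectors of the kernel being positive. -/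
theorem of_map (φ : V →ₗ[k] V') (hφ : ∀ x, φ (Θ x) = Θ' (φ x))
    (hker : ∀ x, φ x = 0 → Pos a Θ x) {x : V} (h : Pos a Θ' (φ x)) : Pos a Θ x := by
  generalize hw : φ x = w at h
  induction h generalizing x with
  | zero => exact hker x hw
  | step i hi w _ ih =>
    refine Pos.step i hi x (ih ?_)
    rw [map_sub, map_smul, hφ, hw]

/-- A vector whose image is positive, all vectors of the kernel being a sum of a vector of `V₀`
and a positive vector, where `Θ = 0` on `V₀`. -/
theorem decomp [CharZero k] (V₀ : Submodule k V) (h0 : ∀ v ∈ V₀, Θ v = 0) (φ : V →ₗ[k] V')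
    (hφ : ∀ x, φ (Θ x) = Θ' (φ x))
    (hker : ∀ x, φ x = 0 → ∃ v ∈ V₀, ∃ z, Pos 1 Θ z ∧ x = v + z) {x : V}
    (h : Pos 1 Θ' (φ x)) : ∃ v ∈ V₀, ∃ z, Pos 1 Θ z ∧ x = v + z := by
  generalize hw : φ x = w at h
  induction h generalizing x with
  | zero => exact hker x hw
  | step i hi w _ ih =>
    have hi' : (i : k) ≠ 0 := by
      have : i ≠ 0 := by omega
      exact_mod_cast this
    obtain ⟨v, hv, z, hz, e⟩ := ih (x := Θ x - (i : k) • x) (by
      rw [map_sub, map_smul, hφ, hw])
    refine ⟨-((i : k)⁻¹ • v), V₀.neg_mem (V₀.smul_mem _ hv), x + (i : k)⁻¹ • v, ?_, by abel⟩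
    refine Pos.step i hi _ ?_
    have e2 : Θ (x + (i : k)⁻¹ • v) - (i : k) • (x + (i : k)⁻¹ • v) = z := by
      rw [map_add, map_smul, h0 v hv, smul_zero, add_zero, smul_add, smul_smul,
        mul_inv_cancel₀ hi', one_smul]
      have : Θ x = v + z + (i : k) • x := by rw [← e]; abel
      rw [this]; abel
    rw [e2]
    exact hz

end Pos

end Pos

end Pool.Agent.MUP
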