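import Pool.Agent.MUP.Defs
import Pool.Agent.MUG.Q4a
import Pool.Agent.MUG.Q4b

/-!
# Row VS of project MUP: choice of the Leibniz family (helper62)
-/

open CategoryTheory MonoidalCategory Limits Abelian

universe w v u

namespace Pool.Agent.MUP

open Pool.Agent.MUG

namespace VS

section Gen

variable {C : Type u} [Category.{v} C] [Abelian C] [MonoidalCategory C] [BraidedCategory C]

/-- A Leibniz family which vanishes on its own object commutes with itself. -/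
theorem lcomm_of_self {b : C} (L : Leib b) (h : L.d b = 0)
    (hz : ∀ Y : C, ((0 : b ⊗ b ⟶ b) ▷ Y) = 0) : LComm L := by
  intro Y
  have h1 := L.nat (L.d Y)
  have h2 := L.leib b Y
  rw [h, hz, comp_zero, zero_add] at h2
  calc swp b b Y ≫ (b ◁ L.d Y) ≫ L.d Y = L.d (b ⊗ Y) ≫ L.d Y := by
        rw [h2, swp]
        simp only [Category.assoc]
    _ = _ := h1.symm

end Gen

section A

variable {k : Type*} [Field k] {Z : Type u} [Category.{v} Z] [Abelian Z] [Linear k Z]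
  [MonoidalCategory Z] [MonoidalPreadditive Z] [MonoidalLinear k Z] [RigidCategory Z]
  [BraidedCategory Z]

/-- The choice of a subquotient which does not commute with `P`. -/
theorem select (hZ : IsFinite k Z) (E F : ObjectProperty Z)
    [hE : TensorSub E] [TensorSub F] (hsimp : ∀ S, Simple S → E S → F S)
    (P : ObjectProperty Z) [hP : TensorSub P] (h2 : P ≤ centralizer F)
    (hne : ∃ Y, P Y ∧ ¬ centralizer E Y) :
    ∃ (V c₁ c₂ : Z) (i : c₁ ⟶ V) (p : V ⟶ c₂), Mono i ∧ Epi p ∧ E V ∧ F c₁ ∧ F c₂ ∧ E c₁ ∧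
      Simple c₁ ∧ i ≫ p = 0 ∧ centralizer P (kernel p) ∧
      centralizer P (cokernel i) ∧ ¬ centralizer P V := by
  have hR : TensorSub (centralizer P) := tensorSub_centralizer P
  obtain ⟨Y₀, hY₀, hY₀'⟩ := hne
  obtain ⟨V₀, hV₀, hc⟩ : ∃ V₀, E V₀ ∧ ¬ Comm Y₀ V₀ := by
    by_contra h
    push Not at h
    exact hY₀' fun V hV => h V hV
  have hV₀R : ¬ centralizer P V₀ := fun h => hc (comm_symm (h Y₀ hY₀))
  have h0 : ∀ X : Z, IsZero X → centralizer P X := fun X hX =>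
    haveI : Mono (0 : X ⟶ 𝟙_ Z) := ⟨fun _ _ _ => hX.eq_of_tgt _ _⟩
    hR.sub (0 : X ⟶ 𝟙_ Z) hR.unit
  obtain ⟨V, ⟨K, m, q, hm, hq'⟩, hVR, hs, hq⟩ := Q4a.exists_min (centralizer P)
    (fun f _ h => hR.sub f h) (fun f _ h => hR.quot f h) hZ.artinian hZ.noetherian V₀ hV₀R
  have hVE : E V := hE.quot q (hE.sub m hV₀)
  have hVz : ¬ IsZero V := fun h => hVR (h0 V h)
  obtain ⟨c₁, c₂, i, p, hi, hp, hc₁, hc₂⟩ := Q4a.exists_simples hZ.artinian hZ.noetherian hVz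
  have hE₁ : E c₁ := hE.sub i hVE
  have hE₂ : E c₂ := hE.quot p hVE
  have hF₁ : F c₁ := hsimp c₁ hc₁ hE₁
  have hF₂ : F c₂ := hsimp c₂ hc₂ hE₂
  have hR₁ : centralizer P c₁ := fun Y hY => comm_symm (h2 Y hY c₁ hF₁)
  have hker : centralizer P (kernel p) := by
    refine hs (kernel.ι p) fun hiso => ?_
    have hp0 : p = 0 := by
      rw [← cancel_epi (kernel.ι p), kernel.condition, comp_zero]
    refine hc₂.mono_isIso_iff_nonzero (𝟙 c₂) |>.1 inferInstance ?_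
    rw [← cancel_epi p, hp0, zero_comp, zero_comp]
  have hcok : centralizer P (cokernel i) := by
    refine hq (cokernel.π i) fun hiso => ?_
    have hi0 : i = 0 := by
      rw [← cancel_mono (cokernel.π i), cokernel.condition, zero_comp]
    refine hc₁.mono_isIso_iff_nonzero (𝟙 c₁) |>.1 inferInstance ?_
    rw [← cancel_mono i, hi0, comp_zero, comp_zero]
  refine ⟨V, c₁, c₂, i, p, hi, hp, hVE, hF₁, hF₂, hE₁, hc₁, ?_, hker, hcok, hVR⟩
  by_contra hne
  have hiso : IsIso (i ≫ p) := isIso_of_hom_simple hne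
  apply hVR
  have hepi : Epi (biprod.desc i (kernel.ι p)) := by
    apply Preadditive.epi_of_cancel_zero
    intro Q g hg
    have h3 : i ≫ g = 0 := by
      have := congrArg (fun t => biprod.inl ≫ t) hg
      simpa using this
    have h4 : kernel.ι p ≫ g = 0 := by
      have := congrArg (fun t => biprod.inr ≫ t) hg
      simpa using this
    have hex : (ShortComplex.mk (kernel.ι p) p (kernel.condition p)).ShortExact :=
      { exact := ShortComplex.exact_kernel p }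
    obtain ⟨g', hg'⟩ : ∃ g' : c₂ ⟶ Q, p ≫ g' = g :=
      ⟨_, (CokernelCofork.IsColimit.desc' hex.gIsCokernel g h4).2⟩
    have h5 : g' = 0 := by
      rw [← cancel_epi (i ≫ p), Category.assoc, hg', h3, comp_zero]
    rw [← hg', h5, comp_zero]
  exact hR.quot (biprod.desc i (kernel.ι p)) (hR.biprod hR₁ hker)

/-- The extension `0 ⟶ 1 ⟶ U ⟶ N` attached to a selected subquotient. -/
theorem select_ext (hZ : IsFinite k Z) (E F : ObjectProperty Z)
    [hE : TensorSub E] [hF : TensorSub F] (hsimp : ∀ S, Simple S → E S → F S)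
    (P : ObjectProperty Z) [hP : TensorSub P] (h2 : P ≤ centralizer F)
    (hne : ∃ Y, P Y ∧ ¬ centralizer E Y) :
    ∃ (U N : Z) (i : 𝟙_ Z ⟶ U) (p : U ⟶ N), Mono i ∧ Epi p ∧ i ≫ p = 0 ∧ E U ∧ F N ∧
      centralizer P (kernel p) ∧ centralizer P (cokernel i) ∧ ∃ Y, P Y ∧ ¬ Comm U Y := by
  have h1 : Simple (𝟙_ Z) := hZ.unit
  have R : TensorSub (centralizer P) := tensorSub_centralizer P
  obtain ⟨V, c₁, c₂, i, p, hi, hp, hVE, hF₁, hF₂, hE₁, hc₁, hip, hK, hQ, hV⟩ :=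
    select hZ E F hsimp P h2 hne
  have hcP : ∀ c, F c → centralizer P c := fun c hc Y hY => comm_symm (h2 Y hY c hc)
  let D₀ : Z := c₁ᘁ
  have hD₀ : centralizer P D₀ := R.rdual (hcP c₁ hF₁)
  have hid : 𝟙 c₁ ≠ 0 := hc₁.mono_isIso_iff_nonzero (𝟙 c₁) |>.1 inferInstance
  have hev : Epi (ε_ c₁ (c₁ᘁ)) := C2.epi_ev h1 hid
  let f : D₀ ⊗ c₁ ⟶ D₀ ⊗ V := D₀ ◁ i
  let ev : D₀ ⊗ c₁ ⟶ 𝟙_ Z := ε_ c₁ (c₁ᘁ)
  have hevi : Epi ev := hev
  have hfm : Mono f := inferInstanceAs (Mono (D₀ ◁ i))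
  let u₁ : D₀ ⊗ V ⟶ pushout f ev := pushout.inl f ev
  let i' : 𝟙_ Z ⟶ pushout f ev := pushout.inr f ev
  have hcond : f ≫ u₁ = ev ≫ i' := pushout.condition
  have hu₁ : Epi u₁ := inferInstanceAs (Epi (pushout.inl f ev))
  have hi' : Mono i' := inferInstanceAs (Mono (pushout.inr f ev))
  have hw : f ≫ (D₀ ◁ p) = ev ≫ 0 := by
    rw [← whiskerLeft_comp, hip, MonoidalPreadditive.whiskerLeft_zero, comp_zero]
  let p' : pushout f ev ⟶ D₀ ⊗ c₂ := pushout.desc (D₀ ◁ p) 0 hw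
  have hup : u₁ ≫ p' = D₀ ◁ p := pushout.inl_desc _ _ _
  have hip' : i' ≫ p' = 0 := pushout.inr_desc _ _ _
  have hp' : Epi p' := by
    have : Epi (u₁ ≫ p') := by rw [hup]; infer_instance
    exact epi_of_epi u₁ p'
  have hED : E D₀ := hE.rdual hE₁
  refine ⟨pushout f ev, D₀ ⊗ c₂, i', p', hi', hp', hip', hE.quot u₁ (hE.tensor hED hVE),
    hF.tensor (hF.rdual hF₁) hF₂, ?_, ?_, ?_⟩
  · -- the kernel of `p'` is a quotient of `D₀ ⊗ kernel p`
    have hz : ((D₀ ◁ kernel.ι p) ≫ u₁) ≫ p' = 0 := by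
      rw [Category.assoc, hup, ← whiskerLeft_comp, kernel.condition,
        MonoidalPreadditive.whiskerLeft_zero]
    let g : D₀ ⊗ kernel p ⟶ kernel p' := kernel.lift p' _ hz
    have hS : (ShortComplex.mk (kernel.ι p) p (kernel.condition p)).ShortExact :=
      { exact := ShortComplex.exact_kernel p }
    have hS' := hS.map_of_exact (tensorLeft D₀)
    have hg : Epi g := by
      rw [epi_iff_surjective_up_to_refinements]
      intro A y
      obtain ⟨A', π, hπ, x, hx⟩ := surjective_up_to_refinements_of_epi u₁ (y ≫ kernel.ι p')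
      have h3 : x ≫ (D₀ ◁ p) = 0 := by
        rw [← hup, ← Category.assoc, ← hx, Category.assoc, Category.assoc, kernel.condition,
          comp_zero, comp_zero]
      obtain ⟨x', hx'⟩ : ∃ x' : A' ⟶ D₀ ⊗ kernel p, x' ≫ (D₀ ◁ kernel.ι p) = x :=
        ⟨_, (KernelFork.IsLimit.lift' hS'.fIsKernel x h3).2⟩
      refine ⟨A', π, hπ, x', ?_⟩
      rw [← cancel_mono (kernel.ι p'), Category.assoc, Category.assoc, kernel.lift_ι, hx,
        ← Category.assoc, hx']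
    exact R.quot g (R.tensor hD₀ hK)
  · -- the cokernel of `i'` is a quotient of `D₀ ⊗ cokernel i`
    have hz : (D₀ ◁ i) ≫ u₁ ≫ cokernel.π i' = 0 := by
      have : (D₀ ◁ i) ≫ u₁ = ev ≫ i' := hcond
      rw [← Category.assoc, this, Category.assoc, cokernel.condition, comp_zero]
    have hS : (ShortComplex.mk i (cokernel.π i) (cokernel.condition i)).ShortExact :=
      { exact := ShortComplex.exact_cokernel i }
    have hS' := hS.map_of_exact (tensorLeft D₀)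
    obtain ⟨g, hg⟩ : ∃ g : D₀ ⊗ cokernel i ⟶ cokernel i', (D₀ ◁ cokernel.π i) ≫ g =
        u₁ ≫ cokernel.π i' :=
      ⟨_, (CokernelCofork.IsColimit.desc' hS'.gIsCokernel (u₁ ≫ cokernel.π i') hz).2⟩
    have hge : Epi g := by
      have : Epi ((D₀ ◁ cokernel.π i) ≫ g) := by rw [hg]; exact epi_comp _ _
      exact epi_of_epi (D₀ ◁ cokernel.π i) g
    exact R.quot g (R.tensor hD₀ hQ)
  · -- `V` embeds in `c₁ ⊗ U ⊞ cokernel i`
    by_contra hcon
    push Not at hcon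
    apply hV
    intro Y hY
    have S := tensorSub_centralizer (fun X : Z => X = Y)
    let a : V ⟶ c₁ ⊗ pushout f ev :=
      (λ_ V).inv ≫ (η_ c₁ (c₁ᘁ) ▷ V) ≫ (α_ c₁ D₀ V).hom ≫ (c₁ ◁ u₁)
    have ha : i ≫ a = (ρ_ c₁).inv ≫ (c₁ ◁ i') := by
      have e₁ : i ≫ (λ_ V).inv = (λ_ c₁).inv ≫ (𝟙_ Z ◁ i) := leftUnitor_inv_naturality i
      have e₂ : (𝟙_ Z ◁ i) ≫ (η_ c₁ (c₁ᘁ) ▷ V) = (η_ c₁ (c₁ᘁ) ▷ c₁) ≫ ((c₁ ⊗ c₁ᘁ) ◁ i) :=
        whisker_exchange _ _
      have e₃ : ((c₁ ⊗ c₁ᘁ) ◁ i) ≫ (α_ c₁ D₀ V).hom = (α_ c₁ D₀ c₁).hom ≫ (c₁ ◁ (D₀ ◁ i)) :=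
        associator_naturality_right _ _ _
      have e₄ : (D₀ ◁ i) ≫ u₁ = ev ≫ i' := hcond
      have e₅ : (η_ c₁ (c₁ᘁ) ▷ c₁) ≫ (α_ c₁ D₀ c₁).hom ≫ (c₁ ◁ ev) =
          (λ_ c₁).hom ≫ (ρ_ c₁).inv := ExactPairing.evaluation_coevaluation _ _
      calc i ≫ a = (i ≫ (λ_ V).inv) ≫ (η_ c₁ (c₁ᘁ) ▷ V) ≫ (α_ c₁ D₀ V).hom ≫ (c₁ ◁ u₁) := by
            simp only [a, Category.assoc]
        _ = (λ_ c₁).inv ≫ ((𝟙_ Z ◁ i) ≫ (η_ c₁ (c₁ᘁ) ▷ V)) ≫ (α_ c₁ D₀ V).hom ≫
            (c₁ ◁ u₁) := by rw [e₁]; simp only [Category.assoc]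
        _ = (λ_ c₁).inv ≫ (η_ c₁ (c₁ᘁ) ▷ c₁) ≫ (((c₁ ⊗ c₁ᘁ) ◁ i) ≫ (α_ c₁ D₀ V).hom) ≫
            (c₁ ◁ u₁) := by rw [e₂]; simp only [Category.assoc]
        _ = (λ_ c₁).inv ≫ (η_ c₁ (c₁ᘁ) ▷ c₁) ≫ (α_ c₁ D₀ c₁).hom ≫
            (c₁ ◁ ((D₀ ◁ i) ≫ u₁)) := by rw [e₃, whiskerLeft_comp]; simp only [Category.assoc]
        _ = (λ_ c₁).inv ≫ ((η_ c₁ (c₁ᘁ) ▷ c₁) ≫ (α_ c₁ D₀ c₁).hom ≫ (c₁ ◁ ev)) ≫
            (c₁ ◁ i') := by rw [e₄, whiskerLeft_comp]; simp only [Category.assoc]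
        _ = _ := by rw [e₅]; simp
    have hmono : Mono (biprod.lift a (cokernel.π i)) := by
      apply Preadditive.mono_of_cancel_zero
      intro A g hg
      have h3 : g ≫ a = 0 := by
        have := congrArg (fun t => t ≫ biprod.fst) hg
        simpa using this
      have h4 : g ≫ cokernel.π i = 0 := by
        have := congrArg (fun t => t ≫ biprod.snd) hg
        simpa using this
      have hS : (ShortComplex.mk i (cokernel.π i) (cokernel.condition i)).ShortExact :=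
        { exact := ShortComplex.exact_cokernel i }
      obtain ⟨g', hg'⟩ : ∃ g' : A ⟶ c₁, g' ≫ i = g :=
        ⟨_, (KernelFork.IsLimit.lift' hS.fIsKernel g h4).2⟩
      have h5 : g' ≫ ((ρ_ c₁).inv ≫ (c₁ ◁ i')) = 0 := by
        rw [← ha, ← Category.assoc, hg', h3]
      have h6 : Mono ((ρ_ c₁).inv ≫ (c₁ ◁ i')) := inferInstance
      have h7 : g' = 0 := by
        rw [← cancel_mono ((ρ_ c₁).inv ≫ (c₁ ◁ i')), h5, zero_comp]
      rw [← hg', h7, zero_comp]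
    have h3 : centralizer (fun X : Z => X = Y) (c₁ ⊗ pushout f ev) := by
      intro X hX
      change X = Y at hX
      rw [hX]
      exact B0.comm_tensor (hcP c₁ hF₁ Y hY) (hcon Y hY)
    have h4 : centralizer (fun X : Z => X = Y) (cokernel i) := by
      intro X hX
      change X = Y at hX
      rw [hX]
      exact hQ Y hY
    exact S.sub (biprod.lift a (cokernel.π i)) (S.biprod h3 h4) Y rfl

end A

end VS

section Big

variable {k : Type*} [Field k] {Z : Type u} [Category.{v} Z] [Abelian Z] [Linear k Z]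
  [MonoidalCategory Z] [MonoidalPreadditive Z] [MonoidalLinear k Z] [RigidCategory Z]
  [BraidedCategory Z]

/-- Row VS. -/
theorem vsel_plus [IsAlgClosed k] [CharZero k] (hZ : IsFinite k Z) (E F : ObjectProperty Z)
    [TensorSub E] [TensorSub F] (hss : Semisimp F) (hsym : E ≤ centralizer E) (hFE : F ≤ E)
    (hsimp : ∀ S, Simple S → E S → F S)
    (P : ObjectProperty Z) [hP : TensorSub P] (h2 : P ≤ centralizer F)
    (hne : ∃ Y, P Y ∧ ¬ centralizer E Y) :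
    ∃ (V : P.FullSubcategory) (L : Leib V), F V.obj ∧ Simple V.obj ∧ LComm L ∧ L.Nonzero ∧
      ∀ Y : P.FullSubcategory, centralizer E Y.obj → L.d Y = 0 := by
  have hE : TensorSub E := inferInstance
  have hF : TensorSub F := inferInstance
  obtain ⟨U₀, N, i', p', hi', hp', hip', hEU, hFN, hK, hQ, Y₁, hY₁, hY₁'⟩ :=
    VS.select_ext hZ E F hsimp P h2 hne
  have hS₁ : (ShortComplex.mk (kernel.ι p') p' (kernel.condition p')).ShortExact :=
    { exact := ShortComplex.exact_kernel p' }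
  have hS₂ : (ShortComplex.mk i' (cokernel.π i') (cokernel.condition i')).ShortExact :=
    { exact := ShortComplex.exact_cokernel i' }
  have ex : ∀ Y : P.FullSubcategory, ∃ D : N ⊗ Y.obj ⟶ Y.obj,
      dbr U₀ Y.obj = (p' ▷ Y.obj) ≫ D ≫ (λ_ Y.obj).inv ≫ (i' ▷ Y.obj) := fun Y =>
    exists_D i' p' _ _ _ hS₁ _ hS₂ Y.obj (hK Y.obj Y.property) (hQ Y.obj Y.property)
  choose D hD using ex
  have hDne : D ⟨Y₁, hY₁⟩ ≠ 0 := by
    intro h
    apply hY₁'
    rw [← dbr_eq_zero, hD ⟨Y₁, hY₁⟩, h, zero_comp, comp_zero]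
  let f : N ⟶ Y₁ ⊗ Y₁ᘁ := tensorRightHomEquiv N Y₁ (Y₁ᘁ) Y₁ (D ⟨Y₁, hY₁⟩)
  have hDf : D ⟨Y₁, hY₁⟩ = (tensorRightHomEquiv N Y₁ (Y₁ᘁ) Y₁).symm f :=
    ((tensorRightHomEquiv N Y₁ (Y₁ᘁ) Y₁).symm_apply_apply _).symm
  have hsymm0 : ∀ M : Z, (tensorRightHomEquiv M Y₁ (Y₁ᘁ) Y₁).symm 0 = 0 := by
    intro M
    change ((0 : M ⟶ Y₁ ⊗ Y₁ᘁ) ▷ Y₁) ≫ (α_ _ _ _).hom ≫ (Y₁ ◁ ε_ _ _) ≫ (ρ_ Y₁).hom = 0
    rw [MonoidalPreadditive.zero_whiskerRight, zero_comp]
  have hf : f ≠ 0 := by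
    intro h0
    apply hDne
    rw [hDf, h0, hsymm0]
  have hI : ¬ IsZero (Limits.image f) := by
    intro hz
    apply hf
    rw [← Limits.image.fac f, hz.eq_of_tgt (Limits.factorThruImage f) 0, zero_comp]
  obtain ⟨S, _, j, _, hj, _, hS, _⟩ := Q4a.exists_simples hZ.artinian hZ.noetherian hI
  obtain ⟨s, hs⟩ := hss (Limits.factorThruImage f) hFN inferInstance
  have hsm : Mono s := by
    have : Mono (s ≫ Limits.factorThruImage f) := by rw [hs]; infer_instance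
    exact mono_of_mono s (Limits.factorThruImage f)
  let ι : S ⟶ N := j ≫ s
  have hι : Mono ι := mono_comp _ _
  have hιf : ι ≫ f = j ≫ Limits.image.ι f := by
    calc ι ≫ f = j ≫ s ≫ Limits.factorThruImage f ≫ Limits.image.ι f := by
          rw [Limits.image.fac]; simp only [ι, Category.assoc]
      _ = j ≫ (s ≫ Limits.factorThruImage f) ≫ Limits.image.ι f := by simp only [Category.assoc]
      _ = j ≫ Limits.image.ι f := by rw [hs, Category.id_comp]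
  have hm : Mono (j ≫ Limits.image.ι f) := mono_comp _ _
  have hPS : P S := hP.sub (j ≫ Limits.image.ι f) (hP.tensor hY₁ (hP.rdual hY₁))
  have hFS : F S := hF.sub ι hFN
  have hES : E S := hFE S hFS
  -- the restricted extension
  let U : Z := pullback p' ι
  let v : U ⟶ U₀ := pullback.fst p' ι
  let q : U ⟶ S := pullback.snd p' ι
  have hv : Mono v := inferInstanceAs (Mono (pullback.fst p' ι))
  have hq : Epi q := inferInstanceAs (Epi (pullback.snd p' ι))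
  have hc : v ≫ p' = q ≫ ι := pullback.condition
  let i : 𝟙_ Z ⟶ U := pullback.lift i' 0 (by rw [hip', zero_comp])
  have hiv : i ≫ v = i' := pullback.lift_fst _ _ _
  have hi : Mono i := by
    have : Mono (i ≫ v) := by rw [hiv]; exact hi'
    exact mono_of_mono i v
  have hEUU : E U := hE.sub v hEU
  have hD' : ∀ Y : P.FullSubcategory, dbr U Y.obj =
      (q ▷ Y.obj) ≫ ((ι ▷ Y.obj) ≫ D Y) ≫ (λ_ Y.obj).inv ≫ (i ▷ Y.obj) := by
    intro Y
    rw [← cancel_mono (v ▷ Y.obj), ← dbr_nat_left, hD Y]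
    simp only [Category.assoc]
    rw [← comp_whiskerRight i v, hiv, ← comp_whiskerRight_assoc, hc, comp_whiskerRight_assoc]
  have hvan : ∀ Y : P.FullSubcategory, Comm U Y.obj → (ι ▷ Y.obj) ≫ D Y = 0 := by
    intro Y h
    apply core_cancel i q
    rw [← hD' Y, dbr_eq_zero.2 h, zero_comp, comp_zero]
  let L : Leib (⟨S, hPS⟩ : P.FullSubcategory) :=
    { d := fun Y => ObjectProperty.homMk ((ι ▷ Y.obj) ≫ D Y)
      nat := by
        intro Y Y' g
        ext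
        exact core_nat i q g.hom (hD' Y) (hD' Y')
      leib := by
        intro Y Y'
        ext
        exact core_leib i q (hD' Y) (hD' Y') (hD' (Y ⊗ Y')) }
  have hself : L.d ⟨S, hPS⟩ = 0 := by
    ext
    exact hvan ⟨S, hPS⟩ (hsym U hEUU S hES)
  refine ⟨⟨S, hPS⟩, L, hFS, hS, VS.lcomm_of_self L hself ?_, ⟨⟨Y₁, hY₁⟩, fun h => ?_⟩, ?_⟩
  · intro Y
    rw [MonoidalPreadditive.zero_whiskerRight]
  · have h3 : (ι ▷ Y₁) ≫ D ⟨Y₁, hY₁⟩ = 0 := congrArg (fun f => f.hom) h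
    have h4 : (tensorRightHomEquiv S Y₁ (Y₁ᘁ) Y₁).symm (ι ≫ f) = 0 := by
      rw [tensorRightHomEquiv_symm_naturality, ← hDf, h3]
    have h5 : ι ≫ f = 0 :=
      (tensorRightHomEquiv S Y₁ (Y₁ᘁ) Y₁).symm.injective (h4.trans (hsymm0 S).symm)
    rw [hιf] at h5
    refine hS.mono_isIso_iff_nonzero (𝟙 S) |>.1 inferInstance ?_
    rw [← cancel_mono (j ≫ Limits.image.ι f), h5, comp_zero, comp_zero]
  · intro Y hY
    ext
    exact hvan Y (comm_symm (hY U hEUU))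

end Big

end Pool.Agent.MUP
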