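import Pool.Agent.MUP.K
import Pool.Agent.MUP.VS
import Pool.Agent.MUP.FL
import Pool.Agent.MUG.P6

/-!
# Theorem Q+ (helper14)

Let `E` be a symmetric tensor subcategory of a finite braided tensor category whose simple
objects all lie in a fusion subcategory `F` of `E`. If a tensor subcategory `P` satisfies (FGC),
so does the intersection of `P` with the Mueger centralizer of `E`.
-/

open CategoryTheory MonoidalCategory Limits Abelian

universe w v u

set_option linter.unusedSectionVars false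

attribute [local instance] CategoryTheory.Abelian.hasFiniteBiproducts

namespace Pool.Agent.MUP

open Pool.Agent.MUG

section

variable {k : Type*} [Field k] {Z : Type u} [Category.{v} Z] [Abelian Z] [Linear k Z]
  [MonoidalCategory Z] [MonoidalPreadditive Z] [MonoidalLinear k Z] [RigidCategory Z]
  [BraidedCategory Z]

/-- Row QP (Theorem Q+, relative form). -/
theorem theoremQ_plus [IsAlgClosed k] [CharZero k] (hZ : IsFinite k Z) (E F : ObjectProperty Z)
    [TensorSub E] [TensorSub F] (hss : Semisimp F) (hsym : E ≤ centralizer E) (hFE : F ≤ E)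
    (hsimp : ∀ S, Simple S → E S → F S)
    (P : ObjectProperty Z) (hP : TensorSub P) (hF : FG k P hP)
    (h' : TensorSub (P ⊓ centralizer E)) : FG k (P ⊓ centralizer E) h' := by
  classical
  have hsymF : F ≤ centralizer F := fun X hX Y hY => hsym X (hFE X hX) Y (hFE Y hY)
  have hEF : centralizer E ≤ centralizer F := fun X hX Y hY => hX Y (hFE Y hY)
  have hcF : TensorSub (centralizer F) := tensorSub_centralizer F
  have h0 : TensorSub (P ⊓ centralizer F) := tensorSub_inf _ _
  -- the set of good tensor subcategories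
  let good : Set {Q : ObjectProperty Z // TensorSub Q} :=
    {Q | P ⊓ centralizer E ≤ Q.1 ∧ Q.1 ≤ P ⊓ centralizer F ∧ FG k Q.1 Q.2}
  have hgood : good.Nonempty := ⟨⟨P ⊓ centralizer F, h0⟩, inf_le_inf_left P hEF, le_rfl,
    fg_fusion hZ F hss hsymF P hP hF h0⟩
  obtain ⟨⟨Q, hQ⟩, ⟨h1, h2, hFQ⟩, hmin⟩ := (dcc_sub hZ).has_min good hgood
  have := hQ
  by_cases hne : ∃ Y, Q Y ∧ ¬ centralizer E Y
  · exfalso
    obtain ⟨V, L, hV, hVs, hc, hnz, hL⟩ :=
      vsel_plus hZ E F hss hsym hFE hsimp Q (le_trans h2 inf_le_right) hne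
    obtain ⟨h'', hF'⟩ := fg_leib_plus hZ F hss Q hQ (le_trans h2 inf_le_right) hFQ V hV hVs L hc
    refine hmin ⟨_, h''⟩ ⟨?_, ?_, hF'⟩ ?_
    · intro Y hY
      exact ⟨h1 Y hY, hL ⟨Y, h1 Y hY⟩ hY.2⟩
    · rintro Y ⟨hY, _⟩
      exact h2 Y hY
    · refine lt_of_le_of_ne (fun Y hY => hY.1) ?_
      intro he
      obtain ⟨Y, hY⟩ := hnz
      have he' : (fun Y : Z => ∃ h : Q Y, L.d ⟨Y, h⟩ = 0) = Q := he
      have h3 : (fun Y : Z => ∃ h : Q Y, L.d ⟨Y, h⟩ = 0) Y.obj := by
        rw [he']; exact Y.property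
      obtain ⟨_, h⟩ := h3
      exact hY h
  · push Not at hne
    have : Q = P ⊓ centralizer E :=
      le_antisymm (fun Y hY => ⟨(h2 Y hY).1, hne Y hY⟩) h1
    subst this
    exact hFQ

end

end Pool.Agent.MUP
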