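import Pool.Agent.MUP.Defs

/-!
# Row S4 (helper4): the (anti)symmetrizer absorbs `aa`
-/

open CategoryTheory

universe v u

namespace Pool.Agent.MUP

section S4

variable {A : Type u} [Category.{v} A] {F : A ⥤ A} [Preadditive A]
  (τ : ∀ Y : A, F.obj (F.obj Y) ⟶ F.obj (F.obj Y)) (q : ℤ)

/-- `τ` on the strands `i`, `i + 1` of `F^n Y`; multiplication by `q` if there are no such
strands. -/
def s4T : ∀ (n : ℕ) (_ : ℕ) (Y : A), pw F n Y ⟶ pw F n Y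
  | 0, _, Y => q • 𝟙 Y
  | 1, _, Y => q • 𝟙 (F.obj Y)
  | n + 2, 0, Y => τ (pw F n Y)
  | n + 2, i + 1, Y => F.map (s4T (n + 1) i Y)

theorem s4T_succ [F.Additive] (n i : ℕ) (Y : A) :
    s4T τ q (n + 1) (i + 1) Y = F.map (s4T τ q n i Y) := by
  cases n with
  | zero => simp [s4T, pw]
  | succ n => rfl

variable [F.Additive]

theorem s4_A (hinv : ∀ Y, τ Y ≫ τ Y = 𝟙 _) (hq : q * q = 1) (G : A ⥤ A) [G.Additive]
    {X Z : A} (g : X ⟶ G.obj (F.obj (F.obj Z))) :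
    (g ≫ G.map (𝟙 _ + q • (τ Z ≫ F.map (𝟙 (F.obj Z))))) ≫ G.map (τ Z) =
      q • (g ≫ G.map (𝟙 _ + q • (τ Z ≫ F.map (𝟙 (F.obj Z))))) := by
  have h : G.map (τ Z) ≫ G.map (τ Z) = 𝟙 _ := by
    rw [← G.map_comp, hinv, G.map_id]
  simp only [Functor.map_add, Functor.map_zsmul, CategoryTheory.Functor.map_id, Category.comp_id,
    Preadditive.comp_add, Preadditive.add_comp, Preadditive.comp_zsmul,
    Preadditive.zsmul_comp, Category.assoc, h, smul_add, smul_smul, hq, one_smul]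
  abel

theorem s4_B (hτ : ∀ {Y Y' : A} (f : Y ⟶ Y'), F.map (F.map f) ≫ τ Y' = τ Y ≫ F.map (F.map f))
    (hinv : ∀ Y, τ Y ≫ τ Y = 𝟙 _)
    (hyb : ∀ Y, F.map (τ Y) ≫ τ (F.obj Y) ≫ F.map (τ Y) = τ (F.obj Y) ≫ F.map (τ Y) ≫ τ (F.obj Y))
    (hq : q * q = 1) (G : A ⥤ A) [G.Additive]
    {X Z : A} (a : F.obj Z ⟶ F.obj Z) (g : X ⟶ G.obj (F.obj (F.obj (F.obj Z))))
    (h0 : g ≫ G.map (F.map (τ Z)) = q • g) :
    (g ≫ G.map (𝟙 _ + q • (τ (F.obj Z) ≫ F.map (𝟙 _ + q • (τ Z ≫ F.map a))))) ≫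
      G.map (τ (F.obj Z)) =
      q • (g ≫ G.map (𝟙 _ + q • (τ (F.obj Z) ≫ F.map (𝟙 _ + q • (τ Z ≫ F.map a))))) := by
  have h : G.map (τ (F.obj Z)) ≫ G.map (τ (F.obj Z)) = 𝟙 _ := by
    rw [← G.map_comp, hinv, G.map_id]
  have h1 : g ≫ G.map (τ (F.obj Z)) ≫ G.map (F.map (τ Z)) ≫ G.map (F.map (F.map a)) ≫
      G.map (τ (F.obj Z)) =
      q • (g ≫ G.map (τ (F.obj Z)) ≫ G.map (F.map (τ Z)) ≫ G.map (F.map (F.map a))) := by
    have e1 : G.map (F.map (F.map a)) ≫ G.map (τ (F.obj Z)) =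
        G.map (τ (F.obj Z)) ≫ G.map (F.map (F.map a)) := by
      rw [← G.map_comp, hτ, G.map_comp]
    have e2 : G.map (τ (F.obj Z)) ≫ G.map (F.map (τ Z)) ≫ G.map (τ (F.obj Z)) =
        G.map (F.map (τ Z)) ≫ G.map (τ (F.obj Z)) ≫ G.map (F.map (τ Z)) := by
      simp only [← G.map_comp]
      rw [hyb]
    rw [e1, reassoc_of% e2, reassoc_of% h0, Preadditive.zsmul_comp]
  simp only [Functor.map_add, Functor.map_zsmul, CategoryTheory.Functor.map_id, Functor.map_comp,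
    Category.comp_id,
    Preadditive.comp_add, Preadditive.add_comp, Preadditive.comp_zsmul,
    Preadditive.zsmul_comp, Category.assoc, h, h1, smul_add, smul_smul, hq, one_smul, mul_one,
    mul_assoc]
  abel

theorem s4_C (G : A ⥤ A) [G.Additive] {X Z : A} (a T : F.obj Z ⟶ F.obj Z)
    (g : X ⟶ G.obj (F.obj (F.obj Z)))
    (h0 : g ≫ G.map (F.map T) = q • g)
    (h1 : ((g ≫ G.map (τ Z)) ≫ G.map (F.map a)) ≫ G.map (F.map T) =
      q • ((g ≫ G.map (τ Z)) ≫ G.map (F.map a))) :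
    (g ≫ G.map (𝟙 _ + q • (τ Z ≫ F.map a))) ≫ G.map (F.map T) =
      q • (g ≫ G.map (𝟙 _ + q • (τ Z ≫ F.map a))) := by
  simp only [Category.assoc] at h1
  simp only [Functor.map_add, Functor.map_zsmul, CategoryTheory.Functor.map_id, Functor.map_comp,
    Category.comp_id,
    Preadditive.comp_add, Preadditive.add_comp, Preadditive.comp_zsmul,
    Preadditive.zsmul_comp, Category.assoc, h0, h1, smul_add]

theorem s4_D (hτ : ∀ {Y Y' : A} (f : Y ⟶ Y'), F.map (F.map f) ≫ τ Y' = τ Y ≫ F.map (F.map f))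
    (G : A ⥤ A) {X Z : A} (T : Z ⟶ Z) [G.Additive]
    (g : X ⟶ G.obj (F.obj (F.obj Z))) (h0 : g ≫ G.map (F.map (F.map T)) = q • g) :
    (g ≫ G.map (τ Z)) ≫ G.map (F.map (F.map T)) = q • (g ≫ G.map (τ Z)) := by
  have h2 : G.map (τ Z) ≫ G.map (F.map (F.map T)) =
      G.map (F.map (F.map T)) ≫ G.map (τ Z) := by
    rw [← G.map_comp, ← hτ, G.map_comp]
  rw [Category.assoc, h2, reassoc_of% h0, Preadditive.zsmul_comp]

theorem s4_E (hq : q * q = 1) (G : A ⥤ A) [G.Additive] {X Z : A} (a : F.obj Z ⟶ F.obj Z)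
    (g : X ⟶ G.obj (F.obj (F.obj Z))) (m : ℤ) (h0 : g ≫ G.map (τ Z) = q • g)
    (h1 : g ≫ G.map (F.map a) = (m + 1) • g) :
    g ≫ G.map (𝟙 _ + q • (τ Z ≫ F.map a)) = ((m + 1) + 1) • g := by
  simp only [Functor.map_add, Functor.map_zsmul, Functor.map_comp,
    CategoryTheory.Functor.map_id, Category.comp_id, Preadditive.comp_add,
    Preadditive.comp_zsmul, reassoc_of% h0, Preadditive.zsmul_comp, h1, smul_smul]
  rw [← mul_assoc, hq, one_mul, add_smul (m + 1) 1 g, one_smul, add_comm]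

/-- If `g` absorbs the transpositions of the last `n` strands, `g ≫ aa` absorbs all. -/
theorem s4_step (hτ : ∀ {Y Y' : A} (f : Y ⟶ Y'), F.map (F.map f) ≫ τ Y' = τ Y ≫ F.map (F.map f))
    (hinv : ∀ Y, τ Y ≫ τ Y = 𝟙 _)
    (hyb : ∀ Y, F.map (τ Y) ≫ τ (F.obj Y) ≫ F.map (τ Y) = τ (F.obj Y) ≫ F.map (τ Y) ≫ τ (F.obj Y))
    (hq : q * q = 1) (Y : A) :
    ∀ (n : ℕ) (G : A ⥤ A) (_ : G.Additive) {X : A} (g : X ⟶ G.obj (pw F (n + 1) Y)),
      (∀ i, g ≫ G.map (F.map (s4T τ q n i Y)) = q • g) →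
      ∀ i, (g ≫ G.map (aa τ q n Y)) ≫ G.map (s4T τ q (n + 1) i Y) = q • (g ≫ G.map (aa τ q n Y)) := by
  intro n
  induction n with
  | zero =>
    intro G _ X g hg i
    have e : G.map (s4T τ q (0 + 1) i Y) = q • 𝟙 (G.obj (F.obj Y)) := by
      show G.map (q • 𝟙 (F.obj Y)) = _
      rw [Functor.map_zsmul, CategoryTheory.Functor.map_id]
    refine (congrArg ((g ≫ G.map (aa τ q 0 Y)) ≫ ·) e).trans ?_
    refine (Preadditive.comp_zsmul _ _ _).trans ?_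
    exact congrArg (q • ·) (Category.comp_id _)
  | succ n ih =>
    intro G hG X g hg i
    cases i with
    | zero =>
      cases n with
      | zero => exact s4_A τ q hinv hq G g
      | succ m => exact s4_B τ q hτ hinv hyb hq G (aa τ q m Y) g (hg 0)
    | succ i =>
      refine s4_C τ q G (aa τ q n Y) (s4T τ q (n + 1) i Y) g (hg i) ?_
      refine ih (F ⋙ G) inferInstance (g ≫ G.map (τ (pw F n Y))) ?_ i
      intro i'
      have h1 := hg (i' + 1)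
      rw [s4T_succ] at h1
      exact s4_D τ q hτ G (s4T τ q n i' Y) g h1

theorem s4_absorb (hq : q * q = 1) (Y : A) :
    ∀ (n : ℕ) (G : A ⥤ A) (_ : G.Additive) {X : A} (g : X ⟶ G.obj (pw F (n + 1) Y)),
      (∀ i, g ≫ G.map (s4T τ q (n + 1) i Y) = q • g) →
      g ≫ G.map (aa τ q n Y) = ((n : ℤ) + 1) • g := by
  intro n
  induction n with
  | zero =>
    intro G _ X g hg
    have e : G.map (aa τ q 0 Y) = 𝟙 (G.obj (F.obj Y)) := G.map_id _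
    refine ((congrArg (g ≫ ·) e).trans (Category.comp_id _)).trans ?_
    simp
  | succ n ih =>
    intro G hG X g hg
    have h1 := ih (F ⋙ G) inferInstance g (fun i => hg (i + 1))
    refine (s4_E τ q hq G (aa τ q n Y) g n (hg 0) h1).trans ?_
    push_cast
    rfl

theorem s4_ss (hτ : ∀ {Y Y' : A} (f : Y ⟶ Y'), F.map (F.map f) ≫ τ Y' = τ Y ≫ F.map (F.map f))
    (hinv : ∀ Y, τ Y ≫ τ Y = 𝟙 _)
    (hyb : ∀ Y, F.map (τ Y) ≫ τ (F.obj Y) ≫ F.map (τ Y) = τ (F.obj Y) ≫ F.map (τ Y) ≫ τ (F.obj Y))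
    (hq : q * q = 1) (Y : A) :
    ∀ (n i : ℕ), ss τ q n Y ≫ s4T τ q n i Y = q • ss τ q n Y := by
  intro n
  induction n with
  | zero =>
    intro i
    show 𝟙 Y ≫ (q • 𝟙 Y) = q • 𝟙 Y
    simp
  | succ n ih =>
    intro i
    refine s4_step τ q hτ hinv hyb hq Y n (𝟭 A) inferInstance (F.map (ss τ q n Y)) ?_ i
    intro i'
    show F.map (ss τ q n Y) ≫ F.map (s4T τ q n i' Y) = q • F.map (ss τ q n Y)
    rw [← F.map_comp, ih, Functor.map_zsmul]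

/-- Row S4 (invariance of the symmetrizer). -/
theorem ss_aa (hτ : ∀ {Y Y' : A} (f : Y ⟶ Y'), F.map (F.map f) ≫ τ Y' = τ Y ≫ F.map (F.map f))
    (hinv : ∀ Y, τ Y ≫ τ Y = 𝟙 _)
    (hyb : ∀ Y, F.map (τ Y) ≫ τ (F.obj Y) ≫ F.map (τ Y) = τ (F.obj Y) ≫ F.map (τ Y) ≫ τ (F.obj Y))
    (hq : q * q = 1) (n : ℕ) (Y : A) :
    ss τ q (n + 1) Y ≫ aa τ q n Y = ((n : ℤ) + 1) • ss τ q (n + 1) Y :=
  s4_absorb τ q hq Y n (𝟭 A) inferInstance (ss τ q (n + 1) Y)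
    (fun i => s4_ss τ q hτ hinv hyb hq Y (n + 1) i)

end S4

end Pool.Agent.MUP
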