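import Pool.Agent.MUP.S1
import Pool.Agent.MUP.S2

/-! # Row TF / EMB, generic form (helper22) -/

open CategoryTheory MonoidalCategory Limits Abelian

universe w v u

namespace Pool.Agent.MUP

open Pool.Agent.MUG

section TF

variable {A : Type u} [Category.{v} A] [Preadditive A] {F G : A ⥤ A} [F.Additive] [G.Additive]

/-- `F^n (G Y) ⟶ G (F^n Y)`. -/
def bet (χ : ∀ Y : A, F.obj (G.obj Y) ⟶ G.obj (F.obj Y)) : ∀ (n : ℕ) (Y : A),
    pw F n (G.obj Y) ⟶ G.obj (pw F n Y)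
  | 0, Y => 𝟙 (G.obj Y)
  | n + 1, Y => F.map (bet χ n Y) ≫ χ (pw F n Y)

variable {τ : ∀ Y : A, F.obj (F.obj Y) ⟶ F.obj (F.obj Y)}
  {χ : ∀ Y : A, F.obj (G.obj Y) ⟶ G.obj (F.obj Y)}
  {d : ∀ Y : A, F.obj Y ⟶ Y} {j : ∀ Y : A, F.obj Y ⟶ G.obj Y} {ε : ∀ Y : A, G.obj Y ⟶ Y}
  (hτ : ∀ {Y Y' : A} (f : Y ⟶ Y'), F.map (F.map f) ≫ τ Y' = τ Y ≫ F.map (F.map f))
  (hχ : ∀ {Y Y' : A} (f : Y ⟶ Y'), F.map (G.map f) ≫ χ Y' = χ Y ≫ G.map (F.map f))
  (hd : ∀ {Y Y' : A} (f : Y ⟶ Y'), F.map f ≫ d Y' = d Y ≫ f)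
  (hj : ∀ {Y Y' : A} (f : Y ⟶ Y'), F.map f ≫ j Y' = j Y ≫ G.map f)
  (hε : ∀ {Y Y' : A} (f : Y ⟶ Y'), G.map f ≫ ε Y' = ε Y ≫ f)
  (h1 : ∀ Y, d (G.obj Y) = F.map (ε Y) ≫ j Y + χ Y ≫ G.map (d Y))
  (h2 : ∀ Y, j Y ≫ ε Y = 0)
  (h3 : ∀ Y, F.map (j Y) ≫ χ Y = τ Y ≫ j (F.obj Y))
  (h4 : ∀ Y, χ Y ≫ ε (F.obj Y) = F.map (ε Y))

omit [Preadditive A] [F.Additive] [G.Additive] in
theorem step_bet {Q P : A} {β : Q ⟶ G.obj P} {e : Q ⟶ P} (h : β ≫ ε P = e)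
    (h4 : χ P ≫ ε (F.obj P) = F.map (ε P)) : (F.map β ≫ χ P) ≫ ε (F.obj P) = F.map e := by
  rw [Category.assoc, h4, ← F.map_comp, h]

include h4 in
omit [Preadditive A] [F.Additive] [G.Additive] in
theorem bet_eps (n : ℕ) (Y : A) : bet χ n Y ≫ ε (pw F n Y) = pwMap F n (ε Y) := by
  induction n with
  | zero => exact Category.id_comp _
  | succ n ih => exact step_bet ih (h4 _)

include hτ hχ hj hε h1 h2 h3 h4 in
omit [G.Additive] in
theorem step_tf' {Y P Q : A} {T : Q ⟶ G.obj Y} {E : Q ⟶ F.obj P} {B : F.obj P ⟶ F.obj P}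
    {t : P ⟶ Y} {β : Q ⟶ G.obj (F.obj P)} (hβ : β ≫ ε (F.obj P) = E)
    (hT : T = (E ≫ B ≫ F.map t ≫ j Y) + β ≫ G.map (F.map t ≫ d Y)) :
    F.map T ≫ d (G.obj Y) =
      (F.map E ≫ (𝟙 _ + (1 : ℤ) • (F.map B ≫ τ P)) ≫ F.map (F.map t ≫ d Y) ≫ j Y) +
      (F.map β ≫ χ (F.obj P)) ≫ G.map (F.map (F.map t ≫ d Y) ≫ d Y) := by
  have e1 : F.map (F.map t ≫ j Y) ≫ d (G.obj Y) =
      τ P ≫ F.map (F.map t ≫ d Y) ≫ j Y := by
    rw [h1, F.map_comp, Preadditive.comp_add, Category.assoc, Category.assoc,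
      ← F.map_comp_assoc (j Y) (ε Y), h2, F.map_zero, zero_comp, comp_zero, zero_add,
      ← Category.assoc (F.map (j Y)), h3, Category.assoc, ← hj, ← Category.assoc (F.map (F.map t)),
      hτ, Category.assoc, F.map_comp, Category.assoc]
  have e2 : F.map (β ≫ G.map (F.map t ≫ d Y)) ≫ d (G.obj Y) =
      F.map E ≫ F.map (F.map t ≫ d Y) ≫ j Y +
        (F.map β ≫ χ (F.obj P)) ≫ G.map (F.map (F.map t ≫ d Y) ≫ d Y) := by
    rw [h1, F.map_comp, Preadditive.comp_add, Category.assoc, Category.assoc, Category.assoc]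
    congr 1
    · rw [← F.map_comp_assoc (G.map _) (ε Y), hε, ← F.map_comp_assoc β, ← Category.assoc β, hβ,
        F.map_comp, Category.assoc]
    · rw [← Category.assoc (F.map (G.map _)), hχ, G.map_comp (F.map (F.map t ≫ d Y)),
        Category.assoc]
  have e3 : F.map (E ≫ B ≫ F.map t ≫ j Y) ≫ d (G.obj Y) =
      F.map E ≫ (F.map B ≫ τ P) ≫ F.map (F.map t ≫ d Y) ≫ j Y := by
    rw [F.map_comp, F.map_comp, Category.assoc, Category.assoc, e1, Category.assoc]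
  rw [hT, F.map_add, Preadditive.add_comp, e2, e3, one_smul, Preadditive.add_comp,
    Preadditive.comp_add, Category.id_comp]
  abel

include hτ hχ hj hε h1 h2 h3 h4 in
omit [G.Additive] in
/-- The iterates of `d` on `G Y`. -/
theorem tt_G (n : ℕ) (Y : A) : tt d (n + 1) (G.obj Y) =
    (pwMap F (n + 1) (ε Y) ≫ bb τ 1 n Y ≫ F.map (tt d n Y) ≫ j Y) +
      bet χ (n + 1) Y ≫ G.map (tt d (n + 1) Y) := by
  induction n with
  | zero =>
    show F.map (𝟙 (G.obj Y)) ≫ d (G.obj Y) =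
      (F.map (ε Y) ≫ 𝟙 (F.obj Y) ≫ F.map (𝟙 Y) ≫ j Y) +
        (F.map (𝟙 (G.obj Y)) ≫ χ Y) ≫ G.map (F.map (𝟙 Y) ≫ d Y)
    rw [h1]
    simp
  | succ n ih =>
    exact step_tf' hτ hχ hj hε h1 h2 h3 h4 (bet_eps h4 (n + 1) Y) ih

omit [Preadditive A] [F.Additive] [G.Additive] in
include hε in
theorem ee_succ' (n : ℕ) (Y : A) : tt ε (n + 1) Y = ε (pw G n Y) ≫ tt ε n Y :=
  hε (tt ε n Y)

omit [G.Additive] in
theorem step_pwMap_bb (n : ℕ) {X Y Y' : A} (hτ : ∀ {Y Y' : A} (f : Y ⟶ Y'),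
    F.map (F.map f) ≫ τ Y' = τ Y ≫ F.map (F.map f)) (a : X ⟶ Y) (f : Y ⟶ Y') {R : A}
    (g : F.obj (pw F n Y') ⟶ R) :
    pwMap F (n + 1) a ≫ bb τ 1 n Y ≫ F.map (pwMap F n f) ≫ g =
      pwMap F (n + 1) (a ≫ f) ≫ bb τ 1 n Y' ≫ g := by
  have h := bb_nat τ 1 hτ n f
  have h' : bb τ 1 n Y ≫ F.map (pwMap F n f) = pwMap F (n + 1) f ≫ bb τ 1 n Y' := h.symm
  have h'' := congrArg (fun z => pwMap F (n + 1) a ≫ z ≫ g) h'
  refine Eq.trans ?_ (h''.trans ?_)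
  · exact congrArg (fun z => pwMap F (n + 1) a ≫ z) (Category.assoc _ _ _).symm
  · rw [pwMap_comp]
    exact (congrArg (fun z => pwMap F (n + 1) a ≫ z) (Category.assoc _ _ _)).trans
      (Category.assoc _ _ _).symm

omit [G.Additive] in
theorem step_tt_zero {P Y : A} {t : P ⟶ Y} {dd : F.obj Y ⟶ Y} (h : t = 0) :
    F.map t ≫ dd = 0 := by
  rw [h, F.map_zero, zero_comp]

theorem step_zero_form {Q P P' Y' : A} {T : Q ⟶ G.obj Y'} {E : Q ⟶ F.obj P}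
    {B : F.obj P ⟶ F.obj P} {t : P ⟶ Y'} {jY : F.obj Y' ⟶ G.obj Y'} {β : Q ⟶ G.obj P'}
    {t' : P' ⟶ Y'} (hT : T = (E ≫ B ≫ F.map t ≫ jY) + β ≫ G.map t') (ht : t = 0)
    (ht' : t' = 0) : T = 0 := by
  rw [hT, ht, ht', F.map_zero, G.map_zero, zero_comp, comp_zero, comp_zero, comp_zero, add_zero]

theorem step_form {Q P P' P₁ P₂ Y' : A} {T : Q ⟶ G.obj Y'} {E : Q ⟶ F.obj P}
    {B : F.obj P ⟶ F.obj P} {t : P ⟶ Y'} {jY : F.obj Y' ⟶ G.obj Y'} {β : Q ⟶ G.obj P'}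
    {t' : P' ⟶ Y'} {a : P ⟶ P₁} {s : P₁ ⟶ P₂} {b : P₂ ⟶ Y'}
    (hT : T = (E ≫ B ≫ F.map t ≫ jY) + β ≫ G.map t') (ht : t = a ≫ s ≫ b)
    (ht' : t' = 0) : T = E ≫ B ≫ F.map a ≫ (F.map s ≫ F.map b ≫ jY) := by
  rw [hT, ht, ht', G.map_zero, comp_zero, add_zero, F.map_comp, F.map_comp, Category.assoc,
    Category.assoc]

include hτ hχ hj hε h1 h2 h3 h4 in
/-- The iterates of `d` on `G^n Y` when `d_Y = 0`. -/
theorem tt_GG (Y : A) (hY : d Y = 0) (n : ℕ) :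
    tt d (n + 1) (pw G n Y) = 0 ∧
      tt d n (pw G n Y) = pwMap F n (tt ε n Y) ≫ ss τ 1 n Y ≫ jj j n Y := by
  induction n with
  | zero =>
    constructor
    · show F.map (𝟙 Y) ≫ d Y = 0
      rw [hY, comp_zero]
    · show 𝟙 Y = 𝟙 Y ≫ 𝟙 Y ≫ 𝟙 Y
      simp
  | succ n ih =>
    obtain ⟨ih1, ih2⟩ := ih
    constructor
    · have h := tt_G hτ hχ hj hε h1 h2 h3 h4 (n + 1) (pw G n Y)
      exact step_zero_form h ih1 (step_tt_zero ih1)
    · have h := tt_G hτ hχ hj hε h1 h2 h3 h4 n (pw G n Y)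
      refine (step_form h ih2 ih1).trans ?_
      refine (step_pwMap_bb (τ := τ) n hτ (ε (pw G n Y)) (tt ε n Y)
        (F.map (ss τ 1 n Y) ≫ F.map (jj j n Y) ≫ j (pw G n Y))).trans ?_
      rw [← ee_succ' hε n Y, ss_succ_bb τ 1 hτ]
      exact congrArg (fun z => pwMap F (n + 1) (tt ε (n + 1) Y) ≫ z) (Category.assoc _ _ _).symm

end TF

section EMB

variable {A : Type u} [Category.{v} A] [Abelian A]

theorem exact_pwMap {F : A ⥤ A} [F.Additive] [PreservesFiniteLimits F]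
    [PreservesFiniteColimits F] (n : ℕ) {X Y Z : A} (f : X ⟶ Y) (g : Y ⟶ Z) (w : f ≫ g = 0)
    (h : (ShortComplex.mk f g w).Exact) :
    ∃ w' : pwMap F n f ≫ pwMap F n g = 0,
      (ShortComplex.mk (pwMap F n f) (pwMap F n g) w').Exact := by
  induction n with
  | zero => exact ⟨w, h⟩
  | succ n ih =>
    obtain ⟨w', h'⟩ := ih
    have w'' : F.map (pwMap F n f) ≫ F.map (pwMap F n g) = 0 := by
      rw [← F.map_comp, w', F.map_zero]
    exact ⟨w'', h'.map F⟩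

theorem mono_jj {F G : A ⥤ A} [F.Additive] [PreservesFiniteLimits F]
    (j : ∀ Y : A, F.obj Y ⟶ G.obj Y) (hj : ∀ Y, Mono (j Y)) (n : ℕ) (Y : A) :
    Mono (jj j n Y) := by
  induction n with
  | zero => exact inferInstanceAs (Mono (𝟙 Y))
  | succ n ih =>
    have := hj (pw G n Y)
    exact inferInstanceAs (Mono (F.map (jj j n Y) ≫ j (pw G n Y)))

theorem epi_tt {G : A ⥤ A} [PreservesFiniteColimits G]
    (ε : ∀ Y : A, G.obj Y ⟶ Y) (hε : ∀ Y, Epi (ε Y)) (n : ℕ) (Y : A) : Epi (tt ε n Y) := by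
  induction n with
  | zero => exact inferInstanceAs (Epi (𝟙 Y))
  | succ n ih =>
    have := hε Y
    exact inferInstanceAs (Epi (G.map (tt ε n Y) ≫ ε Y))

/-- EMB, generic form. -/
theorem emb_gen {k : Type*} [Field k] [CharZero k] [Linear k A] {F G : A ⥤ A} [F.Additive]
    [G.Additive] [PreservesFiniteLimits F] [PreservesFiniteColimits F]
    {τ : ∀ Y : A, F.obj (F.obj Y) ⟶ F.obj (F.obj Y)}
    {χ : ∀ Y : A, F.obj (G.obj Y) ⟶ G.obj (F.obj Y)}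
    {d : ∀ Y : A, F.obj Y ⟶ Y} {j : ∀ Y : A, F.obj Y ⟶ G.obj Y} {ε : ∀ Y : A, G.obj Y ⟶ Y}
    (hτ : ∀ {Y Y' : A} (f : Y ⟶ Y'), F.map (F.map f) ≫ τ Y' = τ Y ≫ F.map (F.map f))
    (hχ : ∀ {Y Y' : A} (f : Y ⟶ Y'), F.map (G.map f) ≫ χ Y' = χ Y ≫ G.map (F.map f))
    (hd : ∀ {Y Y' : A} (f : Y ⟶ Y'), F.map f ≫ d Y' = d Y ≫ f)
    (hj : ∀ {Y Y' : A} (f : Y ⟶ Y'), F.map f ≫ j Y' = j Y ≫ G.map f)
    (hε : ∀ {Y Y' : A} (f : Y ⟶ Y'), G.map f ≫ ε Y' = ε Y ≫ f)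
    (h1 : ∀ Y, d (G.obj Y) = F.map (ε Y) ≫ j Y + χ Y ≫ G.map (d Y))
    (h2 : ∀ Y, j Y ≫ ε Y = 0)
    (h3 : ∀ Y, F.map (j Y) ≫ χ Y = τ Y ≫ j (F.obj Y))
    (h4 : ∀ Y, χ Y ≫ ε (F.obj Y) = F.map (ε Y))
    (hcomm : ∀ Y, τ Y ≫ F.map (d Y) ≫ d Y = F.map (d Y) ≫ d Y)
    (hjm : ∀ Y, Mono (j Y)) (m : ℕ) {P N : A} (hn : tt d (m + 1) P = 0) (π : P ⟶ N)
    (hN : d N = 0) (w : d P ≫ π = 0) (hex : (ShortComplex.mk (d P) π w).Exact)
    (u : P ⟶ pw G m N) (hu : u ≫ tt ε m N = π) : Mono u := by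
  -- the lower lifts
  have hlow : ∀ r : ℕ, ∀ l : ℕ, l + r = m → ∃ ρ : pw G m N ⟶ pw G r N,
      ρ ≫ tt ε r N = tt ε m N := by
    intro r l
    induction l generalizing r with
    | zero =>
      intro h
      obtain rfl : r = m := by omega
      exact ⟨𝟙 _, Category.id_comp _⟩
    | succ l ih =>
      intro h
      obtain ⟨ρ, hρ⟩ := ih (r + 1) (by omega)
      refine ⟨ρ ≫ ε (pw G r N), ?_⟩
      exact (Category.assoc _ _ _).trans
        ((congrArg (fun z => ρ ≫ z) (ee_succ' hε r N).symm).trans hρ)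
  refine Preadditive.mono_of_cancel_zero u (fun {K} κ hκ => ?_)
  have key : ∀ r : ℕ, r ≤ m + 1 → ∃ (K' : A) (q : K' ⟶ K) (_ : Epi q) (y : K' ⟶ pw F r P),
      y ≫ tt d r P = q ≫ κ := by
    intro r
    induction r with
    | zero =>
      intro _
      exact ⟨K, 𝟙 K, inferInstance, κ, (Category.comp_id κ).trans (Category.id_comp κ).symm⟩
    | succ r ih =>
      intro hr
      obtain ⟨K', q, hq, y, hy⟩ := ih (by omega)
      obtain ⟨ρ, hρ⟩ := hlow r (m - r) (by omega)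
      let ur : P ⟶ pw G r N := u ≫ ρ
      have hur : ur ≫ tt ε r N = π := by
        simp only [ur]
        rw [Category.assoc, hρ, hu]
      have hκr : κ ≫ ur = 0 := by
        simp only [ur]
        rw [← Category.assoc, hκ, zero_comp]
      have hGG := (tt_GG (F := F) (G := G) hτ hχ hj hε h1 h2 h3 h4 N hN r).2
      have e1 : y ≫ pwMap F r π ≫ ss τ 1 r N ≫ jj j r N = 0 := by
        have e2 : q ≫ κ ≫ ur = 0 := by rw [hκr, comp_zero]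
        rw [← Category.assoc, ← hy, Category.assoc, ← tt_nat d hd r ur, hGG] at e2
        rw [← hur, pwMap_comp]
        simpa only [Category.assoc] using e2
      have hjj := mono_jj (F := F) j hjm r N
      have e3 : (y ≫ ss τ 1 r P) ≫ pwMap F r π = 0 := by
        rw [Category.assoc, ← ss_nat τ 1 hτ r π, ← cancel_mono (jj j r N), zero_comp,
          Category.assoc, Category.assoc]
        exact e1
      obtain ⟨w', hex'⟩ := exact_pwMap (F := F) r (d P) π w hex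
      obtain ⟨K'', q', hq', y', hy'⟩ := hex'.exact_up_to_refinements (y ≫ ss τ 1 r P) e3
      have hy'' : q' ≫ y ≫ ss τ 1 r P = y' ≫ pwMap F r (d P) := hy'
      have hfac : (r.factorial : k) ≠ 0 := by
        exact_mod_cast r.factorial_ne_zero
      refine ⟨K'', q' ≫ q, epi_comp _ _, (r.factorial : k)⁻¹ • (y' ≫ shft r P), ?_⟩
      have e4 : (r.factorial : ℤ) • (q' ≫ q ≫ κ) = (y' ≫ shft r P) ≫ tt d (r + 1) P := by
        calc (r.factorial : ℤ) • (q' ≫ q ≫ κ)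
            = q' ≫ y ≫ ((r.factorial : ℤ) • tt d r P) := by
              rw [Preadditive.comp_zsmul, Preadditive.comp_zsmul, hy]
          _ = q' ≫ y ≫ ss τ 1 r P ≫ tt d r P := by rw [ss_tt τ hτ d hcomm r P]
          _ = (q' ≫ y ≫ ss τ 1 r P) ≫ tt d r P := by simp only [Category.assoc]
          _ = (y' ≫ pwMap F r (d P)) ≫ tt d r P := by rw [hy'']
          _ = y' ≫ (pwMap F r (d P) ≫ tt d r P) := Category.assoc _ _ _
          _ = y' ≫ (shft r P ≫ tt d (r + 1) P) :=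
              congrArg (fun z => y' ≫ z) (shft_tt d r P)
          _ = (y' ≫ shft r P) ≫ tt d (r + 1) P := (Category.assoc _ _ _).symm
      have e5 : (r.factorial : k) • (q' ≫ q ≫ κ) = (r.factorial : ℤ) • (q' ≫ q ≫ κ) := by
        rw [Nat.cast_smul_eq_nsmul, natCast_zsmul]
      rw [Linear.smul_comp, ← e4, ← e5, smul_smul, inv_mul_cancel₀ hfac, one_smul,
        Category.assoc]
  obtain ⟨K', q, hq, y, hy⟩ := key (m + 1) le_rfl
  rw [hn, comp_zero] at hy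
  rw [← cancel_epi q, ← hy, comp_zero]

end EMB

end Pool.Agent.MUP
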