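import Pool.Agent.MUP.S4

/-! # MUP row TR0: the abstract trace argument (helper54) -/

open CategoryTheory MonoidalCategory Limits Abelian

universe w v u

namespace Pool.Agent.MUP

open Pool.Agent.MUG

section Sym

variable {A : Type u} [Category.{v} A] {F : A ⥤ A}

variable [Preadditive A] [F.Additive] (τ : ∀ Y : A, F.obj (F.obj Y) ⟶ F.obj (F.obj Y)) (q : ℤ)
  (hτ : ∀ {Y Y' : A} (f : Y ⟶ Y'), F.map (F.map f) ≫ τ Y' = τ Y ≫ F.map (F.map f))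

include hτ

omit [F.Additive] hτ in
/-- The trace of a symmetrizer, one step, without iterated objects. -/
private lemma ptr_step {k : Type*} [Field k] [Linear k A]
    (F' : A ⥤ A) [F'.Additive] [F'.Linear k]
    (cup : ∀ Y : A, Y ⟶ F'.obj (F.obj Y)) (cap : ∀ Y : A, F'.obj (F.obj Y) ⟶ Y)
    (hcup : ∀ {Y Y' : A} (f : Y ⟶ Y'), f ≫ cup Y' = cup Y ≫ F'.map (F.map f))
    (hcap : ∀ {Y Y' : A} (f : Y ⟶ Y'), F'.map (F.map f) ≫ cap Y' = cap Y ≫ f)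
    (δ : k) (hδ : ∀ Y, cup Y ≫ cap Y = δ • 𝟙 Y)
    (htr : ∀ Y, cup (F.obj Y) ≫ F'.map (τ Y) ≫ cap (F.obj Y) = 𝟙 (F.obj Y))
    (X : A) (s a : F.obj X ⟶ F.obj X) (c : ℤ) (hc : s ≫ a = c • s)
    (h0 : F.map s ≫ (𝟙 (F.obj (F.obj X)) + q • (τ X ≫ F.map a)) = 0) :
    (δ + (q : k) * (c : k)) • s = 0 := by
  have h1 : cup (F.obj X) ≫ F'.map (F.map s ≫ (𝟙 (F.obj (F.obj X)) + q • (τ X ≫ F.map a))) ≫
      cap (F.obj X) = s ≫ (δ • 𝟙 (F.obj X) + q • a) := by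
    rw [Functor.map_comp, Category.assoc, ← Category.assoc (cup (F.obj X)), ← hcup,
      Category.assoc]
    congr 1
    rw [Functor.map_add, CategoryTheory.Functor.map_id, Functor.map_zsmul, Functor.map_comp,
      Preadditive.add_comp, Preadditive.comp_add, Category.id_comp, hδ,
      Preadditive.zsmul_comp, Preadditive.comp_zsmul, Category.assoc, hcap]
    congr 2
    rw [← Category.assoc, ← Category.assoc, Category.assoc (cup (F.obj X)), htr,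
      Category.id_comp]
  rw [h0, Functor.map_zero, zero_comp, comp_zero, Preadditive.comp_add, Linear.comp_smul,
    Category.comp_id, Preadditive.comp_zsmul, hc, smul_smul] at h1
  rw [h1, add_smul]
  congr 1
  rw [← Int.cast_mul, Int.cast_smul_eq_zsmul]

omit [F.Additive] hτ in
/-- The trace of the identity vanishes when `F Y` is zero. -/
private lemma ptr_zero {k : Type*} [Field k] [Linear k A]
    (F' : A ⥤ A) [F'.Additive] [F'.Linear k]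
    (cup : ∀ Y : A, Y ⟶ F'.obj (F.obj Y)) (cap : ∀ Y : A, F'.obj (F.obj Y) ⟶ Y)
    (δ : k) (hδ : ∀ Y, cup Y ≫ cap Y = δ • 𝟙 Y) (X : A) (h2 : 𝟙 (F.obj X) = 0) :
    (δ : k) • 𝟙 X = 0 := by
  rw [← hδ X]
  have : cup X ≫ cap X = cup X ≫ F'.map (𝟙 (F.obj X)) ≫ cap X := by
    rw [CategoryTheory.Functor.map_id, Category.id_comp]
  rw [this, h2, Functor.map_zero, zero_comp, comp_zero]

omit [F.Additive] hτ in
private lemma ss_one (Y : A) : ss τ q 1 Y = 𝟙 (F.obj Y) := by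
  have h : F.map (𝟙 Y) ≫ 𝟙 (F.obj Y) = 𝟙 (F.obj Y) := by
    rw [CategoryTheory.Functor.map_id, Category.id_comp]
  exact h

/-- Row TR0: abstract trace argument. -/
theorem anti_ne_zero {k : Type*} [Field k] [CharZero k] [Linear k A]
    (F' : A ⥤ A) [F'.Additive] [F'.Linear k]
    (cup : ∀ Y : A, Y ⟶ F'.obj (F.obj Y)) (cap : ∀ Y : A, F'.obj (F.obj Y) ⟶ Y)
    (hcup : ∀ {Y Y' : A} (f : Y ⟶ Y'), f ≫ cup Y' = cup Y ≫ F'.map (F.map f))
    (hcap : ∀ {Y Y' : A} (f : Y ⟶ Y'), F'.map (F.map f) ≫ cap Y' = cap Y ≫ f)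
    (δ : k) (hδ : ∀ Y, cup Y ≫ cap Y = δ • 𝟙 Y)
    (htr : ∀ Y, cup (F.obj Y) ≫ F'.map (τ Y) ≫ cap (F.obj Y) = 𝟙 (F.obj Y))
    (hinv : ∀ Y, τ Y ≫ τ Y = 𝟙 _)
    (hyb : ∀ Y, F.map (τ Y) ≫ τ (F.obj Y) ≫ F.map (τ Y) = τ (F.obj Y) ≫ F.map (τ Y) ≫ τ (F.obj Y))
    {Y : A} (hY : 𝟙 Y ≠ 0) (hFY : 𝟙 (F.obj Y) ≠ 0) (N : ℕ) (hN : ss τ 1 N Y = 0) (n : ℕ) :
    ss τ (-1) n Y ≠ 0 := by
  classical
  -- the least index with a zero symmetrizer
  have key : ∀ (q : ℤ), q * q = 1 → (∃ N, ss τ q N Y = 0) →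
      ∃ m : ℕ, 1 ≤ m ∧ δ + (q : k) * (m : k) = 0 := by
    intro q hq hex
    obtain ⟨N, hN, hmin⟩ : ∃ N, ss τ q N Y = 0 ∧ ∀ M < N, ss τ q M Y ≠ 0 :=
      ⟨Nat.find hex, Nat.find_spec hex, fun M hM => Nat.find_min hex hM⟩
    match N, hN, hmin with
    | 0, hN, _ => exact absurd hN hY
    | 1, hN, _ => exact absurd ((ss_one τ q Y).symm.trans hN) hFY
    | m + 2, hN, hmin =>
      refine ⟨m + 1, Nat.le_add_left 1 m, ?_⟩
      have h2 := ptr_step τ q F' cup cap hcup hcap δ hδ htr (pw F m Y)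
        (ss τ q (m + 1) Y) (aa τ q m Y) ((m : ℤ) + 1) (ss_aa τ q hτ hinv hyb hq m Y) hN
      rcases smul_eq_zero.mp h2 with h | h
      · rw [← h]
        push_cast
        rfl
      · exact absurd h (hmin (m + 1) (Nat.lt_succ_self _))
  intro hn
  obtain ⟨m, hm, h1⟩ := key 1 (by norm_num) ⟨N, hN⟩
  obtain ⟨m', hm', h2⟩ := key (-1) (by norm_num) ⟨n, hn⟩
  have h3 : ((m + m' : ℕ) : k) = 0 := by
    push_cast at h1 h2 ⊢
    linear_combination h1 - h2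
  rw [Nat.cast_eq_zero] at h3
  omega

end Sym

end Pool.Agent.MUP
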