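import Pool.Agent.MUG.E

open CategoryTheory MonoidalCategory Limits Abelian

universe w v u

set_option linter.unusedSectionVars false

namespace Pool.Agent.MUP

section PhiX

variable {A : Type*} [Category A] {B : Type*} [Category B]

/-- Pushout functors commute with a right exact functor `R` which carries one pair
`(j, n)` to the other. -/
theorem exists_phiX (F G Φ : A ⥤ A) (j : F ⟶ G) (n : F ⟶ 𝟭 A) (q : G ⟶ Φ) (i : 𝟭 A ⟶ Φ)
    (hpo : ∀ Y, IsPushout (j.app Y) (n.app Y) (q.app Y) (i.app Y))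
    (F' G' Φ' : B ⥤ B) (j' : F' ⟶ G') (n' : F' ⟶ 𝟭 B) (q' : G' ⟶ Φ') (i' : 𝟭 B ⟶ Φ')
    (hpo' : ∀ Y, IsPushout (j'.app Y) (n'.app Y) (q'.app Y) (i'.app Y))
    (R : A ⥤ B) [PreservesFiniteColimits R]
    (a : R ⋙ F' ≅ F ⋙ R) (b : R ⋙ G' ≅ G ⋙ R)
    (hj : ∀ Y, j'.app (R.obj Y) ≫ b.hom.app Y = a.hom.app Y ≫ R.map (j.app Y))
    (hn : ∀ Y, n'.app (R.obj Y) = a.hom.app Y ≫ R.map (n.app Y)) :
    ∃ φ : R ⋙ Φ' ≅ Φ ⋙ R,
      (∀ Y, q'.app (R.obj Y) ≫ φ.hom.app Y = b.hom.app Y ≫ R.map (q.app Y)) ∧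
      (∀ Y, i'.app (R.obj Y) ≫ φ.hom.app Y = R.map (i.app Y)) := by
  have h1 : ∀ Y, IsPushout (R.map (j.app Y)) (R.map (n.app Y)) (R.map (q.app Y))
      (R.map (i.app Y)) := fun Y => (hpo Y).map R
  have h2 : ∀ Y, IsPushout (j'.app (R.obj Y)) (n'.app (R.obj Y))
      (b.hom.app Y ≫ R.map (q.app Y)) (R.map (i.app Y)) := fun Y =>
    (h1 Y).of_iso' (a.app Y) (b.app Y) (Iso.refl _) (Iso.refl _) (by simpa using (hj Y).symm)
      (by simpa using (hn Y).symm) (by simp) (by simp)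
  obtain ⟨φ, hq, hi⟩ : ∃ φ : ∀ Y, Φ'.obj (R.obj Y) ≅ R.obj (Φ.obj Y),
      (∀ Y, q'.app (R.obj Y) ≫ (φ Y).hom = b.hom.app Y ≫ R.map (q.app Y)) ∧
      (∀ Y, i'.app (R.obj Y) ≫ (φ Y).hom = R.map (i.app Y)) :=
    ⟨fun Y => (hpo' (R.obj Y)).isoIsPushout _ _ (h2 Y), fun Y => by simp, fun Y => by simp⟩
  refine ⟨NatIso.ofComponents φ ?_, hq, hi⟩
  intro Y Y' f
  refine (hpo' (R.obj Y)).hom_ext ?_ ?_
  · have e1 : q'.app (R.obj Y) ≫ Φ'.map (R.map f) = G'.map (R.map f) ≫ q'.app (R.obj Y') :=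
      (q'.naturality (R.map f)).symm
    have e2 : G'.map (R.map f) ≫ b.hom.app Y' = b.hom.app Y ≫ R.map (G.map f) :=
      b.hom.naturality f
    have e3 : R.map (G.map f) ≫ R.map (q.app Y') = R.map (q.app Y) ≫ R.map (Φ.map f) := by
      rw [← R.map_comp, ← R.map_comp, q.naturality]
    show q'.app (R.obj Y) ≫ Φ'.map (R.map f) ≫ (φ Y').hom =
      q'.app (R.obj Y) ≫ (φ Y).hom ≫ R.map (Φ.map f)
    rw [reassoc_of% e1, hq, reassoc_of% e2, reassoc_of% (hq Y), e3]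
  · have e1 : i'.app (R.obj Y) ≫ Φ'.map (R.map f) = R.map f ≫ i'.app (R.obj Y') :=
      (i'.naturality (R.map f)).symm
    have e3 : R.map f ≫ R.map (i.app Y') = R.map (i.app Y) ≫ R.map (Φ.map f) := by
      rw [← R.map_comp, ← R.map_comp]
      congr 1
      exact i.naturality f
    show i'.app (R.obj Y) ≫ Φ'.map (R.map f) ≫ (φ Y').hom =
      i'.app (R.obj Y) ≫ (φ Y).hom ≫ R.map (Φ.map f)
    rw [reassoc_of% e1, hi, reassoc_of% (hi Y), e3]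

/-- The isomorphism of `exists_phiX` is compatible with the projections `p`. -/
theorem phiX_p [HasZeroMorphisms A] [HasZeroMorphisms B]
    {G Φ : A ⥤ A} {q : G ⟶ Φ} {i : 𝟭 A ⟶ Φ} {e : G ⟶ 𝟭 A}
    {p : Φ ⟶ 𝟭 A} (hqp : ∀ Y, q.app Y ≫ p.app Y = e.app Y) (hip : ∀ Y, i.app Y ≫ p.app Y = 0)
    {F' G' Φ' : B ⥤ B} {j' : F' ⟶ G'} {n' : F' ⟶ 𝟭 B} {q' : G' ⟶ Φ'} {i' : 𝟭 B ⟶ Φ'}
    (hpo' : ∀ Y, IsPushout (j'.app Y) (n'.app Y) (q'.app Y) (i'.app Y))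
    {e' : G' ⟶ 𝟭 B} {p' : Φ' ⟶ 𝟭 B}
    (hqp' : ∀ Y, q'.app Y ≫ p'.app Y = e'.app Y) (hip' : ∀ Y, i'.app Y ≫ p'.app Y = 0)
    (R : A ⥤ B) [R.PreservesZeroMorphisms] (b : R ⋙ G' ≅ G ⋙ R)
    (he : ∀ Y, e'.app (R.obj Y) = b.hom.app Y ≫ R.map (e.app Y))
    (φ : R ⋙ Φ' ≅ Φ ⋙ R)
    (hq : ∀ Y, q'.app (R.obj Y) ≫ φ.hom.app Y = b.hom.app Y ≫ R.map (q.app Y))
    (hi : ∀ Y, i'.app (R.obj Y) ≫ φ.hom.app Y = R.map (i.app Y)) (Y : A) :
    φ.hom.app Y ≫ R.map (p.app Y) = p'.app (R.obj Y) := by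
  refine (hpo' (R.obj Y)).hom_ext ?_ ?_
  · rw [reassoc_of% (hq Y), ← R.map_comp, hqp, hqp', he]
  · rw [reassoc_of% (hi Y), ← R.map_comp, hip, hip', R.map_zero]

end PhiX

section ThetaR

variable {A : Type u} [Category.{v} A] [Abelian A] [HasExt.{w} A] [EnoughProjectives A]

/-- `Theta` commutes with an exact functor `R` commuting with `Φ`. -/
theorem thetaR (Φ : A ⥤ A) [Φ.Additive] [PreservesFiniteLimits Φ] [PreservesFiniteColimits Φ]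
    (R : A ⥤ A) [R.Additive] [PreservesFiniteLimits R] [PreservesFiniteColimits R]
    (φ : R ⋙ Φ ≅ Φ ⋙ R) {Y M : A} (s : Y ⟶ Φ.obj Y) (r : Φ.obj M ⟶ M) (n : ℕ)
    (x : Ext Y M n) :
    ((Ext.mk₀ s).comp ((x.mapExactFunctor Φ).comp (Ext.mk₀ r) (add_zero n))
      (zero_add n)).mapExactFunctor R =
    (Ext.mk₀ (R.map s ≫ φ.inv.app Y)).comp (((x.mapExactFunctor R).mapExactFunctor Φ).comp
      (Ext.mk₀ (φ.hom.app M ≫ R.map r)) (add_zero n)) (zero_add n) := by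
  have h1 := MUG.ext_nat (R ⋙ Φ) (Φ ⋙ R) φ.hom n x
  have h2 := MUG.ext_map_comp R Φ n x
  have h3 := MUG.ext_map_comp Φ R n x
  rw [h2, h3] at h1
  rw [Ext.mapExactFunctor_comp, Ext.mapExactFunctor_comp, Ext.mapExactFunctor_mk₀,
    Ext.mapExactFunctor_mk₀]
  have h4 : ((x.mapExactFunctor Φ).mapExactFunctor R) =
      (Ext.mk₀ (φ.inv.app Y)).comp (((x.mapExactFunctor R).mapExactFunctor Φ).comp
        (Ext.mk₀ (φ.hom.app M)) (add_zero n)) (zero_add n) := by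
    rw [h1, Ext.mk₀_comp_mk₀_assoc, Iso.inv_hom_id_app, Ext.mk₀_id_comp]
  rw [h4, Ext.comp_assoc_of_third_deg_zero, Ext.comp_assoc_of_third_deg_zero,
    Ext.mk₀_comp_mk₀, Ext.mk₀_comp_mk₀_assoc]

end ThetaR

section Tensor

variable {C : Type u} [Category.{v} C] [Abelian C] [MonoidalCategory C] [MonoidalPreadditive C]
  [RigidCategory C] [BraidedCategory C]

/-- `W ⊗ (Y ⊗ X) ≅ (W ⊗ Y) ⊗ X`, natural in `Y`. -/
def assocR (W X : C) : tensorRight X ⋙ tensorLeft W ≅ tensorLeft W ⋙ tensorRight X :=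
  NatIso.ofComponents (fun Y => (α_ W Y X).symm) (fun f => by simp)

@[simp] theorem assocR_hom (W X Y : C) : (assocR W X).hom.app Y = (α_ W Y X).inv := rfl

@[simp] theorem assocR_inv (W X Y : C) : (assocR W X).inv.app Y = (α_ W Y X).hom := rfl

/-- The pushout functor `Φ` of a Leibniz family commutes with `- ⊗ X` if the family vanishes
on `X`. -/
theorem exists_phiX_tensor {W U : C} (L : MUG.Leib W) (j : W ⟶ U) (e : U ⟶ 𝟙_ C) (Φ : C ⥤ C)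
    (q : tensorLeft U ⟶ Φ) (i : 𝟭 C ⟶ Φ) (p : Φ ⟶ 𝟭 C)
    (hpo : ∀ Y, IsPushout (j ▷ Y) (L.d Y) (q.app Y) (i.app Y))
    (hqp : ∀ Y, q.app Y ≫ p.app Y = (e ▷ Y) ≫ (λ_ Y).hom) (hip : ∀ Y, i.app Y ≫ p.app Y = 0)
    {X : C} (hX : L.d X = 0) :
    ∃ φ : tensorRight X ⋙ Φ ≅ Φ ⋙ tensorRight X,
      (∀ Y, q.app (Y ⊗ X) ≫ φ.hom.app Y = (α_ U Y X).inv ≫ (q.app Y ▷ X)) ∧
      (∀ Y, i.app (Y ⊗ X) ≫ φ.hom.app Y = i.app Y ▷ X) ∧
      (∀ Y, φ.hom.app Y ≫ (p.app Y ▷ X) = p.app (Y ⊗ X)) := by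
  let jj : tensorLeft W ⟶ tensorLeft U :=
    { app := fun Y => j ▷ Y
      naturality := fun Y Y' f => by simp [whisker_exchange] }
  let ee : tensorLeft U ⟶ 𝟭 C :=
    { app := fun Y => (e ▷ Y) ≫ (λ_ Y).hom
      naturality := fun Y Y' f => by
        dsimp
        rw [Category.assoc, ← leftUnitor_naturality, whisker_exchange_assoc] }
  have hn : ∀ Y, L.natTrans.app ((tensorRight X).obj Y) =
      (assocR W X).hom.app Y ≫ (tensorRight X).map (L.natTrans.app Y) := by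
    intro Y
    have := L.leib Y X
    rw [hX] at this
    simpa [MUG.Leib.natTrans] using this
  have hj : ∀ Y, jj.app ((tensorRight X).obj Y) ≫ (assocR U X).hom.app Y =
      (assocR W X).hom.app Y ≫ (tensorRight X).map (jj.app Y) := by
    intro Y
    simp [jj]
  obtain ⟨φ, h1, h2⟩ := exists_phiX (tensorLeft W) (tensorLeft U) Φ jj L.natTrans q i hpo
    (tensorLeft W) (tensorLeft U) Φ jj L.natTrans q i hpo (tensorRight X) (assocR W X)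
    (assocR U X) hj hn
  refine ⟨φ, h1, h2, ?_⟩
  intro Y
  have := phiX_p (A := C) (B := C) (e := ee) (p := p) (F' := tensorLeft W) (q := q) (i := i)
    hqp hip (j' := jj) (n' := L.natTrans) (q' := q) (i' := i) hpo (e' := ee) (p' := p) hqp hip
    (tensorRight X) (assocR U X) (by intro Y; simp [ee]) φ h1 h2 Y
  exact this

end Tensor

end Pool.Agent.MUP
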