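import Pool.Agent.MUP.Defs
import Pool.Agent.MUG.B8b
import Pool.Agent.MUG.DCF

/-!
# Row X1, preliminaries (helper45)
-/

open CategoryTheory MonoidalCategory Limits Abelian

universe w v u

namespace Pool.Agent.MUP

open Pool.Agent.MUG

namespace X1

variable {k : Type*} [Field k] {C : Type u} [Category.{v} C] [Abelian C] [Linear k C]
  [MonoidalCategory C] [MonoidalPreadditive C] [MonoidalLinear k C] [RigidCategory C]
  [BraidedCategory C]

omit [Linear k C] [MonoidalPreadditive C] [MonoidalLinear k C] [BraidedCategory C] in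
theorem pw_mem (F : ObjectProperty C) [hF : TensorSub F] {V : C} (hV : F V) (n : ℕ) :
    F (pw (tensorLeft V) n (𝟙_ C)) := by
  induction n with
  | zero => exact hF.unit
  | succ n ih => exact hF.tensor hV ih

omit [BraidedCategory C] in
/-- Simple quotients detect morphisms to semisimple objects. -/
theorem exists_simple_detect (hC : IsFinite k C) (F : ObjectProperty C) [hF : TensorSub F]
    (hss : ∀ {A B : C}, F A → F B → ∀ p : A ⟶ B, Epi p → ∃ s, s ≫ p = 𝟙 B)
    {A X : C} (hX : F X) (f : A ⟶ X) (hf : f ≠ 0) :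
    ∃ (S : C) (r : X ⟶ S), Simple S ∧ F S ∧ f ≫ r ≠ 0 := by
  have := hC.artinian (Abelian.image f)
  have hI : ¬ IsZero (Abelian.image f) := by
    intro h
    apply hf
    rw [← Abelian.image.fac f, h.eq_of_src (Abelian.image.ι f) 0, comp_zero]
  obtain ⟨S, hS⟩ := exists_simple_subobject hI
  have hmi : Mono (S.arrow ≫ Abelian.image.ι f) := mono_comp _ _
  have hFS : F (S : C) := hF.sub (S.arrow ≫ Abelian.image.ι f) hX
  obtain ⟨r, hr⟩ := DCF.mono_splits F hss hFS hX (S.arrow ≫ Abelian.image.ι f)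
  refine ⟨(S : C), r, hS, hFS, ?_⟩
  intro h
  have h1 : Abelian.factorThruImage f ≫ Abelian.image.ι f ≫ r = 0 := by
    rw [← Category.assoc, Abelian.image.fac, h]
  have h2 : Abelian.image.ι f ≫ r = 0 := by
    rw [← cancel_epi (Abelian.factorThruImage f), h1, comp_zero]
  have h3 : 𝟙 (S : C) = 0 := by
    rw [← hr, Category.assoc, h2, comp_zero]
  exact id_nonzero _ h3

/-- If `D` vanishes on `Ext¹` between objects of `F`, then `D^n = 0` on `Ext^n(1, T₀)` for large
`n`. -/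
theorem eventually_dzero [IsAlgClosed k] [HasExt.{w} C] (hC : IsFinite k C) (hF : FGC.{w} k C)
    {V : C} (L : Leib V) (𝔇 : Der (tensorLeft V) L.natTrans)
    (hFd : ∀ N, L.natTrans.app N = 0 → L.natTrans.app ((tensorLeft V).obj N) = 0)
    (I : C → Prop) (hI : ∀ N, I N → L.natTrans.app N = 0)
    (hIF : ∀ N, I N → I ((tensorLeft V).obj N)) (hI1 : I (𝟙_ C))
    (H : ∀ (N M : C) (hN : I N) (hM : I M) (x : Ext N M 1), 𝔇.D (hI _ hN) (hI _ hM) 0 x = 0)
    {T₀ : C} (hT₀ : L.natTrans.app T₀ = 0) :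
    ∃ N₀ : ℕ, ∀ n, N₀ < n → ∀ x : Ext (𝟙_ C) T₀ n, DZero 𝔇 hFd n (hI _ hI1) hT₀ x := by
  have := hC.enough
  have := hC.unit
  obtain ⟨r, dg, y, hgen⟩ := hF.mod (𝟙_ C) T₀
  let N₀ := ∑ i, dg i
  have hN₀ : ∀ i, dg i ≤ N₀ := fun i => Finset.single_le_sum (fun _ _ => Nat.zero_le _)
    (Finset.mem_univ i)
  have hU : L.natTrans.app (𝟙_ C) = 0 := hI _ hI1
  let Afam : ∀ n, Submodule k (Ext (𝟙_ C) T₀ n) := fun n =>
    { carrier := {x | n ≤ N₀ ∨ DZero 𝔇 hFd n hU hT₀ x}
      add_mem' := by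
        rintro x y (hx | hx) hy
        · exact Or.inl hx
        · rcases hy with hy | hy
          · exact Or.inl hy
          · exact Or.inr (dzero_add 𝔇 hFd n hU hT₀ x y hx hy)
      zero_mem' := Or.inr (dzero_zero 𝔇 hFd n hU hT₀)
      smul_mem' := by
        rintro c x (hx | hx)
        · exact Or.inl hx
        · refine Or.inr ?_
          rw [Ext.smul_eq_comp_mk₀]
          exact dzero_right₀ 𝔇 hFd n hU hT₀ hT₀ _ x hx }
  have hA := hgen Afam (fun i => Or.inl (hN₀ i)) (by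
    intro m n ζ z hz
    rw [act_unit]
    rcases m with _ | m
    · obtain ⟨f, rfl⟩ := (Ext.mk₀_bijective _ _).2 ζ
      obtain ⟨c, rfl⟩ := end_unit hC f
      have key : ∀ p (h : 0 + n = p), (Ext.mk₀ (c • 𝟙 (𝟙_ C))).comp z h ∈ Afam p := by
        intro p h
        obtain rfl : p = n := by omega
        have e1 : (Ext.mk₀ (c • 𝟙 (𝟙_ C))).comp z h = c • z := by
          rw [Ext.mk₀_smul, Ext.smul_comp, Ext.mk₀_id_comp]
        rw [e1]
        exact (Afam p).smul_mem c hz
      exact key _ rfl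
    · exact Or.inr (dzero_comp 𝔇 hFd I hI hIF H n m hI1 hI1 hT₀ ζ z))
  refine ⟨N₀, fun n hn x => ?_⟩
  have h1 : x ∈ Afam n := by rw [hA]; trivial
  rcases h1 with h1 | h1
  · omega
  · exact h1

end X1

end Pool.Agent.MUP
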